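import Pool.Agent.H63.VC11.Ker11

/-! # Sums with the `6j`-symbols, II -/

namespace Pool.Agent.H63.VC11

open Pool.Agent.H63.VC7 Pool.Agent.H63.VC8

private theorem KerB11_qf (q : ℂ) (k l : ℕ) (h : l = k + 1) {a : ℤ} (ha : a = (k : ℤ) + 1) :
    qf q l = qf q k * qn q a := by
  rw [h, ha, qf_succ]

/-- the coefficient of `om q n t l` -/
private noncomputable def kcf (q : ℂ) (n N i t : ℕ) : ℂ := (-1) ^ t *
      (qf q i / (qf q t * qf q (i - t))) * (qf q (N - t) / qf q (N - i)) *
      (qf q (N + n - 1) / qf q (N + n - 1 - i + t))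

/-- a common factor -/
private noncomputable def kcd (q : ℂ) (n N i t : ℕ) : ℂ := (-1) ^ t *
      (qf q i / (qf q t * qf q (i + 1 - t))) * (qf q (N - t) / qf q (N - i)) *
      (qf q (N + n - 1) / qf q (N + n - 1 - (i + 1) + t))

private theorem kcf_u (q : ℂ) (n N i t : ℕ) (h : Gen q n N) (hn : 2 ≤ n) (hi : i + 1 ≤ N)
    (ht : t ≤ i) :
    kcf q n N i t * (qn q (((N - i : ℕ) : ℤ) - t) * qn q (((N - i : ℕ) : ℤ) + t + n - 1)) =
      kcd q n N i t * (qn q ((i : ℤ) + 1 - t) * qn q ((N : ℤ) - i - t)) := by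
  have h1 : qf q (i + 1 - t) = qf q (i - t) * qn q ((i : ℤ) + 1 - t) :=
    KerB11_qf q _ _ (by omega) (by omega)
  have h2 : qf q (N + n - 1 - i + t) =
      qf q (N + n - 1 - (i + 1) + t) * qn q (((N - i : ℕ) : ℤ) + t + n - 1) :=
    KerB11_qf q _ _ (by omega) (by omega)
  have h3 : ((N - i : ℕ) : ℤ) - t = (N : ℤ) - i - t := by omega
  have n1 : qn q ((i : ℤ) + 1 - t) ≠ 0 := h.qn_ne (by omega) (by omega) (by omega)
  have n2 : qn q (((N - i : ℕ) : ℤ) + t + n - 1) ≠ 0 := h.qn_ne (by omega) (by omega) (by omega)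
  have n3 : qf q t ≠ 0 := h.qf_ne (by omega) (by omega)
  have n4 : qf q (i - t) ≠ 0 := h.qf_ne (by omega) (by omega)
  have n5 : qf q (N - i) ≠ 0 := h.qf_ne (by omega) (by omega)
  have n6 : qf q (N + n - 1 - (i + 1) + t) ≠ 0 := h.qf_ne (by omega) (by omega)
  unfold kcf kcd
  rw [h1, h2, h3]
  field_simp

private theorem kcf_v (q : ℂ) (n N i t : ℕ) (h : Gen q n N) (hn : 2 ≤ n) (hi : i + 1 ≤ N)
    (ht : t ≤ i) :
    kcd q n N i (t + 1) * (qn q ((t : ℤ) + 1) * qn q ((N : ℤ) - t)) = -kcf q n N i t := by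
  have h1 : qf q (t + 1) = qf q t * qn q ((t : ℤ) + 1) := qf_succ q t
  have h2 : qf q (N - t) = qf q (N - (t + 1)) * qn q ((N : ℤ) - t) :=
    KerB11_qf q _ _ (by omega) (by omega)
  have h3 : i + 1 - (t + 1) = i - t := by omega
  have h4 : N + n - 1 - (i + 1) + (t + 1) = N + n - 1 - i + t := by omega
  have n1 : qn q ((t : ℤ) + 1) ≠ 0 := h.qn_ne (by omega) (by omega) (by omega)
  have n3 : qf q t ≠ 0 := h.qf_ne (by omega) (by omega)
  have n4 : qf q (i - t) ≠ 0 := h.qf_ne (by omega) (by omega)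
  have n5 : qf q (N - i) ≠ 0 := h.qf_ne (by omega) (by omega)
  have n6 : qf q (N + n - 1 - i + t) ≠ 0 := h.qf_ne (by omega) (by omega)
  unfold kcf kcd
  rw [h3, h4, h1, h2, pow_succ]
  field_simp

private theorem kcf_uv (q : ℂ) (n N i t : ℕ) (h : Gen q n N) (hn : 2 ≤ n) (hi : i + 1 ≤ N)
    (ht : t ≤ i + 1) :
    kcf q n N (i + 1) t = kcd q n N i t * (qn q ((i : ℤ) + 1 - t) * qn q ((N : ℤ) - i - t)) +
      kcd q n N i t * (qn q (t : ℤ) * qn q ((N : ℤ) - t + 1)) := by
  have h1 : qf q (i + 1) = qf q i * qn q ((i : ℤ) + 1) := qf_succ q i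
  have h2 : qf q (N - i) = qf q (N - (i + 1)) * qn q ((N : ℤ) - i) :=
    KerB11_qf q _ _ (by omega) (by omega)
  have n1 : qn q ((N : ℤ) - i) ≠ 0 := h.qn_ne (by omega) (by omega) (by omega)
  have n3 : qf q t ≠ 0 := h.qf_ne (by omega) (by omega)
  have n4 : qf q (i + 1 - t) ≠ 0 := h.qf_ne (by omega) (by omega)
  have n5 : qf q (N - (i + 1)) ≠ 0 := h.qf_ne (by omega) (by omega)
  have n6 : qf q (N + n - 1 - (i + 1) + t) ≠ 0 := h.qf_ne (by omega) (by omega)
  have key : qn q ((i : ℤ) + 1) * qn q ((N : ℤ) - i) =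
      qn q ((i : ℤ) + 1 - t) * qn q ((N : ℤ) - i - t) + qn q (t : ℤ) * qn q ((N : ℤ) - t + 1) := by
    have h3 := qn_three_term q h.1 ((N : ℤ) - t + 1) ((N : ℤ) - i) (-((N : ℤ) - i - t))
    rw [qn_neg, show (N : ℤ) - i + -((N : ℤ) - i - t) = t by ring,
      show (N : ℤ) - t + 1 + -((N : ℤ) - i - t) = (i : ℤ) + 1 by ring,
      show (N : ℤ) - t + 1 - ((N : ℤ) - i) = (i : ℤ) + 1 - t by ring] at h3
    linear_combination -h3
  unfold kcf kcd
  rw [h1, h2, ← mul_add, ← key]
  field_simp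

theorem EE_om (q : ℂ) (n N i l : ℕ) (h : Gen q n N) (hn : 2 ≤ n) (hi : i ≤ N) :
    ∏ s ∈ Finset.range i, E1 q n (N - s) l = ∑ t ∈ Finset.range (i + 1), (-1) ^ t *
      (qf q i / (qf q t * qf q (i - t))) * (qf q (N - t) / qf q (N - i)) *
      (qf q (N + n - 1) / qf q (N + n - 1 - i + t)) * om q n t l := by
  show _ = ∑ t ∈ Finset.range (i + 1), kcf q n N i t * om q n t l
  induction i with
  | zero =>
    have n5 : qf q N ≠ 0 := h.qf_ne (by omega) (by omega)
    have n6 : qf q (N + n - 1) ≠ 0 := h.qf_ne (by omega) (by omega)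
    simp only [Finset.range_zero, Finset.prod_empty, zero_add, Finset.sum_range_one, kcf, om,
      Nat.sub_zero, Nat.add_zero, qf_zero, pow_zero, mul_one, div_self n5, div_self n6, div_one]
  | succ i ih =>
    rw [Finset.prod_range_succ, ih (by omega), Finset.sum_mul]
    have hu : ∑ t ∈ Finset.range (i + 2), kcd q n N i t *
        (qn q ((i : ℤ) + 1 - t) * qn q ((N : ℤ) - i - t)) * om q n t l =
        ∑ t ∈ Finset.range (i + 1), kcd q n N i t *
        (qn q ((i : ℤ) + 1 - t) * qn q ((N : ℤ) - i - t)) * om q n t l := by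
      rw [Finset.sum_range_succ]
      rw [show (i : ℤ) + 1 - ((i + 1 : ℕ) : ℤ) = 0 by push_cast; ring, qn_zero]
      ring
    have hv : ∑ t ∈ Finset.range (i + 2), kcd q n N i t *
        (qn q (t : ℤ) * qn q ((N : ℤ) - t + 1)) * om q n t l =
        ∑ t ∈ Finset.range (i + 1), -kcf q n N i t * om q n (t + 1) l := by
      rw [Finset.sum_range_succ']
      rw [show ((0 : ℕ) : ℤ) = 0 by norm_num, qn_zero, zero_mul, mul_zero, zero_mul, add_zero]
      refine Finset.sum_congr rfl fun t ht => ?_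
      rw [← kcf_v q n N i t h hn hi (by have := Finset.mem_range.1 ht; omega)]
      rw [show ((t + 1 : ℕ) : ℤ) = (t : ℤ) + 1 by push_cast; ring,
        show (N : ℤ) - ((t : ℤ) + 1) + 1 = (N : ℤ) - t by ring]
    have hsum : ∑ t ∈ Finset.range (i + 1 + 1), kcf q n N (i + 1) t * om q n t l =
        ∑ t ∈ Finset.range (i + 2), kcd q n N i t *
        (qn q ((i : ℤ) + 1 - t) * qn q ((N : ℤ) - i - t)) * om q n t l +
        ∑ t ∈ Finset.range (i + 2), kcd q n N i t *
        (qn q (t : ℤ) * qn q ((N : ℤ) - t + 1)) * om q n t l := by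
      rw [← Finset.sum_add_distrib]
      refine Finset.sum_congr rfl fun t ht => ?_
      rw [kcf_uv q n N i t h hn hi (by have := Finset.mem_range.1 ht; omega)]
      ring
    rw [hsum, hu, hv, ← Finset.sum_add_distrib]
    refine Finset.sum_congr rfl fun t ht => ?_
    have ht' : t ≤ i := by have := Finset.mem_range.1 ht; omega
    rw [mul_assoc, om_E1 q h.1, ← kcf_u q n N i t h hn hi ht']
    ring

private theorem KerB11_dimS (q : ℂ) (n N : ℕ) (h : Gen q n N) (hn : 2 ≤ n) :
    dimS n N q = qf q (N + n - 1) / (qf q (n - 1) * qf q N) := by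
  have hb : br q 1 ≠ 0 := h.br_one (by omega)
  have hM : ∀ M : ℕ, M ≤ N → dimS n M q = qf q (M + n - 1) / (qf q (n - 1) * qf q M) := by
    intro M
    induction M with
    | zero =>
      intro _
      have n5 : qf q (n - 1) ≠ 0 := h.qf_ne (by omega) (by omega)
      unfold dimS
      rw [Finset.range_zero, Finset.prod_empty, qf_zero, mul_one, Nat.zero_add, div_self n5]
    | succ M ih =>
      intro hM
      have e1 : dimS n (M + 1) q = dimS n M q * (br q ((n : ℤ) + M) / br q ((M : ℤ) + 1)) := by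
        unfold dimS
        rw [Finset.prod_range_succ]
      have e2 : br q ((n : ℤ) + M) / br q ((M : ℤ) + 1) =
          qn q ((n : ℤ) + M) / qn q ((M : ℤ) + 1) := by
        unfold qn
        rw [div_div_div_cancel_right₀ hb]
      have e3 : qf q (M + 1 + n - 1) = qf q (M + n - 1) * qn q ((n : ℤ) + M) :=
        KerB11_qf q _ _ (by omega) (by omega)
      have n5 : qf q (n - 1) ≠ 0 := h.qf_ne (by omega) (by omega)
      have n6 : qf q M ≠ 0 := h.qf_ne (by omega) (by omega)
      have n7 : qn q ((M : ℤ) + 1) ≠ 0 := h.qn_ne (by omega) (by omega) (by omega)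
      rw [e1, ih (by omega), e2, e3, qf_succ q M]
      field_simp
  exact hM N le_rfl

theorem sixn_EE (q : ℂ) (n N j X : ℕ) (h : Gen q n N) (hn : 2 ≤ n) (hj : j ≤ N) :
    ∑ Y ∈ Finset.range (N + 1), dimA n q Y / dimS n N q * sixn n q N X Y * EE q n N j Y =
      EE q n N (N - j) X := by
  have hEE : ∀ i Y : ℕ, EE q n N i Y =
      (∏ s ∈ Finset.range i, E1 q n (N - s) Y) / qf q i ^ 2 := by
    intro i Y
    unfold EE qf
    rw [Finset.prod_div_distrib, Finset.prod_pow]
  have nf : ∀ k : ℕ, k ≤ 4 * N + 2 * n → qf q k ≠ 0 := fun k hk => h.qf_ne (by omega) hk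
  have n1 := nf (n - 1) (by omega)
  have n2 := nf (n - 2) (by omega)
  have n3 := nf (N + n - 1) (by omega)
  have n4 := nf N (by omega)
  have n5 := nf j (by omega)
  have n6 := nf (N - j) (by omega)
  have n7 : qn q ((n : ℤ) - 1) ≠ 0 := h.qn_ne (by omega) (by omega) (by omega)
  have hn1 : qf q (n - 1) = qf q (n - 2) * qn q ((n : ℤ) - 1) :=
    KerB11_qf q _ _ (by omega) (by omega)
  set C : ℕ → ℂ := fun t => (-1) ^ t *
      (qf q (n - 2) * qf q (N + n - 1) * qf q (N - t) /
        (qf q t * qf q (n + t - 2) * qf q (N + n + t - 1) * qf q N)) with hC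
  have hL : ∑ Y ∈ Finset.range (N + 1), dimA n q Y / dimS n N q * sixn n q N X Y * EE q n N j Y =
      ∑ t ∈ Finset.range (N + 1), (C t * om q n t X / (dimS n N q * qf q j ^ 2)) *
        ∑ Y ∈ Finset.range (N + 1),
          dimA n q Y * om q n t Y * ∏ i ∈ Finset.range j, E1 q n (N - i) Y := by
    simp only [Finset.mul_sum]
    rw [Finset.sum_comm]
    refine Finset.sum_congr rfl fun Y _ => ?_
    rw [sixn_om q n N h hn, hEE, Finset.mul_sum, Finset.sum_mul]
    refine Finset.sum_congr rfl fun t _ => ?_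
    rw [hC]
    ring
  rw [hL]
  have hR : EE q n N (N - j) X = ∑ t ∈ Finset.range (N - j + 1),
      (-1) ^ t * (qf q (N - j) / (qf q t * qf q (N - j - t))) * (qf q (N - t) / qf q (N - (N - j))) *
      (qf q (N + n - 1) / qf q (N + n - 1 - (N - j) + t)) * om q n t X / qf q (N - j) ^ 2 := by
    rw [hEE, EE_om q n N (N - j) X h hn (by omega), Finset.sum_div]
  rw [hR]
  have hsub : Finset.range (N - j + 1) ⊆ Finset.range (N + 1) := by
    intro t ht
    rw [Finset.mem_range] at ht ⊢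
    omega
  rw [← Finset.sum_subset hsub]
  · refine Finset.sum_congr rfl fun t ht => ?_
    have ht' : t + j ≤ N := by have := Finset.mem_range.1 ht; omega
    rw [H_sum q n N j t h hn hj, if_pos ht', KerB11_dimS q n N h hn, hC]
    have e1 : N - (N - j) = j := by omega
    have e2 : N + n - 1 - (N - j) + t = t + j + n - 1 := by omega
    have e3 : N - j - t = N - t - j := by omega
    have e4 : n + t - 2 = t + n - 2 := by omega
    beta_reduce
    rw [e1, e2, e3, e4, hn1]
    have m1 := nf t (by omega)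
    have m2 := nf (N - t - j) (by omega)
    have m3 := nf (t + j + n - 1) (by omega)
    have m4 := nf (t + n - 2) (by omega)
    have m5 := nf (N + n + t - 1) (by omega)
    have m6 := nf (N - t) (by omega)
    field_simp
  · intro t ht ht2
    have ht' : ¬ t + j ≤ N := by
      intro h2
      exact ht2 (Finset.mem_range.2 (by omega))
    rw [H_sum q n N j t h hn hj, if_neg ht', mul_zero]

end Pool.Agent.H63.VC11
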