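import Pool.Agent.H63.VC11.Newton11
import Pool.Agent.H63.VC11.KerB11

/-! # The rotation in terms of the `6j`-symbols -/

namespace Pool.Agent.H63.VC11

open Pool.Agent.H63.VC7 Pool.Agent.H63.VC8

theorem Ph_eq (q : ℂ) (n N : ℕ) (h : Gen q n N) (hn : 2 ≤ n) (f : ℕ → ℂ) (X : ℕ) :
    Ph q n N f X = ∑ Y ∈ Finset.range (N + 1), dimA n q Y / dimS n N q * sixn n q N X Y * f Y := by
  have e1 : ∀ Y ∈ Finset.range (N + 1), dimA n q Y / dimS n N q * sixn n q N X Y * f Y =
      ∑ j ∈ Finset.range (N + 1), nt q n N f j *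
        (dimA n q Y / dimS n N q * sixn n q N X Y * EE q n N j Y) := by
    intro Y hY
    rw [f_nt q N h (by omega) f Y (by have := Finset.mem_range.1 hY; omega), Finset.mul_sum]
    exact Finset.sum_congr rfl fun j _ => by ring
  rw [Finset.sum_congr rfl e1, Finset.sum_comm]
  simp only [← Finset.mul_sum]
  rw [Ph]
  refine Finset.sum_congr rfl fun j hj => ?_
  rw [sixn_EE q n N j X h hn (by have := Finset.mem_range.1 hj; omega)]

end Pool.Agent.H63.VC11
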