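import Pool.Agent.H63.VC11.Bra11
import Pool.Agent.H63.VC11.PhEq11

/-! # The colored `SU(n)` invariants of a plumbing of annuli as a state sum -/

namespace Pool.Agent.H63.VC11

open Pool.Agent.H63.VC7 Pool.Agent.H63.VC8 Matrix

variable {m : ℕ}

theorem Brac11_dimS_ne (q : ℂ) (n N : ℕ) (h : Gen q n N) (hn : 2 ≤ n) : dimS n N q ≠ 0 := by
  unfold dimS
  rw [Finset.prod_ne_zero_iff]
  intro i hi
  have hi' := Finset.mem_range.1 hi
  exact div_ne_zero (h.br_ne (by omega) (by omega)) (h.br_ne (by omega) (by omega))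

/-- The weights of the nodes. -/
noncomputable def Brac11_g (q : ℂ) (n N : ℕ) (r : Fin (m + 1) → ℤ) (v : Fin (m + 1)) (x : ℕ) : ℂ :=
  dimA n q x / dimS n N q * tws q n N (r v) x

theorem Brac11_fv (q : ℂ) (n N : ℕ) (h : Gen q n N) (hn : 2 ≤ n) (par : Fin m → Fin (m + 1))
    (hpar : ∀ j, par j ≤ j.castSucc) (r : Fin (m + 1) → ℤ) (k : ℕ) (v : Fin (m + 1))
    (hk : m < k + v) (x : ℕ) :
    dimA n q x / dimS n N q * fv q n N par r k v x =
      VC10.trs N (sixn n q N) par (Brac11_g q n N r) k v x := by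
  induction k generalizing v x with
  | zero => have := v.2; omega
  | succ k ih =>
    simp only [fv, VC10.trs]
    rw [← mul_assoc, Brac11_g]
    congr 1
    refine Finset.prod_congr rfl fun j hj => ?_
    have hj' : par j = v := by simpa using hj
    have h0 : (v : ℕ) ≤ j := by
      have := hpar j
      rw [hj'] at this
      exact this
    rw [Ph_eq q n N h hn]
    refine Finset.sum_congr rfl fun y _ => ?_
    rw [← ih j.succ (by simp only [Fin.val_succ]; omega) y]
    ring

theorem bracket_diagram (q : ℂ) (n N : ℕ) (h : Gen q n N) (hn : 2 ≤ n)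
    (par : Fin m → Fin (m + 1)) (hpar : ∀ j, par j ≤ j.castSucc) (r : Fin (m + 1) → ℤ) :
    bracket q n N (diagram par r) = dimS n N q *
      q ^ (-2 * ((N : ℤ) * ((N : ℤ) + n - 1)) * ∑ i, r i) * suTree par Fin.succ r n N q := by
  have hd := Brac11_dimS_ne q n N h hn
  have hq : q ≠ 0 := h.1
  rw [bracket_eq_fv q N h hn par r]
  have e1 : ∑ X ∈ Finset.range (N + 1), dimA n q X * fv q n N par r (m + 1) 0 X =
      dimS n N q * ∑ X ∈ Finset.range (N + 1),
        VC10.trs N (sixn n q N) par (Brac11_g q n N r) (m + 1) 0 X := by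
    rw [Finset.mul_sum]
    refine Finset.sum_congr rfl fun X _ => ?_
    rw [← Brac11_fv q n N h hn par hpar r (m + 1) 0 (by simp) X]
    field_simp
  rw [e1, VC10.trs_eq N (sixn n q N) m par hpar, mul_assoc, suTree]
  congr 1
  rw [Finset.mul_sum]
  refine Finset.sum_congr rfl fun X _ => ?_
  rw [← mul_assoc]
  congr 1
  have e2 : ∀ i, Brac11_g q n N r i (X i) =
      q ^ (-2 * ((N : ℤ) * ((N : ℤ) + n - 1)) * r i) *
        (q ^ (2 * r i * (X i * (X i + n - 1))) * (dimA n q (X i) / dimS n N q)) := by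
    intro i
    rw [Brac11_g, tws, ← mul_assoc, ← zpow_add₀ hq, mul_comm]
    congr 2
    ring
  rw [Finset.prod_congr rfl fun i _ => e2 i, Finset.prod_mul_distrib]
  congr 1
  rw [Finset.mul_sum]
  clear e2 e1 h
  induction (Finset.univ : Finset (Fin (m + 1))) using Finset.induction_on with
  | empty => simp
  | insert i s hi ih => rw [Finset.prod_insert hi, Finset.sum_insert hi, zpow_add₀ hq, ih]

theorem coloredSU_diagram (q : ℂ) (n N : ℕ) (h : Gen q n N) (hn : 2 ≤ n)
    (par : Fin m → Fin (m + 1)) (hpar : ∀ j, par j ≤ j.castSucc) (r : Fin (m + 1) → ℤ) :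
    coloredSU (diagram par r) n N q = suTree par Fin.succ r n N q := by
  have hd := Brac11_dimS_ne q n N h hn
  have hq : q ≠ 0 := h.1
  rw [coloredSU, bracket_diagram q n N h hn par hpar r, writhe_diagram par hpar r,
    div_eq_iff hd]
  have e : q ^ (-((N : ℤ) * ((N : ℤ) + n - 1) * (-2 * ∑ i, r i))) *
      q ^ (-2 * ((N : ℤ) * ((N : ℤ) + n - 1)) * ∑ i, r i) = 1 := by
    rw [← zpow_add₀ hq]
    convert zpow_zero q using 2
    ring
  linear_combination (dimS n N q * suTree par Fin.succ r n N q) * e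

end Pool.Agent.H63.VC11
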