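import Pool.Agent.H63.VC11.Brac11
import Pool.Agent.H63.VC8.Final8

/-! # The volume conjecture for the diagrams of plumbings of annuli, all `n`, all gaps -/

namespace Pool.Agent.H63.VC11

open Pool.Agent.H63.VC7 Pool.Agent.H63.VC8 Complex Filter Topology

theorem Fin11_br_ev (x : ℂ) (k : ℕ) (hk : 1 ≤ k) : ∀ᶠ q in 𝓝[≠] x, br q (k : ℤ) ≠ 0 := by
  have hfin : Set.Finite {q : ℂ | q = 0 ∨ q ^ (2 * k) = 1} := by
    have h1 : Set.Finite {q : ℂ | q ^ (2 * k) = 1} := by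
      have : {q : ℂ | q ^ (2 * k) = 1} ⊆ ((Polynomial.nthRoots (2 * k) (1 : ℂ)).toFinset : Set ℂ) := by
        intro q hq
        simp only [Finset.mem_coe, Multiset.mem_toFinset]
        exact (Polynomial.mem_nthRoots (by omega)).2 hq
      exact (Finset.finite_toSet _).subset this
    exact (Set.finite_singleton 0).union h1
  have h2 : ∀ᶠ q in 𝓝[≠] x, q ∉ {q : ℂ | q = 0 ∨ q ^ (2 * k) = 1} := by
    have h3 : (({q : ℂ | q = 0 ∨ q ^ (2 * k) = 1} \ {x})ᶜ) ∈ 𝓝 x :=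
      ((hfin.subset Set.sdiff_subset).isClosed.isOpen_compl).mem_nhds (by simp)
    filter_upwards [mem_nhdsWithin_of_mem_nhds h3, self_mem_nhdsWithin] with q h4 h5 h6
    exact h4 ⟨h6, h5⟩
  filter_upwards [h2] with q hq h0
  simp only [not_or] at hq
  apply hq.2
  unfold br at h0
  have h7 : q ^ (k : ℤ) = q ^ (-(k : ℤ)) := sub_eq_zero.1 h0
  have h8 : q ^ (k : ℤ) * q ^ (k : ℤ) = 1 := by
    nth_rw 2 [h7]
    rw [← zpow_add₀ hq.1]; simp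
  rw [two_mul, pow_add]
  exact_mod_cast h8

theorem Fin11_gen_ev (x : ℂ) (n N : ℕ) : ∀ᶠ q in 𝓝[≠] x, Gen q n N := by
  have h1 : ∀ᶠ q in 𝓝[≠] x, q ≠ 0 := by
    by_cases hx : x = 0
    · subst hx; exact self_mem_nhdsWithin
    · exact mem_nhdsWithin_of_mem_nhds (isOpen_ne.mem_nhds hx)
  have h2 : ∀ᶠ q in 𝓝[≠] x, ∀ k ∈ Finset.Icc 1 (4 * N + 2 * n), br q ((k : ℕ) : ℤ) ≠ 0 := by
    rw [Filter.eventually_all_finset]
    intro k hk
    exact Fin11_br_ev x k (Finset.mem_Icc.1 hk).1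
  filter_upwards [h1, h2] with q h3 h4
  exact ⟨h3, fun k h5 h6 => h4 k (Finset.mem_Icc.2 ⟨h5, h6⟩)⟩

theorem final11 (m : ℕ) (hm : 1 ≤ m) (par : Fin m → Fin (m + 1))
    (hpar : ∀ j, par j ≤ j.castSucc) (r : Fin (m + 1) → ℤ)
    (h1 : ∀ i, 10 * ((Finset.univ.filter fun j => par j = i ∨ j.succ = i).card : ℤ) ≤ |r i|)
    (h2 : ∀ k,
      10 * ((Finset.univ.filter fun j => par j = par k ∨ j.succ = par k).card : ℤ) ≤
        r k.succ ^ 2 ∧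
      10 * ((Finset.univ.filter fun j => par j = k.succ ∨ j.succ = k.succ).card : ℤ) ≤
        r (par k) ^ 2) :
    ∃ V C : ℝ, Hyp.IsVolume par Fin.succ (fun i => 2 * r i) V ∧
      (∃ Z : ℂ, Hyp.IsComplexVolume par Fin.succ (fun i => 2 * r i) Z ∧
        ∃ k : ℤ, Z = Complex.I * (V + C * Complex.I) + k * (Real.pi : ℂ) ^ 2) ∧
      ∀ n a : ℕ, 2 ≤ n → 1 ≤ a → a ≤ n - 1 → ∃ J : ℕ → ℂ,
        (∀ N : ℕ, n ≤ N → Tendsto (fun q => coloredSU (diagram par r) n N q)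
          (𝓝[≠] Complex.exp (Real.pi * Complex.I / (N + a))) (𝓝 (J N))) ∧
        (∃ L : ℕ → ℂ, (∀ᶠ N : ℕ in atTop, Complex.exp (L N) = J N) ∧
          Tendsto (fun N : ℕ => 2 * (Real.pi : ℂ) * L N / (N + 1)) atTop
            (𝓝 (V + C * Complex.I))) ∧
        Tendsto (fun N : ℕ => 2 * (Real.pi : ℂ) * Complex.log (J N) / (N + 1)) atTop
          (𝓝 (V : ℂ)) ∧
        ∃ κ : ℂ, κ ≠ 0 ∧ Tendsto (fun N : ℕ => J N /
          ((((N : ℝ) + a) ^ (2 * (n : ℝ) - 5 / 2) : ℝ) *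
            Complex.exp ((N + a) * (V + C * Complex.I) / (2 * Real.pi)))) atTop (𝓝 κ) := by
  obtain ⟨V, C, hV, hZ, H⟩ := final8 m hm par hpar r h1 h2
  refine ⟨V, C, hV, hZ, fun n a hn ha han => ?_⟩
  obtain ⟨J, hJ, hL, hV', hκ⟩ := H n a hn ha han
  refine ⟨J, fun N hN => ?_, hL, hV', hκ⟩
  refine (hJ N hN).congr' ?_
  filter_upwards [Fin11_gen_ev _ n N] with q hq
  rw [coloredSU_diagram q n N hq hn par hpar r]

end Pool.Agent.H63.VC11
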