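import Pool.Agent.H63.VC11.Alg11

/-! # Generic values near a given number -/

namespace Pool.Agent.H63.VC11

open Pool.Agent.H63.VC7 Pool.Agent.H63.VC8 Complex Filter Topology

theorem Ev11_br (x : ℂ) (k : ℕ) (hk : 1 ≤ k) : ∀ᶠ q in 𝓝[≠] x, br q (k : ℤ) ≠ 0 := by
  have hfin : Set.Finite {q : ℂ | q = 0 ∨ q ^ (2 * k) = 1} := by
    have h1 : Set.Finite {q : ℂ | q ^ (2 * k) = 1} := by
      have : {q : ℂ | q ^ (2 * k) = 1} ⊆ ((Polynomial.nthRoots (2 * k) (1 : ℂ)).toFinset : Set ℂ) := by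
        intro q hq
        simp only [Finset.mem_coe, Multiset.mem_toFinset]
        exact (Polynomial.mem_nthRoots (by omega)).2 hq
      exact (Finset.finite_toSet _).subset this
    exact (Set.finite_singleton 0).union h1
  have h2 : ∀ᶠ q in 𝓝[≠] x, q ∉ {q : ℂ | q = 0 ∨ q ^ (2 * k) = 1} := by
    have h3 : (({q : ℂ | q = 0 ∨ q ^ (2 * k) = 1} \ {x})ᶜ) ∈ 𝓝 x :=
      ((hfin.subset Set.sdiff_subset).isClosed.isOpen_compl).mem_nhds (by simp)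
    filter_upwards [mem_nhdsWithin_of_mem_nhds h3, self_mem_nhdsWithin] with q h4 h5 h6
    exact h4 ⟨h6, h5⟩
  filter_upwards [h2] with q hq h0
  simp only [Set.mem_setOf_eq, not_or] at hq
  apply hq.2
  unfold br at h0
  have h7 : q ^ (k : ℤ) = q ^ (-(k : ℤ)) := sub_eq_zero.1 h0
  have h8 : q ^ (k : ℤ) * q ^ (k : ℤ) = 1 := by
    nth_rw 2 [h7]
    rw [← zpow_add₀ hq.1]; simp
  rw [two_mul, pow_add]
  exact_mod_cast h8

theorem Ev11_gen (x : ℂ) (n N : ℕ) : ∀ᶠ q in 𝓝[≠] x, Gen q n N := by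
  have h1 : ∀ᶠ q in 𝓝[≠] x, q ≠ 0 := by
    by_cases hx : x = 0
    · subst hx; exact self_mem_nhdsWithin
    · exact mem_nhdsWithin_of_mem_nhds (isOpen_ne.mem_nhds hx)
  have h2 : ∀ᶠ q in 𝓝[≠] x, ∀ k ∈ Finset.Icc 1 (4 * N + 2 * n), br q ((k : ℕ) : ℤ) ≠ 0 := by
    rw [Filter.eventually_all_finset]
    intro k hk
    exact Ev11_br x k (Finset.mem_Icc.1 hk).1
  filter_upwards [h1, h2] with q h3 h4
  exact ⟨h3, fun k h5 h6 => h4 k (Finset.mem_Icc.2 ⟨h5, h6⟩)⟩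

end Pool.Agent.H63.VC11
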