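import Pool.Agent.H63.VC11.Flip11

/-! # Diagrams as operators on the tensor product of two factors -/

namespace Pool.Agent.H63.VC11

open Pool.Agent.H63.VC7 Pool.Agent.H63.VC8 Matrix

variable {n N : ℕ}

/-- The diagram `w` acts as `X` on the strands `i` and `i + 1`. -/
def Acts (q : ℂ) (w : List Piece) (i : ℕ) (X : Matrix (I2 n N) (I2 n N) ℂ) : Prop :=
  ∀ (ψ : List (Fin n → ℕ) → ℂ) (p s : List (Fin n → ℕ)) (x : I2 n N), p.length = i →
    eval q n N w ψ (p ++ x.1.val :: x.2.val :: s) =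
      ∑ y : I2 n N, X x y * ψ (p ++ y.1.val :: y.2.val :: s)

theorem eval_append (q : ℂ) (n N : ℕ) (w1 w2 : List Piece) (ψ : List (Fin n → ℕ) → ℂ) :
    eval q n N (w1 ++ w2) ψ = eval q n N w2 (eval q n N w1 ψ) := by
  induction w1 generalizing ψ with
  | nil => rfl
  | cons x w ih => exact ih (act q n N x ψ)

theorem Acts_nil (q : ℂ) (i : ℕ) : Acts q [] i (1 : Matrix (I2 n N) (I2 n N) ℂ) := by
  intro ψ p s x _
  simp only [Matrix.one_apply, ite_mul, one_mul, zero_mul, Finset.sum_ite_eq, Finset.mem_univ,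
    if_true]
  rfl

theorem Acts_append {q : ℂ} {i : ℕ} {w1 w2 : List Piece} {X1 X2 : Matrix (I2 n N) (I2 n N) ℂ}
    (h1 : Acts q w1 i X1) (h2 : Acts q w2 i X2) : Acts q (w1 ++ w2) i (X2 * X1) := by
  intro ψ p s x hp
  rw [eval_append, h2 _ p s x hp]
  simp only [h1 ψ p s _ hp, Matrix.mul_apply, Finset.sum_mul, Finset.mul_sum]
  rw [Finset.sum_comm]
  refine Finset.sum_congr rfl fun y _ => Finset.sum_congr rfl fun z _ => ?_
  ring

/-- `ψ` vanishes at the pairs of indices of degrees `A` and `B`. -/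
private def Acts11_Van (A B : ℤ) (ψ : Fn2 n) : Prop :=
  ∀ x : (Fin n → ℕ) × (Fin n → ℕ), ((∑ i, x.1 i : ℕ) : ℤ) = A → ((∑ i, x.2 i : ℕ) : ℤ) = B → ψ x = 0

private theorem Acts11_deg_add (a : Fin n → ℕ) (i : Fin n) :
    ((∑ j, (a + Pi.single i 1 : Fin n → ℕ) j : ℕ) : ℤ) = ((∑ j, a j : ℕ) : ℤ) + 1 := by
  simp [Finset.sum_add_distrib]

private theorem Acts11_deg_sub {a : Fin n → ℕ} {i : Fin n} (h : a i ≠ 0) :
    ((∑ j, (a - Pi.single i 1 : Fin n → ℕ) j : ℕ) : ℤ) = ((∑ j, a j : ℕ) : ℤ) - 1 := by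
  obtain ⟨b, rfl⟩ := exists_add h
  rw [add_sub_single, Acts11_deg_add]
  ring

private theorem Acts11_Van_E (q : ℂ) {A B : ℤ} {ψ : Fn2 n} (h : Acts11_Van A B ψ) :
    Acts11_Van (A + 1) (B - 1) (Eo q n ψ) := by
  intro x h1 h2
  rw [Eo_apply]
  unfold opE
  refine Finset.sum_eq_zero fun i _ => ?_
  by_cases hi0 : x.1 i = 0
  · rw [hi0]
    simp [qn_zero]
  · rw [h (x.1 - Pi.single i 1, x.2 + Pi.single i 1), mul_zero]
    · show ((∑ j, (x.1 - Pi.single i 1 : Fin n → ℕ) j : ℕ) : ℤ) = A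
      rw [Acts11_deg_sub hi0]; linarith
    · show ((∑ j, (x.2 + Pi.single i 1 : Fin n → ℕ) j : ℕ) : ℤ) = B
      rw [Acts11_deg_add]; linarith

private theorem Acts11_Van_F (q : ℂ) {A B : ℤ} {ψ : Fn2 n} (h : Acts11_Van A B ψ) :
    Acts11_Van (A - 1) (B + 1) (Fo q n ψ) := by
  intro x h1 h2
  rw [Fo_apply]
  unfold opF
  refine Finset.sum_eq_zero fun i _ => ?_
  by_cases hi0 : x.2 i = 0
  · rw [hi0]
    simp [qn_zero]
  · rw [h (x.1 + Pi.single i 1, x.2 - Pi.single i 1), mul_zero]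
    · show ((∑ j, (x.1 + Pi.single i 1 : Fin n → ℕ) j : ℕ) : ℤ) = A
      rw [Acts11_deg_add]; linarith
    · show ((∑ j, (x.2 - Pi.single i 1 : Fin n → ℕ) j : ℕ) : ℤ) = B
      rw [Acts11_deg_sub hi0]; linarith

private theorem Acts11_Van_Epow (q : ℂ) (k : ℕ) {A B : ℤ} {ψ : Fn2 n} (h : Acts11_Van A B ψ) :
    Acts11_Van (A + k) (B - k) ((Eo q n ^ k) ψ) := by
  induction k with
  | zero => simpa using h
  | succ k ih =>
    have h1 := Acts11_Van_E q ih
    rw [pow_succ', Module.End.mul_apply]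
    have e1 : A + ((k + 1 : ℕ) : ℤ) = A + k + 1 := by push_cast; ring
    have e2 : B - ((k + 1 : ℕ) : ℤ) = B - k - 1 := by push_cast; ring
    rw [e1, e2]
    exact h1

private theorem Acts11_Van_Fpow (q : ℂ) (k : ℕ) {A B : ℤ} {ψ : Fn2 n} (h : Acts11_Van A B ψ) :
    Acts11_Van (A - k) (B + k) ((Fo q n ^ k) ψ) := by
  induction k with
  | zero => simpa using h
  | succ k ih =>
    have h1 := Acts11_Van_F q ih
    rw [pow_succ', Module.End.mul_apply]
    have e1 : A - ((k + 1 : ℕ) : ℤ) = A - k - 1 := by push_cast; ring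
    have e2 : B + ((k + 1 : ℕ) : ℤ) = B + k + 1 := by push_cast; ring
    rw [e1, e2]
    exact h1

private theorem Acts11_opR_eq (q : ℂ) (N : ℕ) (e : ℤ) (ψ : Fn2 n)
    (x : (Fin n → ℕ) × (Fin n → ℕ)) :
    opR q N e ψ x = ∑ k ∈ Finset.range (N + 1), (-1) ^ (N - k) * q ^ (e * ((k : ℤ) - N)) /
      qf q k ^ 2 * (Eo q n ^ k) ((Fo q n ^ k) ψ) x := by
  unfold opR
  refine Finset.sum_congr rfl fun k _ => ?_
  rw [Eo_pow, Fo_pow]

private theorem Acts11_opR_van (q : ℂ) (N : ℕ) (e : ℤ) {ψ : Fn2 n} (h : Acts11_Van N N ψ)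
    (x : I2 n N) : opR q N e ψ (x.1.val, x.2.val) = 0 := by
  rw [Acts11_opR_eq]
  refine Finset.sum_eq_zero fun k _ => ?_
  have h1 := Acts11_Van_Epow q k (Acts11_Van_Fpow q k h)
  rw [h1 (x.1.val, x.2.val), mul_zero]
  · show ((∑ i, x.1.val i : ℕ) : ℤ) = _
    rw [x.1.sum]; ring
  · show ((∑ i, x.2.val i : ℕ) : ℤ) = _
    rw [x.2.sum]; ring

private theorem Acts11_opR_add (q : ℂ) (N : ℕ) (e : ℤ) (ψ φ : Fn2 n)
    (x : (Fin n → ℕ) × (Fin n → ℕ)) :
    opR q N e (ψ + φ) x = opR q N e ψ x + opR q N e φ x := by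
  rw [Acts11_opR_eq, Acts11_opR_eq, Acts11_opR_eq, ← Finset.sum_add_distrib]
  refine Finset.sum_congr rfl fun k _ => ?_
  rw [map_add, map_add, Pi.add_apply]
  ring

private theorem Acts11_opR_sum {ι : Type*} (q : ℂ) (N : ℕ) (e : ℤ) (s : Finset ι) (f : ι → Fn2 n)
    (c : ι → ℂ) (x : (Fin n → ℕ) × (Fin n → ℕ)) :
    opR q N e (∑ i ∈ s, c i • f i) x = ∑ i ∈ s, opR q N e (f i) x * c i := by
  rw [Acts11_opR_eq]
  simp only [map_sum, map_smul, Finset.sum_apply, Pi.smul_apply, smul_eq_mul, Finset.mul_sum]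
  rw [Finset.sum_comm]
  refine Finset.sum_congr rfl fun i _ => ?_
  rw [Acts11_opR_eq, Finset.sum_mul]
  refine Finset.sum_congr rfl fun k _ => ?_
  ring

/-- The crossing in terms of its matrix. -/
private theorem Acts11_opR (q : ℂ) (N : ℕ) (e : ℤ) (φ : Fn2 n) (x : I2 n N) :
    opR q N e φ (x.1.val, x.2.val) = ∑ y : I2 n N, Rm q n N e x y * φ (y.1.val, y.2.val) := by
  set φ1 : Fn2 n := ∑ y : I2 n N, φ (y.1.val, y.2.val) •
    (fun p : (Fin n → ℕ) × (Fin n → ℕ) => if p = (y.1.val, y.2.val) then (1 : ℂ) else 0) with hφ1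
  have hval : ∀ z : (Fin n → ℕ) × (Fin n → ℕ), φ1 z =
      ∑ y : I2 n N, φ (y.1.val, y.2.val) * (if z = (y.1.val, y.2.val) then (1 : ℂ) else 0) := by
    intro z
    rw [hφ1, Finset.sum_apply]
    rfl
  have hvan : Acts11_Van (n := n) N N (φ - φ1) := by
    intro z h1 h2
    have h1' : ∑ i, z.1 i = N := by exact_mod_cast h1
    have h2' : ∑ i, z.2 i = N := by exact_mod_cast h2
    rw [Pi.sub_apply, hval, Finset.sum_eq_single ((⟨z.1, h1'⟩, ⟨z.2, h2'⟩) : I2 n N)]
    · simp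
    · intro y _ hy
      rw [if_neg, mul_zero]
      intro hz
      apply hy
      apply Prod.ext
      · exact Vn.ext (congrArg Prod.fst hz).symm
      · exact Vn.ext (congrArg Prod.snd hz).symm
    · intro hne
      exact absurd (Finset.mem_univ _) hne
  have hsplit : φ = φ1 + (φ - φ1) := by ring
  rw [hsplit, Acts11_opR_add, Acts11_opR_van q N e hvan, add_zero, hφ1, Acts11_opR_sum, ← hφ1,
    ← hsplit]
  rfl

/-- A crossing of two strands oriented upwards. -/
theorem Acts_pos (q : ℂ) (i : ℕ) : Acts q [Piece.pos i] i (Rm q n N 1) := by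
  intro ψ p s x hp
  change act q n N (Piece.pos i) ψ _ = _
  simp only [act, List.drop_left' hp, List.take_left' hp]
  exact Acts11_opR q N 1 (fun p' => ψ (p ++ p'.1 :: p'.2 :: s)) x

theorem Acts_neg (q : ℂ) (i : ℕ) : Acts q [Piece.neg i] i (Rm q n N (-1)) := by
  intro ψ p s x hp
  change act q n N (Piece.neg i) ψ _ = _
  simp only [act, List.drop_left' hp, List.take_left' hp]
  exact Acts11_opR q N (-1) (fun p' => ψ (p ++ p'.1 :: p'.2 :: s)) x

private theorem Acts11_cupUD (q : ℂ) (i : ℕ) (ψ : List (Fin n → ℕ) → ℂ) (p r : List (Fin n → ℕ))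
    (a b : Fin n → ℕ) (hp : p.length = i) :
    act q n N (Piece.cupUD i) ψ (p ++ a :: b :: r) =
      if a = b ∧ ∑ j, a j = N then 1 * ψ (p ++ r) else 0 := by
  simp only [act, List.drop_left' hp, List.take_left' hp, one_mul]

private theorem Acts11_cupDU (q : ℂ) (i : ℕ) (ψ : List (Fin n → ℕ) → ℂ) (p r : List (Fin n → ℕ))
    (a b : Fin n → ℕ) (hp : p.length = i) :
    act q n N (Piece.cupDU i) ψ (p ++ a :: b :: r) =
      if a = b ∧ ∑ j, a j = N then (wt q a)⁻¹ * ψ (p ++ r) else 0 := by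
  simp only [act, List.drop_left' hp, List.take_left' hp]

private theorem Acts11_U {q : ℂ} {i : ℕ} {w : List Piece} {B : Matrix (I2 n N) (I2 n N) ℂ}
    (C : Piece) (κ : (Fin n → ℕ) → ℂ)
    (hC : ∀ (ψ : List (Fin n → ℕ) → ℂ) (p r : List (Fin n → ℕ)) (a b : Fin n → ℕ), p.length = i →
      act q n N C ψ (p ++ a :: b :: r) = if a = b ∧ ∑ j, a j = N then κ a * ψ (p ++ r) else 0)
    (h : Acts q w (i + 1) B) :
    Acts q (C :: (w ++ [Piece.capUD (i + 2)])) i
      (fun x y => κ x.1.val * wt q y.2.val * B (x.2, y.2) (x.1, y.1)) := by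
  intro ψ p s x hp
  have e1 : eval q n N (C :: (w ++ [Piece.capUD (i + 2)])) ψ =
      act q n N (Piece.capUD (i + 2)) (eval q n N w (act q n N C ψ)) := by
    change eval q n N (w ++ [Piece.capUD (i + 2)]) (act q n N C ψ) = _
    rw [eval_append]
    rfl
  rw [e1]
  have hl : p ++ x.1.val :: x.2.val :: s = (p ++ [x.1.val, x.2.val]) ++ s := by simp
  have hlen : (p ++ [x.1.val, x.2.val]).length = i + 2 := by simp [hp]
  rw [hl]
  simp only [act, List.drop_left' hlen, List.take_left' hlen]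
  rw [sum_Vn]
  have key : ∀ a : Vn n N, eval q n N w (act q n N C ψ)
      (p ++ [x.1.val, x.2.val] ++ a.val :: a.val :: s) =
      ∑ c : Vn n N, B (x.2, a) (x.1, c) * (κ x.1.val * ψ (p ++ c.val :: a.val :: s)) := by
    intro a
    have e2 : p ++ [x.1.val, x.2.val] ++ a.val :: a.val :: s =
        (p ++ [x.1.val]) ++ ((x.2, a) : I2 n N).1.val :: ((x.2, a) : I2 n N).2.val ::
          a.val :: s := by simp
    rw [e2, h (act q n N C ψ) (p ++ [x.1.val]) (a.val :: s) (x.2, a) (by simp [hp]),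
      Fintype.sum_prod_type, Finset.sum_eq_single x.1]
    · refine Finset.sum_congr rfl fun c _ => ?_
      congr 1
      have e3 : (p ++ [x.1.val]) ++ ((x.1, c) : I2 n N).1.val :: ((x.1, c) : I2 n N).2.val ::
          a.val :: s = p ++ x.1.val :: x.1.val :: (c.val :: a.val :: s) := by simp
      rw [e3, hC _ _ _ _ _ hp, if_pos ⟨rfl, x.1.sum⟩]
    · intro b _ hb
      refine Finset.sum_eq_zero fun c _ => ?_
      have e3 : (p ++ [x.1.val]) ++ ((b, c) : I2 n N).1.val :: ((b, c) : I2 n N).2.val ::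
          a.val :: s = p ++ x.1.val :: b.val :: (c.val :: a.val :: s) := by simp
      rw [e3, hC _ _ _ _ _ hp, if_neg, mul_zero]
      rintro ⟨hc, _⟩
      exact hb (Vn.ext hc).symm
    · intro hne
      exact absurd (Finset.mem_univ _) hne
  simp only [key, Fintype.sum_prod_type]
  rw [Finset.sum_comm]
  simp only [Finset.mul_sum]
  rw [Finset.sum_comm]
  rw [Finset.sum_comm]
  refine Finset.sum_congr rfl fun y _ => ?_
  refine Finset.sum_congr rfl fun c _ => ?_
  ring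

private theorem Acts11_D {q : ℂ} {i : ℕ} {w : List Piece} {B : Matrix (I2 n N) (I2 n N) ℂ}
    (C : Piece) (κ : (Fin n → ℕ) → ℂ)
    (hC : ∀ (ψ : List (Fin n → ℕ) → ℂ) (p r : List (Fin n → ℕ)) (a b : Fin n → ℕ),
      p.length = i + 2 →
      act q n N C ψ (p ++ a :: b :: r) = if a = b ∧ ∑ j, a j = N then κ a * ψ (p ++ r) else 0)
    (h : Acts q w (i + 1) B) :
    Acts q (C :: (w ++ [Piece.capDU i])) i
      (fun x y => κ x.2.val * B (y.1, x.1) (y.2, x.2)) := by
  intro ψ p s x hp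
  have e1 : eval q n N (C :: (w ++ [Piece.capDU i])) ψ =
      act q n N (Piece.capDU i) (eval q n N w (act q n N C ψ)) := by
    change eval q n N (w ++ [Piece.capDU i]) (act q n N C ψ) = _
    rw [eval_append]
    rfl
  rw [e1]
  simp only [act, List.drop_left' hp, List.take_left' hp]
  rw [sum_Vn]
  have key : ∀ a : Vn n N, eval q n N w (act q n N C ψ)
      (p ++ a.val :: a.val :: x.1.val :: x.2.val :: s) =
      ∑ c : Vn n N, B (a, x.1) (c, x.2) * (κ x.2.val * ψ (p ++ a.val :: c.val :: s)) := by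
    intro a
    have e2 : p ++ a.val :: a.val :: x.1.val :: x.2.val :: s =
        (p ++ [a.val]) ++ ((a, x.1) : I2 n N).1.val :: ((a, x.1) : I2 n N).2.val ::
          x.2.val :: s := by simp
    rw [e2, h (act q n N C ψ) (p ++ [a.val]) (x.2.val :: s) (a, x.1) (by simp [hp]),
      Fintype.sum_prod_type]
    refine Finset.sum_congr rfl fun c _ => ?_
    rw [Finset.sum_eq_single x.2]
    · congr 1
      have e3 : (p ++ [a.val]) ++ ((c, x.2) : I2 n N).1.val :: ((c, x.2) : I2 n N).2.val ::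
          x.2.val :: s = (p ++ [a.val, c.val]) ++ x.2.val :: x.2.val :: s := by simp
      have e4 : p ++ a.val :: c.val :: s = (p ++ [a.val, c.val]) ++ s := by simp
      rw [e3, hC _ _ _ _ _ (by simp [hp]), if_pos ⟨rfl, x.2.sum⟩, e4]
    · intro b _ hb
      have e3 : (p ++ [a.val]) ++ ((c, b) : I2 n N).1.val :: ((c, b) : I2 n N).2.val ::
          x.2.val :: s = (p ++ [a.val, c.val]) ++ b.val :: x.2.val :: s := by simp
      rw [e3, hC _ _ _ _ _ (by simp [hp]), if_neg, mul_zero]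
      rintro ⟨hc, _⟩
      exact hb (Vn.ext hc)
    · intro hne
      exact absurd (Finset.mem_univ _) hne
  simp only [key, Fintype.sum_prod_type]
  refine Finset.sum_congr rfl fun y _ => ?_
  refine Finset.sum_congr rfl fun c _ => ?_
  ring

theorem Acts_crossUD {q : ℂ} {i : ℕ} {P : ℕ → Piece} {e : ℤ}
    (h : Acts q [P (i + 1)] (i + 1) (Rm q n N e)) : Acts q (crossUD P i) i (X1m q n N e) :=
  Acts11_U (Piece.cupDU i) (fun a => (wt q a)⁻¹)
    (fun ψ p r a b hp => Acts11_cupDU q i ψ p r a b hp) h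

theorem Acts_crossDU {q : ℂ} {i : ℕ} {P : ℕ → Piece} {e : ℤ}
    (h : Acts q [P (i + 1)] (i + 1) (Rm q n N e)) : Acts q (crossDU P i) i (X2m q n N e) := by
  have h1 := Acts11_D (Piece.cupUD (i + 2)) (fun _ => 1)
    (fun ψ p r a b hp => Acts11_cupUD q (i + 2) ψ p r a b hp) h
  have h2 : (fun x y : I2 n N => (1 : ℂ) * Rm q n N e (y.1, x.1) (y.2, x.2)) = X2m q n N e := by
    funext x y
    rw [one_mul]
    rfl
  rw [← h2]
  exact h1

theorem Acts_rotU {q : ℂ} {i : ℕ} {w : List Piece} {B : Matrix (I2 n N) (I2 n N) ℂ}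
    (h : Acts q w (i + 1) B) :
    Acts q (Piece.cupUD i :: (w ++ [Piece.capUD (i + 2)])) i (rotU q B) := by
  have h1 := Acts11_U (Piece.cupUD i) (fun _ => 1)
    (fun ψ p r a b hp => Acts11_cupUD q i ψ p r a b hp) h
  have h2 : (fun x y : I2 n N => (1 : ℂ) * wt q y.2.val * B (x.2, y.2) (x.1, y.1)) =
      rotU q B := by
    funext x y
    rw [one_mul]
    rfl
  rw [← h2]
  exact h1

theorem Acts_rotD {q : ℂ} {i : ℕ} {w : List Piece} {B : Matrix (I2 n N) (I2 n N) ℂ}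
    (h : Acts q w (i + 1) B) :
    Acts q (Piece.cupDU (i + 2) :: (w ++ [Piece.capDU i])) i (rotD q B) :=
  Acts11_D (Piece.cupDU (i + 2)) (fun a => (wt q a)⁻¹)
    (fun ψ p r a b hp => Acts11_cupDU q (i + 2) ψ p r a b hp) h

theorem bracket_closure {q : ℂ} {w : List Piece} {X : Matrix (I2 n N) (I2 n N) ℂ}
    (h : Acts q w 0 X) :
    bracket q n N ([Piece.cupUD 0, Piece.cupDU 1] ++ w ++ [Piece.capDU 1, Piece.capUD 0]) =
      trq q X := by
  set δ : List (Fin n → ℕ) → ℂ := fun l => if l = [] then 1 else 0 with hδ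
  have e1 : bracket q n N ([Piece.cupUD 0, Piece.cupDU 1] ++ w ++
      [Piece.capDU 1, Piece.capUD 0]) =
      act q n N (Piece.capUD 0) (act q n N (Piece.capDU 1)
        (eval q n N w (act q n N (Piece.cupDU 1) (act q n N (Piece.cupUD 0) δ)))) [] := by
    unfold bracket
    rw [eval_append, eval_append]
    rfl
  have key : ∀ a b : Vn n N,
      eval q n N w (act q n N (Piece.cupDU 1) (act q n N (Piece.cupUD 0) δ))
        [a.val, b.val, b.val, a.val] = X (a, b) (a, b) * (wt q b.val)⁻¹ := by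
    intro a b
    have e2 := h (act q n N (Piece.cupDU 1) (act q n N (Piece.cupUD 0) δ)) [] [b.val, a.val]
      (a, b) rfl
    simp only [List.nil_append] at e2
    rw [e2, Finset.sum_eq_single (a, b)]
    · have e3 : ([a.val, b.val, b.val, a.val] : List (Fin n → ℕ)) =
        [a.val] ++ b.val :: b.val :: [a.val] := rfl
      rw [e3, Acts11_cupDU q 1 _ _ _ _ _ rfl, if_pos ⟨rfl, b.sum⟩]
      have e4 : ([a.val] ++ [a.val] : List (Fin n → ℕ)) = [] ++ a.val :: a.val :: [] := rfl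
      rw [e4, Acts11_cupUD q 0 _ _ _ _ _ rfl, if_pos ⟨rfl, a.sum⟩]
      simp [hδ]
    · intro y _ hy
      have e3 : (y.1.val :: y.2.val :: [b.val, a.val] : List (Fin n → ℕ)) =
        [y.1.val] ++ y.2.val :: b.val :: [a.val] := rfl
      rw [e3, Acts11_cupDU q 1 _ _ _ _ _ rfl]
      by_cases h1 : y.2.val = b.val ∧ ∑ j, y.2.val j = N
      · rw [if_pos h1]
        have e4 : ([y.1.val] ++ [a.val] : List (Fin n → ℕ)) = [] ++ y.1.val :: a.val :: [] := rfl
        rw [e4, Acts11_cupUD q 0 _ _ _ _ _ rfl, if_neg, mul_zero, mul_zero]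
        rintro ⟨h2, _⟩
        exact hy (Prod.ext (Vn.ext h2) (Vn.ext h1.1))
      · rw [if_neg h1, mul_zero]
    · intro hne
      exact absurd (Finset.mem_univ _) hne
  rw [e1]
  have f1 : ∀ φ : List (Fin n → ℕ) → ℂ, act q n N (Piece.capUD 0) φ [] =
      ∑ a : Vn n N, wt q a.val * φ [a.val, a.val] := by
    intro φ
    simp only [act]
    rw [sum_Vn]
    rfl
  have f2 : ∀ (φ : List (Fin n → ℕ) → ℂ) (a : Fin n → ℕ), act q n N (Piece.capDU 1) φ [a, a] =
      ∑ b : Vn n N, φ [a, b.val, b.val, a] := by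
    intro φ a
    simp only [act]
    rw [sum_Vn]
    rfl
  rw [f1]
  simp only [f2, key, trq, Fintype.sum_prod_type, Finset.mul_sum]
  refine Finset.sum_congr rfl fun a _ => Finset.sum_congr rfl fun b _ => ?_
  ring

end Pool.Agent.H63.VC11
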