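import Pool.Agent.H63.VC11.Link11

/-!
# Operators on `V ⊗ V*`

`V_N` is the `N`-th symmetric power. `DD N : V_N ⊗ V_N* → V_{N+1} ⊗ V_{N+1}*` inserts a minimum
between the two factors, `CC N` is the opposite operator, `Oh N f` is the operator which is `f X` on
the component of color `X` of `V_N ⊗ V_N*`.
-/

namespace Pool.Agent.H63.VC11

open Pool.Agent.H63.VC7 Pool.Agent.H63.VC8 Matrix

variable {n N : ℕ}

/-- The indices of the basis of `V_N`. -/
@[ext] structure Vn (n N : ℕ) where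
  val : Fin n → ℕ
  sum : ∑ i, val i = N

/-- `Vn n N` as a subtype. -/
def Vn.equiv (n N : ℕ) : ↥(Finset.piAntidiag (Finset.univ : Finset (Fin n)) N) ≃ Vn n N where
  toFun a := ⟨a.1, (Finset.mem_piAntidiag.1 a.2).1⟩
  invFun a := ⟨a.val, Finset.mem_piAntidiag.2 ⟨a.sum, fun _ _ => Finset.mem_univ _⟩⟩
  left_inv _ := rfl
  right_inv _ := rfl

noncomputable instance (n N : ℕ) : Fintype (Vn n N) := Fintype.ofEquiv _ (Vn.equiv n N)

noncomputable instance (n N : ℕ) : DecidableEq (Vn n N) := Classical.decEq _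

/-- The indices of the basis of `V_N ⊗ V_N`. -/
abbrev I2 (n N : ℕ) : Type := Vn n N × Vn n N

/-- `q` is generic for the colors up to `N`. -/
def Gen (q : ℂ) (n N : ℕ) : Prop := q ≠ 0 ∧ ∀ k : ℕ, 1 ≤ k → k ≤ 4 * N + 2 * n → br q (k : ℤ) ≠ 0

theorem sum_Vn (f : (Fin n → ℕ) → ℂ) :
    ∑ a ∈ Finset.piAntidiag (Finset.univ : Finset (Fin n)) N, f a = ∑ a : Vn n N, f a.val := by
  rw [← Finset.sum_coe_sort, ← Equiv.sum_comp (Vn.equiv n N)]
  rfl

/-- Increase of one entry. -/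
def Vn.add (a : Vn n N) (i : Fin n) : Vn n (N + 1) :=
  ⟨a.val + Pi.single i 1, by simp [Finset.sum_add_distrib, a.sum]⟩

/-- Reversal of the order of the entries. -/
def Vn.rev (a : Vn n N) : Vn n N :=
  ⟨fun i => a.val i.rev, (Equiv.sum_comp Fin.revPerm a.val).trans a.sum⟩

/-- Insertion of a minimum. -/
noncomputable def DD (q : ℂ) (n N : ℕ) : Matrix (I2 n (N + 1)) (I2 n N) ℂ := fun x y =>
  ∑ i, if x.1 = y.1.add i ∧ x.2 = y.2.add i then
    qn q (x.1.val i) * q ^ (hi y.1.val i - lo y.2.val i) else 0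

/-- Insertion of a maximum. -/
noncomputable def CC (q : ℂ) (n N : ℕ) : Matrix (I2 n N) (I2 n (N + 1)) ℂ := fun x y =>
  ∑ i : Fin n, if y.1 = x.1.add i ∧ y.2 = x.2.add i then
    q ^ ((n : ℤ) - 1 - 2 * (i : ℕ)) * (qn q (y.2.val i) * q ^ (hi x.2.val i - lo x.1.val i)) else 0

/-- The eigenvalue of `DD (N - 1) * CC (N - 1)` on the component of color `X`. -/
noncomputable def E1 (q : ℂ) (n N X : ℕ) : ℂ :=
  qn q ((N : ℤ) - X) * qn q ((N : ℤ) + X + n - 1)

/-- The function from which the coefficient of `DD` is computed. -/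
noncomputable def dv (q : ℂ) (n N : ℕ) (f : ℕ → ℂ) (X : ℕ) : ℂ :=
  (f X - f (N + 1)) / E1 q n (N + 1) X

/-- The operator on `V_N ⊗ V_N*` with the eigenvalues `f 0, …, f N`. -/
noncomputable def Oh (q : ℂ) (n : ℕ) : (N : ℕ) → (ℕ → ℂ) → Matrix (I2 n N) (I2 n N) ℂ
  | 0, f => f 0 • 1
  | N + 1, f => f (N + 1) • 1 + DD q n N * Oh q n N (dv q n N f) * CC q n N

/-- The operator given by `N - j` parallel strands, `j` minima and `j` maxima. -/
noncomputable def em (q : ℂ) (n : ℕ) : (N : ℕ) → ℕ → Matrix (I2 n N) (I2 n N) ℂ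
  | _, 0 => 1
  | 0, _ + 1 => 0
  | N + 1, j + 1 => (qn q ((j : ℤ) + 1) ^ 2)⁻¹ • (DD q n N * em q n N j * CC q n N)

/-- The eigenvalues of `em`. -/
noncomputable def EE (q : ℂ) (n N j X : ℕ) : ℂ :=
  ∏ i ∈ Finset.range j, E1 q n (N - i) X / qn q ((i : ℤ) + 1) ^ 2

/-- The coefficients of `Oh N f` in the basis `em N j`. -/
noncomputable def nt (q : ℂ) (n : ℕ) : (N : ℕ) → (ℕ → ℂ) → ℕ → ℂ
  | N, f, 0 => f N
  | 0, _, _ + 1 => 0
  | N + 1, f, j + 1 => qn q ((j : ℤ) + 1) ^ 2 * nt q n N (dv q n N f) j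

/-- The action of the rotation by a quarter turn on the eigenvalues. -/
noncomputable def Ph (q : ℂ) (n N : ℕ) (f : ℕ → ℂ) (X : ℕ) : ℂ :=
  ∑ j ∈ Finset.range (N + 1), nt q n N f j * EE q n N (N - j) X

/-- The rotation by a quarter turn of a tangle with four ends. -/
noncomputable def rotM (q : ℂ) (X : Matrix (I2 n N) (I2 n N) ℂ) : Matrix (I2 n N) (I2 n N) ℂ :=
  fun x y => wt q y.1.val * X (y.2.rev, x.2.rev) (y.1.rev, x.1.rev)

/-- The tangle seen from behind, an operator on `V* ⊗ V`. -/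
noncomputable def flipM (q : ℂ) (X : Matrix (I2 n N) (I2 n N) ℂ) : Matrix (I2 n N) (I2 n N) ℂ :=
  fun x y => wt q y.1.val * (wt q x.1.val)⁻¹ * X (x.2.rev, x.1.rev) (y.2.rev, y.1.rev)

/-- The value of the closure of a tangle with four ends. -/
noncomputable def trq (q : ℂ) (X : Matrix (I2 n N) (I2 n N) ℂ) : ℂ :=
  ∑ x : I2 n N, wt q x.1.val * (wt q x.2.val)⁻¹ * X x x

/-- The matrix of the crossing. -/
noncomputable def Rm (q : ℂ) (n N : ℕ) (e : ℤ) : Matrix (I2 n N) (I2 n N) ℂ := fun x y =>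
  opR q N e (fun p => if p = (y.1.val, y.2.val) then 1 else 0) (x.1.val, x.2.val)

/-- The crossing of antiparallel strands, followed by the flip. -/
noncomputable def Ym (q : ℂ) (n N : ℕ) (e : ℤ) : Matrix (I2 n N) (I2 n N) ℂ := fun x y =>
  wt q y.2.val * Rm q n N e (x.1.rev, y.2) (x.2.rev, y.1)

/-- The eigenvalues of `r` full twists. -/
noncomputable def tws (q : ℂ) (n N : ℕ) (r : ℤ) (X : ℕ) : ℂ :=
  q ^ (2 * r * ((X : ℤ) * ((X : ℤ) + n - 1) - (N : ℤ) * ((N : ℤ) + n - 1)))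

/-- The eigenvalues of the tangle of a subtree. -/
noncomputable def fv {m : ℕ} (q : ℂ) (n N : ℕ) (par : Fin m → Fin (m + 1))
    (r : Fin (m + 1) → ℤ) : ℕ → Fin (m + 1) → ℕ → ℂ
  | 0, _, _ => 1
  | k + 1, v, X => tws q n N (r v) X *
      ∏ j ∈ Finset.univ.filter (fun j => par j = v), Ph q n N (fv q n N par r k j.succ) X

end Pool.Agent.H63.VC11
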