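import Pool.Agent.H63.VC11.DP11

/-! # The rotation -/

namespace Pool.Agent.H63.VC11

open Pool.Agent.H63.VC7 Pool.Agent.H63.VC8 Matrix

variable {n : ℕ}

private theorem rot11_gf_rev (q : ℂ) (a : Fin n → ℕ) : gf q (fun i => a i.rev) = gf q a := by
  unfold gf
  exact Equiv.prod_comp Fin.revPerm (fun i => qf q (a i))

private theorem rot11_bil_rev (x y : Fin n → ℕ) :
    bil (fun i => x i.rev) (fun i => y i.rev) = bil y x := by
  unfold bil
  have h1 : ∑ i : Fin n, ((x i.rev : ℕ) : ℤ) * hi (fun i => y i.rev) i
      = ∑ i : Fin n, (x i : ℤ) * lo y i := by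
    rw [← Equiv.sum_comp Fin.revPerm (fun i => (x i : ℤ) * lo y i)]
    refine Finset.sum_congr rfl fun i _ => ?_
    rw [hi_rev]
    rfl
  rw [h1]
  unfold lo hi
  simp only [Finset.mul_sum]
  rw [Finset.sum_comm' (s' := fun i => Finset.Ioi i) (t' := Finset.univ)]
  · refine Finset.sum_congr rfl fun j _ => Finset.sum_congr rfl fun i _ => ?_
    ring
  · intro i j
    simp

private theorem rot11_wt_add {q : ℂ} (hq : q ≠ 0) (a b : Fin n → ℕ) :
    wt q (a + b) = wt q a * wt q b := by
  unfold wt
  rw [← zpow_add₀ hq]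
  congr 1
  rw [← Finset.sum_add_distrib]
  refine Finset.sum_congr rfl fun i _ => ?_
  rw [Pi.add_apply]
  push_cast
  ring

private theorem rot11_term {q : ℂ} (hq : q ≠ 0) (α a' d' a d : Fin n → ℕ) (hα : ∀ i, α i ≤ a i) :
    wt q a * emt q (fun i => (a - α) i.rev) (fun i => d i.rev) (fun i => d' i.rev)
      (fun i => a i.rev) (fun i => a' i.rev) = emt q α a' d' a d := by
  unfold emt
  by_cases h : (∀ i, α i ≤ a' i) ∧ (∀ i, α i ≤ a i) ∧ (∀ i, a i ≤ d i + α i) ∧
      (∀ i, a' i + d i = a i + d' i)
  · rw [if_pos h, if_pos]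
    · obtain ⟨h1, h2, h3, h4⟩ := h
      have e1 : (fun i => d i.rev) - (fun i => (a - α) i.rev) = fun i : Fin n => (d + α - a) i.rev := by
        funext i
        simp only [Pi.sub_apply, Pi.add_apply]
        have := h2 i.rev
        omega
      have e2 : (fun i => a' i.rev) + (fun i => (a - α) i.rev) - (fun i => a i.rev)
          = fun i : Fin n => (a' - α) i.rev := by
        funext i
        simp only [Pi.sub_apply, Pi.add_apply]
        have := h2 i.rev
        have := h1 i.rev
        omega
      have e3 : (fun i => a i.rev) - (fun i => (a - α) i.rev) = fun i : Fin n => α i.rev := by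
        funext i
        simp only [Pi.sub_apply]
        have := h2 i.rev
        omega
      rw [e1, e2, e3]
      simp only [rot11_bil_rev, rot11_gf_rev]
      have e4 : wt q (fun i => α i.rev) = (wt q α)⁻¹ := wt_rev α
      have e5 : a = α + (a - α) := by
        funext i
        simp only [Pi.sub_apply, Pi.add_apply]
        have := h2 i
        omega
      have e6 : wt q a = wt q α * wt q (a - α) := by
        conv_lhs => rw [e5]
        exact rot11_wt_add hq _ _
      have hw : wt q α ≠ 0 := wt_ne hq α
      rw [e4, e6]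
      have e7 : bil (a - α) (d + α - a) - bil (d + α - a) (a' - α) + bil (a' - α) α - bil α (a - α)
          = bil (a' - α) α - bil (d + α - a) (a' - α) + bil (a - α) (d + α - a) - bil α (a - α) := by
        ring
      rw [e7]
      have e8 : gf q d * gf q a' / (gf q (a - α) * gf q (d + α - a) * gf q (a' - α) * gf q α)
          = gf q a' * gf q d / (gf q α * gf q (a' - α) * gf q (d + α - a) * gf q (a - α)) := by
        rw [mul_comm (gf q d)]
        congr 1
        ring
      rw [e8]
      field_simp
    · obtain ⟨h1, h2, h3, h4⟩ := h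
      refine ⟨fun i => ?_, fun i => ?_, fun i => ?_, fun i => ?_⟩
      · simp only [Pi.sub_apply]
        have := h3 i.rev
        omega
      · simp only [Pi.sub_apply]
        omega
      · simp only [Pi.sub_apply]
        have := h2 i.rev
        have := h1 i.rev
        omega
      · have := h4 i.rev
        simp only
        omega
  · rw [if_neg h, if_neg, mul_zero]
    rintro ⟨h1, h2, h3, h4⟩
    apply h
    refine ⟨fun i => ?_, hα, fun i => ?_, fun i => ?_⟩
    · have := h3 i.rev
      simp only [Pi.sub_apply, Fin.rev_rev] at this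
      have := hα i
      omega
    · have := h1 i.rev
      simp only [Pi.sub_apply, Fin.rev_rev] at this
      omega
    · have := h4 i.rev
      simp only [Fin.rev_rev] at this
      omega

private theorem rot11_zero {q : ℂ} (α a' d' a d : Fin n → ℕ) (hα : ¬ ∀ i, α i ≤ a i) :
    emt q α a' d' a d = 0 := by
  unfold emt
  rw [if_neg]
  rintro ⟨_, h, _⟩
  exact hα h

theorem rot_em (q : ℂ) (N j : ℕ) (hj : j ≤ N) (hg : Gen q n N) (hn : 1 ≤ n) :
    rotM q (em q n N j) = em q n N (N - j) := by
  classical
  ext x y
  unfold rotM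
  rw [em_entry q N (N - j) j (by omega) hg hn, em_entry q N j (N - j) (by omega) hg hn,
    Finset.mul_sum]
  simp only [Vn.rev_val]
  set a' := x.1.val with ha'
  set d' := x.2.val with hd'
  set a := y.1.val with ha
  set d := y.2.val with hd
  have hsa : ∑ i, a i = N := y.1.sum
  -- restrict both sums
  have hL : ∑ β : Vn n (N - j), wt q a * emt q β.val (fun i => d i.rev) (fun i => d' i.rev)
      (fun i => a i.rev) (fun i => a' i.rev)
      = ∑ β ∈ Finset.univ.filter (fun β : Vn n (N - j) => ∀ i, β.val i ≤ a i.rev),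
        wt q a * emt q β.val (fun i => d i.rev) (fun i => d' i.rev)
        (fun i => a i.rev) (fun i => a' i.rev) := by
    symm
    apply Finset.sum_subset (Finset.subset_univ _)
    intro β _ hβ
    rw [Finset.mem_filter] at hβ
    rw [rot11_zero _ _ _ _ _ (fun h => hβ ⟨Finset.mem_univ _, h⟩), mul_zero]
  have hR : ∑ α : Vn n j, emt q α.val a' d' a d
      = ∑ α ∈ Finset.univ.filter (fun α : Vn n j => ∀ i, α.val i ≤ a i), emt q α.val a' d' a d := by
    symm
    apply Finset.sum_subset (Finset.subset_univ _)
    intro α _ hα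
    rw [Finset.mem_filter] at hα
    exact rot11_zero _ _ _ _ _ (fun h => hα ⟨Finset.mem_univ _, h⟩)
  rw [hL, hR]
  symm
  have hsumL : ∀ α : Vn n j, (∀ i, α.val i ≤ a i) → ∑ i : Fin n, (a - α.val) i.rev = N - j := by
    intro α hα
    rw [show (∑ i : Fin n, (a - α.val) i.rev) = ∑ i : Fin n, (a - α.val) i from
      Equiv.sum_comp Fin.revPerm (fun i => (a - α.val) i)]
    have h1 : ∑ i, ((a - α.val) i + α.val i) = ∑ i, a i := by
      refine Finset.sum_congr rfl fun i _ => ?_
      rw [Pi.sub_apply]
      have := hα i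
      omega
    rw [Finset.sum_add_distrib, α.sum, hsa] at h1
    omega
  have hsumR : ∀ β : Vn n (N - j), (∀ i, β.val i ≤ a i.rev) →
      ∑ i : Fin n, (a i - β.val i.rev) = j := by
    intro β hβ
    have h0 : ∑ i : Fin n, β.val i.rev = N - j :=
      (Equiv.sum_comp Fin.revPerm (fun i => β.val i)).trans β.sum
    have h1 : ∑ i, ((a i - β.val i.rev) + β.val i.rev) = ∑ i, a i := by
      refine Finset.sum_congr rfl fun i _ => ?_
      have := hβ i.rev
      rw [Fin.rev_rev] at this
      omega
    rw [Finset.sum_add_distrib, h0, hsa] at h1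
    omega
  refine Finset.sum_bij'
    (i := fun α hα => (⟨fun i => (a - α.val) i.rev, hsumL α (Finset.mem_filter.1 hα).2⟩ : Vn n (N - j)))
    (j := fun β hβ => (⟨fun i => a i - β.val i.rev, hsumR β (Finset.mem_filter.1 hβ).2⟩ : Vn n j))
    ?_ ?_ ?_ ?_ ?_
  · intro α hα
    rw [Finset.mem_filter]
    refine ⟨Finset.mem_univ _, fun i => ?_⟩
    simp only [Pi.sub_apply]
    omega
  · intro β hβ
    rw [Finset.mem_filter]
    refine ⟨Finset.mem_univ _, fun i => ?_⟩
    simp only
    omega
  · intro α hα
    apply Vn.ext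
    funext i
    have := (Finset.mem_filter.1 hα).2 i
    simp only [Pi.sub_apply, Fin.rev_rev]
    omega
  · intro β hβ
    apply Vn.ext
    funext i
    have := (Finset.mem_filter.1 hβ).2 i
    simp only [Pi.sub_apply, Fin.rev_rev]
    omega
  · intro α hα
    exact (rot11_term hg.1 α.val a' d' a d (Finset.mem_filter.1 hα).2).symm

end Pool.Agent.H63.VC11
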