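import Pool.Agent.H63.VC11.Oh11
import Pool.Agent.H63.VC11.Rot11

/-! # The rotation of the operators `Oh N f` -/

namespace Pool.Agent.H63.VC11

open Pool.Agent.H63.VC7 Pool.Agent.H63.VC8 Matrix

variable {n : ℕ}

private theorem newton11_mono {q : ℂ} {n N : ℕ} (h : Gen q n (N + 1)) : Gen q n N :=
  ⟨h.1, fun k h1 h2 => h.2 k h1 (by omega)⟩

private theorem newton11_qn {q : ℂ} {n N j : ℕ} (h : Gen q n N) (hj : j + 1 ≤ N) :
    qn q ((j : ℤ) + 1) ≠ 0 := by
  have h1 : br q ((j + 1 : ℕ) : ℤ) ≠ 0 := h.2 (j + 1) (by omega) (by omega)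
  have h2 : br q ((1 : ℕ) : ℤ) ≠ 0 := h.2 1 le_rfl (by omega)
  unfold qn
  push_cast at h1 h2
  exact div_ne_zero h1 h2

private theorem newton11_em_zero (q : ℂ) (N : ℕ) : em q n N 0 = 1 := by
  cases N <;> simp [em]

private theorem newton11_nt_zero (q : ℂ) (n N : ℕ) (f : ℕ → ℂ) : nt q n N f 0 = f N := by
  cases N <;> simp [nt]

private theorem newton11_EE_succ (q : ℂ) (n N j X : ℕ) : EE q n (N + 1) (j + 1) X =
    (E1 q n (N + 1) X * EE q n N j X) / qn q ((j : ℤ) + 1) ^ 2 := by
  unfold EE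
  simp only [Finset.prod_div_distrib]
  rw [Finset.prod_range_succ' (fun i => E1 q n (N + 1 - i) X), Finset.prod_range_succ (fun i : ℕ => qn q ((i : ℤ) + 1) ^ 2)]
  have h1 : ∏ k ∈ Finset.range j, E1 q n (N + 1 - (k + 1)) X = ∏ k ∈ Finset.range j, E1 q n (N - k) X := by
    refine Finset.prod_congr rfl fun i _ => ?_
    rw [Nat.add_sub_add_right]
  rw [h1, Nat.sub_zero]
  rw [mul_comm (∏ k ∈ Finset.range j, E1 q n (N - k) X), mul_div_assoc, mul_div_assoc, ← div_div]

private theorem newton11_EE_zero (q : ℂ) (n N X : ℕ) : EE q n N 0 X = 1 := by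
  unfold EE
  simp

theorem f_nt (q : ℂ) (N : ℕ) (h : Gen q n N) (hn : 1 ≤ n) (f : ℕ → ℂ) (X : ℕ) (hX : X ≤ N) :
    f X = ∑ j ∈ Finset.range (N + 1), nt q n N f j * EE q n N j X := by
  induction N generalizing f X with
  | zero =>
    obtain rfl : X = 0 := by omega
    simp [nt, EE]
  | succ N ih =>
    rw [Finset.sum_range_succ', newton11_nt_zero, newton11_EE_zero, mul_one]
    have h1 : ∑ j ∈ Finset.range (N + 1), nt q n (N + 1) f (j + 1) * EE q n (N + 1) (j + 1) X =
        E1 q n (N + 1) X * ∑ j ∈ Finset.range (N + 1), nt q n N (dv q n N f) j * EE q n N j X := by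
      rw [Finset.mul_sum]
      refine Finset.sum_congr rfl fun j hj => ?_
      have hj' : j + 1 ≤ N + 1 := by
        have := Finset.mem_range.1 hj
        omega
      have hq := newton11_qn h hj'
      rw [newton11_EE_succ]
      simp only [nt]
      field_simp
    rw [h1]
    rcases Nat.eq_or_lt_of_le hX with rfl | hlt
    · rw [E1_self]
      simp
    · rw [← ih (newton11_mono h) (dv q n N f) X (by omega)]
      unfold dv
      rw [mul_div_cancel₀ _ (E1_ne h hn hlt)]
      ring

theorem Oh_nt (q : ℂ) (N : ℕ) (h : Gen q n N) (hn : 1 ≤ n) (f : ℕ → ℂ) :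
    Oh q n N f = ∑ j ∈ Finset.range (N + 1), nt q n N f j • em q n N j := by
  induction N generalizing f with
  | zero => simp [Oh, nt, em]
  | succ N ih =>
    rw [Finset.sum_range_succ', newton11_em_zero, newton11_nt_zero]
    simp only [Oh, nt, em]
    rw [ih (newton11_mono h) (dv q n N f), Matrix.mul_sum, Matrix.sum_mul]
    refine Eq.trans (add_comm _ _) ?_
    congr 1
    refine Finset.sum_congr rfl fun j hj => ?_
    have hj' : j + 1 ≤ N + 1 := by
      have := Finset.mem_range.1 hj
      omega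
    have hq := newton11_qn h hj'
    rw [Matrix.mul_smul, Matrix.smul_mul, smul_smul]
    congr 1
    field_simp

theorem Oh_EE (q : ℂ) (N j : ℕ) (h : Gen q n N) (hn : 1 ≤ n) (hj : j ≤ N) :
    Oh q n N (EE q n N j) = em q n N j := by
  induction N generalizing j with
  | zero =>
    obtain rfl : j = 0 := by omega
    simp [Oh, em, EE]
  | succ N ih =>
    cases j with
    | zero =>
      rw [newton11_em_zero]
      have h1 : EE q n (N + 1) 0 = fun _ => (1 : ℂ) := by
        funext k
        exact newton11_EE_zero q n (N + 1) k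
      rw [h1, Oh_const, one_smul]
    | succ j =>
      simp only [Oh, em]
      have hq := newton11_qn h hj
      have h1 : EE q n (N + 1) (j + 1) (N + 1) = 0 := by
        rw [newton11_EE_succ, E1_self, zero_mul, zero_div]
      have h2 : Oh q n N (dv q n N (EE q n (N + 1) (j + 1))) =
          Oh q n N (fun X => (qn q ((j : ℤ) + 1) ^ 2)⁻¹ * EE q n N j X) := by
        refine Oh_congr q N _ _ fun k hk => ?_
        unfold dv
        have hE := E1_ne (X := k) h hn (by omega)
        rw [h1, sub_zero, newton11_EE_succ]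
        field_simp
      rw [h1, zero_smul, zero_add, h2, Oh_smul, ih j (newton11_mono h) (by omega), Matrix.mul_smul,
        Matrix.smul_mul]

private theorem newton11_rotM_sum (q : ℂ) (N : ℕ) (s : Finset ℕ) (c : ℕ → ℂ)
    (X : ℕ → Matrix (I2 n N) (I2 n N) ℂ) :
    rotM q (∑ j ∈ s, c j • X j) = ∑ j ∈ s, c j • rotM q (X j) := by
  ext x y
  simp only [rotM, Matrix.sum_apply, Matrix.smul_apply, smul_eq_mul, Finset.mul_sum]
  refine Finset.sum_congr rfl fun j _ => ?_
  ring

theorem rot_Oh (q : ℂ) (N : ℕ) (h : Gen q n N) (hn : 1 ≤ n) (f : ℕ → ℂ) :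
    rotM q (Oh q n N f) = Oh q n N (Ph q n N f) := by
  have h1 : Ph q n N f = fun k => ∑ j ∈ Finset.range (N + 1), nt q n N f j * EE q n N (N - j) k := rfl
  rw [Oh_nt q N h hn f, newton11_rotM_sum, h1, Oh_sum]
  refine Finset.sum_congr rfl fun j hj => ?_
  have hj' : j ≤ N := by
    have := Finset.mem_range.1 hj
    omega
  rw [Oh_smul, rot_em q N j hj' h hn, ← Oh_EE q N (N - j) h hn (by omega)]

end Pool.Agent.H63.VC11
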