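import Pool.Agent.H63.VC11.CD11

/-! # The algebra of the operators `Oh N f` -/

namespace Pool.Agent.H63.VC11

open Pool.Agent.H63.VC7 Pool.Agent.H63.VC8 Matrix

variable {n : ℕ}

theorem E1_self (q : ℂ) (n N : ℕ) : E1 q n N N = 0 := by
  unfold E1
  rw [sub_self, qn_zero, zero_mul]

theorem E1_ne {q : ℂ} {N X : ℕ} (h : Gen q n N) (hn : 1 ≤ n) (hX : X < N) : E1 q n N X ≠ 0 := by
  unfold E1
  have h1 : qn q ((N : ℤ) - X) ≠ 0 := h.qn_ne hn (by omega) (by omega)
  have h2 : qn q ((N : ℤ) + X + n - 1) ≠ 0 := h.qn_ne hn (by omega) (by omega)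
  exact mul_ne_zero h1 h2

theorem Oh_congr (q : ℂ) (N : ℕ) (f g : ℕ → ℂ) (h : ∀ X ≤ N, f X = g X) :
    Oh q n N f = Oh q n N g := by
  induction N generalizing f g with
  | zero => simp only [Oh]; rw [h 0 le_rfl]
  | succ N ih =>
    simp only [Oh]
    rw [h (N + 1) le_rfl, ih (dv q n N f) (dv q n N g)]
    intro k hk
    unfold dv
    rw [h k (by omega), h (N + 1) le_rfl]

theorem Oh_add (q : ℂ) (N : ℕ) (f g : ℕ → ℂ) :
    Oh q n N (fun X => f X + g X) = Oh q n N f + Oh q n N g := by
  induction N generalizing f g with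
  | zero => simp only [Oh]; rw [add_smul]
  | succ N ih =>
    have e : dv q n N (fun k => f k + g k) = fun k => dv q n N f k + dv q n N g k := by
      funext k
      unfold dv
      ring
    simp only [Oh]
    rw [e, ih, add_smul, Matrix.mul_add, Matrix.add_mul]
    abel

theorem Oh_smul (q : ℂ) (N : ℕ) (c : ℂ) (f : ℕ → ℂ) :
    Oh q n N (fun X => c * f X) = c • Oh q n N f := by
  induction N generalizing f with
  | zero => simp only [Oh]; rw [mul_smul]
  | succ N ih =>
    have e : dv q n N (fun k => c * f k) = fun k => c * dv q n N f k := by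
      funext k
      unfold dv
      ring
    simp only [Oh]
    rw [e, ih, smul_add, mul_smul, Matrix.mul_smul, Matrix.smul_mul]

theorem Oh_const (q : ℂ) (N : ℕ) (c : ℂ) : Oh q n N (fun _ => c) = c • 1 := by
  induction N generalizing c with
  | zero => simp only [Oh]
  | succ N ih =>
    have e : dv q n N (fun _ => c) = fun _ => 0 := by
      funext k
      unfold dv
      rw [sub_self, zero_div]
    simp only [Oh]
    rw [e, ih, zero_smul, Matrix.mul_zero, Matrix.zero_mul, add_zero]

theorem Oh_sum (q : ℂ) (N : ℕ) {ι : Type*} (s : Finset ι) (F : ι → ℕ → ℂ) :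
    Oh q n N (fun X => ∑ i ∈ s, F i X) = ∑ i ∈ s, Oh q n N (F i) := by
  classical
  induction s using Finset.induction_on with
  | empty =>
    simp only [Finset.sum_empty]
    rw [Oh_const, zero_smul]
  | insert a s ha ih =>
    simp only [Finset.sum_insert ha]
    rw [Oh_add, ih]

theorem DC_Oh (q : ℂ) (N : ℕ) (h : Gen q n (N + 1)) (hn : 1 ≤ n) :
    DD q n N * CC q n N = Oh q n (N + 1) (E1 q n (N + 1)) := by
  have e : Oh q n N (dv q n N (E1 q n (N + 1))) = Oh q n N (fun _ => 1) := by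
    apply Oh_congr
    intro k hk
    unfold dv
    rw [E1_self, sub_zero, div_self (E1_ne h hn (by omega))]
  simp only [Oh]
  rw [E1_self, zero_smul, zero_add, e, Oh_const, one_smul, Matrix.mul_one]

/-- `CC N * DD N` is the operator with the eigenvalues `E1 (N + 1) X`. -/
theorem CD_Oh (q : ℂ) (N : ℕ) (h : Gen q n (N + 1)) (hn : 1 ≤ n) :
    CC q n N * DD q n N = Oh q n N (E1 q n (N + 1)) := by
  cases N with
  | zero =>
    rw [CD_zero q h.1]
    simp only [Oh]
    congr 1
    unfold E1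
    rw [show (((0 + 1 : ℕ) : ℤ) - ((0 : ℕ) : ℤ)) = 1 by norm_num,
      show (((0 + 1 : ℕ) : ℤ) + ((0 : ℕ) : ℤ) + (n : ℤ) - 1) = n by push_cast; ring,
      qn_one q (h.br_one hn), one_mul]
  | succ N =>
    rw [CD_succ q h.1 N, DC_Oh q N (h.mono (by omega)) hn, ← Oh_const, ← Oh_add]
    apply Oh_congr
    intro k _
    have key := qn_three_term q h.1 ((N : ℤ) + k + n) (-1) ((N : ℤ) + 1 - k + 1)
    have h1 := qn_neg q 1
    rw [qn_one q (h.br_one hn)] at h1
    unfold E1
    push_cast
    rw [h1, show (-1 : ℤ) + ((N : ℤ) + 1 - k + 1) = (N : ℤ) + 1 - k by ring,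
      show (N : ℤ) + k + n + ((N : ℤ) + 1 - k + 1) = 2 * (N : ℤ) + n + 2 by ring,
      show (N : ℤ) + k + n - (-1) = (N : ℤ) + k + n + 1 by ring] at key
    rw [show (N : ℤ) + 1 + k + n - 1 = (N : ℤ) + k + n by ring,
      show (N : ℤ) + 1 + 1 + k + n - 1 = (N : ℤ) + k + n + 1 by ring,
      show (N : ℤ) + 1 + 1 - k = (N : ℤ) + 1 - k + 1 by ring]
    linear_combination key

theorem Oh_mul (q : ℂ) (N : ℕ) (h : Gen q n N) (hn : 1 ≤ n) (f g : ℕ → ℂ) :
    Oh q n N f * Oh q n N g = Oh q n N (fun X => f X * g X) := by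
  induction N generalizing f g with
  | zero =>
    simp only [Oh]
    rw [Matrix.smul_mul, Matrix.one_mul, smul_smul]
  | succ N ih =>
    have hN : Gen q n N := h.mono (by omega)
    have e : Oh q n N (dv q n N (fun k => f k * g k)) =
        f (N + 1) • Oh q n N (dv q n N g) + g (N + 1) • Oh q n N (dv q n N f) +
          Oh q n N (dv q n N f) * (CC q n N * DD q n N) * Oh q n N (dv q n N g) := by
      rw [CD_Oh q N h hn, ih hN, ih hN, ← Oh_smul, ← Oh_smul, ← Oh_add, ← Oh_add]
      apply Oh_congr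
      intro k hk
      have hE := E1_ne (X := k) h hn (by omega)
      unfold dv
      field_simp
      ring
    simp only [Oh]
    rw [e]
    simp only [Matrix.add_mul, Matrix.mul_add, Matrix.smul_mul, Matrix.mul_smul, Matrix.one_mul,
      Matrix.mul_one, Matrix.mul_assoc]
    rw [smul_add, smul_smul, mul_comm (g (N + 1)) (f (N + 1))]
    abel

theorem Oh_pow (q : ℂ) (N : ℕ) (h : Gen q n N) (hn : 1 ≤ n) (f : ℕ → ℂ) (r : ℕ) :
    Oh q n N f ^ r = Oh q n N (fun X => f X ^ r) := by
  induction r with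
  | zero =>
    simp only [pow_zero]
    rw [Oh_const, one_smul]
  | succ r ih =>
    rw [pow_succ, ih, Oh_mul q N h hn]
    simp only [pow_succ]

theorem Oh11_DD_ne (q : ℂ) (N : ℕ) (x : I2 n (N + 1)) (z : I2 n N) (h : DD q n N x z ≠ 0) :
    ∃ i, x.1 = z.1.add i ∧ x.2 = z.2.add i := by
  by_contra hne
  apply h
  unfold DD
  refine Finset.sum_eq_zero fun i _ => ?_
  rw [if_neg]
  intro hi
  exact hne ⟨i, hi⟩

theorem Oh11_CC_ne (q : ℂ) (N : ℕ) (w : I2 n N) (y : I2 n (N + 1)) (h : CC q n N w y ≠ 0) :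
    ∃ i, y.1 = w.1.add i ∧ y.2 = w.2.add i := by
  by_contra hne
  apply h
  unfold CC
  refine Finset.sum_eq_zero fun i _ => ?_
  rw [if_neg]
  intro hi
  exact hne ⟨i, hi⟩

/-- The operators `Oh` preserve the weight. -/
theorem Oh_wt (q : ℂ) (N : ℕ) (f : ℕ → ℂ) (x y : I2 n N) (h : Oh q n N f x y ≠ 0) :
    x.1.val + y.2.val = y.1.val + x.2.val := by
  induction N generalizing f with
  | zero =>
    simp only [Oh] at h
    by_cases hxy : x = y
    · subst hxy; rfl
    · rw [Matrix.smul_apply, Matrix.one_apply_ne hxy, smul_zero] at h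
      exact absurd rfl h
  | succ N ih =>
    by_cases hxy : x = y
    · subst hxy; rfl
    · simp only [Oh] at h
      rw [Matrix.add_apply, Matrix.smul_apply, Matrix.one_apply_ne hxy, smul_zero, zero_add,
        Matrix.mul_apply] at h
      obtain ⟨w, _, hw⟩ := Finset.exists_ne_zero_of_sum_ne_zero h
      have hw1 := left_ne_zero_of_mul hw
      have hw2 := right_ne_zero_of_mul hw
      rw [Matrix.mul_apply] at hw1
      obtain ⟨z, _, hz⟩ := Finset.exists_ne_zero_of_sum_ne_zero hw1
      have hz1 := left_ne_zero_of_mul hz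
      have hz2 := right_ne_zero_of_mul hz
      obtain ⟨i, h1, h2⟩ := Oh11_DD_ne q N x z hz1
      obtain ⟨j, h3, h4⟩ := Oh11_CC_ne q N w y hw2
      have h5 := ih (dv q n N f) z w hz2
      rw [h1, h2, h3, h4]
      simp only [Vn.add_val]
      calc z.1.val + Pi.single i 1 + (w.2.val + Pi.single j 1)
          = (z.1.val + w.2.val) + (Pi.single i 1 + Pi.single j 1) := by abel
        _ = (w.1.val + z.2.val) + (Pi.single i 1 + Pi.single j 1) := by rw [h5]
        _ = w.1.val + Pi.single j 1 + (z.2.val + Pi.single i 1) := by abel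

end Pool.Agent.H63.VC11
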