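import Pool.Agent.H63.VC11.WW11
import Pool.Agent.H63.VC11.Oh11

/-! # The eigenvalues of a full twist -/

namespace Pool.Agent.H63.VC11

open Pool.Agent.H63.VC7 Pool.Agent.H63.VC8 Matrix

variable {n : ℕ}

private theorem T11_step (q : ℂ) (N : ℕ) (e : ℤ) (hg : Gen q n (N + 1)) (hn : 1 ≤ n)
    (he : e = 1 ∨ e = -1)
    (ih : Ym q n N e * Ym q n N e = Oh q n N (fun X => q ^ (e * (2 * ((N : ℤ) * ((N : ℤ) + n - 1) -
      (X : ℤ) * ((X : ℤ) + n - 1)))))) :
    Ym q n (N + 1) e * Ym q n (N + 1) e = Oh q n (N + 1) (fun X => q ^ (e * (2 *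
      (((N + 1 : ℕ) : ℤ) * (((N + 1 : ℕ) : ℤ) + n - 1) - (X : ℤ) * ((X : ℤ) + n - 1))))) := by
  have hgN : Gen q n N := hg.mono (Nat.le_succ N)
  have hq : q ≠ 0 := hg.1
  set Y := Ym q n (N + 1) e with hY
  set D := DD q n N with hD
  set C := CC q n N with hC
  set A := Oh q n N (fun X => (E1 q n (N + 1) X)⁻¹) with hA
  set f : ℕ → ℂ := fun X => q ^ (e * (2 * ((N : ℤ) * ((N : ℤ) + n - 1) -
      (X : ℤ) * ((X : ℤ) + n - 1)))) with hf
  set g : ℕ → ℂ := fun X => q ^ (e * (2 *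
      (((N + 1 : ℕ) : ℤ) * (((N + 1 : ℕ) : ℤ) + n - 1) - (X : ℤ) * ((X : ℤ) + n - 1)))) with hgf
  set c : ℂ := q ^ (e * (2 * (N : ℤ) + n)) with hc
  have hE : ∀ X ≤ N, E1 q n (N + 1) X ≠ 0 := fun X hX => E1_ne hg hn (Nat.lt_succ_of_le hX)
  have hCDA : C * D * A = 1 := by
    rw [hC, hD, hA, CD_Oh q N hg hn, Oh_mul q N hgN hn]
    rw [Oh_congr q N (fun X => E1 q n (N + 1) X * (E1 q n (N + 1) X)⁻¹) (fun _ => 1)
      (fun X hX => mul_inv_cancel₀ (hE X hX)), Oh_const, one_smul]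
  have hker : C * (1 - D * A * C) = 0 := by
    have : C * (D * A * C) = C * D * A * C := by
      simp only [Matrix.mul_assoc]
    rw [Matrix.mul_sub, this, hCDA, Matrix.mul_one, Matrix.one_mul, sub_self]
  have hYY := YY_ker q N e he hg hn (1 - D * A * C) hker
  have hYD : Y * D = c • (D * Ym q n N e) := Y_DD q N e he hg hn
  have hYYD : Y * (Y * D) = (c * c) • (D * Oh q n N f) := by
    rw [hYD, Matrix.mul_smul, ← Matrix.mul_assoc, hYD, Matrix.smul_mul, Matrix.mul_assoc, ih,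
      smul_smul]
  have hsum : Y * Y = (c * c) • (D * Oh q n N f * A * C) + (1 - D * A * C) := by
    have h1 : Y * Y = Y * (Y * (D * A * C)) + Y * (Y * (1 - D * A * C)) := by
      rw [← Matrix.mul_add, ← Matrix.mul_add, add_sub_cancel, Matrix.mul_one]
    have h2 : Y * (Y * (D * A * C)) = Y * (Y * D) * A * C := by
      simp only [Matrix.mul_assoc]
    rw [h1, h2, hYYD]
    change (c * c) • (D * Oh q n N f) * A * C + Y * (Y * (1 - D * A * C)) = _
    rw [hYY, Matrix.smul_mul, Matrix.smul_mul]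
  have hfg : ∀ X : ℕ, c * c * f X = g X := by
    intro X
    simp only [hc, hf, hgf]
    rw [← zpow_add₀ hq, ← zpow_add₀ hq]
    congr 1
    push_cast
    ring
  have hg1 : g (N + 1) = 1 := by
    simp only [hgf]
    rw [sub_self, mul_zero, mul_zero, zpow_zero]
  have hdv : Oh q n N (dv q n N g) = (c * c) • (Oh q n N f * A) - A := by
    rw [hA, Oh_mul q N hgN hn, ← Oh_smul]
    have h1 : Oh q n N (fun X => c * c * (f X * (E1 q n (N + 1) X)⁻¹)) =
        Oh q n N (dv q n N g) + Oh q n N (fun X => (E1 q n (N + 1) X)⁻¹) := by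
      rw [← Oh_add]
      apply Oh_congr
      intro X _
      unfold dv
      rw [hg1, ← hfg X, div_eq_mul_inv]
      ring
    rw [h1, add_sub_cancel_right]
  have hOh : Oh q n (N + 1) g = g (N + 1) • 1 + D * Oh q n N (dv q n N g) * C := rfl
  rw [hOh, hg1, one_smul, hdv, hsum]
  rw [Matrix.mul_sub, Matrix.sub_mul, Matrix.mul_smul, Matrix.smul_mul]
  simp only [Matrix.mul_assoc]
  abel

theorem Y_sq (q : ℂ) (N : ℕ) (e : ℤ) (he : e = 1 ∨ e = -1) (hg : Gen q n N) (hn : 1 ≤ n) :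
    Ym q n N e * Ym q n N e = Oh q n N (fun X => q ^ (e * (2 * ((N : ℤ) * ((N : ℤ) + n - 1) -
      (X : ℤ) * ((X : ℤ) + n - 1))))) := by
  induction N with
  | zero =>
    rw [Ym_zero q e hg hn, Matrix.mul_one]
    have : Oh q n 0 (fun X => q ^ (e * (2 * (((0 : ℕ) : ℤ) * (((0 : ℕ) : ℤ) + n - 1) -
      (X : ℤ) * ((X : ℤ) + n - 1))))) = (q ^ (e * (2 * (((0 : ℕ) : ℤ) * (((0 : ℕ) : ℤ) + n - 1) -
      ((0 : ℕ) : ℤ) * (((0 : ℕ) : ℤ) + n - 1))))) • (1 : Matrix (I2 n 0) (I2 n 0) ℂ) := rfl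
    rw [this, sub_self, mul_zero, mul_zero, zpow_zero, one_smul]
  | succ N ih => exact T11_step q N e hg hn he (ih (hg.mono (Nat.le_succ N)))

/-- `|r|` full twists. -/
theorem Y_twist (q : ℂ) (N : ℕ) (hg : Gen q n N) (hn : 1 ≤ n) (r : ℤ) :
    (Ym q n N (if 0 < r then -1 else 1) * Ym q n N (if 0 < r then -1 else 1)) ^ r.natAbs =
      Oh q n N (tws q n N r) := by
  rw [Y_sq q N _ (by split_ifs <;> simp) hg hn, Oh_pow q N hg hn]
  apply Oh_congr
  intro X _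
  unfold tws
  rw [← _root_.zpow_natCast, ← _root_.zpow_mul]
  congr 1
  by_cases hr : 0 < r
  · rw [if_pos hr, Int.natCast_natAbs, abs_of_pos hr]
    ring
  · rw [if_neg hr, Int.natCast_natAbs, abs_of_nonpos (not_lt.mp hr)]
    ring

end Pool.Agent.H63.VC11
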