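import Pool.Agent.H63.VC11.Saal11

/-! # A multiple `q`-Vandermonde identity -/

namespace Pool.Agent.H63.VC11

open Pool.Agent.H63.VC7 Pool.Agent.H63.VC8

variable {n : ℕ}

/-- The linear form in the exponent. -/
def lam (p h : Fin n → ℕ) : ℤ :=
  ∑ i : Fin n, (h i : ℤ) * ((n : ℤ) - 1 - 2 * (i : ℕ) + hi p i - lo p i)

theorem Vand11_split (F : (Fin (n + 1) → ℕ) → ℂ) (M : ℕ) :
    ∑ h : Vn (n + 1) M, F h.val =
      ∑ k ∈ Finset.range (M + 1), ∑ h : Vn n (M - k), F (Fin.snoc (α := fun _ => ℕ) h.val k) := by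
  classical
  rw [← sum_Vn]
  have h1 : ∀ k ∈ Finset.range (M + 1),
      ∑ h : Vn n (M - k), F (Fin.snoc (α := fun _ => ℕ) h.val k) =
        ∑ h ∈ Finset.piAntidiag (Finset.univ : Finset (Fin n)) (M - k),
          F (Fin.snoc (α := fun _ => ℕ) h k) := fun k _ =>
    (sum_Vn (fun h => F (Fin.snoc (α := fun _ => ℕ) h k))).symm
  rw [Finset.sum_congr rfl h1, Finset.sum_sigma']
  refine Finset.sum_bij'
    (fun (h : Fin (n + 1) → ℕ) _ => (⟨h (Fin.last n), fun i => h i.castSucc⟩ : Σ _ : ℕ, Fin n → ℕ))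
    (fun (z : Σ _ : ℕ, Fin n → ℕ) _ => Fin.snoc (α := fun _ => ℕ) z.2 z.1) ?_ ?_ ?_ ?_ ?_
  · intro h hh
    have h2 := (Finset.mem_piAntidiag.1 hh).1
    rw [Fin.sum_univ_castSucc] at h2
    rw [Finset.mem_sigma, Finset.mem_range, Finset.mem_piAntidiag]
    refine ⟨?_, ?_, fun _ _ => Finset.mem_univ _⟩
    · change h (Fin.last n) < M + 1
      omega
    · change ∑ i : Fin n, h i.castSucc = M - h (Fin.last n)
      omega
  · intro z hz
    rw [Finset.mem_sigma, Finset.mem_range, Finset.mem_piAntidiag] at hz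
    obtain ⟨h2, h3, -⟩ := hz
    rw [Finset.mem_piAntidiag]
    refine ⟨?_, fun _ _ => Finset.mem_univ _⟩
    rw [Fin.sum_univ_castSucc]
    simp only [Fin.snoc_castSucc, Fin.snoc_last]
    rw [h3]
    omega
  · intro h _
    funext i
    refine Fin.lastCases ?_ (fun i => ?_) i
    · simp only [Fin.snoc_last]
    · simp only [Fin.snoc_castSucc]
  · intro z _
    obtain ⟨k, h⟩ := z
    simp only [Fin.snoc_last, Fin.snoc_castSucc]
  · intro h _
    congr 1
    funext i
    refine Fin.lastCases ?_ (fun i => ?_) i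
    · simp only [Fin.snoc_last]
    · simp only [Fin.snoc_castSucc]

theorem Vand11_sum_castSucc_lo (p : Fin (n + 1) → ℕ) (i : Fin n) :
    lo p i.castSucc = lo (fun j => p j.castSucc) i := by
  unfold lo
  rw [← Finset.sum_filter_add_sum_filter_not (Finset.Iio i.castSucc) (fun j => j ≠ Fin.last n)]
  rw [Finset.sum_eq_zero (s := (Finset.Iio i.castSucc).filter (fun j => ¬ j ≠ Fin.last n)), add_zero]
  · symm
    refine Finset.sum_bij (fun j _ => j.castSucc) ?_ ?_ ?_ ?_
    · intro j hj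
      rw [Finset.mem_Iio] at hj
      rw [Finset.mem_filter, Finset.mem_Iio]
      exact ⟨Fin.castSucc_lt_castSucc_iff.2 hj, Fin.castSucc_ne_last j⟩
    · intro j _ j' _ h
      exact Fin.castSucc_injective n h
    · intro j hj
      rw [Finset.mem_filter, Finset.mem_Iio] at hj
      obtain ⟨k, rfl⟩ := Fin.exists_castSucc_eq.2 hj.2
      exact ⟨k, Finset.mem_Iio.2 (Fin.castSucc_lt_castSucc_iff.1 hj.1), rfl⟩
    · intro j _
      rfl
  · intro j hj
    rw [Finset.mem_filter, Finset.mem_Iio, not_not] at hj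
    rw [hj.2] at hj
    exact absurd hj.1 (not_lt.2 (Fin.le_last _))

theorem Vand11_hi_castSucc (p : Fin (n + 1) → ℕ) (i : Fin n) :
    hi p i.castSucc = hi (fun j => p j.castSucc) i + p (Fin.last n) := by
  have h1 := lo_self_hi p i.castSucc
  have h2 := lo_self_hi (fun j => p j.castSucc) i
  rw [Vand11_sum_castSucc_lo] at h1
  rw [Fin.sum_univ_castSucc] at h1
  push_cast at h1 h2
  linarith

theorem Vand11_lo_last (p : Fin (n + 1) → ℕ) :
    lo p (Fin.last n) = ((∑ i : Fin n, p i.castSucc : ℕ) : ℤ) := by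
  have h1 := lo_self_hi p (Fin.last n)
  have h2 : hi p (Fin.last n) = 0 := by
    unfold hi
    refine Finset.sum_eq_zero fun j hj => ?_
    rw [Finset.mem_Ioi] at hj
    exact absurd hj (not_lt.2 (Fin.le_last _))
  rw [Fin.sum_univ_castSucc] at h1
  push_cast at h1 ⊢
  linarith

theorem Vand11_hi_last (p : Fin (n + 1) → ℕ) : hi p (Fin.last n) = 0 := by
  unfold hi
  refine Finset.sum_eq_zero fun j hj => ?_
  rw [Finset.mem_Ioi] at hj
  exact absurd hj (not_lt.2 (Fin.le_last _))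

theorem Vand11_lam_snoc (p : Fin (n + 1) → ℕ) (h : Fin n → ℕ) (k : ℕ) :
    lam p (Fin.snoc (α := fun _ => ℕ) h k) =
      lam (fun j => p j.castSucc) h + ((∑ i, h i : ℕ) : ℤ) * ((p (Fin.last n) : ℤ) + 1) -
        (k : ℤ) * ((n : ℤ) + ((∑ i : Fin n, p i.castSucc : ℕ) : ℤ)) := by
  unfold lam
  rw [Fin.sum_univ_castSucc]
  simp only [Fin.snoc_castSucc, Fin.snoc_last, Vand11_sum_castSucc_lo, Vand11_hi_castSucc,
    Vand11_lo_last, Vand11_hi_last, Fin.val_castSucc, Fin.val_last]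
  have h1 : ∑ i : Fin n, (h i : ℤ) * (((n + 1 : ℕ) : ℤ) - 1 - 2 * ((i : ℕ) : ℤ) +
      (hi (fun j => p j.castSucc) i + (p (Fin.last n) : ℤ)) - lo (fun j => p j.castSucc) i) =
      ∑ i : Fin n, (h i : ℤ) * ((n : ℤ) - 1 - 2 * ((i : ℕ) : ℤ) +
        hi (fun j => p j.castSucc) i - lo (fun j => p j.castSucc) i) +
        ((∑ i, h i : ℕ) : ℤ) * ((p (Fin.last n) : ℤ) + 1) := by
    push_cast
    rw [Finset.sum_mul, ← Finset.sum_add_distrib]
    refine Finset.sum_congr rfl fun i _ => ?_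
    ring
  rw [h1]
  push_cast
  ring

theorem Vand11_vand (q : ℂ) (hq : q ≠ 0) (m : ℕ) : ∀ (M : ℕ) (p : Fin (m + 1) → ℕ)
    (_ : ∀ j ≤ M + ∑ i, p i + m, qf q j ≠ 0),
    ∑ h : Vn (m + 1) M, q ^ lam p h.val * ∏ i, qb q (h.val i + p i) (p i) =
      qb q (M + ∑ i, p i + m) (∑ i, p i + m) := by
  induction m with
  | zero =>
    intro M p _
    have h1 : ∀ h : Vn 1 M, h = ⟨fun _ => M, by simp⟩ := by
      intro h
      apply Vn.ext
      funext i
      have h2 := h.sum
      rw [Fin.sum_univ_one] at h2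
      rw [Subsingleton.elim i 0]
      exact h2
    rw [Finset.sum_eq_single (⟨fun _ => M, by simp⟩ : Vn 1 M)]
    · have h2 : lam p (fun _ => M) = 0 := by
        unfold lam
        rw [Fin.sum_univ_one]
        have h3 : hi p 0 = 0 := Vand11_hi_last p
        have h4 : lo p 0 = 0 := by
          have := Vand11_lo_last p
          simpa using this
        rw [h3, h4]
        simp
      change q ^ lam p (fun _ => M) * ∏ i : Fin 1, qb q (M + p i) (p i) = _
      rw [h2, zpow_zero, one_mul, Fin.prod_univ_one, Fin.sum_univ_one]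
      rfl
    · intro h _ hne
      exact absurd (h1 h) hne
    · intro h
      exact absurd (Finset.mem_univ _) h
  | succ m ih =>
    intro M p hf
    rw [Vand11_split (fun h => q ^ lam p h * ∏ i, qb q (h i + p i) (p i)) M]
    obtain ⟨x, hx⟩ : ∃ x, x = p (Fin.last (m + 1)) := ⟨_, rfl⟩
    obtain ⟨p', hp'⟩ : ∃ p' : Fin (m + 1) → ℕ, p' = fun j => p j.castSucc := ⟨_, rfl⟩
    obtain ⟨P', hP'⟩ : ∃ P', P' = ∑ i, p' i := ⟨_, rfl⟩
    have hP : ∑ i, p i = P' + x := by
      rw [Fin.sum_univ_castSucc, hP', hp', hx]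
    rw [hP] at hf ⊢
    have h1 : ∀ k ∈ Finset.range (M + 1),
        ∑ h : Vn (m + 1) (M - k), (fun h : Fin (m + 1 + 1) → ℕ =>
          q ^ lam p h * ∏ i, qb q (h i + p i) (p i)) (Fin.snoc (α := fun _ => ℕ) h.val k) =
        q ^ (((M : ℤ) - k) * ((x : ℤ) + 1) - (k : ℤ) * (((P' + m : ℕ) : ℤ) + 1)) *
          (qb q (k + x) x * qb q (M - k + (P' + m)) (P' + m)) := by
      intro k hk
      rw [Finset.mem_range] at hk
      have h2 : ∀ h : Vn (m + 1) (M - k), (fun h : Fin (m + 1 + 1) → ℕ =>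
          q ^ lam p h * ∏ i, qb q (h i + p i) (p i)) (Fin.snoc (α := fun _ => ℕ) h.val k) =
          (q ^ (((M : ℤ) - k) * ((x : ℤ) + 1) - (k : ℤ) * (((P' + m : ℕ) : ℤ) + 1)) *
            qb q (k + x) x) * (q ^ lam p' h.val * ∏ i, qb q (h.val i + p' i) (p' i)) := by
        intro h
        have h3 : lam p (Fin.snoc (α := fun _ => ℕ) h.val k) = lam p' h.val +
            (((M : ℤ) - k) * ((x : ℤ) + 1) - (k : ℤ) * (((P' + m : ℕ) : ℤ) + 1)) := by
          rw [Vand11_lam_snoc, h.sum, ← hx, Nat.cast_sub (by omega : k ≤ M)]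
          rw [← hp']
          have h4 : Finset.univ.sum p' = P' := hP'.symm
          rw [h4]
          push_cast
          ring
        have h5 : ∏ i, qb q ((Fin.snoc (α := fun _ => ℕ) h.val k : Fin (m + 1 + 1) → ℕ) i + p i)
            (p i) = (∏ i, qb q (h.val i + p' i) (p' i)) * qb q (k + x) x := by
          rw [Fin.prod_univ_castSucc]
          simp only [Fin.snoc_castSucc, Fin.snoc_last]
          rw [hp', hx]
        change q ^ lam p (Fin.snoc (α := fun _ => ℕ) h.val k) *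
          ∏ i, qb q ((Fin.snoc (α := fun _ => ℕ) h.val k : Fin (m + 1 + 1) → ℕ) i + p i) (p i) = _
        rw [h3, h5, zpow_add₀ hq]
        ring
      rw [Finset.sum_congr rfl fun h _ => h2 h, ← Finset.mul_sum, ih (M - k) p' ?_, ← hP']
      · rw [mul_assoc, Nat.add_assoc]
      · intro j hj
        rw [← hP'] at hj
        exact hf j (by omega)
    rw [Finset.sum_congr rfl h1, qb_vand q hq x (P' + m) M fun j hj => hf j (by omega)]
    congr 1 <;> omega

theorem vand (q : ℂ) (hq : q ≠ 0) (hn : 1 ≤ n) (M : ℕ) (p : Fin n → ℕ)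
    (hf : ∀ j ≤ M + ∑ i, p i + (n - 1), qf q j ≠ 0) :
    ∑ h : Vn n M, q ^ lam p h.val * ∏ i, qb q (h.val i + p i) (p i) =
      qb q (M + ∑ i, p i + (n - 1)) (∑ i, p i + (n - 1)) := by
  obtain ⟨m, rfl⟩ : ∃ m, n = m + 1 := ⟨n - 1, by omega⟩
  rw [Nat.add_sub_cancel] at hf ⊢
  exact Vand11_vand q hq m M p hf

theorem vand_shift (q : ℂ) (hq : q ≠ 0) (hn : 1 ≤ n) (M M' : ℕ) (p κ : Fin n → ℕ)
    (hκ : ∀ i, κ i ≤ p i) (hM : ∑ i, κ i + M' = M)
    (hf : ∀ j ≤ M + ∑ i, p i + (n - 1), qf q j ≠ 0) :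
    ∑ h : Vn n M, q ^ lam p h.val * ∏ i, qb q (h.val i + (p i - κ i)) (p i) =
      q ^ lam p κ * qb q (M' + ∑ i, p i + (n - 1)) (∑ i, p i + (n - 1)) := by
  classical
  have hv := vand q hq hn M' p fun j hj => hf j (by omega)
  rw [← hv, ← sum_Vn (fun h => q ^ lam p h * ∏ i, qb q (h i + p i) (p i)),
    ← sum_Vn (fun h => q ^ lam p h * ∏ i, qb q (h i + (p i - κ i)) (p i)), Finset.mul_sum]
  have hlam : ∀ h : Fin n → ℕ, lam p (h + κ) = lam p κ + lam p h := by
    intro h
    unfold lam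
    rw [← Finset.sum_add_distrib]
    refine Finset.sum_congr rfl fun i _ => ?_
    simp only [Pi.add_apply, Nat.cast_add]
    ring
  have hterm : ∀ h : Fin n → ℕ,
      q ^ lam p κ * (q ^ lam p h * ∏ i, qb q (h i + p i) (p i)) =
        q ^ lam p (h + κ) * ∏ i, qb q ((h + κ) i + (p i - κ i)) (p i) := by
    intro h
    rw [hlam, zpow_add₀ hq, mul_assoc]
    congr 2
    refine Finset.prod_congr rfl fun i _ => ?_
    have h1 : (h + κ) i + (p i - κ i) = h i + p i := by
      have := hκ i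
      simp only [Pi.add_apply]
      omega
    rw [h1]
  rw [Finset.sum_congr rfl fun h _ => hterm h]
  have hinj : Set.InjOn (fun h : Fin n → ℕ => h + κ)
      (Finset.piAntidiag (Finset.univ : Finset (Fin n)) M' : Finset (Fin n → ℕ)) := by
    intro h _ h' _ he
    exact add_right_cancel he
  rw [← Finset.sum_image (g := fun h : Fin n → ℕ => h + κ)
    (f := fun h => q ^ lam p h * ∏ i, qb q (h i + (p i - κ i)) (p i)) hinj]
  symm
  refine Finset.sum_subset ?_ ?_
  · intro h hh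
    obtain ⟨h', hh', rfl⟩ := Finset.mem_image.1 hh
    rw [Finset.mem_piAntidiag] at hh' ⊢
    refine ⟨?_, fun _ _ => Finset.mem_univ _⟩
    simp only [Pi.add_apply, Finset.sum_add_distrib]
    rw [hh'.1]
    omega
  · intro h hh hne
    rw [Finset.mem_piAntidiag] at hh
    have h1 : ∃ i, h i < κ i := by
      by_contra hcon
      push Not at hcon
      apply hne
      rw [Finset.mem_image]
      refine ⟨fun i => h i - κ i, ?_, ?_⟩
      · rw [Finset.mem_piAntidiag]
        refine ⟨?_, fun _ _ => Finset.mem_univ _⟩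
        have h2 : ∑ i, (h i - κ i) + ∑ i, κ i = ∑ i, h i := by
          rw [← Finset.sum_add_distrib]
          refine Finset.sum_congr rfl fun i _ => ?_
          have := hcon i
          omega
        have h3 : ∑ i, h i = M := hh.1
        omega
      · funext i
        have := hcon i
        simp only [Pi.add_apply]
        omega
    obtain ⟨i, hi⟩ := h1
    rw [Finset.prod_eq_zero (Finset.mem_univ i), mul_zero]
    apply qb_lt
    have := hκ i
    omega

/-- The quantum dimension of `V_N`. -/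
theorem sum_wt (q : ℂ) (N : ℕ) (hg : Gen q n N) (hn : 1 ≤ n) :
    ∑ a : Vn n N, wt q a.val = dimS n N q := by
  obtain ⟨m, rfl⟩ : ∃ m, n = m + 1 := ⟨n - 1, by omega⟩
  have hq : q ≠ 0 := hg.1
  have h1 := Vand11_vand q hq m N (fun _ => 0) fun j hj => hg.qf_ne hn (by
    rw [Finset.sum_const_zero] at hj
    omega)
  rw [Finset.sum_const_zero, Nat.add_zero, Nat.zero_add] at h1
  have h2 : ∀ a : Vn (m + 1) N, q ^ lam (fun _ => 0) a.val *
      ∏ i, qb q (a.val i + (fun _ : Fin (m + 1) => 0) i) ((fun _ : Fin (m + 1) => 0) i) =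
      wt q a.val := by
    intro a
    have h3 : lam (fun _ => 0) a.val =
        ∑ i : Fin (m + 1), (a.val i : ℤ) * (((m + 1 : ℕ) : ℤ) - 1 - 2 * (i : ℕ)) := by
      unfold lam
      refine Finset.sum_congr rfl fun i _ => ?_
      have h4 : hi (fun _ : Fin (m + 1) => 0) i = 0 := by simp [hi]
      have h5 : lo (fun _ : Fin (m + 1) => 0) i = 0 := by simp [lo]
      rw [h4, h5]
      ring
    rw [h3, Finset.prod_eq_one fun i _ => qb_zero_right q _, mul_one]
    rfl
  rw [Finset.sum_congr rfl fun a _ => h2 a] at h1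
  rw [h1]
  have hm : ∀ j ≤ N + m, qf q j ≠ 0 := fun j hj => hg.qf_ne hn (by omega)
  have h3 := qb_fac q hq (N + m) m (by omega)
  rw [Nat.add_sub_cancel] at h3
  have h4 : ∀ k ≤ N, dimS (m + 1) k q * (qf q m * qf q k) = qf q (k + m) := by
    intro k
    induction k with
    | zero =>
      intro _
      rw [Nat.zero_add, qf_zero, mul_one]
      simp [dimS]
    | succ k ih =>
      intro hk
      have h5 := ih (by omega)
      have h6 : qn q ((k : ℤ) + 1) ≠ 0 := hg.qn_ne hn (by omega) (by omega)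
      have h7 : br q 1 ≠ 0 := hg.br_one hn
      have h8 : br q ((k : ℤ) + 1) ≠ 0 := hg.br_ne (by omega) (by omega)
      have h9 : dimS (m + 1) (k + 1) q = dimS (m + 1) k q *
          (br q (((m + 1 : ℕ) : ℤ) + k) / br q ((k : ℤ) + 1)) := by
        unfold dimS
        rw [Finset.prod_range_succ]
      have h10 : k + 1 + m = (k + m) + 1 := by ring
      rw [h9, qf_succ, h10, qf_succ, ← h5]
      have h11 : ((k + m : ℕ) : ℤ) + 1 = ((m + 1 : ℕ) : ℤ) + k := by
        push_cast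
        ring
      rw [h11]
      unfold qn
      field_simp
  have h5 := h4 N le_rfl
  have h6 : qf q m * qf q N ≠ 0 := mul_ne_zero (hm m (by omega)) (hm N (by omega))
  exact mul_right_cancel₀ h6 (h3.trans h5.symm)

theorem sum_wt_inv (q : ℂ) (N : ℕ) (hg : Gen q n N) (hn : 1 ≤ n) :
    ∑ a : Vn n N, (wt q a.val)⁻¹ = dimS n N q := by
  rw [← sum_wt q N hg hn, ← Equiv.sum_comp (Vn.revE n N) fun a => wt q a.val]
  refine Finset.sum_congr rfl fun a _ => ?_
  exact (wt_rev a.val).symm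

end Pool.Agent.H63.VC11
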