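import Pool.Agent.H63.VC11.Oh11
import Pool.Agent.H63.VC11.Vand11

/-! # The trace of `Oh N f` -/

namespace Pool.Agent.H63.VC11

open Pool.Agent.H63.VC7 Pool.Agent.H63.VC8 Matrix

variable {n : ℕ}

private theorem tr11_br_sq (q : ℂ) (hq : q ≠ 0) (a b : ℤ) :
    br q a ^ 2 - br q b ^ 2 = br q (a + b) * br q (a - b) := by
  unfold br
  have e1 : q ^ (a + b) = q ^ a * q ^ b := zpow_add₀ hq a b
  have e2 : q ^ (-(a + b)) = q ^ (-a) * q ^ (-b) := by
    rw [← zpow_add₀ hq]; congr 1; ring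
  have e3 : q ^ (a - b) = q ^ a * q ^ (-b) := by
    rw [← zpow_add₀ hq]; congr 1
  have e4 : q ^ (-(a - b)) = q ^ (-a) * q ^ b := by
    rw [← zpow_add₀ hq]; congr 1; ring
  have h1 : q ^ a * q ^ (-a) = 1 := by
    rw [← zpow_add₀ hq, add_neg_cancel, zpow_zero]
  have h2 : q ^ b * q ^ (-b) = 1 := by
    rw [← zpow_add₀ hq, add_neg_cancel, zpow_zero]
  rw [e1, e2, e3, e4]
  linear_combination (-2 + (q ^ b) ^ 2 + (q ^ (-b)) ^ 2) * h1 + (2 - (q ^ a) ^ 2 - (q ^ (-a)) ^ 2) * h2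

private theorem tr11_Q (q : ℂ) (N : ℕ) (h : Gen q n (N + 1)) (hn : 2 ≤ n) :
    ∏ i ∈ Finset.range (N + 1), (br q ((n : ℤ) + i - 1) / br q ((i : ℤ) + 1)) =
      br q ((n : ℤ) - 1) / br q ((N : ℤ) + 1) * dimS n N q := by
  unfold dimS
  induction N with
  | zero => simp
  | succ N ih =>
    have h2 : br q ((N : ℤ) + 1) ≠ 0 := h.br_ne (by omega) (by omega)
    have h3 : br q (((N + 1 : ℕ) : ℤ) + 1) ≠ 0 := h.br_ne (by omega) (by omega)
    rw [Finset.prod_range_succ, ih (h.mono (by omega)), Finset.prod_range_succ _ N]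
    have e1 : (n : ℤ) + ((N + 1 : ℕ) : ℤ) - 1 = n + N := by push_cast; ring
    rw [e1]
    field_simp

theorem sum_dimA (q : ℂ) (N : ℕ) (h : Gen q n N) (hn : 2 ≤ n) :
    ∑ X ∈ Finset.range (N + 1), dimA n q X = dimS n N q ^ 2 := by
  induction N with
  | zero =>
    have h1 : br q ((n : ℤ) - 1) ≠ 0 := h.br_ne (by omega) (by omega)
    simp only [zero_add, Finset.sum_range_one]
    unfold dimA dimS
    simp only [Nat.cast_zero, mul_zero, add_zero, Finset.range_zero, Finset.prod_empty, mul_one,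
      one_pow]
    exact div_self h1
  | succ N ih =>
    rw [Finset.sum_range_succ, ih (h.mono (by omega))]
    have h1 : br q ((n : ℤ) - 1) ≠ 0 := h.br_ne (by omega) (by omega)
    have h2 : br q ((N : ℤ) + 1) ≠ 0 := h.br_ne (by omega) (by omega)
    have h3 : dimA n q (N + 1) = br q ((n : ℤ) + 2 * ((N + 1 : ℕ) : ℤ) - 1) / br q ((n : ℤ) - 1) *
        (br q ((n : ℤ) - 1) / br q ((N : ℤ) + 1) * dimS n N q) ^ 2 := by
      unfold dimA
      rw [Finset.prod_pow, tr11_Q q N h hn]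
    have h4 : dimS n (N + 1) q = dimS n N q * (br q ((n : ℤ) + N) / br q ((N : ℤ) + 1)) := by
      unfold dimS
      rw [Finset.prod_range_succ]
    rw [h3, h4]
    have h5 := tr11_br_sq q h.1 ((n : ℤ) + N) ((N : ℤ) + 1)
    have e1 : (n : ℤ) + N + (N + 1) = n + 2 * ((N + 1 : ℕ) : ℤ) - 1 := by push_cast; ring
    have e2 : (n : ℤ) + N - (N + 1) = n - 1 := by ring
    rw [e1, e2] at h5
    field_simp
    linear_combination -(dimS n N q ^ 2) * h5

private noncomputable def tr11_w (q : ℂ) {N : ℕ} (x : I2 n N) : ℂ :=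
  wt q x.1.val * (wt q x.2.val)⁻¹

private theorem tr11_w_add {q : ℂ} (hq : q ≠ 0) {N : ℕ} (y : I2 n N) (i : Fin n) :
    tr11_w q ((y.1.add i, y.2.add i) : I2 n (N + 1)) = tr11_w q y := by
  unfold tr11_w
  simp only [Vn.add_val]
  rw [wt_add hq, wt_add hq, mul_inv]
  have h1 : q ^ ((n : ℤ) - 1 - 2 * (i : ℕ)) ≠ 0 := zpow_ne_zero _ hq
  have h2 : wt q y.2.val ≠ 0 := wt_ne hq _
  field_simp

private theorem tr11_DD {q : ℂ} (hq : q ≠ 0) {N : ℕ} (x : I2 n (N + 1)) (y : I2 n N) :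
    tr11_w q x * DD q n N x y = tr11_w q y * DD q n N x y := by
  unfold DD
  rw [Finset.mul_sum, Finset.mul_sum]
  refine Finset.sum_congr rfl fun i _ => ?_
  split_ifs with hc
  · have hx : x = (y.1.add i, y.2.add i) := Prod.ext hc.1 hc.2
    have hw : tr11_w q x = tr11_w q y := by
      rw [hx, tr11_w_add hq]
    rw [hw]
  · rw [mul_zero, mul_zero]

private theorem tr11_step {q : ℂ} (hq : q ≠ 0) (N : ℕ) (M : Matrix (I2 n N) (I2 n N) ℂ) :
    ∑ x : I2 n (N + 1), tr11_w q x * (DD q n N * M * CC q n N) x x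
      = ∑ y : I2 n N, tr11_w q y * (M * (CC q n N * DD q n N)) y y := by
  have h1 : ∀ x : I2 n (N + 1), tr11_w q x * (DD q n N * M * CC q n N) x x
      = ∑ y : I2 n N, tr11_w q y * (DD q n N x y * (M * CC q n N) y x) := by
    intro x
    rw [Matrix.mul_assoc, Matrix.mul_apply, Finset.mul_sum]
    refine Finset.sum_congr rfl fun y _ => ?_
    rw [← mul_assoc, tr11_DD hq, mul_assoc]
  rw [Finset.sum_congr rfl fun x _ => h1 x, Finset.sum_comm]
  refine Finset.sum_congr rfl fun y _ => ?_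
  rw [← Finset.mul_sum, ← Matrix.mul_assoc, Matrix.mul_apply (M := M * CC q n N)]
  congr 1
  exact Finset.sum_congr rfl fun x _ => mul_comm _ _

private theorem tr11_one (q : ℂ) (N : ℕ) (h : Gen q n N) (hn : 1 ≤ n) :
    ∑ x : I2 n N, tr11_w q x * (1 : Matrix (I2 n N) (I2 n N) ℂ) x x
      = dimS n N q ^ 2 := by
  have e1 := sum_wt q N h hn
  have e2 := sum_wt_inv q N h hn
  rw [sq]
  nth_rewrite 1 [← e1]
  rw [← e2, Finset.sum_mul_sum, Fintype.sum_prod_type]
  refine Finset.sum_congr rfl fun a _ => Finset.sum_congr rfl fun b _ => ?_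
  rw [Matrix.one_apply_eq, mul_one]
  rfl

theorem trq_Oh (q : ℂ) (N : ℕ) (h : Gen q n N) (hn : 2 ≤ n) (f : ℕ → ℂ) :
    trq q (Oh q n N f) = ∑ X ∈ Finset.range (N + 1), dimA n q X * f X := by
  have hn1 : 1 ≤ n := by omega
  have htr : ∀ (N : ℕ) (X : Matrix (I2 n N) (I2 n N) ℂ),
      trq q X = ∑ x : I2 n N, tr11_w q x * X x x := fun _ _ => rfl
  rw [htr]
  induction N generalizing f with
  | zero =>
    rw [Finset.sum_range_one]
    have h2 : ∀ x : I2 n 0, tr11_w q x * (Oh q n 0 f) x x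
        = f 0 * (tr11_w q x * (1 : Matrix (I2 n 0) (I2 n 0) ℂ) x x) := by
      intro x
      show tr11_w q x * (f 0 • (1 : Matrix (I2 n 0) (I2 n 0) ℂ)) x x = _
      rw [Matrix.smul_apply, smul_eq_mul]
      ring
    rw [Finset.sum_congr rfl fun x _ => h2 x, ← Finset.mul_sum, tr11_one q 0 h hn1,
      ← sum_dimA q 0 h hn, Finset.sum_range_one]
    ring
  | succ N ih =>
    have hN : Gen q n N := h.mono (Nat.le_succ N)
    have h2 : ∀ x : I2 n (N + 1), tr11_w q x * (Oh q n (N + 1) f) x x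
        = f (N + 1) * (tr11_w q x * (1 : Matrix (I2 n (N + 1)) (I2 n (N + 1)) ℂ) x x)
          + tr11_w q x * (DD q n N * Oh q n N (dv q n N f) * CC q n N) x x := by
      intro x
      show tr11_w q x * (f (N + 1) • (1 : Matrix (I2 n (N + 1)) (I2 n (N + 1)) ℂ)
        + DD q n N * Oh q n N (dv q n N f) * CC q n N) x x = _
      rw [Matrix.add_apply, Matrix.smul_apply, smul_eq_mul]
      ring
    rw [Finset.sum_congr rfl fun x _ => h2 x, Finset.sum_add_distrib, ← Finset.mul_sum,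
      tr11_one q (N + 1) h hn1, tr11_step h.1, CD_Oh q N h hn1, Oh_mul q N hN hn1, ih hN]
    have h3 : ∀ k ∈ Finset.range (N + 1),
        dimA n q k * (dv q n N f k * E1 q n (N + 1) k)
          = dimA n q k * f k - f (N + 1) * dimA n q k := by
      intro k hk
      rw [Finset.mem_range] at hk
      have h4 : E1 q n (N + 1) k ≠ 0 := E1_ne h hn1 hk
      unfold dv
      rw [div_mul_cancel₀ _ h4]
      ring
    rw [Finset.sum_congr rfl h3, Finset.sum_sub_distrib, ← Finset.mul_sum,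
      Finset.sum_range_succ (fun k => dimA n q k * f k) (N + 1),
      ← sum_dimA q (N + 1) h hn, Finset.sum_range_succ (fun k => dimA n q k) (N + 1)]
    ring

end Pool.Agent.H63.VC11
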