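import Pool.Agent.H63.VC11.Acts11
import Pool.Agent.H63.VC11.T11
import Pool.Agent.H63.VC11.Newton11
import Pool.Agent.H63.VC11.Tr11
import Pool.Agent.H63.VC10.TreeSum

/-! # The value of the diagram of a tree -/

namespace Pool.Agent.H63.VC11

open Pool.Agent.H63.VC7 Pool.Agent.H63.VC8 Matrix

variable {n m : ℕ}

theorem Bra11_replicate {q : ℂ} {N i : ℕ} {w : List Piece} {X : Matrix (I2 n N) (I2 n N) ℂ}
    (h : Acts q w i X) (r : ℕ) : Acts q (List.replicate r w).flatten i (X ^ r) := by
  induction r with
  | zero =>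
    rw [List.replicate_zero, List.flatten_nil, pow_zero]
    exact Acts_nil q i
  | succ r ih =>
    rw [List.replicate_succ, List.flatten_cons, pow_succ]
    exact Acts_append h ih

theorem Acts_twists (q : ℂ) (N : ℕ) (h : Gen q n N) (hn : 1 ≤ n) (r : ℤ) (i : ℕ) :
    Acts q (twists r true i) i (Oh q n N (tws q n N r)) ∧
      Acts q (twists r false i) i (flipM q (Oh q n N (tws q n N r))) := by
  obtain ⟨P, e, hP, he, hact⟩ : ∃ (P : ℕ → Piece) (e : ℤ),
      (if 0 < r then Piece.neg else Piece.pos) = P ∧ (if 0 < r then (-1 : ℤ) else 1) = e ∧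
      Acts q [P (i + 1)] (i + 1) (Rm q n N e) := by
    by_cases hr : 0 < r
    · refine ⟨Piece.neg, -1, ?_, ?_, Acts_neg q (i + 1)⟩
      · rw [if_pos hr]
      · rw [if_pos hr]
    · refine ⟨Piece.pos, 1, ?_, ?_, Acts_pos q (i + 1)⟩
      · rw [if_neg hr]
      · rw [if_neg hr]
  have h1 := Acts_crossUD hact
  have h2 := Acts_crossDU hact
  have hY := Y_twist q N h hn r
  rw [he] at hY
  constructor
  · have h3 := Bra11_replicate (Acts_append h1 h2) r.natAbs
    rw [X2_X1 q e h hn, hY] at h3
    unfold twists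
    dsimp only
    rw [hP, if_pos rfl]
    exact h3
  · have h3 := Bra11_replicate (Acts_append h2 h1) r.natAbs
    rw [X1_X2 q e h hn, ← flipM_pow q h.1, hY] at h3
    unfold twists
    dsimp only
    rw [hP, if_neg (by decide)]
    exact h3

theorem Bra11_flatMap (q : ℂ) (N : ℕ) (h : Gen q n N) (hn : 1 ≤ n) (i : ℕ)
    (T : Fin m → List Piece) (g : Fin m → ℕ → ℂ)
    (hT : ∀ j, Acts q (T j) i (Oh q n N (g j))) (l : List (Fin m)) :
    Acts q (l.flatMap T) i (Oh q n N (fun x => (l.map (fun j => g j x)).prod)) := by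
  induction l with
  | nil =>
    have h1 : Oh q n N (fun x => (([] : List (Fin m)).map (fun j => g j x)).prod)
        = (1 : Matrix (I2 n N) (I2 n N) ℂ) := by
      have := Oh_const (n := n) q N 1
      simpa using this
    rw [h1, List.flatMap_nil]
    exact Acts_nil q i
  | cons j l ih =>
    rw [List.flatMap_cons]
    have h1 := Acts_append (hT j) ih
    rw [Oh_mul q N h hn] at h1
    have h2 : (fun x => ((j :: l).map (fun j => g j x)).prod)
        = (fun x => (l.map (fun j => g j x)).prod * g j x) := by
      funext x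
      rw [List.map_cons, List.prod_cons, mul_comm]
    rw [h2]
    exact h1

theorem Bra11_flatMap_flip (q : ℂ) (N : ℕ) (h : Gen q n N) (hn : 1 ≤ n) (i : ℕ)
    (T : Fin m → List Piece) (g : Fin m → ℕ → ℂ)
    (hT : ∀ j, Acts q (T j) i (flipM q (Oh q n N (g j)))) (l : List (Fin m)) :
    Acts q (l.flatMap T) i (flipM q (Oh q n N (fun x => (l.map (fun j => g j x)).prod))) := by
  induction l with
  | nil =>
    have h1 : Oh q n N (fun x => (([] : List (Fin m)).map (fun j => g j x)).prod)
        = (1 : Matrix (I2 n N) (I2 n N) ℂ) := by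
      have := Oh_const (n := n) q N 1
      simpa using this
    rw [h1, flipM_one q h.1, List.flatMap_nil]
    exact Acts_nil q i
  | cons j l ih =>
    rw [List.flatMap_cons]
    have h1 := Acts_append (hT j) ih
    rw [← flipM_mul q h.1, Oh_mul q N h hn] at h1
    have h2 : (fun x => ((j :: l).map (fun j => g j x)).prod)
        = (fun x => (l.map (fun j => g j x)).prod * g j x) := by
      funext x
      rw [List.map_cons, List.prod_cons, mul_comm]
    rw [h2]
    exact h1

theorem Acts_tangle (q : ℂ) (N : ℕ) (h : Gen q n N) (hn : 1 ≤ n) (par : Fin m → Fin (m + 1))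
    (r : Fin (m + 1) → ℤ) (k : ℕ) (v : Fin (m + 1)) (i : ℕ) :
    Acts q (tangle par r k v true i) i (Oh q n N (fv q n N par r k v)) ∧
      Acts q (tangle par r k v false i) i (flipM q (Oh q n N (fv q n N par r k v))) := by
  induction k generalizing v i with
  | zero =>
    have h1 : fv q n N par r 0 v = fun _ => (1 : ℂ) := by
      funext x
      rfl
    rw [h1, Oh_const, one_smul, flipM_one q h.1]
    exact ⟨Acts_nil q i, Acts_nil q i⟩
  | succ k ih =>
    have h3 : fv q n N par r (k + 1) v = fun x =>
        (((List.finRange m).filter (fun j => par j = v)).map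
          (fun j => Ph q n N (fv q n N par r k j.succ) x)).prod * tws q n N (r v) x := by
      funext x
      show tws q n N (r v) x *
        ∏ j ∈ Finset.univ.filter (fun j => par j = v), Ph q n N (fv q n N par r k j.succ) x = _
      rw [mul_comm]
      congr 1
    constructor
    · have h1 := Bra11_flatMap q N h hn i
        (fun j => Piece.cupUD i :: (tangle par r k j.succ false (i + 1) ++ [Piece.capUD (i + 2)]))
        (fun j => Ph q n N (fv q n N par r k j.succ))
        (fun j => by
          rw [← rot_Oh q N h hn, ← rotU_flipM q h.1 _ (Oh_wt q N _)]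
          exact Acts_rotU (ih j.succ (i + 1)).2)
        ((List.finRange m).filter (fun j => par j = v))
      have h2 := Acts_append (Acts_twists q N h hn (r v) i).1 h1
      rw [Oh_mul q N h hn] at h2
      rw [h3]
      exact h2
    · have h1 := Bra11_flatMap_flip q N h hn i
        (fun j => Piece.cupDU (i + 2) :: (tangle par r k j.succ true (i + 1) ++ [Piece.capDU i]))
        (fun j => Ph q n N (fv q n N par r k j.succ))
        (fun j => by
          rw [← rot_Oh q N h hn, ← rotD_eq q h.1 _ (Oh_wt q N _)]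
          exact Acts_rotD (ih j.succ (i + 1)).1)
        ((List.finRange m).filter (fun j => par j = v))
      have h2 := Acts_append (Acts_twists q N h hn (r v) i).2 h1
      rw [← flipM_mul q h.1, Oh_mul q N h hn] at h2
      rw [h3]
      exact h2

theorem bracket_eq_fv (q : ℂ) (N : ℕ) (h : Gen q n N) (hn : 2 ≤ n) (par : Fin m → Fin (m + 1))
    (r : Fin (m + 1) → ℤ) :
    bracket q n N (diagram par r) =
      ∑ X ∈ Finset.range (N + 1), dimA n q X * fv q n N par r (m + 1) 0 X := by
  unfold diagram
  rw [bracket_closure (Acts_tangle q N h (by omega) par r (m + 1) 0 0).1, trq_Oh q N h hn]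

theorem Bra11_writhe_append (w1 w2 : List Piece) :
    writhe (w1 ++ w2) = writhe w1 + writhe w2 := by
  induction w1 with
  | nil => simp [writhe]
  | cons x w ih =>
    cases x <;> simp only [List.cons_append, writhe, ih] <;> ring

theorem Bra11_writhe_replicate (w : List Piece) (r : ℕ) :
    writhe (List.replicate r w).flatten = r * writhe w := by
  induction r with
  | zero => simp [writhe]
  | succ r ih =>
    rw [List.replicate_succ, List.flatten_cons, Bra11_writhe_append, ih]
    push_cast
    ring

theorem Bra11_writhe_twists (r : ℤ) (o : Bool) (i : ℕ) : writhe (twists r o i) = -2 * r := by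
  unfold twists
  dsimp only
  rw [Bra11_writhe_replicate]
  by_cases hr : 0 < r
  · rw [if_pos hr]
    have h1 : (r.natAbs : ℤ) = r := Int.natAbs_of_nonneg hr.le
    rw [h1]
    cases o <;> simp [crossUD, crossDU, writhe] <;> ring
  · rw [if_neg hr]
    have h1 : (r.natAbs : ℤ) = -r := Int.ofNat_natAbs_of_nonpos (by omega)
    rw [h1]
    cases o <;> simp [crossUD, crossDU, writhe] <;> ring

/-- The sum of the numbers of twists of the subtree at `v`. -/
def Bra11_ws (par : Fin m → Fin (m + 1)) (r : Fin (m + 1) → ℤ) : ℕ → Fin (m + 1) → ℤ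
  | 0, _ => 0
  | k + 1, v => r v + ∑ j ∈ Finset.univ.filter (fun j => par j = v), Bra11_ws par r k j.succ

theorem Bra11_writhe_flatMap (T : Fin m → List Piece) (l : List (Fin m)) :
    writhe (l.flatMap T) = (l.map (fun j => writhe (T j))).sum := by
  induction l with
  | nil => simp [writhe]
  | cons j l ih =>
    rw [List.flatMap_cons, Bra11_writhe_append, ih, List.map_cons, List.sum_cons]

theorem Bra11_sum_filter (p : Fin m → Prop) [DecidablePred p] (f : Fin m → ℤ) :
    ((((List.finRange m).filter (fun j => p j)).map f).sum : ℤ) =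
      ∑ j ∈ Finset.univ.filter (fun j => p j), f j := by
  rfl

theorem Bra11_writhe_tangle (par : Fin m → Fin (m + 1)) (r : Fin (m + 1) → ℤ) (k : ℕ) :
    ∀ (v : Fin (m + 1)) (o : Bool) (i : ℕ),
      writhe (tangle par r k v o i) = -2 * Bra11_ws par r k v := by
  induction k with
  | zero =>
    intro v o i
    cases o <;> simp [tangle, writhe, Bra11_ws]
  | succ k ih =>
    intro v o i
    cases o with
    | true =>
      rw [tangle, Bra11_writhe_append, Bra11_writhe_twists, Bra11_writhe_flatMap, Bra11_ws,
        mul_add, Finset.mul_sum, Bra11_sum_filter]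
      congr 1
      refine Finset.sum_congr rfl fun j _ => ?_
      simp only [writhe, Bra11_writhe_append, ih, add_zero]
    | false =>
      rw [tangle, Bra11_writhe_append, Bra11_writhe_twists, Bra11_writhe_flatMap, Bra11_ws,
        mul_add, Finset.mul_sum, Bra11_sum_filter]
      congr 1
      refine Finset.sum_congr rfl fun j _ => ?_
      simp only [writhe, Bra11_writhe_append, ih, add_zero]

theorem Bra11_ws_trs (par : Fin m → Fin (m + 1)) (r : Fin (m + 1) → ℤ) (k : ℕ) :
    ∀ v : Fin (m + 1), VC10.trs 0 (fun _ _ => 1) par (fun i _ => (2 : ℂ) ^ (r i)) k v 0 =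
      (2 : ℂ) ^ (Bra11_ws par r k v) := by
  induction k with
  | zero =>
    intro v
    simp [VC10.trs, Bra11_ws]
  | succ k ih =>
    intro v
    rw [VC10.trs, Bra11_ws, zpow_add₀ two_ne_zero]
    congr 1
    have h1 : ∀ (s : Finset (Fin m)) (f : Fin m → ℤ),
        (2 : ℂ) ^ (∑ j ∈ s, f j) = ∏ j ∈ s, (2 : ℂ) ^ (f j) := by
      intro s f
      classical
      induction s using Finset.induction_on with
      | empty => simp
      | insert a s ha ih2 =>
        rw [Finset.sum_insert ha, Finset.prod_insert ha, zpow_add₀ two_ne_zero, ih2]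
    rw [h1]
    refine Finset.prod_congr rfl fun j _ => ?_
    rw [zero_add, Finset.sum_range_one, one_mul, ih]

theorem Bra11_ws_eq (par : Fin m → Fin (m + 1)) (hpar : ∀ j, par j ≤ j.castSucc)
    (r : Fin (m + 1) → ℤ) : Bra11_ws par r (m + 1) 0 = ∑ i, r i := by
  have h1 := VC10.trs_eq 0 (fun _ _ => 1) m par hpar (fun i _ => (2 : ℂ) ^ (r i))
  rw [zero_add, Finset.sum_range_one, Bra11_ws_trs] at h1
  have h2 : ∑ X ∈ Fintype.piFinset (fun _ : Fin (m + 1) => Finset.range 1),
      (∏ i, (2 : ℂ) ^ (r i)) * ∏ _j : Fin m, (1 : ℂ) = ∏ i, (2 : ℂ) ^ (r i) := by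
    rw [Finset.sum_const, Fintype.card_piFinset]
    simp
  rw [h2] at h1
  have h3 : ∏ i, (2 : ℂ) ^ (r i) = (2 : ℂ) ^ (∑ i, r i) := by
    have h4 : ∀ (s : Finset (Fin (m + 1))),
        (2 : ℂ) ^ (∑ j ∈ s, r j) = ∏ j ∈ s, (2 : ℂ) ^ (r j) := by
      intro s
      classical
      induction s using Finset.induction_on with
      | empty => simp
      | insert a s ha ih2 =>
        rw [Finset.sum_insert ha, Finset.prod_insert ha, zpow_add₀ two_ne_zero, ih2]
    exact (h4 _).symm
  rw [h3] at h1
  have h5 : ((2 : ℝ) : ℂ) ^ (Bra11_ws par r (m + 1) 0) = ((2 : ℝ) : ℂ) ^ (∑ i, r i) := by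
    simpa using h1
  rw [← Complex.ofReal_zpow, ← Complex.ofReal_zpow, Complex.ofReal_inj] at h5
  exact zpow_right_injective₀ (by norm_num) (by norm_num) h5

theorem writhe_diagram (par : Fin m → Fin (m + 1)) (hpar : ∀ j, par j ≤ j.castSucc)
    (r : Fin (m + 1) → ℤ) : writhe (diagram par r) = -2 * ∑ i, r i := by
  unfold diagram
  rw [Bra11_writhe_append, Bra11_writhe_append, Bra11_writhe_tangle, Bra11_ws_eq par hpar]
  simp [writhe]

end Pool.Agent.H63.VC11
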