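import Pool.Agent.H63.VC11.Num11

/-! # The relation between `CC` and `DD` -/

namespace Pool.Agent.H63.VC11

open Pool.Agent.H63.VC7 Pool.Agent.H63.VC8 Matrix

variable {n : ℕ}

theorem CD11_qn_one_mul (q : ℂ) (k : ℤ) : qn q 1 * qn q k = qn q k := by
  by_cases h : br q 1 = 0
  · unfold qn; rw [h]; simp
  · rw [qn_one q h, one_mul]

theorem CD11_diff (q : ℂ) (hq : q ≠ 0) (a b : ℤ) :
    qn q (b + 1) * qn q (a + 1) = qn q a * qn q b + qn q (a + b + 1) := by
  have h := qn_three_term q hq (a + 1) (-b) (-1)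
  rw [show (-b + -1 : ℤ) = -(b + 1) by ring, show (a + 1 + -1 : ℤ) = a by ring,
    show (a + 1 - -b : ℤ) = a + b + 1 by ring, qn_neg, qn_neg, qn_neg, neg_mul,
    CD11_qn_one_mul] at h
  linear_combination -h

theorem CD11_comm {N : ℕ} (z : Vn n N) (i j : Fin n) : (z.add j).add i = (z.add i).add j :=
  Vn.ext (by simp [add_right_comm])

theorem CD11_split {N : ℕ} {x y : Vn n (N + 1)} {i j : Fin n} (hij : i ≠ j)
    (h : x.add i = y.add j) : ∃ z : Vn n N, x = z.add j ∧ y = z.add i := by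
  have hv := congrArg Vn.val h
  simp only [Vn.add_val] at hv
  have hj : x.val j ≠ 0 := by
    have := congrFun hv j
    rw [add_single_ne _ (Ne.symm hij), add_single_self] at this
    omega
  obtain ⟨z, rfl⟩ := Vn.exists_add hj
  refine ⟨z, rfl, ?_⟩
  rw [CD11_comm] at h
  exact (Vn.add_inj.1 h).symm

theorem CD_zero (q : ℂ) (hq : q ≠ 0) : CC q n 0 * DD q n 0 = qn q n • 1 := by
  have hu : ∀ x y : Vn n 0, x = y := by
    intro x y
    apply Vn.ext
    funext i
    have hx := (Finset.sum_eq_zero_iff.1 x.sum) i (Finset.mem_univ _)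
    have hy := (Finset.sum_eq_zero_iff.1 y.sum) i (Finset.mem_univ _)
    rw [hx, hy]
  have h0 : ∀ (x : Vn n 0), x.val = 0 := by
    intro x
    funext i
    exact (Finset.sum_eq_zero_iff.1 x.sum) i (Finset.mem_univ _)
  ext x y
  have hxy : x = y := Prod.ext (hu _ _) (hu _ _)
  subst hxy
  rw [CC_mul, Matrix.smul_apply, Matrix.one_apply_eq, smul_eq_mul, mul_one]
  have hD : ∀ i : Fin n, DD q n 0 (x.1.add i, x.2.add i) x = qn q 1 := by
    intro i
    unfold DD
    rw [Finset.sum_eq_single i]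
    · rw [if_pos ⟨rfl, rfl⟩]
      simp only [Vn.add_val, h0, zero_add, Pi.single_eq_same]
      have : hi (0 : Fin n → ℕ) i - lo (0 : Fin n → ℕ) i = 0 := by
        simp [hi, lo]
      rw [this]
      simp
    · intro j _ hj
      rw [if_neg]
      rintro ⟨h1, -⟩
      have := congrFun (congrArg Vn.val h1) j
      simp only [Vn.add_val, h0, zero_add] at this
      rw [Pi.single_eq_same, Pi.single_eq_of_ne hj] at this
      exact absurd this (by norm_num)
    · intro h; exact absurd (Finset.mem_univ _) h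
  simp only [hD]
  have h := sum_hi_lo_succ (n := n) q hq 0
  simp only [Pi.zero_apply, Nat.cast_zero, zero_add, Finset.sum_const_zero] at h
  rw [← h]
  refine Finset.sum_congr rfl fun i _ => ?_
  simp only [h0, Pi.zero_apply, Nat.cast_zero, zero_add]
  linear_combination q ^ ((n : ℤ) - 1 - 2 * (i : ℕ)) * q ^ (hi (0 : Fin n → ℕ) i -
    lo (0 : Fin n → ℕ) i) * CD11_qn_one_mul q 1

/-- The `(i, j)` term of `CC * DD`. -/
noncomputable def CD11_L (q : ℂ) {N : ℕ} (x y : I2 n (N + 1)) (i j : Fin n) : ℂ :=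
  if x.1.add i = y.1.add j ∧ x.2.add i = y.2.add j then
    q ^ ((n : ℤ) - 1 - 2 * (i : ℕ)) *
      (qn q ((x.2.val i : ℤ) + 1) * q ^ (hi x.2.val i - lo x.1.val i)) *
      (qn q ((x.1.add i).val j) * q ^ (hi y.1.val j - lo y.2.val j)) else 0

/-- The `(i, j)` term of `DD * CC`. -/
noncomputable def CD11_R (q : ℂ) {N : ℕ} (x y : I2 n (N + 1)) (i j : Fin n) : ℂ :=
  ∑ z : I2 n N, (if x.1 = z.1.add j ∧ x.2 = z.2.add j then
    qn q (x.1.val j) * q ^ (hi z.1.val j - lo z.2.val j) else 0) *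
    (if y.1 = z.1.add i ∧ y.2 = z.2.add i then
    q ^ ((n : ℤ) - 1 - 2 * (i : ℕ)) * (qn q (y.2.val i) * q ^ (hi z.2.val i - lo z.1.val i)) else 0)

theorem CD11_ne (q : ℂ) (hq : q ≠ 0) {N : ℕ} (x y : I2 n (N + 1)) {i j : Fin n} (hij : i ≠ j) :
    CD11_L q x y i j = CD11_R q x y i j := by
  unfold CD11_L CD11_R
  split_ifs with h
  · obtain ⟨z1, hx1, hy1⟩ := CD11_split hij h.1
    obtain ⟨z2, hx2, hy2⟩ := CD11_split hij h.2
    rw [Finset.sum_eq_single (z1, z2)]
    · rw [if_pos ⟨hx1, hx2⟩, if_pos ⟨hy1, hy2⟩, hx1, hx2, hy1, hy2]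
      simp only [Vn.add_val, hi_add, lo_add, add_single_ne _ hij, add_single_ne _ (Ne.symm hij),
        add_single_self]
      have he : q ^ (hi z2.val i + (if i < j then 1 else 0) -
          (lo z1.val i + if j < i then 1 else 0)) *
          q ^ (hi z1.val j + (if j < i then 1 else 0) - (lo z2.val j + if i < j then 1 else 0)) =
          q ^ (hi z1.val j - lo z2.val j) * q ^ (hi z2.val i - lo z1.val i) := by
        rw [← zpow_add₀ hq, ← zpow_add₀ hq]
        congr 1
        ring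
      push_cast
      linear_combination (q ^ ((n : ℤ) - 1 - 2 * (i : ℕ)) * qn q ((z2.val i : ℤ) + 1) *
        qn q ((z1.val j : ℤ) + 1)) * he
    · intro z _ hz
      rw [if_neg, zero_mul]
      rintro ⟨h1, h2⟩
      rw [hx1] at h1
      rw [hx2] at h2
      exact hz (Prod.ext (Vn.add_inj.1 h1).symm (Vn.add_inj.1 h2).symm)
    · intro h'; exact absurd (Finset.mem_univ _) h'
  · symm
    refine Finset.sum_eq_zero fun z _ => ?_
    by_cases h1 : x.1 = z.1.add j ∧ x.2 = z.2.add j
    · by_cases h2 : y.1 = z.1.add i ∧ y.2 = z.2.add i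
      · exfalso
        apply h
        rw [h1.1, h1.2, h2.1, h2.2]
        exact ⟨CD11_comm _ _ _, CD11_comm _ _ _⟩
      · rw [if_neg h2, mul_zero]
    · rw [if_neg h1, zero_mul]

theorem CD11_eq (q : ℂ) (hq : q ≠ 0) {N : ℕ} (x y : I2 n (N + 1)) (i : Fin n) :
    CD11_L q x y i i = CD11_R q x y i i + (if x = y then
      q ^ ((n : ℤ) - 1 - 2 * (i : ℕ)) * (qn q (((x.1.val + x.2.val) i : ℕ) + 1) *
        q ^ (hi (x.1.val + x.2.val) i - lo (x.1.val + x.2.val) i)) else 0) := by
  unfold CD11_L CD11_R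
  by_cases hxy : x = y
  · subst hxy
    rw [if_pos ⟨rfl, rfl⟩, if_pos rfl]
    have hs : ∀ a b : Fin n → ℕ, hi (a + b) i = hi a i + hi b i := by
      intro a b; simp [hi, Finset.sum_add_distrib]
    have hs' : ∀ a b : Fin n → ℕ, lo (a + b) i = lo a i + lo b i := by
      intro a b; simp [lo, Finset.sum_add_distrib]
    have hR : (∑ z : I2 n N, (if x.1 = z.1.add i ∧ x.2 = z.2.add i then
        qn q (x.1.val i) * q ^ (hi z.1.val i - lo z.2.val i) else 0) *
        (if x.1 = z.1.add i ∧ x.2 = z.2.add i then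
        q ^ ((n : ℤ) - 1 - 2 * (i : ℕ)) * (qn q (x.2.val i) *
          q ^ (hi z.2.val i - lo z.1.val i)) else 0)) =
        q ^ ((n : ℤ) - 1 - 2 * (i : ℕ)) * (qn q (x.1.val i) * qn q (x.2.val i) *
          (q ^ (hi x.2.val i - lo x.1.val i) * q ^ (hi x.1.val i - lo x.2.val i))) := by
      by_cases h : x.1.val i ≠ 0 ∧ x.2.val i ≠ 0
      · obtain ⟨z1, hx1⟩ := Vn.exists_add h.1
        obtain ⟨z2, hx2⟩ := Vn.exists_add h.2
        rw [Finset.sum_eq_single (z1, z2)]
        · rw [if_pos ⟨hx1, hx2⟩, if_pos ⟨hx1, hx2⟩, hx1, hx2]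
          simp only [Vn.add_val, hi_add_self, lo_add_self]
          ring
        · intro z _ hz
          rw [if_neg, zero_mul]
          rintro ⟨h1, h2⟩
          rw [hx1] at h1
          rw [hx2] at h2
          exact hz (Prod.ext (Vn.add_inj.1 h1).symm (Vn.add_inj.1 h2).symm)
        · intro h'; exact absurd (Finset.mem_univ _) h'
      · rw [Finset.sum_eq_zero]
        · rw [not_and_or, not_not, not_not] at h
          rcases h with h | h
          · rw [h, Nat.cast_zero, qn_zero]; ring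
          · rw [h, Nat.cast_zero, qn_zero]; ring
        · intro z _
          rw [if_neg, zero_mul]
          rintro ⟨h1, h2⟩
          apply h
          rw [h1, h2]
          simp
    rw [hR]
    simp only [Vn.add_val, hs, hs', Pi.add_apply, Pi.single_eq_same]
    have hd := CD11_diff q hq (x.1.val i) (x.2.val i)
    have he : q ^ (hi x.1.val i + hi x.2.val i - (lo x.1.val i + lo x.2.val i)) =
        q ^ (hi x.2.val i - lo x.1.val i) * q ^ (hi x.1.val i - lo x.2.val i) := by
      rw [← zpow_add₀ hq]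
      congr 1
      ring
    rw [he]
    push_cast
    linear_combination (q ^ ((n : ℤ) - 1 - 2 * (i : ℕ)) * q ^ (hi x.2.val i - lo x.1.val i) *
      q ^ (hi x.1.val i - lo x.2.val i)) * hd
  · rw [if_neg hxy, add_zero, if_neg]
    · symm
      refine Finset.sum_eq_zero fun z _ => ?_
      by_cases h1 : x.1 = z.1.add i ∧ x.2 = z.2.add i
      · by_cases h2 : y.1 = z.1.add i ∧ y.2 = z.2.add i
        · exact absurd (Prod.ext (h1.1.trans h2.1.symm) (h1.2.trans h2.2.symm)) hxy
        · rw [if_neg h2, mul_zero]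
      · rw [if_neg h1, zero_mul]
    · rintro ⟨h1, h2⟩
      exact hxy (Prod.ext (Vn.add_inj.1 h1) (Vn.add_inj.1 h2))

theorem CD_succ (q : ℂ) (hq : q ≠ 0) (N : ℕ) :
    CC q n (N + 1) * DD q n (N + 1) = DD q n N * CC q n N + qn q (2 * (N : ℤ) + n + 2) • 1 := by
  ext x y
  have hL : (CC q n (N + 1) * DD q n (N + 1)) x y = ∑ i, ∑ j, CD11_L q x y i j := by
    rw [CC_mul]
    refine Finset.sum_congr rfl fun i _ => ?_
    unfold DD CD11_L
    rw [Finset.mul_sum]
    refine Finset.sum_congr rfl fun j _ => ?_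
    rw [mul_ite, mul_zero]
  have hR : (DD q n N * CC q n N) x y = ∑ i, ∑ j, CD11_R q x y i j := by
    rw [Matrix.mul_apply]
    unfold DD CC CD11_R
    simp only [Finset.sum_mul_sum]
    rw [Finset.sum_comm]
    have : ∀ j : Fin n, (∑ z : I2 n N, ∑ i : Fin n,
        (if x.1 = z.1.add j ∧ x.2 = z.2.add j then
        qn q (x.1.val j) * q ^ (hi z.1.val j - lo z.2.val j) else 0) *
        (if y.1 = z.1.add i ∧ y.2 = z.2.add i then
        q ^ ((n : ℤ) - 1 - 2 * (i : ℕ)) * (qn q (y.2.val i) *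
        q ^ (hi z.2.val i - lo z.1.val i)) else 0)) = ∑ i : Fin n, ∑ z : I2 n N,
        (if x.1 = z.1.add j ∧ x.2 = z.2.add j then
        qn q (x.1.val j) * q ^ (hi z.1.val j - lo z.2.val j) else 0) *
        (if y.1 = z.1.add i ∧ y.2 = z.2.add i then
        q ^ ((n : ℤ) - 1 - 2 * (i : ℕ)) * (qn q (y.2.val i) *
        q ^ (hi z.2.val i - lo z.1.val i)) else 0) := fun j => Finset.sum_comm
    rw [Finset.sum_congr rfl fun j _ => this j, Finset.sum_comm]
  rw [Matrix.add_apply, hL, hR, Matrix.smul_apply, Matrix.one_apply, smul_eq_mul]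
  have hi1 : ∀ i : Fin n, ∑ j, CD11_L q x y i j = ∑ j, CD11_R q x y i j +
      (if x = y then
      q ^ ((n : ℤ) - 1 - 2 * (i : ℕ)) * (qn q (((x.1.val + x.2.val) i : ℕ) + 1) *
        q ^ (hi (x.1.val + x.2.val) i - lo (x.1.val + x.2.val) i)) else 0) := by
    intro i
    rw [← Finset.add_sum_erase _ _ (Finset.mem_univ i),
      ← Finset.add_sum_erase (Finset.univ) (fun j => CD11_R q x y i j) (Finset.mem_univ i),
      CD11_eq q hq]
    have : ∑ j ∈ Finset.univ.erase i, CD11_L q x y i j =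
        ∑ j ∈ Finset.univ.erase i, CD11_R q x y i j := by
      refine Finset.sum_congr rfl fun j hj => ?_
      exact CD11_ne q hq x y (Ne.symm (Finset.ne_of_mem_erase hj))
    rw [this]
    ring
  rw [Finset.sum_congr rfl fun i _ => hi1 i, Finset.sum_add_distrib]
  congr 1
  split_ifs with h
  · rw [mul_one]
    have h := sum_hi_lo_succ q hq (x.1.val + x.2.val)
    rw [h]
    congr 1
    simp only [Pi.add_apply, Finset.sum_add_distrib, x.1.sum, x.2.sum]
    push_cast
    ring
  · simp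

end Pool.Agent.H63.VC11
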