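import Pool.Agent.H63.VC11.Vand11

/-! # Checks of the definition: the fundamental representation, straight strands, the unknot -/

namespace Pool.Agent.H63.VC11

open Pool.Agent.H63.VC7 Pool.Agent.H63.VC8

variable {n : ℕ}

private theorem ChkA11_single_inj {i j : Fin n} :
    (Pi.single i 1 : Fin n → ℕ) = Pi.single j 1 ↔ i = j := by
  constructor
  · intro h
    by_contra hij
    have := congrFun h i
    simp [hij] at this
  · rintro rfl; rfl

private theorem ChkA11_hi_single (k l : Fin n) :
    hi (Pi.single l 1 : Fin n → ℕ) k = if k < l then 1 else 0 := by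
  have h := hi_add (0 : Fin n → ℕ) l k
  rw [zero_add] at h
  rw [h]
  simp [hi]

private theorem ChkA11_lo_single (k l : Fin n) :
    lo (Pi.single l 1 : Fin n → ℕ) k = if l < k then 1 else 0 := by
  have h := lo_add (0 : Fin n → ℕ) l k
  rw [zero_add] at h
  rw [h]
  simp [lo]

private theorem ChkA11_two (q : ℂ) (hq : q ≠ 0) (h : br q 1 ≠ 0) : qn q 2 = q + q⁻¹ := by
  have h1 := qn_add q hq 1 1
  rw [qn_one q h] at h1
  rw [show (2 : ℤ) = 1 + 1 by norm_num, ← h1]
  simp

private theorem ChkA11_EF (q : ℂ) (hq : q ≠ 0) (hb : br q 1 ≠ 0) (i j k l : Fin n) :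
    opE q (opF q (fun p => if p = (Pi.single i 1, Pi.single j 1) then 1 else 0))
      (Pi.single k 1, Pi.single l 1) =
      (if k = j ∧ l = i then (if i = j then q + q⁻¹ else 1) else 0) +
        (if i ≠ j ∧ k = i ∧ l = j then (if j < i then q else q⁻¹) else 0) := by
  have h1 : ((1 : ℕ) : ℤ) = 1 := rfl
  unfold opE
  rw [Finset.sum_eq_single k]
  rotate_left
  · intro b _ hbk
    have : (Pi.single k 1 : Fin n → ℕ) b = 0 := by simp [hbk]
    simp only [this, Nat.cast_zero, qn_zero, mul_zero, zero_mul]
  · intro h; exact absurd (Finset.mem_univ _) h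
  simp only [Pi.single_eq_same, h1, qn_one q hb, mul_one, ChkA11_hi_single, lt_irrefl, if_false]
  unfold opF
  rw [Finset.sum_eq_single i]
  rotate_left
  · intro b _ hbi
    dsimp only
    rw [if_neg, mul_zero]
    intro h
    have h2 := congrArg Prod.fst h
    simp only [tsub_self, zero_add] at h2
    exact hbi (ChkA11_single_inj.1 h2)
  · intro h; exact absurd (Finset.mem_univ _) h
  simp only [tsub_self, zero_add, Prod.mk.injEq, true_and]
  have hlo0 : lo (0 : Fin n → ℕ) i = 0 := by simp [lo]
  rw [lo_add, ChkA11_lo_single, hlo0, sub_zero]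
  by_cases hli : l = i
  · subst hli
    have he : (Pi.single l 1 + Pi.single k 1 - Pi.single l 1 : Fin n → ℕ) = Pi.single k 1 := by
      funext x; simp
    rw [he]
    simp only [ChkA11_single_inj, lt_irrefl, if_false, and_true, zero_add]
    by_cases hkl : k = l
    · subst hkl
      simp only [lt_irrefl, if_false, sub_self, zpow_zero, one_mul, Pi.add_apply,
        Pi.single_eq_same, true_and]
      rw [show (((1 + 1 : ℕ) : ℕ) : ℤ) = 2 by norm_num, ChkA11_two q hq hb]
      by_cases hkj : k = j
      · simp [hkj]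
      · simp [hkj]
    · have hv : (Pi.single l 1 + Pi.single k 1 : Fin n → ℕ) l = 1 := by
        simp [Ne.symm hkl]
      rw [hv, h1, qn_one q hb]
      by_cases hkj : k = j
      · subst hkj
        have hlk : ¬ l = k := fun h => hkl h.symm
        simp only [if_true, true_and, hlk, if_false, hkl, false_and, and_false, add_zero, mul_one]
        by_cases hlt : k < l
        · simp only [hlt, if_true]
          rw [← zpow_add₀ hq]; simp
        · simp [hlt]
      · simp [hkj, hkl]
  · by_cases hki : k = i
    · subst hki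
      have he : (Pi.single l 1 + Pi.single k 1 - Pi.single k 1 : Fin n → ℕ) = Pi.single l 1 := by
        funext x; simp
      rw [he]
      have hv : (Pi.single l 1 + Pi.single k 1 : Fin n → ℕ) k = 1 := by
        have : (Pi.single l 1 : Fin n → ℕ) k = 0 := by simp [Ne.symm hli]
        simp [this]
      rw [hv, h1, qn_one q hb]
      simp only [ChkA11_single_inj, lt_irrefl, if_false, add_zero, hli, and_false, true_and,
        mul_one, zero_add]
      by_cases hlj : l = j
      · subst hlj
        have hkl : k ≠ l := fun h => hli h.symm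
        simp only [if_true, hkl, ne_eq, not_false_eq_true, and_self, mul_one]
        rcases lt_trichotomy k l with h | h | h
        · simp [h, not_lt_of_gt h]
        · exact absurd h hkl
        · simp [h, not_lt_of_gt h]
      · simp [hlj]
    · have hv : (Pi.single l 1 + Pi.single k 1 : Fin n → ℕ) i = 0 := by
        simp [Ne.symm hli, Ne.symm hki]
      rw [hv]
      simp [qn_zero, hli, hki]

private theorem ChkA11_opR (q : ℂ) (e : ℤ) (hb : br q 1 ≠ 0) (ψ : (Fin n → ℕ) × (Fin n → ℕ) → ℂ)
    (x : (Fin n → ℕ) × (Fin n → ℕ)) :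
    opR q 1 e ψ x = -(q ^ (-e)) * ψ x + opE q (opF q ψ) x := by
  unfold opR
  rw [Finset.sum_range_succ, Finset.sum_range_one]
  have h1 : qf q 1 = 1 := by
    rw [show (1 : ℕ) = 0 + 1 from rfl, qf_succ, qf_zero]; simp [qn_one q hb]
  have h2 : e * (((1 : ℕ) : ℤ) - ((1 : ℕ) : ℤ)) = 0 := by ring
  have h3 : e * (((0 : ℕ) : ℤ) - ((1 : ℕ) : ℤ)) = -e := by push_cast; ring
  rw [h1, h2, h3, qf_zero]
  simp only [Function.iterate_zero, id_eq, Function.iterate_one]
  norm_num

/-- For `N = 1` the crossing is the standard `R`-matrix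
`x_i ⊗ x_j ↦ q ^ δ_ij x_j ⊗ x_i + [i > j] (q - q⁻¹) x_i ⊗ x_j`. -/
theorem R_one (q : ℂ) (hg : Gen q n 1) (i j k l : Fin n) :
    opR q 1 1 (fun p => if p = (Pi.single i 1, Pi.single j 1) then 1 else 0)
      (Pi.single k 1, Pi.single l 1) =
      (if k = j ∧ l = i then (if i = j then q else 1) else 0) +
        (if j < i ∧ k = i ∧ l = j then q - q⁻¹ else 0) := by
  have hn : 1 ≤ n := by have := i.2; omega
  have hb := hg.br_one hn
  rw [ChkA11_opR q 1 hb, ChkA11_EF q hg.1 hb]
  simp only [Prod.mk.injEq, ChkA11_single_inj, zpow_neg, zpow_one]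
  by_cases h1 : k = i
  · by_cases h2 : l = j
    · subst h1; subst h2
      rcases lt_trichotomy k l with h | h | h
      · have hne : k ≠ l := ne_of_lt h
        simp [h, hne, not_lt_of_gt h]
      · subst h; simp
      · have hne : k ≠ l := ne_of_gt h
        simp [h, hne]; ring
    · subst h1; simp [h2]
      by_cases h3 : k = j
      · subst h3; simp [h2]
      · simp [h3]
  · simp [h1]
    by_cases h3 : k = j ∧ l = i
    · have h4 : ¬ i = j := fun h => h1 (by rw [h]; exact h3.1)
      simp [h3, h4]
    · simp [h3]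

theorem R_one_inv (q : ℂ) (hg : Gen q n 1) (i j k l : Fin n) :
    opR q 1 (-1) (fun p => if p = (Pi.single i 1, Pi.single j 1) then 1 else 0)
      (Pi.single k 1, Pi.single l 1) =
      (if k = j ∧ l = i then (if i = j then q⁻¹ else 1) else 0) -
        (if i < j ∧ k = i ∧ l = j then q - q⁻¹ else 0) := by
  have hn : 1 ≤ n := by have := i.2; omega
  have hb := hg.br_one hn
  rw [ChkA11_opR q (-1) hb, ChkA11_EF q hg.1 hb]
  simp only [Prod.mk.injEq, ChkA11_single_inj, neg_neg, zpow_one]
  by_cases h1 : k = i
  · by_cases h2 : l = j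
    · subst h1; subst h2
      rcases lt_trichotomy k l with h | h | h
      · have hne : k ≠ l := ne_of_lt h
        simp [h, hne, not_lt_of_gt h]; ring
      · subst h; simp
      · have hne : k ≠ l := ne_of_gt h
        simp [h, hne, not_lt_of_gt h]
    · subst h1; simp [h2]
      by_cases h3 : k = j
      · subst h3; simp [h2]
      · simp [h3]
  · simp [h1]
    by_cases h3 : k = j ∧ l = i
    · have h4 : ¬ i = j := fun h => h1 (by rw [h]; exact h3.1)
      simp [h3, h4]
    · simp [h3]

/-- A strand with a minimum and a maximum can be straightened. -/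
theorem zigzag (q : ℂ) (hq : q ≠ 0) (N : ℕ) (a : Vn n N) (ψ : List (Fin n → ℕ) → ℂ) :
    eval q n N [Piece.cupUD 0, Piece.capDU 1] ψ [a.val] = ψ [a.val] ∧
      eval q n N [Piece.cupDU 1, Piece.capUD 0] ψ [a.val] = ψ [a.val] ∧
      eval q n N [Piece.cupDU 0, Piece.capUD 1] ψ [a.val] = ψ [a.val] ∧
      eval q n N [Piece.cupUD 1, Piece.capDU 0] ψ [a.val] = ψ [a.val] := by
  have hw := wt_ne hq a.val
  refine ⟨?_, ?_, ?_, ?_⟩
  · simp only [eval, act, List.drop_zero, List.take_zero, List.take_succ_cons, List.drop_succ_cons,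
      List.nil_append, List.cons_append, List.drop_nil, List.take_nil]
    rw [sum_Vn (N := N) (fun b => if a.val = b ∧ ∑ j, a.val j = N then ψ [b] else 0),
      Finset.sum_eq_single a]
    · rw [if_pos ⟨rfl, a.sum⟩]
    · intro b _ hb
      rw [if_neg]
      rintro ⟨h, _⟩
      exact hb (Vn.ext h.symm)
    · intro h; exact absurd (Finset.mem_univ _) h
  · simp only [eval, act, List.drop_zero, List.take_zero, List.take_succ_cons, List.drop_succ_cons,
      List.nil_append, List.cons_append, List.drop_nil, List.take_nil]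
    rw [sum_Vn (N := N) (fun b => wt q b * if b = a.val ∧ ∑ j, b j = N then
        (wt q b)⁻¹ * ψ [b] else 0),
      Finset.sum_eq_single a]
    · rw [if_pos ⟨rfl, a.sum⟩, mul_inv_cancel_left₀ hw]
    · intro b _ hb
      rw [if_neg, mul_zero]
      rintro ⟨h, _⟩
      exact hb (Vn.ext h)
    · intro h; exact absurd (Finset.mem_univ _) h
  · simp only [eval, act, List.drop_zero, List.take_zero, List.take_succ_cons, List.drop_succ_cons,
      List.nil_append, List.cons_append, List.drop_nil, List.take_nil]
    rw [sum_Vn (N := N) (fun b => wt q b * if a.val = b ∧ ∑ j, a.val j = N then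
        (wt q a.val)⁻¹ * ψ [b] else 0),
      Finset.sum_eq_single a]
    · rw [if_pos ⟨rfl, a.sum⟩, mul_inv_cancel_left₀ hw]
    · intro b _ hb
      rw [if_neg, mul_zero]
      rintro ⟨h, _⟩
      exact hb (Vn.ext h.symm)
    · intro h; exact absurd (Finset.mem_univ _) h
  · simp only [eval, act, List.drop_zero, List.take_zero, List.take_succ_cons, List.drop_succ_cons,
      List.nil_append, List.cons_append, List.drop_nil, List.take_nil]
    rw [sum_Vn (N := N) (fun b => if b = a.val ∧ ∑ j, b j = N then ψ [b] else 0),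
      Finset.sum_eq_single a]
    · rw [if_pos ⟨rfl, a.sum⟩]
    · intro b _ hb
      rw [if_neg]
      rintro ⟨h, _⟩
      exact hb (Vn.ext h)
    · intro h; exact absurd (Finset.mem_univ _) h

private theorem ChkA11_dimS_ne (q : ℂ) (N : ℕ) (hg : Gen q n N) (hn : 1 ≤ n) : dimS n N q ≠ 0 := by
  unfold dimS
  rw [Finset.prod_ne_zero_iff]
  intro i hi
  have := Finset.mem_range.1 hi
  exact div_ne_zero (hg.br_ne (by omega) (by omega)) (hg.br_ne (by omega) (by omega))

/-- The value of the unknot. -/
theorem coloredSU_unknot (q : ℂ) (N : ℕ) (hg : Gen q n N) (hn : 1 ≤ n) :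
    coloredSU [Piece.cupUD 0, Piece.capUD 0] n N q = 1 ∧
      coloredSU [Piece.cupDU 0, Piece.capDU 0] n N q = 1 := by
  have hd := ChkA11_dimS_ne q N hg hn
  constructor
  · have hb : bracket q n N [Piece.cupUD 0, Piece.capUD 0] = dimS n N q := by
      unfold bracket
      simp only [eval, act, List.drop_zero, List.take_zero, List.nil_append, if_true, true_and]
      rw [sum_Vn (N := N) (fun b => wt q b * if ∑ j, b j = N then (1 : ℂ) else 0), ← sum_wt q N hg hn]
      refine Finset.sum_congr rfl fun b _ => ?_
      rw [if_pos b.sum, mul_one]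
    unfold coloredSU
    rw [hb]
    simp [writhe, hd]
  · have hb : bracket q n N [Piece.cupDU 0, Piece.capDU 0] = dimS n N q := by
      unfold bracket
      simp only [eval, act, List.drop_zero, List.take_zero, List.nil_append, if_true, true_and,
        mul_one]
      rw [sum_Vn (N := N) (fun b => if ∑ j, b j = N then (wt q b)⁻¹ else 0),
        ← sum_wt_inv q N hg hn]
      refine Finset.sum_congr rfl fun b _ => ?_
      rw [if_pos b.sum]
    unfold coloredSU
    rw [hb]
    simp [writhe, hd]

end Pool.Agent.H63.VC11
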