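import Pool.Agent.H63.VC11.Sl11

/-! # The second Reidemeister move for parallel strands -/

namespace Pool.Agent.H63.VC11

open Pool.Agent.H63.VC7 Pool.Agent.H63.VC8 Matrix

variable {n : ℕ}

private theorem ChkB11_sq (q : ℂ) (hq : q ≠ 0) (m i : ℤ) :
    qn q m * qn q m = qn q (m - i) * qn q (m + i) + qn q i * qn q i := by
  have h := qn_three_term q hq m (m - i) i
  rw [show m - i + i = m by ring, show m - (m - i) = i by ring] at h
  rw [h]; ring

private theorem ChkB11_two (q : ℂ) (hq : q ≠ 0) (m i : ℤ) :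
    qn q m * qn q (m + 1) - qn q i * qn q (i + 1) = qn q (m - i) * qn q (m + i + 1) := by
  have h := qn_three_term q hq (m + 1) (m - i) i
  rw [show m - i + i = m by ring, show m + 1 - (m - i) = i + 1 by ring,
    show m + 1 + i = m + i + 1 by ring] at h
  rw [mul_comm (qn q m), h]; ring

private theorem ChkB11_add (q : ℂ) (hq : q ≠ 0) (e : ℤ) (he : e = 1 ∨ e = -1) (M k : ℤ) :
    qn q (M + k) + q ^ (e * (2 * M)) * qn q (M - k) = q ^ (e * (M - k)) * qn q (2 * M) := by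
  rcases he with rfl | rfl
  · have h := qn_add q hq (M - k) (M + k)
    rw [show M - k + (M + k) = 2 * M by ring] at h
    have h1 : q ^ (1 * (M - k)) * q ^ (M + k) = q ^ (1 * (2 * M)) := by
      rw [← zpow_add₀ hq]; congr 1; ring
    have h2 : q ^ (1 * (M - k)) * q ^ (-(M - k)) = 1 := by
      rw [← zpow_add₀ hq, show 1 * (M - k) + -(M - k) = 0 by ring, zpow_zero]
    rw [← h]
    linear_combination (-qn q (M - k)) * h1 - qn q (M + k) * h2
  · have h := qn_add q hq (M + k) (M - k)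
    rw [show M + k + (M - k) = 2 * M by ring] at h
    have h1 : q ^ (-1 * (M - k)) * q ^ (-(M + k)) = q ^ (-1 * (2 * M)) := by
      rw [← zpow_add₀ hq]; congr 1; ring
    have h2 : q ^ (-1 * (M - k)) * q ^ (M - k) = 1 := by
      rw [← zpow_add₀ hq, show -1 * (M - k) + (M - k) = 0 by ring, zpow_zero]
    rw [← h]
    linear_combination (-qn q (M - k)) * h1 - qn q (M + k) * h2

private theorem ChkB11_tele (q : ℂ) (hq : q ≠ 0) (m : ℕ) (hf : ∀ j ≤ 2 * (m + 1), qf q j ≠ 0)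
    (K : ℕ) (hK : K ≤ m + 1) :
    ∑ k ∈ Finset.range (K + 1), (-1) ^ k * (qf q (m + k) / (qf q (m + 1 - k) * qf q k ^ 2)) =
      (-1) ^ K * (qn q (((m + 1 : ℕ) : ℤ) - K) * qf q (m + 1 + K) /
        (qn q ((m + 1 : ℕ) : ℤ) ^ 2 * (qf q (m + 1 - K) * qf q K ^ 2))) := by
  have hM : qn q ((m + 1 : ℕ) : ℤ) ≠ 0 := by
    have h := hf (m + 1) (by omega)
    rw [qf_succ] at h
    have h2 := right_ne_zero_of_mul h
    push_cast
    exact h2
  induction K with
  | zero =>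
    simp only [zero_add, Finset.sum_range_one, pow_zero, one_mul, add_zero, Nat.sub_zero,
      Nat.cast_zero, sub_zero, qf_zero, one_pow, mul_one]
    have h1 := hf (m + 1) (by omega)
    rw [qf_succ] at h1 ⊢
    have h2 := left_ne_zero_of_mul h1
    have h3 := right_ne_zero_of_mul h1
    push_cast
    field_simp
  | succ K ih =>
    rw [Finset.sum_range_succ, ih (by omega)]
    obtain ⟨r, hr⟩ : ∃ r, m + 1 = r + (K + 1) := ⟨m - K, by omega⟩
    have e1 : m + 1 - K = r + 1 := by omega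
    have e2 : m + 1 - (K + 1) = r := by omega
    have e3 : m + (K + 1) = m + 1 + K := by omega
    have e4 : m + 1 + (K + 1) = (m + 1 + K) + 1 := by omega
    rw [e1, e2, e3, e4, qf_succ q r, qf_succ q K, qf_succ q (m + 1 + K)]
    have hr1 := hf (r + 1) (by omega)
    have hK1 := hf (K + 1) (by omega)
    rw [qf_succ] at hr1 hK1
    have h1 := left_ne_zero_of_mul hr1
    have h2 := right_ne_zero_of_mul hr1
    have h3 := left_ne_zero_of_mul hK1
    have h4 := right_ne_zero_of_mul hK1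
    have hs := ChkB11_sq q hq ((m + 1 : ℕ) : ℤ) ((K : ℤ) + 1)
    have c1 : ((m + 1 : ℕ) : ℤ) - K = (r : ℤ) + 1 := by omega
    have c2 : ((m + 1 : ℕ) : ℤ) - ((K + 1 : ℕ) : ℤ) = ((m + 1 : ℕ) : ℤ) - ((K : ℤ) + 1) := by
      push_cast; ring
    have c3 : ((m + 1 + K : ℕ) : ℤ) + 1 = ((m + 1 : ℕ) : ℤ) + ((K : ℤ) + 1) := by
      push_cast; ring
    rw [c1, c2, c3, pow_succ]
    set x := qn q ((m + 1 : ℕ) : ℤ)
    set y := qn q (((m + 1 : ℕ) : ℤ) - ((K : ℤ) + 1))
    set z := qn q (((m + 1 : ℕ) : ℤ) + ((K : ℤ) + 1))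
    set w := qn q ((K : ℤ) + 1)
    set t := qn q ((r : ℤ) + 1)
    field_simp
    linear_combination (-(qf q (m + 1 + K))) * (-1 : ℂ) ^ K * hs

private theorem ChkB11_tele0 (q : ℂ) (hq : q ≠ 0) (m : ℕ) (hf : ∀ j ≤ 2 * (m + 1), qf q j ≠ 0) :
    ∑ k ∈ Finset.range (m + 1 + 1),
      (-1) ^ k * (qf q (m + k) / (qf q (m + 1 - k) * qf q k ^ 2)) = 0 := by
  rw [ChkB11_tele q hq m hf (m + 1) le_rfl, sub_self, qn_zero]
  simp

/-- `∑ (-1) ^ k q ^ k [m + k choose k] [m choose k]`, the eigenvalues of the crossing. -/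
theorem eig_sum (q : ℂ) (m : ℕ) (e : ℤ) (he : e = 1 ∨ e = -1) (hq : q ≠ 0)
    (hf : ∀ j ≤ 2 * m, qf q j ≠ 0) :
    ∑ k ∈ Finset.range (m + 1), (-1) ^ k * q ^ (e * k) *
      (qf q (m + k) / (qf q (m - k) * qf q k ^ 2)) = (-1) ^ m * q ^ (e * (m * (m + 1))) := by
  induction m with
  | zero => simp [qf_zero]
  | succ m ih =>
    have ih := ih fun j hj => hf j (by omega)
    -- the sum for `m`, with one more term
    have hA : ∑ k ∈ Finset.range (m + 1), (-1) ^ k * q ^ (e * k) *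
        (qf q (m + k) / (qf q (m - k) * qf q k ^ 2)) =
        ∑ k ∈ Finset.range (m + 1 + 1), (-1) ^ k * q ^ (e * k) *
          (qn q (((m + 1 : ℕ) : ℤ) - k) * (qf q (m + k) / (qf q (m + 1 - k) * qf q k ^ 2))) := by
      rw [Finset.sum_range_succ _ (m + 1), sub_self, qn_zero, zero_mul, mul_zero, add_zero]
      refine Finset.sum_congr rfl fun k hk => ?_
      have hk' := Finset.mem_range.1 hk
      obtain ⟨r, hr⟩ : ∃ r, m = r + k := ⟨m - k, by omega⟩
      have e1 : m + 1 - k = r + 1 := by omega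
      have e2 : m - k = r := by omega
      have hr1 := hf (r + 1) (by omega)
      rw [e1, e2]
      rw [qf_succ] at hr1 ⊢
      have h1 := left_ne_zero_of_mul hr1
      have h2 := right_ne_zero_of_mul hr1
      have h3 := hf k (by omega)
      have c1 : ((m + 1 : ℕ) : ℤ) - k = (r : ℤ) + 1 := by omega
      rw [c1]
      field_simp
    have hB : ∑ k ∈ Finset.range (m + 1 + 1), (-1) ^ k * q ^ (e * k) *
        (qf q (m + 1 + k) / (qf q (m + 1 - k) * qf q k ^ 2)) =
        ∑ k ∈ Finset.range (m + 1 + 1), (-1) ^ k * q ^ (e * k) *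
          (qn q (((m + 1 : ℕ) : ℤ) + k) * (qf q (m + k) / (qf q (m + 1 - k) * qf q k ^ 2))) := by
      refine Finset.sum_congr rfl fun k hk => ?_
      rw [show m + 1 + k = m + k + 1 by omega, qf_succ]
      have c1 : ((m + 1 : ℕ) : ℤ) + k = ((m + k : ℕ) : ℤ) + 1 := by push_cast; ring
      rw [c1]
      ring
    have hC : ∑ k ∈ Finset.range (m + 1 + 1), (-1) ^ k * q ^ (e * k) *
          (qn q (((m + 1 : ℕ) : ℤ) + k) * (qf q (m + k) / (qf q (m + 1 - k) * qf q k ^ 2))) +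
        q ^ (e * (2 * ((m + 1 : ℕ) : ℤ))) * ∑ k ∈ Finset.range (m + 1 + 1), (-1) ^ k *
          q ^ (e * k) * (qn q (((m + 1 : ℕ) : ℤ) - k) *
            (qf q (m + k) / (qf q (m + 1 - k) * qf q k ^ 2))) = 0 := by
      have hz := ChkB11_tele0 q hq m hf
      rw [Finset.mul_sum, ← Finset.sum_add_distrib]
      have hz2 : q ^ (e * ((m + 1 : ℕ) : ℤ)) * qn q (2 * ((m + 1 : ℕ) : ℤ)) *
          ∑ k ∈ Finset.range (m + 1 + 1),
            (-1) ^ k * (qf q (m + k) / (qf q (m + 1 - k) * qf q k ^ 2)) = 0 := by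
        rw [hz, mul_zero]
      rw [← hz2, Finset.mul_sum]
      refine Finset.sum_congr rfl fun k hk => ?_
      have h := ChkB11_add q hq e he ((m + 1 : ℕ) : ℤ) (k : ℤ)
      have h1 : q ^ (e * (k : ℤ)) * q ^ (e * (((m + 1 : ℕ) : ℤ) - k)) =
          q ^ (e * ((m + 1 : ℕ) : ℤ)) := by
        rw [← zpow_add₀ hq]; congr 1; ring
      set B := qf q (m + k) / (qf q (m + 1 - k) * qf q k ^ 2)
      linear_combination (-1) ^ k * q ^ (e * (k : ℤ)) * B * h +
        (-1) ^ k * B * qn q (2 * ((m + 1 : ℕ) : ℤ)) * h1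
    rw [hB]
    rw [← hA, ih] at hC
    rw [eq_neg_of_add_eq_zero_left hC]
    have h2 : q ^ (e * (2 * ((m + 1 : ℕ) : ℤ))) * q ^ (e * ((m : ℤ) * (m + 1))) =
        q ^ (e * (((m + 1 : ℕ) : ℤ) * (((m + 1 : ℕ) : ℤ) + 1))) := by
      rw [← zpow_add₀ hq]; congr 1; push_cast; ring
    rw [← h2, pow_succ]
    ring

/-! ### The crossing as a polynomial of `E F` -/

open Polynomial in
/-- The product of the factors `X - [i] [i + 1]`. -/
private noncomputable def ChkB11_P (q : ℂ) (k : ℕ) : Polynomial ℂ :=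
  ∏ i ∈ Finset.range k, (X - C (qn q i * qn q ((i : ℤ) + 1)))

/-- The coefficients of the crossing. -/
private noncomputable def ChkB11_c (q : ℂ) (N : ℕ) (e : ℤ) (k : ℕ) : ℂ :=
  (-1) ^ (N - k) * q ^ (e * ((k : ℤ) - N)) / qf q k ^ 2

/-- The polynomial of the crossing. -/
private noncomputable def ChkB11_p (q : ℂ) (N : ℕ) (e : ℤ) : Polynomial ℂ :=
  ∑ k ∈ Finset.range (N + 1), Polynomial.C (ChkB11_c q N e k) * ChkB11_P q k

/-- The crossing as a linear map. -/
private noncomputable def ChkB11_R (q : ℂ) (n N : ℕ) (e : ℤ) : Module.End ℂ (Fn2 n) :=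
  ∑ k ∈ Finset.range (N + 1), ChkB11_c q N e k • (Eo q n ^ k * Fo q n ^ k)

private theorem ChkB11_R_apply (q : ℂ) (N : ℕ) (e : ℤ) (ψ : Fn2 n)
    (x : (Fin n → ℕ) × (Fin n → ℕ)) : opR q N e ψ x = ChkB11_R q n N e ψ x := by
  simp only [opR, ChkB11_R, LinearMap.sum_apply, Finset.sum_apply, LinearMap.smul_apply,
    Pi.smul_apply, smul_eq_mul, Module.End.mul_apply, Eo_pow, Fo_pow, ChkB11_c]

private theorem ChkB11_lin {N M : ℤ} {ψ φ : Fn2 n} (h : HomD N M ψ) (h' : HomD N M φ) (c : ℂ) :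
    HomD N M (ψ + c • φ) := by
  intro x hx
  by_cases h1 : ψ x = 0
  · by_cases h2 : φ x = 0
    · exfalso
      apply hx
      simp [h1, h2]
    · exact h' x h2
  · exact h x h1

private theorem ChkB11_zero {N M : ℤ} : HomD N M (0 : Fn2 n) := fun _ hx => absurd rfl hx

private theorem ChkB11_sum {N M : ℤ} {ι : Type*} (s : Finset ι) (f : ι → Fn2 n) (c : ι → ℂ)
    (h : ∀ i ∈ s, HomD N M (f i)) : HomD N M (∑ i ∈ s, c i • f i) := by
  classical
  induction s using Finset.induction_on with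
  | empty => simpa using ChkB11_zero
  | insert a s ha ih =>
    rw [Finset.sum_insert ha, add_comm]
    exact ChkB11_lin (ih fun i hi => h i (Finset.mem_insert_of_mem hi))
      (h a (Finset.mem_insert_self _ _)) _

private theorem ChkB11_EFk (q : ℂ) (hq : q ≠ 0) (h1 : br q 1 ≠ 0) {A B : ℤ} {ψ : Fn2 n}
    (h : HomD A B ψ) (k : ℕ) : Eo q n ((Fo q n ^ (k + 1)) ψ) =
      (Fo q n ^ (k + 1)) (Eo q n ψ) +
        (qn q ((k : ℤ) + 1) * qn q (A - B - k)) • (Fo q n ^ k) ψ := by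
  induction k with
  | zero =>
    rw [zero_add, pow_one, pow_zero, EF_comm q hq h]
    simp [qn_one q h1]
  | succ k ih =>
    have hF := HomD_Fpow q (k + 1) h
    have hc := EF_comm q hq hF
    rw [pow_succ' (Fo q n) (k + 1), Module.End.mul_apply, Module.End.mul_apply, hc, ih, map_add,
      map_smul, ← Module.End.mul_apply (Fo q n) (Fo q n ^ k), ← pow_succ', add_assoc,
      ← add_smul]
    congr 2
    have ht := qn_three_term q hq (A - B - ((k : ℤ) + 1)) ((k : ℤ) + 1) 1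
    rw [qn_one q h1, one_mul, show A - B - ((k : ℤ) + 1) + 1 = A - B - k by ring] at ht
    push_cast
    rw [show A - ((k : ℤ) + 1) - (B + ((k : ℤ) + 1)) = A - B - ((k : ℤ) + 1) - ((k : ℤ) + 1) by
      ring]
    linear_combination -ht

private theorem ChkB11_step (q : ℂ) (hq : q ≠ 0) (h1 : br q 1 ≠ 0) {N : ℤ} {ψ : Fn2 n}
    (h : HomD N N ψ) (k : ℕ) : (Eo q n ^ (k + 1)) ((Fo q n ^ (k + 1)) ψ) =
      (Eo q n ^ k) ((Fo q n ^ k) ((Eo q n * Fo q n) ψ +
        (-(qn q k * qn q ((k : ℤ) + 1))) • ψ)) := by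
  rw [pow_succ (Eo q n), Module.End.mul_apply, ChkB11_EFk q hq h1 h k]
  congr 1
  have hc := EF_comm q hq h
  rw [sub_self, qn_zero, zero_smul, add_zero] at hc
  rw [Module.End.mul_apply, hc, map_add, map_smul, pow_succ (Fo q n), Module.End.mul_apply]
  congr 2
  rw [show N - N - (k : ℤ) = -(k : ℤ) by ring, qn_neg]
  ring

private theorem ChkB11_Q {q : ℂ} {N : ℤ} {ψ : Fn2 n} (h : HomD N N ψ) :
    HomD N N ((Eo q n * Fo q n) ψ) := by
  have h2 := HomD_E q (HomD_F q h)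
  rwa [sub_add_cancel, add_sub_cancel_right] at h2

private theorem ChkB11_EkFk (q : ℂ) (hq : q ≠ 0) (h1 : br q 1 ≠ 0) {N : ℤ} (k : ℕ) :
    ∀ ψ : Fn2 n, HomD N N ψ → (Eo q n ^ k) ((Fo q n ^ k) ψ) =
      Polynomial.aeval (Eo q n * Fo q n) (ChkB11_P q k) ψ := by
  induction k with
  | zero => intro ψ _; simp [ChkB11_P]
  | succ k ih =>
    intro ψ h
    rw [ChkB11_step q hq h1 h k, ih _ (ChkB11_lin (ChkB11_Q h) h _)]
    unfold ChkB11_P
    rw [Finset.prod_range_succ, map_mul, Module.End.mul_apply (Polynomial.aeval _ _), map_sub,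
      Polynomial.aeval_X, Polynomial.aeval_C, LinearMap.sub_apply, Module.algebraMap_end_apply,
      neg_smul, sub_eq_add_neg]

private theorem ChkB11_R_eq (q : ℂ) (hq : q ≠ 0) (h1 : br q 1 ≠ 0) {N : ℤ} (M : ℕ) (e : ℤ)
    (ψ : Fn2 n) (h : HomD N N ψ) :
    ChkB11_R q n M e ψ = Polynomial.aeval (Eo q n * Fo q n) (ChkB11_p q M e) ψ := by
  unfold ChkB11_R ChkB11_p
  rw [map_sum, LinearMap.sum_apply, LinearMap.sum_apply]
  refine Finset.sum_congr rfl fun k _ => ?_
  rw [LinearMap.smul_apply, Module.End.mul_apply, ChkB11_EkFk q hq h1 k ψ h, map_mul,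
    Polynomial.aeval_C, Module.End.mul_apply, Module.algebraMap_end_apply]

private theorem ChkB11_R_HomD (q : ℂ) {N : ℤ} (M : ℕ) (e : ℤ)
    (ψ : Fn2 n) (h : HomD N N ψ) : HomD N N (ChkB11_R q n M e ψ) := by
  unfold ChkB11_R
  simp only [LinearMap.sum_apply, LinearMap.smul_apply]
  refine ChkB11_sum _ _ _ fun k _ => ?_
  have h2 := HomD_Epow q k (HomD_Fpow q k h)
  rwa [sub_add_cancel, add_sub_cancel_right] at h2

/-! ### The values of the polynomial of the crossing -/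

private theorem ChkB11_P_eval (q : ℂ) (hq : q ≠ 0) (m k : ℕ) (hk : k ≤ m)
    (hf : ∀ j ≤ 2 * m, qf q j ≠ 0) :
    (ChkB11_P q k).eval (qn q m * qn q ((m : ℤ) + 1)) = qf q (m + k) / qf q (m - k) := by
  unfold ChkB11_P
  rw [Polynomial.eval_prod]
  induction k with
  | zero =>
    rw [Finset.range_zero, Finset.prod_empty, add_zero, Nat.sub_zero, div_self (hf m (by omega))]
  | succ k ih =>
    rw [Finset.prod_range_succ, ih (by omega)]
    obtain ⟨r, hr⟩ : ∃ r, m = r + (k + 1) := ⟨m - (k + 1), by omega⟩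
    rw [show m - k = r + 1 by omega, show m - (k + 1) = r by omega,
      show m + (k + 1) = m + k + 1 by omega]
    simp only [Polynomial.eval_sub, Polynomial.eval_X, Polynomial.eval_C]
    rw [ChkB11_two q hq]
    have h1 := hf (r + 1) (by omega)
    rw [qf_succ] at h1
    have h2 := left_ne_zero_of_mul h1
    have h3 := right_ne_zero_of_mul h1
    rw [qf_succ q (m + k), qf_succ q r, show (m : ℤ) - k = r + 1 by omega,
      show ((m + k : ℕ) : ℤ) + 1 = (m : ℤ) + k + 1 by push_cast; ring]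
    field_simp

private theorem ChkB11_P_eval_zero (q : ℂ) (m k : ℕ) (hk : m < k) :
    (ChkB11_P q k).eval (qn q m * qn q ((m : ℤ) + 1)) = 0 := by
  unfold ChkB11_P
  rw [Polynomial.eval_prod]
  refine Finset.prod_eq_zero (Finset.mem_range.2 hk) ?_
  simp

private theorem ChkB11_p_eval (q : ℂ) (hq : q ≠ 0) (N m : ℕ) (hm : m ≤ N) (e : ℤ)
    (he : e = 1 ∨ e = -1) (hf : ∀ j ≤ 2 * m, qf q j ≠ 0) :
    (ChkB11_p q N e).eval (qn q m * qn q ((m : ℤ) + 1)) =
      (-1) ^ N * q ^ (-(e * N)) * ((-1) ^ m * q ^ (e * (m * (m + 1)))) := by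
  unfold ChkB11_p
  rw [Polynomial.eval_finsetSum, ← eig_sum q m e he hq hf, Finset.mul_sum]
  have h0 : Finset.range (m + 1) ⊆ Finset.range (N + 1) := Finset.range_subset_range.2 (by omega)
  symm
  rw [← Finset.sum_subset_zero_on_sdiff h0 (f := fun k : ℕ => (-1) ^ N * q ^ (-(e * N)) *
    ((-1) ^ k * q ^ (e * k) * (qf q (m + k) / (qf q (m - k) * qf q k ^ 2))))
    (g := fun k : ℕ => (Polynomial.C (ChkB11_c q N e k) * ChkB11_P q k).eval
      (qn q m * qn q ((m : ℤ) + 1)))]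
  · intro k hk
    rw [Finset.mem_sdiff, Finset.mem_range, Finset.mem_range] at hk
    simp only [Polynomial.eval_mul]
    rw [ChkB11_P_eval_zero q m k (by omega), mul_zero]
  · intro k hk
    have hk' := Finset.mem_range.1 hk
    simp only [Polynomial.eval_mul, Polynomial.eval_C]
    rw [ChkB11_P_eval q hq m k (by omega) hf]
    unfold ChkB11_c
    have h1 : q ^ (e * ((k : ℤ) - N)) = q ^ (-(e * N)) * q ^ (e * (k : ℤ)) := by
      rw [← zpow_add₀ hq]; congr 1; ring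
    have h2 : ((-1 : ℂ)) ^ (N - k) = (-1) ^ N * (-1) ^ k := by
      obtain ⟨r, hr⟩ : ∃ r, N = r + k := ⟨N - k, by omega⟩
      rw [hr, Nat.add_sub_cancel, pow_add, mul_assoc, ← mul_pow]
      simp
    rw [h1, h2]
    ring

private theorem ChkB11_lam_ne (q : ℂ) (N : ℕ) (hg : Gen q n N) (hn : 1 ≤ n) {i m : ℕ}
    (him : i < m) (hm : m ≤ N) :
    qn q m * qn q ((m : ℤ) + 1) - qn q i * qn q ((i : ℤ) + 1) ≠ 0 := by
  rw [ChkB11_two q hg.1]
  exact mul_ne_zero (hg.qn_ne hn (by omega) (by omega)) (hg.qn_ne hn (by omega) (by omega))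

private theorem ChkB11_dvd (q : ℂ) (N : ℕ) (hg : Gen q n N) (hn : 1 ≤ n) (e : ℤ)
    (he : e = 1 ∨ e = -1) :
    ChkB11_P q (N + 1) ∣ ChkB11_p q N e * ChkB11_p q N (-e) - 1 := by
  unfold ChkB11_P
  apply Finset.prod_dvd_of_coprime
  · intro i hi j hj hij
    have hi := Finset.mem_range.1 (Finset.mem_coe.1 hi)
    have hj := Finset.mem_range.1 (Finset.mem_coe.1 hj)
    apply Polynomial.isCoprime_X_sub_C_of_isUnit_sub
    rw [isUnit_iff_ne_zero]
    rcases lt_or_gt_of_ne hij with h | h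
    · have := ChkB11_lam_ne q N hg hn h (by omega)
      intro h2
      apply this
      rw [← neg_sub, h2, neg_zero]
    · exact ChkB11_lam_ne q N hg hn h (by omega)
  · intro m hm
    have hm := Finset.mem_range.1 hm
    rw [Polynomial.dvd_iff_isRoot, Polynomial.IsRoot, Polynomial.eval_sub, Polynomial.eval_mul,
      Polynomial.eval_one]
    have hf : ∀ j ≤ 2 * m, qf q j ≠ 0 := fun j hj => hg.qf_ne hn (by omega)
    rw [ChkB11_p_eval q hg.1 N m (by omega) e he hf,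
      ChkB11_p_eval q hg.1 N m (by omega) (-e) (by
        rcases he with h | h
        · right; rw [h]
        · left; rw [h]; rfl) hf]
    have h1 : q ^ (-(e * (N : ℤ))) * q ^ (-(-e * (N : ℤ))) = 1 := by
      rw [← zpow_add₀ hg.1, show -(e * (N : ℤ)) + -(-e * (N : ℤ)) = 0 by ring, zpow_zero]
    have h2 : q ^ (e * ((m : ℤ) * (m + 1))) * q ^ (-e * ((m : ℤ) * (m + 1))) = 1 := by
      rw [← zpow_add₀ hg.1, show e * ((m : ℤ) * (m + 1)) + -e * ((m : ℤ) * (m + 1)) = 0 by ring,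
        zpow_zero]
    have h3 : ((-1 : ℂ)) ^ N * (-1) ^ N = 1 := by rw [← mul_pow]; simp
    have h4 : ((-1 : ℂ)) ^ m * (-1) ^ m = 1 := by rw [← mul_pow]; simp
    rw [sub_eq_zero]
    calc _ = ((-1 : ℂ) ^ N * (-1) ^ N) * ((-1) ^ m * (-1) ^ m) *
          (q ^ (-(e * (N : ℤ))) * q ^ (-(-e * (N : ℤ)))) *
          (q ^ (e * ((m : ℤ) * (m + 1))) * q ^ (-e * ((m : ℤ) * (m + 1)))) := by ring
      _ = 1 := by rw [h1, h2, h3, h4]; ring

private theorem ChkB11_RR (q : ℂ) (N : ℕ) (hg : Gen q n N) (hn : 1 ≤ n) (e : ℤ)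
    (he : e = 1 ∨ e = -1) (ψ : Fn2 n) (h : HomD (N : ℤ) N ψ) :
    ChkB11_R q n N e (ChkB11_R q n N (-e) ψ) = ψ := by
  have h1 := hg.br_one hn
  rw [ChkB11_R_eq q hg.1 h1 N e _ (ChkB11_R_HomD q N (-e) ψ h),
    ChkB11_R_eq q hg.1 h1 N (-e) ψ h, ← Module.End.mul_apply, ← map_mul]
  obtain ⟨g, hg'⟩ := ChkB11_dvd q N hg hn e he
  have hz : Polynomial.aeval (Eo q n * Fo q n) (ChkB11_P q (N + 1)) ψ = 0 := by
    rw [← ChkB11_EkFk q hg.1 h1 (N + 1) ψ h, HomD_neg_left (HomD_Fpow q (N + 1) h) (by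
      push_cast; linarith), map_zero]
  rw [show ChkB11_p q N e * ChkB11_p q N (-e) = g * ChkB11_P q (N + 1) + 1 by
    rw [mul_comm g, ← hg']; ring, map_add, map_mul, LinearMap.add_apply, Module.End.mul_apply, hz,
    map_zero, map_one, Module.End.one_apply, zero_add]

/-- The basis vectors. -/
private noncomputable def ChkB11_d {N : ℕ} (y : I2 n N) : Fn2 n := fun p =>
  if p = (y.1.val, y.2.val) then 1 else 0

private theorem ChkB11_d_HomD {N : ℕ} (y : I2 n N) : HomD (N : ℤ) N (ChkB11_d y) := by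
  intro x hx
  have h : x = (y.1.val, y.2.val) := by
    by_contra h
    exact hx (if_neg h)
  rw [h]
  exact ⟨by rw [y.1.sum], by rw [y.2.sum]⟩

private theorem ChkB11_expand {N : ℕ} (φ : Fn2 n) (h : HomD (N : ℤ) N φ) :
    φ = ∑ z : I2 n N, φ (z.1.val, z.2.val) • ChkB11_d z := by
  funext x
  rw [Finset.sum_apply]
  simp only [Pi.smul_apply, smul_eq_mul, ChkB11_d]
  by_cases hx : φ x = 0
  · rw [hx]
    symm
    refine Finset.sum_eq_zero fun z _ => ?_
    by_cases hz : x = (z.1.val, z.2.val)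
    · rw [← hz, hx, zero_mul]
    · rw [if_neg hz, mul_zero]
  · have h1 := h x hx
    rw [Finset.sum_eq_single ((⟨x.1, by exact_mod_cast h1.1⟩, ⟨x.2, by exact_mod_cast h1.2⟩) : I2 n N)]
    · simp
    · intro z _ hz
      rw [if_neg, mul_zero]
      intro h2
      apply hz
      subst h2
      rfl
    · intro h2
      exact absurd (Finset.mem_univ _) h2

theorem R_inv (q : ℂ) (N : ℕ) (hg : Gen q n N) (hn : 1 ≤ n) (e : ℤ) (he : e = 1 ∨ e = -1) :
    Rm q n N e * Rm q n N (-e) = 1 := by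
  ext x y
  rw [Matrix.mul_apply, Matrix.one_apply]
  have h1 : ∀ z : I2 n N, Rm q n N e x z = ChkB11_R q n N e (ChkB11_d z) (x.1.val, x.2.val) :=
    fun z => ChkB11_R_apply q N e _ _
  have h2 : ∀ z : I2 n N, Rm q n N (-e) z y =
      ChkB11_R q n N (-e) (ChkB11_d y) (z.1.val, z.2.val) := fun z => ChkB11_R_apply q N (-e) _ _
  simp only [h1, h2]
  set φ := ChkB11_R q n N (-e) (ChkB11_d y) with hφ
  have h3 : HomD (N : ℤ) N φ := ChkB11_R_HomD q N (-e) _ (ChkB11_d_HomD y)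
  have h4 : ∑ z : I2 n N, ChkB11_R q n N e (ChkB11_d z) (x.1.val, x.2.val) *
      φ (z.1.val, z.2.val) = ChkB11_R q n N e φ (x.1.val, x.2.val) := by
    conv_rhs => rw [ChkB11_expand φ h3, map_sum, Finset.sum_apply]
    refine Finset.sum_congr rfl fun z _ => ?_
    rw [map_smul, Pi.smul_apply, smul_eq_mul, mul_comm]
  rw [h4, hφ, ChkB11_RR q N hg hn e he _ (ChkB11_d_HomD y)]
  unfold ChkB11_d
  by_cases hxy : x = y
  · rw [hxy, if_pos rfl, if_pos rfl]
  · rw [if_neg hxy, if_neg]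
    intro h
    apply hxy
    have h5 := congrArg Prod.fst h
    have h6 := congrArg Prod.snd h
    exact Prod.ext (Vn.ext h5) (Vn.ext h6)

end Pool.Agent.H63.VC11
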