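import Pool.Agent.H63.VC11.KHb11

/-! # For `n = 2` the crossing is the `R`-matrix of `U_q(sl_2)` -/

namespace Pool.Agent.H63.VC11

open Pool.Agent.H63.VC7 Pool.Agent.H63.VC8

/-! ### Indices for `n = 2` -/

private theorem lo0 (a : Fin 2 → ℕ) : lo a 0 = 0 := by
  unfold lo
  rw [show (Finset.Iio (0 : Fin 2)) = ∅ by decide]
  simp

private theorem lo1 (a : Fin 2 → ℕ) : lo a 1 = a 0 := by
  unfold lo
  rw [show (Finset.Iio (1 : Fin 2)) = {0} by decide]
  simp

private theorem hi0 (a : Fin 2 → ℕ) : hi a 0 = a 1 := by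
  unfold hi
  rw [show (Finset.Ioi (0 : Fin 2)) = {1} by decide]
  simp

private theorem hi1 (a : Fin 2 → ℕ) : hi a 1 = 0 := by
  unfold hi
  rw [show (Finset.Ioi (1 : Fin 2)) = ∅ by decide]
  simp

private theorem gf2 (q : ℂ) (x y : ℕ) : gf q ![x, y] = qf q x * qf q y := by
  unfold gf
  rw [Fin.prod_univ_two]
  rfl

private theorem add0 (x y : ℕ) : (![x, y] : Fin 2 → ℕ) + Pi.single 0 1 = ![x + 1, y] := by
  funext i; fin_cases i <;> simp

private theorem add1 (x y : ℕ) : (![x, y] : Fin 2 → ℕ) + Pi.single 1 1 = ![x, y + 1] := by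
  funext i; fin_cases i <;> simp

private theorem sub0 (x y : ℕ) : (![x, y] : Fin 2 → ℕ) - Pi.single 0 1 = ![x - 1, y] := by
  funext i; fin_cases i <;> simp

private theorem sub1 (x y : ℕ) : (![x, y] : Fin 2 → ℕ) - Pi.single 1 1 = ![x, y - 1] := by
  funext i; fin_cases i <;> simp

private theorem opE2 (q : ℂ) (ψ : Fn2 2) (x y z w : ℕ) :
    opE q ψ (![x, y], ![z, w]) =
      q ^ ((y : ℤ) - w) * qn q x * ψ (![x - 1, y], ![z + 1, w]) +
        qn q y * ψ (![x, y - 1], ![z, w + 1]) := by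
  unfold opE
  rw [Fin.sum_univ_two]
  simp only [hi0, hi1, sub0, sub1, add0, add1]
  simp

private theorem opF2 (q : ℂ) (ψ : Fn2 2) (x y z w : ℕ) :
    opF q ψ (![x, y], ![z, w]) =
      qn q z * ψ (![x + 1, y], ![z - 1, w]) +
        q ^ ((z : ℤ) - x) * qn q w * ψ (![x, y + 1], ![z, w - 1]) := by
  unfold opF
  rw [Fin.sum_univ_two]
  simp only [lo0, lo1, sub0, sub1, add0, add1]
  simp

private theorem opE_smul (q : ℂ) (c : ℂ) (ψ : Fn2 2) : opE q (c • ψ) = c • opE q ψ :=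
  (Eo q 2).map_smul c ψ

private theorem opE_pow_smul (q : ℂ) (c : ℂ) (k : ℕ) (ψ : Fn2 2) :
    (opE q)^[k] (c • ψ) = c • (opE q)^[k] ψ := by
  induction k generalizing ψ with
  | zero => rfl
  | succ k ih => rw [Function.iterate_succ_apply, Function.iterate_succ_apply, opE_smul, ih]

private theorem vec_eta (a : Fin 2 → ℕ) : a = ![a 0, a 1] := by
  funext i; fin_cases i <;> rfl

private theorem vec_inj (x y z w : ℕ) : (![x, y] : Fin 2 → ℕ) = ![z, w] ↔ x = z ∧ y = w := by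
  constructor
  · intro h
    exact ⟨congrFun h 0, congrFun h 1⟩
  · rintro ⟨rfl, rfl⟩; rfl

private theorem mon2 (q : ℂ) (x y z w x' y' z' w' : ℕ) :
    mon q ![x, y] ![z, w] (![x', y'], ![z', w']) =
      if x' = x ∧ y' = y ∧ z' = z ∧ w' = w then qf q x * qf q y * (qf q z * qf q w) else 0 := by
  unfold mon
  rw [gf2, gf2]
  congr 1
  rw [Prod.mk.injEq, vec_inj, vec_inj, and_assoc]

/-! ### The first corner -/

private theorem F_mon (q : ℂ) (m j N : ℕ) :
    opF q (mon q ![m + 1, 0] ![j, N]) = qn q ((m : ℤ) + 1) • mon q ![m, 0] ![j + 1, N] := by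
  funext ⟨u, v⟩
  rw [vec_eta u, vec_eta v, opF2, Pi.smul_apply, mon2, mon2, mon2, smul_eq_mul]
  generalize u 0 = x
  generalize u 1 = y
  generalize v 0 = z
  generalize v 1 = w
  rw [if_neg (c := x = m + 1 ∧ y + 1 = 0 ∧ z = j ∧ w - 1 = N) (by omega), mul_zero, add_zero]
  rcases Nat.eq_zero_or_pos z with rfl | hz
  · rw [if_neg (c := x = m ∧ y = 0 ∧ 0 = j + 1 ∧ w = N) (by omega)]
    simp [qn_zero]
  · obtain ⟨z, rfl⟩ := Nat.exists_eq_succ_of_ne_zero hz.ne'
    by_cases h : x = m ∧ y = 0 ∧ z = j ∧ w = N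
    · obtain ⟨rfl, rfl, rfl, rfl⟩ := h
      rw [if_pos (by simp), if_pos (by simp), qf_succ, qf_succ]
      push_cast
      ring
    · rw [if_neg (by omega), if_neg (by omega)]
      simp

private theorem F_pow_mon (q : ℂ) (N : ℕ) (hf : ∀ j ≤ N, qf q j ≠ 0) (k : ℕ) (hk : k ≤ N) :
    (opF q)^[k] (mon q ![N, 0] ![0, N]) = (qf q N / qf q (N - k)) • mon q ![N - k, 0] ![k, N] := by
  induction k with
  | zero => simp [div_self (hf N le_rfl)]
  | succ k ih =>
    rw [Function.iterate_succ_apply', ih (by omega)]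
    have h1 : N - k = N - (k + 1) + 1 := by omega
    have h2 : opF q ((qf q N / qf q (N - k)) • mon q ![N - k, 0] ![k, N]) =
        (qf q N / qf q (N - k)) • opF q (mon q ![N - k, 0] ![k, N]) := (Fo q 2).map_smul _ _
    rw [h2, h1, F_mon, smul_smul]
    congr 1
    have h3 := hf (N - (k + 1)) (by omega)
    have h4 := hf (N - (k + 1) + 1) (by omega)
    rw [qf_succ] at h4 ⊢
    field_simp
    rw [mul_div_assoc, div_self (right_ne_zero_of_mul h4), mul_one]

private theorem E_pow_mon (q : ℂ) (hq : q ≠ 0) (N : ℕ) (hf : ∀ j ≤ N, qf q j ≠ 0)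
    (k s : ℕ) (hs : s ≤ k) (hk : k ≤ N) (c : ℕ) (hc : c ≤ N) :
    (opE q)^[s] (mon q ![N - k, 0] ![k, N]) (![N - k + s - c, c], ![k - s + c, N - c]) =
      if c ≤ s then qf q s * qf q k * qf q N * qf q (N - k + s - c) / qf q (s - c) *
        q ^ (-(((s : ℤ) - c) * (N - c))) else 0 := by
  induction s generalizing c with
  | zero =>
    rw [Function.iterate_zero_apply, mon2]
    rcases Nat.eq_zero_or_pos c with rfl | hc0
    · simp [qf_zero]
      ring
    · rw [if_neg (by omega), if_neg (by omega)]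
  | succ s ih =>
    rw [Function.iterate_succ_apply', opE2]
    by_cases hcs : c ≤ s
    · have e1 : N - k + (s + 1) - c - 1 = N - k + s - c := by omega
      have e2 : k - (s + 1) + c + 1 = k - s + c := by omega
      have h1 := ih (by omega) c hc
      rw [e1, e2, h1, if_pos hcs, if_pos (by omega : c ≤ s + 1)]
      have e3 : ((N - k + (s + 1) - c : ℕ) : ℤ) = (N : ℤ) - k + s - c + 1 := by omega
      have e4 : N - k + (s + 1) - c = (N - k + s - c) + 1 := by omega
      have e5 : s + 1 - c = (s - c) + 1 := by omega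
      have e6 : ((N - k + s - c : ℕ) : ℤ) + 1 = (N : ℤ) - k + s - c + 1 := by omega
      have e7 : ((s - c : ℕ) : ℤ) + 1 = (s : ℤ) + 1 - c := by omega
      have e8 : ((N - c : ℕ) : ℤ) = (N : ℤ) - c := by omega
      have hsc : qf q (s - c) ≠ 0 := hf _ (by omega)
      have hsc1 : qf q (s + 1 - c) ≠ 0 := hf _ (by omega)
      have hkey := qn_add q hq ((s : ℤ) + 1 - c) c
      rcases Nat.eq_zero_or_pos c with rfl | hc0
      · have e9 : ((0 : ℕ) : ℤ) = 0 := rfl
        simp only [e9, qn_zero, zero_mul, add_zero] at hkey ⊢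
        rw [e5, qf_succ q (s - 0), e7] at hsc1
        rw [e3, e4, e5, qf_succ, qf_succ, qf_succ, e6, e7]
        have h9 := right_ne_zero_of_mul hsc1
        simp only [Nat.cast_zero, Nat.cast_add, Nat.cast_one, sub_zero, Nat.sub_zero] at h9 hsc e8 ⊢
        rw [show -(((s : ℤ) + 1) * N) = ((0 : ℤ) - N) + -((s : ℤ) * N) by ring, zpow_add₀ hq]
        field_simp
      · obtain ⟨c, rfl⟩ := Nat.exists_eq_succ_of_ne_zero hc0.ne'
        have h2 := ih (by omega) c (by omega)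
        have e10 : N - k + (s + 1) - (c + 1) = N - k + s - c := by omega
        have e11 : k - (s + 1) + (c + 1) = k - s + c := by omega
        have e12 : N - (c + 1) + 1 = N - c := by omega
        simp only [Nat.succ_eq_add_one] at *
        rw [show c + 1 - 1 = c by omega, e10, e11, e12, h2, if_pos (by omega : c ≤ s)]
        have e13 : N - k + s - c = (N - k + s - (c + 1)) + 1 := by omega
        have e14 : s - c = (s - (c + 1)) + 1 := by omega
        have e15 : s + 1 - (c + 1) = (s - (c + 1)) + 1 := by omega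
        rw [e15, qf_succ q (s - (c + 1)), e7] at hsc1
        rw [e13, e14, e15, qf_succ, qf_succ, qf_succ, e6, e7]
        rw [show ((N - k + s - (c + 1) + 1 : ℕ) : ℤ) = (N : ℤ) - k + s - (c + 1 : ℕ) + 1 by omega]
        have h9 := right_ne_zero_of_mul hsc1
        have e16 : q ^ (((c + 1 : ℕ) : ℤ) - (N - (c + 1) : ℕ)) =
            q ^ (((c + 1 : ℕ) : ℤ)) * q ^ (-((N : ℤ) - (c + 1 : ℕ))) := by
          rw [← zpow_add₀ hq]; congr 1; omega
        have e17 : q ^ (-(((s : ℤ) - c) * (N - c))) =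
            q ^ (-(((s : ℤ) + 1 - (c + 1 : ℕ)) * (N - (c + 1 : ℕ)))) * q ^ (-((s : ℤ) + 1 - (c + 1 : ℕ))) := by
          rw [← zpow_add₀ hq]; congr 1; push_cast; ring
        have e18 : q ^ (-(((s : ℤ) + 1 - (c + 1 : ℕ)) * (N - (c + 1 : ℕ)))) =
            q ^ (-(((s : ℤ) - (c + 1 : ℕ)) * (N - (c + 1 : ℕ)))) * q ^ (-((N : ℤ) - (c + 1 : ℕ))) := by
          rw [← zpow_add₀ hq]; congr 1; ring
        rw [e16, e17]
        simp only [Nat.cast_add, Nat.cast_one] at e18 hkey h9 hsc ⊢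
        rw [show (s : ℤ) + 1 = (s : ℤ) + 1 - ((c : ℤ) + 1) + ((c : ℤ) + 1) by ring, ← hkey]
        rw [show (s : ℤ) + 1 - ((c : ℤ) + 1) + ((c : ℤ) + 1) - ((c : ℤ) + 1) = (s : ℤ) + 1 - ((c : ℤ) + 1) by ring]
        rw [e18]
        field_simp
    · obtain ⟨c, rfl⟩ := Nat.exists_eq_succ_of_ne_zero (by omega : c ≠ 0)
      simp only [Nat.succ_eq_add_one] at *
      have h1 := ih (by omega) (c + 1) hc
      rw [if_neg hcs] at h1
      have h2 := ih (by omega) c (by omega)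
      have t1 : qn q ((N - k + (s + 1) - (c + 1) : ℕ) : ℤ) *
          (opE q)^[s] (mon q ![N - k, 0] ![k, N])
            (![N - k + (s + 1) - (c + 1) - 1, c + 1], ![k - (s + 1) + (c + 1) + 1, N - (c + 1)]) = 0 := by
        rcases Nat.eq_zero_or_pos (N - k + (s + 1) - (c + 1)) with h0 | h0
        · rw [h0]; simp [qn_zero]
        · rw [show N - k + (s + 1) - (c + 1) - 1 = N - k + s - (c + 1) by omega,
            show k - (s + 1) + (c + 1) + 1 = k - s + (c + 1) by omega, h1, mul_zero]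
      rw [mul_assoc, t1, mul_zero, zero_add]
      rw [show c + 1 - 1 = c by omega, show N - k + (s + 1) - (c + 1) = N - k + s - c by omega,
        show k - (s + 1) + (c + 1) = k - s + c by omega, show N - (c + 1) + 1 = N - c by omega, h2]
      by_cases hc1 : c = s
      · subst hc1
        rw [if_pos le_rfl, if_pos le_rfl, qf_succ]
        simp
        ring
      · rw [if_neg (by omega), if_neg (by omega), mul_zero]

/-! ### The `q`-binomial theorem -/

private theorem qsum (q : ℂ) (hq : q ≠ 0) (L : ℕ) (hL : 1 ≤ L) (hf : ∀ j ≤ L, qf q j ≠ 0) (J : ℕ)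
    (hJ : J < L) :
    ∑ j ∈ Finset.range (J + 1), (-1) ^ j * q ^ ((j : ℤ) * (1 - L)) * (qf q L /
      (qf q j * qf q (L - j))) =
      (-1) ^ J * q ^ (-((J : ℤ) * L)) * (qf q (L - 1) / (qf q J * qf q (L - 1 - J))) := by
  induction J with
  | zero =>
    have h1 := hf L le_rfl
    have h2 := hf (L - 1) (by omega)
    simp [qf_zero, div_self h1, div_self h2]
  | succ J ih =>
    rw [Finset.sum_range_succ, ih (by omega)]
    obtain ⟨M, rfl⟩ : ∃ M, L = M + J + 2 := ⟨L - J - 2, by omega⟩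
    have e1 : M + J + 2 - (J + 1) = M + 1 := by omega
    have e2 : M + J + 2 - 1 = M + J + 1 := by omega
    have e3 : M + J + 1 - (J + 1) = M := by omega
    have e4 : M + J + 1 - J = M + 1 := by omega
    rw [e1, e2, e3, e4, show M + J + 2 = M + J + 1 + 1 by omega, qf_succ q (M + J + 1)]
    have h1 := hf (J + 1) (by omega)
    have h2 := hf (M + 1) (by omega)
    have h3 := hf (M + J + 1) (by omega)
    rw [qf_succ] at h1 h2
    rw [qf_succ q M, qf_succ q J]
    have h4 := left_ne_zero_of_mul h1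
    have h5 := right_ne_zero_of_mul h1
    have h6 := left_ne_zero_of_mul h2
    have h7 := right_ne_zero_of_mul h2
    have hkey := qn_add q hq ((J : ℤ) + 1) ((M : ℤ) + 1)
    have e5 : ((M + J + 1 : ℕ) : ℤ) + 1 = (J : ℤ) + 1 + (M + 1) := by push_cast; ring
    rw [e5, ← hkey]
    push_cast
    have e6 : q ^ (((J : ℤ) + 1) * (1 - (M + J + 1 + 1))) =
        q ^ (-(((J : ℤ) + 1) * (M + J + 1 + 1))) * q ^ ((J : ℤ) + 1) := by
      rw [← zpow_add₀ hq]; congr 1; ring
    have e7 : q ^ (-((J : ℤ) * (M + J + 1 + 1))) =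
        q ^ (-(((J : ℤ) + 1) * (M + J + 1 + 1))) * (q ^ ((J : ℤ) + 1) * q ^ ((M : ℤ) + 1)) := by
      rw [← zpow_add₀ hq, ← zpow_add₀ hq]; congr 1; ring
    have e8 : q ^ (-((J : ℤ) + 1)) = (q ^ ((J : ℤ) + 1))⁻¹ := zpow_neg _ _
    have e9 : q ^ (-(((J : ℤ) + 1) * (M + J + 1 + 1))) ≠ 0 := zpow_ne_zero _ hq
    have e10 : q ^ ((J : ℤ) + 1) ≠ 0 := zpow_ne_zero _ hq
    rw [e6, e7, e8]
    generalize q ^ (-(((J : ℤ) + 1) * (M + J + 1 + 1))) = X at *
    generalize q ^ ((J : ℤ) + 1) = Y at *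
    generalize q ^ ((M : ℤ) + 1) = Z at *
    rw [pow_succ]
    generalize ((-1 : ℂ) ^ J) = W at *
    generalize qn q ((J : ℤ) + 1) = A at *
    generalize qn q ((M : ℤ) + 1) = B at *
    field_simp
    ring

private theorem qsum0 (q : ℂ) (hq : q ≠ 0) (L : ℕ) (hL : 1 ≤ L) (hf : ∀ j ≤ L, qf q j ≠ 0) :
    ∑ j ∈ Finset.range (L + 1), (-1) ^ j * q ^ ((j : ℤ) * (1 - L)) * (qf q L /
      (qf q j * qf q (L - j))) = 0 := by
  obtain ⟨M, rfl⟩ : ∃ M, L = M + 1 := ⟨L - 1, by omega⟩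
  rw [Finset.sum_range_succ, qsum q hq (M + 1) hL hf M (by omega)]
  simp only [Nat.add_sub_cancel, Nat.sub_self, qf_zero]
  have h1 := hf M (by omega)
  have h2 := hf (M + 1) le_rfl
  rw [show (((M + 1 : ℕ) : ℤ)) * (1 - ((M + 1 : ℕ) : ℤ)) = -((M : ℤ) * ((M + 1 : ℕ) : ℤ)) by
    push_cast; ring]
  rw [pow_succ]
  field_simp
  ring


/-! ### The values at the corners -/

private theorem corner1 (q : ℂ) (hq : q ≠ 0) (N : ℕ) (hf : ∀ j ≤ N, qf q j ≠ 0) (c : ℕ)
    (hc : c ≤ N) :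
    KR q N 1 ![N - c, c] ![c, N - c] ![N, 0] ![0, N] = if c = N then qf q N ^ 2 else 0 := by
  unfold KR opR
  have h1 : ∀ k ∈ Finset.range (N + 1), (-1 : ℂ) ^ (N - k) * q ^ ((1 : ℤ) * ((k : ℤ) - N)) /
      qf q k ^ 2 * (opE q)^[k] ((opF q)^[k] (mon q ![N, 0] ![0, N])) (![N - c, c], ![c, N - c]) =
      if c ≤ k then qf q N ^ 2 * qf q (N - c) * ((-1 : ℂ) ^ (N - k) * q ^ ((k : ℤ) - N) *
        q ^ (-(((k : ℤ) - c) * (N - c))) / (qf q (N - k) * qf q (k - c))) else 0 := by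
    intro k hk
    have hk' : k ≤ N := Nat.lt_succ_iff.1 (Finset.mem_range.1 hk)
    rw [F_pow_mon q N hf k hk', opE_pow_smul, Pi.smul_apply, smul_eq_mul]
    have h2 := E_pow_mon q hq N hf k k le_rfl hk' c hc
    rw [show N - k + k - c = N - c by omega, show k - k + c = c by omega] at h2
    rw [h2]
    split_ifs with h
    · have h3 := hf k hk'
      have h4 := hf (N - k) (by omega)
      have h5 := hf (k - c) (by omega)
      rw [one_mul]
      field_simp
    · simp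
  rw [Finset.sum_congr rfl h1]
  rw [← Finset.sum_filter]
  have h2 : (Finset.range (N + 1)).filter (fun k => c ≤ k) =
      (Finset.range (N - c + 1)).image (fun j => j + c) := by
    ext k
    simp only [Finset.mem_filter, Finset.mem_range, Finset.mem_image]
    constructor
    · rintro ⟨h, h'⟩
      exact ⟨k - c, by omega, by omega⟩
    · rintro ⟨j, h, rfl⟩
      omega
  rw [h2, Finset.sum_image (by intro a _ b _ h; simpa using h)]
  have h3 : ∀ j ∈ Finset.range (N - c + 1), qf q N ^ 2 * qf q (N - c) *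
      ((-1 : ℂ) ^ (N - (j + c)) * q ^ (((j + c : ℕ) : ℤ) - N) *
        q ^ (-((((j + c : ℕ) : ℤ) - c) * (N - c))) / (qf q (N - (j + c)) * qf q (j + c - c))) =
      qf q N ^ 2 * ((-1) ^ (N - c) * q ^ (-((N - c : ℕ) : ℤ))) *
        ((-1) ^ j * q ^ ((j : ℤ) * (1 - (N - c : ℕ))) * (qf q (N - c) /
      (qf q j * qf q (N - c - j)))) := by
    intro j hj
    have hj' : j ≤ N - c := Nat.lt_succ_iff.1 (Finset.mem_range.1 hj)
    rw [show N - (j + c) = N - c - j by omega, show j + c - c = j by omega]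
    have e1 : (-1 : ℂ) ^ (N - c - j) = (-1) ^ (N - c) * (-1) ^ j := by
      obtain ⟨M, hM⟩ : ∃ M, N - c = M + j := ⟨N - c - j, by omega⟩
      rw [hM, Nat.add_sub_cancel, pow_add, mul_assoc, ← pow_add, ← two_mul, pow_mul]
      simp
    have e2 : q ^ (((j + c : ℕ) : ℤ) - N) * q ^ (-((((j + c : ℕ) : ℤ) - c) * (N - c))) =
        q ^ (-((N - c : ℕ) : ℤ)) * q ^ ((j : ℤ) * (1 - (N - c : ℕ))) := by
      rw [← zpow_add₀ hq, ← zpow_add₀ hq]
      congr 1
      rw [show ((N - c : ℕ) : ℤ) = (N : ℤ) - c by omega]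
      push_cast
      ring
    rw [e1, mul_assoc ((-1 : ℂ) ^ (N - c) * (-1) ^ j), e2]
    ring
  rw [Finset.sum_congr rfl h3, ← Finset.mul_sum]
  by_cases hcN : c = N
  · subst hcN
    simp [qf_zero]
  · rw [qsum0 q hq (N - c) (by omega) (fun j hj => hf j (by omega)), if_neg hcN, mul_zero]


private theorem E_pow_at (q : ℂ) (hq : q ≠ 0) (N : ℕ) (m j k : ℕ) (hk : k ≤ m)
    (hf : ∀ j ≤ m, qf q j ≠ 0) (φ : Fn2 2) :
    (opE q)^[k] φ (![m, 0], ![j, N]) =
      q ^ (-((k : ℤ) * N)) * (qf q m / qf q (m - k)) * φ (![m - k, 0], ![j + k, N]) := by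
  induction k generalizing φ with
  | zero => simp [div_self (hf m le_rfl)]
  | succ k ih =>
    rw [Function.iterate_succ_apply, ih (by omega) (opE q φ), opE2]
    rw [show m - k - 1 = m - (k + 1) by omega, show j + k + 1 = j + (k + 1) by omega]
    simp only [Nat.cast_zero, qn_zero, zero_mul, add_zero]
    have h1 : m - k = (m - (k + 1)) + 1 := by omega
    have h2 := hf (m - (k + 1)) (by omega)
    have h3 := hf (m - (k + 1) + 1) (by omega)
    rw [h1, qf_succ, show (((m - (k + 1) : ℕ) : ℤ) + 1) = ((m - (k + 1) + 1 : ℕ) : ℤ) by push_cast; ring]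
    rw [qf_succ, show (((m - (k + 1) : ℕ) : ℤ) + 1) = ((m - (k + 1) + 1 : ℕ) : ℤ) by push_cast; ring]
      at h3
    have h4 := right_ne_zero_of_mul h3
    rw [show -(((k + 1 : ℕ) : ℤ) * N) = -((k : ℤ) * N) + (0 - (N : ℤ)) by push_cast; ring,
      zpow_add₀ hq]
    field_simp

private theorem F_supp (q : ℂ) (b0 b1 a0 a1 s : ℕ) (x y z w : ℕ) (h : b0 < x ∨ b1 < y) :
    (opF q)^[s] (mon q ![b0, b1] ![a0, a1]) (![x, y], ![z, w]) = 0 := by
  induction s generalizing x y z w with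
  | zero =>
    rw [Function.iterate_zero_apply, mon2, if_neg (by omega)]
  | succ s ih =>
    rw [Function.iterate_succ_apply', opF2, ih _ _ _ _ (by omega), ih _ _ _ _ (by omega)]
    simp

private theorem F_supp2 (q : ℂ) (b0 b1 a0 a1 s : ℕ) (x y z w : ℕ) (h : y + s < b1) :
    (opF q)^[s] (mon q ![b0, b1] ![a0, a1]) (![x, y], ![z, w]) = 0 := by
  induction s generalizing x y z w with
  | zero =>
    rw [Function.iterate_zero_apply, mon2, if_neg (by omega)]
  | succ s ih =>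
    rw [Function.iterate_succ_apply', opF2, ih _ _ _ _ (by omega), ih _ _ _ _ (by omega)]
    simp

private theorem F_pow_mon2 (q : ℂ) (hq : q ≠ 0) (N a : ℕ) (ha : a ≤ N) (hf : ∀ j ≤ N, qf q j ≠ 0)
    (s : ℕ) (p u : ℕ) (hs : p + u = s) (hp : p ≤ N - a) (hu : u ≤ a) :
    (opF q)^[s] (mon q ![N - a, a] ![a, N - a]) (![N - a - p, a - u], ![a + p, N - a + u]) =
      qf q s * (qf q (N - a) / qf q p) * (qf q a / qf q u) * (qf q (a + p) * qf q (N - a + u)) *
        q ^ ((u : ℤ) * (2 * a - N + p)) := by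
  induction s generalizing p u with
  | zero =>
    obtain ⟨rfl, rfl⟩ : p = 0 ∧ u = 0 := by omega
    have h1 := hf (N - a) (by omega)
    have h2 := hf a ha
    rw [Function.iterate_zero_apply, mon2, if_pos (by omega)]
    simp [qf_zero]
  | succ s ih =>
    rw [Function.iterate_succ_apply', opF2]
    have t1 : qn q ((a + p : ℕ) : ℤ) * (opF q)^[s] (mon q ![N - a, a] ![a, N - a])
        (![N - a - p + 1, a - u], ![a + p - 1, N - a + u]) =
        qn q (p : ℤ) * (qf q s * (qf q (N - a) / qf q p) * (qf q a / qf q u) *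
          (qf q (a + p) * qf q (N - a + u)) * q ^ ((u : ℤ) * (2 * a - N + p))) * q ^ (-(u : ℤ)) := by
      rcases Nat.eq_zero_or_pos p with rfl | hp0
      · rw [F_supp _ _ _ _ _ _ _ _ _ _ (by omega)]
        simp [qn_zero]
      · obtain ⟨p, rfl⟩ := Nat.exists_eq_succ_of_ne_zero hp0.ne'
        simp only [Nat.succ_eq_add_one] at *
        rw [show N - a - (p + 1) + 1 = N - a - p by omega, show a + (p + 1) - 1 = a + p by omega,
          ih p u (by omega) (by omega) hu, show a + (p + 1) = (a + p) + 1 by omega, qf_succ, qf_succ]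
        have h1 := hf (p + 1) (by omega)
        rw [qf_succ] at h1
        have h2 := left_ne_zero_of_mul h1
        have h3 := right_ne_zero_of_mul h1
        have h4 := hf u (by omega)
        have e1 : q ^ ((u : ℤ) * (2 * a - N + (p + 1 : ℕ))) * q ^ (-(u : ℤ)) =
            q ^ ((u : ℤ) * (2 * a - N + p)) := by
          rw [← zpow_add₀ hq]; congr 1; push_cast; ring
        rw [← e1]
        push_cast
        field_simp
    have t2 : q ^ (((a + p : ℕ) : ℤ) - (N - a - p : ℕ)) * qn q ((N - a + u : ℕ) : ℤ) *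
        (opF q)^[s] (mon q ![N - a, a] ![a, N - a])
        (![N - a - p, a - u + 1], ![a + p, N - a + u - 1]) =
        qn q (u : ℤ) * (qf q s * (qf q (N - a) / qf q p) * (qf q a / qf q u) *
          (qf q (a + p) * qf q (N - a + u)) * q ^ ((u : ℤ) * (2 * a - N + p))) * q ^ (p : ℤ) := by
      rcases Nat.eq_zero_or_pos u with rfl | hu0
      · rw [F_supp _ _ _ _ _ _ _ _ _ _ (by omega)]
        simp [qn_zero]
      · obtain ⟨u, rfl⟩ := Nat.exists_eq_succ_of_ne_zero hu0.ne'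
        simp only [Nat.succ_eq_add_one] at *
        rw [show a - (u + 1) + 1 = a - u by omega, show N - a + (u + 1) - 1 = N - a + u by omega,
          ih p u (by omega) hp (by omega), show N - a + (u + 1) = (N - a + u) + 1 by omega,
          qf_succ q (N - a + u), qf_succ q u]
        have h1 := hf (u + 1) (by omega)
        rw [qf_succ] at h1
        have h2 := left_ne_zero_of_mul h1
        have h3 := right_ne_zero_of_mul h1
        have h4 := hf p (by omega)
        have e1 : q ^ (((u + 1 : ℕ) : ℤ) * (2 * a - N + p)) * q ^ (p : ℤ) =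
            q ^ ((u : ℤ) * (2 * a - N + p)) * q ^ (((a + p : ℕ) : ℤ) - (N - a - p : ℕ)) := by
          rw [← zpow_add₀ hq, ← zpow_add₀ hq]; congr 1
          rw [show ((N - a - p : ℕ) : ℤ) = (N : ℤ) - a - p by omega]
          push_cast; ring
        rw [show ∀ A B C D E : ℂ, A * (B * C * D * E * q ^ (((u + 1 : ℕ) : ℤ) * (2 * a - N + p))) *
          q ^ (p : ℤ) = A * B * C * D * E * (q ^ (((u + 1 : ℕ) : ℤ) * (2 * a - N + p)) * q ^ (p : ℤ))
          by intros; ring, e1]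
        push_cast
        field_simp
    rw [t1, t2, qf_succ]
    have hkey := qn_add q hq (u : ℤ) (p : ℤ)
    rw [show ((s : ℤ) + 1) = (u : ℤ) + p by omega, ← hkey]
    ring

private theorem corner2 (q : ℂ) (hq : q ≠ 0) (N : ℕ) (hf : ∀ j ≤ N, qf q j ≠ 0) (a : ℕ)
    (ha : a ≤ N) :
    KR q N 1 ![N, 0] ![0, N] ![N - a, a] ![a, N - a] = if a = N then qf q N ^ 2 else 0 := by
  unfold KR opR
  have h1 : ∀ k ∈ Finset.range (N + 1), (-1 : ℂ) ^ (N - k) * q ^ ((1 : ℤ) * ((k : ℤ) - N)) /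
      qf q k ^ 2 * (opE q)^[k] ((opF q)^[k] (mon q ![N - a, a] ![a, N - a])) (![N, 0], ![0, N]) =
      if a ≤ k then qf q N ^ 2 * qf q (N - a) * ((-1 : ℂ) ^ (N - k) * q ^ ((k : ℤ) - N) *
        (q ^ (-((k : ℤ) * N)) * q ^ ((a : ℤ) * (2 * a - N + (k - a)))) /
          (qf q (N - k) * qf q (k - a))) else 0 := by
    intro k hk
    have hk' : k ≤ N := Nat.lt_succ_iff.1 (Finset.mem_range.1 hk)
    rw [E_pow_at q hq N N 0 k hk' hf, zero_add]
    split_ifs with h
    · have h2 := F_pow_mon2 q hq N a ha hf k (k - a) a (by omega) (by omega) le_rfl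
      rw [show N - a - (k - a) = N - k by omega, show a - a = 0 by omega,
        show a + (k - a) = k by omega, show N - a + a = N by omega,
        show ((k - a : ℕ) : ℤ) = (k : ℤ) - a by omega] at h2
      rw [h2]
      have h3 := hf k hk'
      have h4 := hf (N - k) (by omega)
      have h5 := hf (k - a) (by omega)
      have h6 := hf a ha
      rw [one_mul]
      field_simp
    · rw [F_supp2 _ _ _ _ _ _ _ _ _ _ (by omega)]
      simp
  rw [Finset.sum_congr rfl h1]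
  rw [← Finset.sum_filter]
  have h2 : (Finset.range (N + 1)).filter (fun k => a ≤ k) =
      (Finset.range (N - a + 1)).image (fun j => j + a) := by
    ext k
    simp only [Finset.mem_filter, Finset.mem_range, Finset.mem_image]
    constructor
    · rintro ⟨h, h'⟩
      exact ⟨k - a, by omega, by omega⟩
    · rintro ⟨j, h, rfl⟩
      omega
  rw [h2, Finset.sum_image (by intro a _ b _ h; simpa using h)]
  have h3 : ∀ j ∈ Finset.range (N - a + 1), qf q N ^ 2 * qf q (N - a) *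
      ((-1 : ℂ) ^ (N - (j + a)) * q ^ (((j + a : ℕ) : ℤ) - N) *
        (q ^ (-(((j + a : ℕ) : ℤ) * N)) * q ^ ((a : ℤ) * (2 * a - N + (((j + a : ℕ) : ℤ) - a)))) /
          (qf q (N - (j + a)) * qf q (j + a - a))) =
      qf q N ^ 2 * ((-1) ^ (N - a) * q ^ (-((N - a : ℕ) : ℤ) * (1 + 2 * a))) *
        ((-1) ^ j * q ^ ((j : ℤ) * (1 - (N - a : ℕ))) * (qf q (N - a) /
      (qf q j * qf q (N - a - j)))) := by
    intro j hj
    have hj' : j ≤ N - a := Nat.lt_succ_iff.1 (Finset.mem_range.1 hj)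
    rw [show N - (j + a) = N - a - j by omega, show j + a - a = j by omega]
    have e1 : (-1 : ℂ) ^ (N - a - j) = (-1) ^ (N - a) * (-1) ^ j := by
      obtain ⟨M, hM⟩ : ∃ M, N - a = M + j := ⟨N - a - j, by omega⟩
      rw [hM, Nat.add_sub_cancel, pow_add, mul_assoc, ← pow_add, ← two_mul, pow_mul]
      simp
    have e2 : q ^ (((j + a : ℕ) : ℤ) - N) * (q ^ (-(((j + a : ℕ) : ℤ) * N)) *
        q ^ ((a : ℤ) * (2 * a - N + (((j + a : ℕ) : ℤ) - a)))) =
        q ^ (-((N - a : ℕ) : ℤ) * (1 + 2 * a)) * q ^ ((j : ℤ) * (1 - (N - a : ℕ))) := by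
      rw [← zpow_add₀ hq, ← zpow_add₀ hq, ← zpow_add₀ hq]
      congr 1
      rw [show ((N - a : ℕ) : ℤ) = (N : ℤ) - a by omega]
      push_cast
      ring
    rw [e1, mul_assoc ((-1 : ℂ) ^ (N - a) * (-1) ^ j), e2]
    ring
  rw [Finset.sum_congr rfl h3, ← Finset.mul_sum]
  by_cases haN : a = N
  · subst haN
    simp [qf_zero]
  · rw [qsum0 q hq (N - a) (by omega) (fun j hj => hf j (by omega)), if_neg haN, mul_zero]

/-! ### The recursions -/

/-- The matrix elements of the crossing for `n = 2`. -/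
private noncomputable def K2 (q : ℂ) (N c d a b : ℕ) : ℂ :=
  KR q N 1 ![N - c, c] ![N - d, d] ![N - a, a] ![N - b, b]

/-- The values of `K2`. -/
private noncomputable def T2 (q : ℂ) (N c d a b : ℕ) : ℂ :=
  if b ≤ c then q ^ ((N : ℤ) ^ 2 - N * (c + d) + 2 * c * d + (c - b).choose 2) *
    br q 1 ^ (c - b) * (qf q a * qf q c * (qf q (N - b) * qf q (N - d)) / qf q (c - b)) else 0

private theorem K2_KH1 (q : ℂ) (N : ℕ) (hg : Gen q 2 (N + 1)) (c d a b : ℕ) (hc : c ≤ N + 1)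
    (ha : a ≤ N + 1) (hd : d ≤ N) (hb : b ≤ N) :
    q ^ ((1 : ℤ) + b) * K2 q (N + 1) c d a b +
        q ^ (-1 - (N : ℤ) + d) * K2 q (N + 1) c (d + 1) a (b + 1) =
      q ^ (2 * (N : ℤ) + 2) * (qn q ((N : ℤ) + 1 - c) * qn q ((N : ℤ) + 1 - a) * q ^ (-(a : ℤ)) *
          K2 q N c d a b +
        qn q c * qn q a * q ^ ((N : ℤ) + 1 - c) * K2 q N (c - 1) d (a - 1) b) := by
  have h := KH1 q N 1 (Or.inl rfl) hg (by norm_num) ![N + 1 - c, c] ![N - d, d] ![N + 1 - a, a]
    ![N - b, b] (by simp; omega) (by simp; omega) (by simp; omega) (by simp; omega)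
  rw [Fin.sum_univ_two, Fin.sum_univ_two] at h
  simp only [lo0, lo1, hi0, hi1, sub0, sub1, add0, add1] at h
  simp only [Matrix.cons_val_zero, Matrix.cons_val_one, Fin.val_zero, Fin.val_one] at h
  unfold K2
  rw [show N + 1 - d = N - d + 1 by omega, show N + 1 - b = N - b + 1 by omega,
    show N + 1 - (d + 1) = N - d by omega, show N + 1 - (b + 1) = N - b by omega]
  have e1 : q ^ ((1 : ℤ) + b) = q ^ (((2 : ℕ) : ℤ) - 1 - 2 * ((0 : ℕ) : ℤ)) * q ^ ((b : ℤ) - 0) := by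
    rw [← zpow_add₀ hg.1]; congr 1
  have e2 : q ^ (-1 - (N : ℤ) + d) = q ^ (((2 : ℕ) : ℤ) - 1 - 2 * ((1 : ℕ) : ℤ)) *
      q ^ (0 - ((N - d : ℕ) : ℤ)) := by
    rw [← zpow_add₀ hg.1]; congr 1; omega
  rw [e1, e2, h]
  rw [show (1 : ℤ) * (2 * (N : ℤ) + ((2 : ℕ) : ℤ)) = 2 * (N : ℤ) + 2 by push_cast; ring]
  congr 1
  rw [show ((N + 1 - c : ℕ) : ℤ) = (N : ℤ) + 1 - c by omega,
    show ((N + 1 - a : ℕ) : ℤ) = (N : ℤ) + 1 - a by omega, sub_zero, zero_sub,
    show N + 1 - c - 1 = N - c by omega, show N + 1 - a - 1 = N - a by omega]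
  congr 1
  rcases Nat.eq_zero_or_pos c with rfl | hc0
  · simp [qn_zero]
  rcases Nat.eq_zero_or_pos a with rfl | ha0
  · simp [qn_zero]
  rw [show N - (c - 1) = N + 1 - c by omega, show N - (a - 1) = N + 1 - a by omega]

private theorem K2_KH2 (q : ℂ) (N : ℕ) (hg : Gen q 2 (N + 1)) (c d a b : ℕ) (hc : c ≤ N)
    (ha : a ≤ N) (hd : d ≤ N + 1) (hb : b ≤ N + 1) :
    q ^ (-1 - (c : ℤ)) * K2 q (N + 1) c d a b +
        q ^ (1 + (N : ℤ) - a) * K2 q (N + 1) (c + 1) d (a + 1) b =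
      q ^ (2 * (N : ℤ) + 2) * (qn q ((N : ℤ) + 1 - d) * qn q ((N : ℤ) + 1 - b) * q ^ (d : ℤ) *
          K2 q N c d a b +
        qn q d * qn q b * q ^ (-((N : ℤ) + 1 - b)) * K2 q N c (d - 1) a (b - 1)) := by
  have h := KH2 q N 1 (Or.inl rfl) hg (by norm_num) ![N - c, c] ![N + 1 - d, d] ![N - a, a]
    ![N + 1 - b, b] (by simp; omega) (by simp; omega) (by simp; omega) (by simp; omega)
  rw [Fin.sum_univ_two, Fin.sum_univ_two] at h
  simp only [lo0, lo1, hi0, hi1, sub0, sub1, add0, add1] at h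
  simp only [Matrix.cons_val_zero, Matrix.cons_val_one, Fin.val_zero, Fin.val_one] at h
  unfold K2
  rw [show N + 1 - c = N - c + 1 by omega, show N + 1 - a = N - a + 1 by omega,
    show N + 1 - (c + 1) = N - c by omega, show N + 1 - (a + 1) = N - a by omega]
  have e1 : q ^ (-1 - (c : ℤ)) = (q ^ (((2 : ℕ) : ℤ) - 1 - 2 * ((0 : ℕ) : ℤ)))⁻¹ *
      q ^ (0 - (c : ℤ)) := by
    rw [← zpow_neg, ← zpow_add₀ hg.1]; congr 1; push_cast; ring
  have e2 : q ^ (1 + (N : ℤ) - a) = (q ^ (((2 : ℕ) : ℤ) - 1 - 2 * ((1 : ℕ) : ℤ)))⁻¹ *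
      q ^ (((N - a : ℕ) : ℤ) - 0) := by
    rw [← zpow_neg, ← zpow_add₀ hg.1]; congr 1; omega
  rw [e1, e2, h]
  rw [show (1 : ℤ) * (2 * (N : ℤ) + ((2 : ℕ) : ℤ)) = 2 * (N : ℤ) + 2 by push_cast; ring]
  congr 1
  rw [show ((N + 1 - d : ℕ) : ℤ) = (N : ℤ) + 1 - d by omega,
    show ((N + 1 - b : ℕ) : ℤ) = (N : ℤ) + 1 - b by omega, sub_zero, zero_sub,
    show N + 1 - d - 1 = N - d by omega, show N + 1 - b - 1 = N - b by omega]
  congr 1
  rcases Nat.eq_zero_or_pos d with rfl | hd0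
  · simp [qn_zero]
  rcases Nat.eq_zero_or_pos b with rfl | hb0
  · simp [qn_zero]
  rw [show N - (d - 1) = N + 1 - d by omega, show N - (b - 1) = N + 1 - b by omega]

private theorem qn_id (q : ℂ) (hq : q ≠ 0) (X Y m : ℤ) :
    qn q X * qn q Y - qn q (X - m) * qn q (Y - m) = qn q m * qn q (X + Y - m) := by
  have h := qn_three_term q hq (X - m) (-Y) m
  rw [show -Y + m = -(Y - m) by ring, show X - m + m = X by ring,
    show X - m - -Y = X + Y - m by ring, qn_neg, qn_neg] at h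
  linear_combination h

private theorem br_mul_qn (q : ℂ) (h1 : br q 1 ≠ 0) (n : ℤ) :
    br q 1 * qn q n = q ^ n - q ^ (-n) := by
  unfold qn
  rw [mul_div_cancel₀ _ h1]
  rfl

private theorem T2_KH1 (q : ℂ) (hq : q ≠ 0) (h1 : br q 1 ≠ 0) (N : ℕ)
    (hf : ∀ j ≤ N + 1, qf q j ≠ 0) (c d a b : ℕ) (hc : c ≤ N + 1)
    (ha : a ≤ N + 1) (hd : d ≤ N) (hb : b ≤ N) (hs : a + b = c + d) :
    q ^ ((1 : ℤ) + b) * T2 q (N + 1) c d a b +
        q ^ (-1 - (N : ℤ) + d) * T2 q (N + 1) c (d + 1) a (b + 1) =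
      q ^ (2 * (N : ℤ) + 2) * (qn q ((N : ℤ) + 1 - c) * qn q ((N : ℤ) + 1 - a) * q ^ (-(a : ℤ)) *
          T2 q N c d a b +
        qn q c * qn q a * q ^ ((N : ℤ) + 1 - c) * T2 q N (c - 1) d (a - 1) b) := by
  unfold T2
  rcases lt_or_ge c b with hcb | hcb
  · rw [if_neg (by omega), if_neg (by omega), if_neg (by omega), if_neg (by omega)]
    ring
  have hbf : qf q (N + 1 - b) = qf q (N - b) * qn q ((N : ℤ) + 1 - b) := by
    rw [show N + 1 - b = N - b + 1 by omega, qf_succ, show (((N - b : ℕ) : ℤ) + 1) = (N : ℤ) + 1 - b by omega]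
  have hdf : qf q (N + 1 - d) = qf q (N - d) * qn q ((N : ℤ) + 1 - d) := by
    rw [show N + 1 - d = N - d + 1 by omega, qf_succ, show (((N - d : ℕ) : ℤ) + 1) = (N : ℤ) + 1 - d by omega]
  rcases Nat.eq_or_lt_of_le hcb with rfl | hlt
  · obtain rfl : a = d := by omega
    rw [if_pos le_rfl, if_neg (by omega), if_pos le_rfl]
    have t : qn q (b : ℤ) * qn q (a : ℤ) * q ^ ((N : ℤ) + 1 - b) *
        (if b ≤ b - 1 then q ^ ((N : ℤ) ^ 2 - N * ((b - 1 : ℕ) + a) + 2 * (b - 1 : ℕ) * a +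
          ((b - 1 - b).choose 2 : ℕ)) * br q 1 ^ (b - 1 - b) * (qf q (a - 1) * qf q (b - 1) *
            (qf q (N - b) * qf q (N - a)) / qf q (b - 1 - b)) else 0) = 0 := by
      rcases Nat.eq_zero_or_pos b with rfl | hb0
      · simp [qn_zero]
      · rw [if_neg (by omega), mul_zero]
    rw [t, hbf, hdf]
    simp only [Nat.sub_self, Nat.choose_zero_succ, pow_zero, qf_zero, Nat.cast_zero, add_zero,
      mul_zero, mul_one, div_one]
    have e : q ^ ((1 : ℤ) + b) * q ^ ((((N + 1 : ℕ) : ℤ)) ^ 2 - ((N + 1 : ℕ) : ℤ) * (b + a) + 2 * b * a) =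
        q ^ (2 * (N : ℤ) + 2) * (q ^ (-(a : ℤ)) * q ^ ((N : ℤ) ^ 2 - N * (b + a) + 2 * b * a)) := by
      rw [← zpow_add₀ hq, ← zpow_add₀ hq, ← zpow_add₀ hq]; congr 1; push_cast; ring
    linear_combination (qf q a * qf q b * (qf q (N - b) * qn q ((N : ℤ) + 1 - b) *
      (qf q (N - a) * qn q ((N : ℤ) + 1 - a)))) * e
  · obtain ⟨m, rfl⟩ : ∃ m, c = b + m + 1 := ⟨c - b - 1, by omega⟩
    obtain rfl : a = d + m + 1 := by omega
    rw [if_pos (by omega), if_pos (by omega), if_pos (by omega), if_pos (by omega)]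
    rw [show b + m + 1 - b = m + 1 by omega, show b + m + 1 - (b + 1) = m by omega,
      show b + m + 1 - 1 = b + m by omega, show b + m - b = m by omega,
      show d + m + 1 - 1 = d + m by omega, show N + 1 - (b + 1) = N - b by omega,
      show N + 1 - (d + 1) = N - d by omega, hbf, hdf, qf_succ q (d + m), qf_succ q (b + m),
      qf_succ q m, show (m + 1).choose 2 = m + m.choose 2 by
        rw [Nat.choose_succ_succ' m 1, Nat.choose_one_right]]
    have hm := hf (m + 1) (by omega)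
    rw [qf_succ] at hm
    have hm1 := left_ne_zero_of_mul hm
    have hm2 := right_ne_zero_of_mul hm
    have hid := qn_id q hq ((N : ℤ) + 1 - b) ((N : ℤ) + 1 - d) ((m : ℤ) + 1)
    have hbr := br_mul_qn q h1 ((N : ℤ) + 1 - b + ((N : ℤ) + 1 - d) - ((m : ℤ) + 1))
    generalize hE : (N : ℤ) ^ 2 - N * (b + (m + 1) + d) + 2 * (b + (m + 1)) * d + (m.choose 2 : ℕ) = E
    have e1 : q ^ ((((N + 1 : ℕ) : ℤ)) ^ 2 - ((N + 1 : ℕ) : ℤ) * ((b + m + 1 : ℕ) + d) +
        2 * (b + m + 1 : ℕ) * d + (m + m.choose 2 : ℕ)) =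
        q ^ E * q ^ (2 * (N : ℤ) - b - d) := by
      rw [← zpow_add₀ hq, ← hE]; congr 1; push_cast; ring
    have e2 : q ^ ((((N + 1 : ℕ) : ℤ)) ^ 2 - ((N + 1 : ℕ) : ℤ) * ((b + m + 1 : ℕ) + (d + 1 : ℕ)) +
        2 * (b + m + 1 : ℕ) * (d + 1 : ℕ) + (m.choose 2 : ℕ)) =
        q ^ E * q ^ ((N : ℤ) + b + m + 1 - d) := by
      rw [← zpow_add₀ hq, ← hE]; congr 1; push_cast; ring
    have e3 : q ^ ((N : ℤ) ^ 2 - N * ((b + m + 1 : ℕ) + d) +
        2 * (b + m + 1 : ℕ) * d + (m + m.choose 2 : ℕ)) =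
        q ^ E * q ^ (m : ℤ) := by
      rw [← zpow_add₀ hq, ← hE]; congr 1; push_cast; ring
    have e4 : q ^ ((N : ℤ) ^ 2 - N * ((b + m : ℕ) + d) +
        2 * (b + m : ℕ) * d + (m.choose 2 : ℕ)) =
        q ^ E * q ^ ((N : ℤ) - 2 * d) := by
      rw [← zpow_add₀ hq, ← hE]; congr 1; push_cast; ring
    rw [e1, e2, e3, e4]
    rw [show (N : ℤ) + 1 - ((b + m + 1 : ℕ) : ℤ) = (N : ℤ) + 1 - b - (m + 1) by push_cast; ring,
      show (N : ℤ) + 1 - ((d + m + 1 : ℕ) : ℤ) = (N : ℤ) + 1 - d - (m + 1) by push_cast; ring,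
      show (((b + m : ℕ) : ℤ) + 1) = ((b + m + 1 : ℕ) : ℤ) by push_cast; ring,
      show (((d + m : ℕ) : ℤ) + 1) = ((d + m + 1 : ℕ) : ℤ) by push_cast; ring]
    have f1 : q ^ ((1 : ℤ) + b) * q ^ (2 * (N : ℤ) - b - d) = q ^ (2 * (N : ℤ) + 1 - d) := by
      rw [← zpow_add₀ hq]; congr 1; ring
    have f2 : q ^ (-1 - (N : ℤ) + d) * q ^ ((N : ℤ) + b + m + 1 - d) = q ^ ((b : ℤ) + m) := by
      rw [← zpow_add₀ hq]; congr 1; ring
    have f3 : q ^ (2 * (N : ℤ) + 2) * q ^ (-((d + m + 1 : ℕ) : ℤ)) * q ^ (m : ℤ) =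
        q ^ (2 * (N : ℤ) + 1 - d) := by
      rw [← zpow_add₀ hq, ← zpow_add₀ hq]; congr 1; push_cast; ring
    have f4 : q ^ (2 * (N : ℤ) + 2) * q ^ ((N : ℤ) + 1 - b - (m + 1)) * q ^ ((N : ℤ) - 2 * d) =
        q ^ (2 * (N : ℤ) + 1 - d) * q ^ ((N : ℤ) + 1 - b + ((N : ℤ) + 1 - d) - ((m : ℤ) + 1)) := by
      rw [← zpow_add₀ hq, ← zpow_add₀ hq, ← zpow_add₀ hq]; congr 1; ring
    have f5 : q ^ ((b : ℤ) + m) = q ^ (2 * (N : ℤ) + 1 - d) *
        q ^ (-((N : ℤ) + 1 - b + ((N : ℤ) + 1 - d) - ((m : ℤ) + 1))) := by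
      rw [← zpow_add₀ hq]; congr 1; ring
    generalize qf q m = Fm at *
    generalize qn q ((m : ℤ) + 1) = Qm at *
    generalize qf q (d + m) = Fd at *
    generalize qf q (b + m) = Fb at *
    generalize qn q ((b + m + 1 : ℕ) : ℤ) = Qb at *
    generalize qn q ((d + m + 1 : ℕ) : ℤ) = Qd at *
    generalize qf q (N - b) = Gb at *
    generalize qf q (N - d) = Gd at *
    generalize qn q ((N : ℤ) + 1 - b - (m + 1)) = R1 at *
    generalize qn q ((N : ℤ) + 1 - d - (m + 1)) = R2 at *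
    generalize qn q ((N : ℤ) + 1 - b) = R3 at *
    generalize qn q ((N : ℤ) + 1 - d) = R4 at *
    generalize qn q ((N : ℤ) + 1 - b + ((N : ℤ) + 1 - d) - ((m : ℤ) + 1)) = R5 at *
    rw [f5] at f2
    have hA : br q 1 * (R3 * R4 - R1 * R2) =
        Qm * (q ^ ((N : ℤ) + 1 - b + ((N : ℤ) + 1 - d) - ((m : ℤ) + 1)) -
          q ^ (-((N : ℤ) + 1 - b + ((N : ℤ) + 1 - d) - ((m : ℤ) + 1)))) := by
      rw [hid, ← hbr]; ring
    rw [pow_succ]
    have g1 : q ^ ((1 : ℤ) + b) * (q ^ E * q ^ (2 * (N : ℤ) - b - d) * (br q 1 ^ m * br q 1) *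
        (Fd * Qd * (Fb * Qb) * (Gb * R3 * (Gd * R4)) / (Fm * Qm))) =
        q ^ E * br q 1 ^ m * (Fd * Qd * (Fb * Qb) * (Gb * Gd)) / (Fm * Qm) *
          (q ^ (2 * (N : ℤ) + 1 - d) * (br q 1 * (R3 * R4))) := by
      rw [← f1]; ring
    have g2 : q ^ (-1 - (N : ℤ) + d) * (q ^ E * q ^ ((N : ℤ) + b + m + 1 - d) * br q 1 ^ m *
        (Fd * Qd * (Fb * Qb) * (Gb * Gd) / Fm)) =
        q ^ E * br q 1 ^ m * (Fd * Qd * (Fb * Qb) * (Gb * Gd)) / (Fm * Qm) *
          (q ^ (2 * (N : ℤ) + 1 - d) *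
            (Qm * q ^ (-((N : ℤ) + 1 - b + ((N : ℤ) + 1 - d) - ((m : ℤ) + 1))))) := by
      rw [show ∀ A B C D H : ℂ, A * (B * C * D * H) = B * D * H * (A * C) by intros; ring, f2]
      field_simp
    have g3 : q ^ (2 * (N : ℤ) + 2) * (R1 * R2 * q ^ (-((d + m + 1 : ℕ) : ℤ)) *
        (q ^ E * q ^ (m : ℤ) * (br q 1 ^ m * br q 1) *
          (Fd * Qd * (Fb * Qb) * (Gb * Gd) / (Fm * Qm)))) =
        q ^ E * br q 1 ^ m * (Fd * Qd * (Fb * Qb) * (Gb * Gd)) / (Fm * Qm) *
          (q ^ (2 * (N : ℤ) + 1 - d) * (br q 1 * (R1 * R2))) := by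
      rw [← f3]; ring
    have g4 : q ^ (2 * (N : ℤ) + 2) * (Qb * Qd * q ^ ((N : ℤ) + 1 - b - (m + 1)) *
        (q ^ E * q ^ ((N : ℤ) - 2 * d) * br q 1 ^ m * (Fd * Fb * (Gb * Gd) / Fm))) =
        q ^ E * br q 1 ^ m * (Fd * Qd * (Fb * Qb) * (Gb * Gd)) / (Fm * Qm) *
          (q ^ (2 * (N : ℤ) + 1 - d) *
            (Qm * q ^ ((N : ℤ) + 1 - b + ((N : ℤ) + 1 - d) - ((m : ℤ) + 1)))) := by
      rw [show ∀ A B C D H J K : ℂ, A * (B * C * (D * H * J * K)) = B * D * J * K * (A * C * H) by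
        intros; ring, f4]
      field_simp
    rw [mul_add (q ^ (2 * (N : ℤ) + 2)), g1, g2, g3, g4]
    linear_combination (q ^ E * br q 1 ^ m * (Fd * Qd * (Fb * Qb) * (Gb * Gd)) / (Fm * Qm) *
          q ^ (2 * (N : ℤ) + 1 - d)) * hA


private theorem T2_KH2 (q : ℂ) (hq : q ≠ 0) (h1 : br q 1 ≠ 0) (N : ℕ)
    (hf : ∀ j ≤ N + 1, qf q j ≠ 0) (c d a b : ℕ) (hc : c ≤ N)
    (ha : a ≤ N) (hd : d ≤ N + 1) (hb : b ≤ N + 1) (hs : a + b = c + d) :
    q ^ (-1 - (c : ℤ)) * T2 q (N + 1) c d a b +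
        q ^ (1 + (N : ℤ) - a) * T2 q (N + 1) (c + 1) d (a + 1) b =
      q ^ (2 * (N : ℤ) + 2) * (qn q ((N : ℤ) + 1 - d) * qn q ((N : ℤ) + 1 - b) * q ^ (d : ℤ) *
          T2 q N c d a b +
        qn q d * qn q b * q ^ (-((N : ℤ) + 1 - b)) * T2 q N c (d - 1) a (b - 1)) := by
  unfold T2
  rcases lt_or_ge (c + 1) b with hcb | hcb
  · rw [if_neg (by omega), if_neg (by omega), if_neg (by omega), if_neg (by omega)]
    ring
  rcases Nat.eq_or_lt_of_le hcb with rfl | hlt
  · obtain rfl : d = a + 1 := by omega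
    rw [if_neg (by omega), if_pos le_rfl, if_neg (by omega), if_pos (by omega)]
    rw [show c + 1 - (c + 1) = 0 by omega, show c + 1 - 1 = c by omega, show a + 1 - 1 = a by omega,
      show c - c = 0 by omega, show N + 1 - (c + 1) = N - c by omega,
      show N + 1 - (a + 1) = N - a by omega, qf_succ, qf_succ]
    simp only [Nat.choose_zero_succ, pow_zero, qf_zero, Nat.cast_zero, add_zero, mul_zero, mul_one,
      div_one, zero_add]
    have e : q ^ (1 + (N : ℤ) - a) * q ^ ((((N + 1 : ℕ) : ℤ)) ^ 2 - ((N + 1 : ℕ) : ℤ) *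
        ((c + 1 : ℕ) + (a + 1 : ℕ)) + 2 * (c + 1 : ℕ) * (a + 1 : ℕ)) =
        q ^ (2 * (N : ℤ) + 2) * (q ^ (-((N : ℤ) + 1 - (c + 1 : ℕ))) *
          q ^ ((N : ℤ) ^ 2 - N * (c + a) + 2 * c * a)) := by
      rw [← zpow_add₀ hq, ← zpow_add₀ hq, ← zpow_add₀ hq]; congr 1; push_cast; ring
    push_cast at e ⊢
    linear_combination (qf q a * qn q ((a : ℤ) + 1) * (qf q c * qn q ((c : ℤ) + 1)) *
      (qf q (N - c) * qf q (N - a))) * e
  · obtain ⟨m, rfl⟩ : ∃ m, c = b + m := ⟨c - b, by omega⟩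
    obtain rfl : a = d + m := by omega
    have hbf : qf q (N + 1 - b) = qf q (N - b) * qn q ((N : ℤ) + 1 - b) := by
      rw [show N + 1 - b = N - b + 1 by omega, qf_succ,
        show (((N - b : ℕ) : ℤ) + 1) = (N : ℤ) + 1 - b by omega]
    have hdf : qf q (N + 1 - d) = qf q (N - d) * qn q ((N : ℤ) + 1 - d) := by
      rw [show N + 1 - d = N - d + 1 by omega, qf_succ,
        show (((N - d : ℕ) : ℤ) + 1) = (N : ℤ) + 1 - d by omega]
    generalize hE : (N : ℤ) ^ 2 - N * (b + m + d) + 2 * (b + m) * d + (m.choose 2 : ℕ) = E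
    have t4 : qn q (d : ℤ) * qn q (b : ℤ) * q ^ (-((N : ℤ) + 1 - b)) *
        (if b - 1 ≤ b + m then q ^ ((N : ℤ) ^ 2 - N * ((b + m : ℕ) + (d - 1 : ℕ)) +
          2 * (b + m : ℕ) * (d - 1 : ℕ) + ((b + m - (b - 1)).choose 2 : ℕ)) *
            br q 1 ^ (b + m - (b - 1)) * (qf q (d + m) * qf q (b + m) *
            (qf q (N - (b - 1)) * qf q (N - (d - 1))) / qf q (b + m - (b - 1))) else 0) =
        qn q (d : ℤ) * qn q (b : ℤ) * q ^ (-((N : ℤ) + 1 - b)) *
          (q ^ E * q ^ ((N : ℤ) - 2 * b - m) * br q 1 ^ (m + 1) * (qf q (d + m) * qf q (b + m) *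
            (qf q (N + 1 - b) * qf q (N + 1 - d)) / qf q (m + 1))) := by
      rcases Nat.eq_zero_or_pos b with rfl | hb0
      · simp [qn_zero]
      rcases Nat.eq_zero_or_pos d with rfl | hd0
      · simp [qn_zero]
      obtain ⟨b, rfl⟩ := Nat.exists_eq_succ_of_ne_zero hb0.ne'
      obtain ⟨d, rfl⟩ := Nat.exists_eq_succ_of_ne_zero hd0.ne'
      simp only [Nat.succ_eq_add_one] at *
      rw [if_pos (by omega), show b + 1 + m - (b + 1 - 1) = m + 1 by omega,
        show N - (b + 1 - 1) = N + 1 - (b + 1) by omega,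
        show N - (d + 1 - 1) = N + 1 - (d + 1) by omega, show d + 1 - 1 = d by omega]
      congr 3
      rw [← zpow_add₀ hq, ← hE, Nat.choose_succ_succ' m 1, Nat.choose_one_right]
      congr 1; push_cast; ring
    rw [if_pos (by omega), if_pos (by omega), if_pos (by omega), t4]
    rw [show b + m - b = m by omega, show b + m + 1 - b = m + 1 by omega, hbf, hdf,
      qf_succ q (d + m), qf_succ q (b + m),
      qf_succ q m, show (m + 1).choose 2 = m + m.choose 2 by
        rw [Nat.choose_succ_succ' m 1, Nat.choose_one_right]]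
    have hm := hf (m + 1) (by omega)
    rw [qf_succ] at hm
    have hm1 := left_ne_zero_of_mul hm
    have hm2 := right_ne_zero_of_mul hm
    have hid := qn_id q hq ((d : ℤ) + m + 1) ((b : ℤ) + m + 1) ((m : ℤ) + 1)
    rw [show (d : ℤ) + m + 1 - (m + 1) = d by ring, show (b : ℤ) + m + 1 - (m + 1) = b by ring,
      show (d : ℤ) + m + 1 + (b + m + 1) - (m + 1) = d + b + m + 1 by ring] at hid
    have hbr := br_mul_qn q h1 ((d : ℤ) + b + m + 1)
    have e1 : q ^ ((((N + 1 : ℕ) : ℤ)) ^ 2 - ((N + 1 : ℕ) : ℤ) * ((b + m : ℕ) + d) +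
        2 * (b + m : ℕ) * d + (m.choose 2 : ℕ)) =
        q ^ E * q ^ (2 * (N : ℤ) + 1 - (b + m) - d) := by
      rw [← zpow_add₀ hq, ← hE]; congr 1; push_cast; ring
    have e2 : q ^ ((((N + 1 : ℕ) : ℤ)) ^ 2 - ((N + 1 : ℕ) : ℤ) * ((b + m + 1 : ℕ) + d) +
        2 * (b + m + 1 : ℕ) * d + (m + m.choose 2 : ℕ)) =
        q ^ E * q ^ ((N : ℤ) - b + d) := by
      rw [← zpow_add₀ hq, ← hE]; congr 1; push_cast; ring
    have e3 : q ^ ((N : ℤ) ^ 2 - N * ((b + m : ℕ) + d) +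
        2 * (b + m : ℕ) * d + (m.choose 2 : ℕ)) = q ^ E := by
      rw [← hE]; congr 1
    rw [e1, e2, e3]
    rw [show (((b + m : ℕ) : ℤ) + 1) = (b : ℤ) + m + 1 by push_cast; ring,
      show (((d + m : ℕ) : ℤ) + 1) = (d : ℤ) + m + 1 by push_cast; ring]
    have f1 : q ^ (-1 - ((b + m : ℕ) : ℤ)) * q ^ (2 * (N : ℤ) + 1 - (b + m) - d) =
        q ^ (2 * (N : ℤ) + 1 - b - m) * q ^ (-((d : ℤ) + b + m + 1)) := by
      rw [← zpow_add₀ hq, ← zpow_add₀ hq]; congr 1; push_cast; ring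
    have f2 : q ^ (1 + (N : ℤ) - ((d + m : ℕ) : ℤ)) * q ^ ((N : ℤ) - b + d) =
        q ^ (2 * (N : ℤ) + 1 - b - m) := by
      rw [← zpow_add₀ hq]; congr 1; push_cast; ring
    have f3 : q ^ (2 * (N : ℤ) + 2) * q ^ (d : ℤ) =
        q ^ (2 * (N : ℤ) + 1 - b - m) * q ^ ((d : ℤ) + b + m + 1) := by
      rw [← zpow_add₀ hq, ← zpow_add₀ hq]; congr 1; ring
    have f4 : q ^ (2 * (N : ℤ) + 2) * q ^ (-((N : ℤ) + 1 - b)) * q ^ ((N : ℤ) - 2 * b - m) =
        q ^ (2 * (N : ℤ) + 1 - b - m) := by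
      rw [← zpow_add₀ hq, ← zpow_add₀ hq]; congr 1; ring
    generalize qf q m = Fm at *
    generalize qn q ((m : ℤ) + 1) = Qm at *
    generalize qf q (d + m) = Fd at *
    generalize qf q (b + m) = Fb at *
    generalize qn q ((b : ℤ) + m + 1) = Qb at *
    generalize qn q ((d : ℤ) + m + 1) = Qd at *
    generalize qf q (N - b) = Gb at *
    generalize qf q (N - d) = Gd at *
    generalize qn q ((N : ℤ) + 1 - b) = R3 at *
    generalize qn q ((N : ℤ) + 1 - d) = R4 at *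
    generalize qn q ((d : ℤ) + b + m + 1) = R5 at *
    generalize qn q (d : ℤ) = R1 at *
    generalize qn q (b : ℤ) = R2 at *
    have hA : br q 1 * (Qd * Qb - R1 * R2) =
        Qm * (q ^ ((d : ℤ) + b + m + 1) - q ^ (-((d : ℤ) + b + m + 1))) := by
      rw [hid, ← hbr]; ring
    have g1 : q ^ (-1 - ((b + m : ℕ) : ℤ)) * (q ^ E * q ^ (2 * (N : ℤ) + 1 - (b + m) - d) *
        br q 1 ^ m * (Fd * Fb * (Gb * R3 * (Gd * R4)) / Fm)) =
        q ^ E * br q 1 ^ m * (Fd * Fb * (Gb * R3 * (Gd * R4))) / (Fm * Qm) *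
          (q ^ (2 * (N : ℤ) + 1 - b - m) * (Qm * q ^ (-((d : ℤ) + b + m + 1)))) := by
      rw [show ∀ A B C D H : ℂ, A * (B * C * D * H) = B * D * H * (A * C) by intros; ring, f1]
      field_simp
    have g2 : q ^ (1 + (N : ℤ) - ((d + m : ℕ) : ℤ)) * (q ^ E * q ^ ((N : ℤ) - b + d) *
        br q 1 ^ (m + 1) * (Fd * Qd * (Fb * Qb) * (Gb * R3 * (Gd * R4)) / (Fm * Qm))) =
        q ^ E * br q 1 ^ m * (Fd * Fb * (Gb * R3 * (Gd * R4))) / (Fm * Qm) *
          (q ^ (2 * (N : ℤ) + 1 - b - m) * (br q 1 * (Qd * Qb))) := by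
      rw [← f2]; ring
    have g3 : q ^ (2 * (N : ℤ) + 2) * (R4 * R3 * q ^ (d : ℤ) *
        (q ^ E * br q 1 ^ m * (Fd * Fb * (Gb * Gd) / Fm))) =
        q ^ E * br q 1 ^ m * (Fd * Fb * (Gb * R3 * (Gd * R4))) / (Fm * Qm) *
          (q ^ (2 * (N : ℤ) + 1 - b - m) * (Qm * q ^ ((d : ℤ) + b + m + 1))) := by
      rw [show ∀ A B C D H : ℂ, A * (B * C * D * H) = B * C * H * (A * D) by intros; ring, f3]
      field_simp
    have g4 : q ^ (2 * (N : ℤ) + 2) * (R1 * R2 * q ^ (-((N : ℤ) + 1 - b)) *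
        (q ^ E * q ^ ((N : ℤ) - 2 * b - m) * br q 1 ^ (m + 1) *
          (Fd * Fb * (Gb * R3 * (Gd * R4)) / (Fm * Qm)))) =
        q ^ E * br q 1 ^ m * (Fd * Fb * (Gb * R3 * (Gd * R4))) / (Fm * Qm) *
          (q ^ (2 * (N : ℤ) + 1 - b - m) * (br q 1 * (R1 * R2))) := by
      rw [← f4]; ring
    rw [mul_add (q ^ (2 * (N : ℤ) + 2)), g1, g2, g3, g4]
    linear_combination (q ^ E * br q 1 ^ m * (Fd * Fb * (Gb * R3 * (Gd * R4))) / (Fm * Qm) *
          q ^ (2 * (N : ℤ) + 1 - b - m)) * hA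


/-! ### The values of the matrix elements -/

private theorem K2_corner1 (q : ℂ) (hq : q ≠ 0) (N : ℕ) (hf : ∀ j ≤ N, qf q j ≠ 0) (c : ℕ)
    (hc : c ≤ N) : K2 q N c (N - c) 0 N = T2 q N c (N - c) 0 N := by
  unfold K2 T2
  have h := corner1 q hq N hf c hc
  rw [show N - (N - c) = c by omega, Nat.sub_self, Nat.sub_zero, h]
  by_cases hcN : c = N
  · subst hcN
    rw [if_pos rfl, if_pos le_rfl]
    simp only [Nat.sub_self, Nat.choose_zero_succ, pow_zero, qf_zero, Nat.cast_zero, add_zero,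
      mul_zero, mul_one, div_one, one_mul]
    rw [show (c : ℤ) ^ 2 - c * c = 0 by ring, zpow_zero]
    ring
  · rw [if_neg hcN, if_neg (by omega)]

private theorem K2_corner2 (q : ℂ) (hq : q ≠ 0) (N : ℕ) (hf : ∀ j ≤ N, qf q j ≠ 0) (a : ℕ)
    (ha : a ≤ N) : K2 q N 0 N a (N - a) = T2 q N 0 N a (N - a) := by
  unfold K2 T2
  have h := corner2 q hq N hf a ha
  rw [show N - (N - a) = a by omega, Nat.sub_self, Nat.sub_zero, h]
  by_cases haN : a = N
  · subst haN
    rw [if_pos rfl, if_pos (by omega)]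
    simp only [Nat.sub_self, Nat.zero_sub, Nat.choose_zero_succ, pow_zero, qf_zero, Nat.cast_zero,
      add_zero, zero_add, mul_zero, zero_mul, mul_one, div_one, one_mul]
    rw [show (a : ℤ) ^ 2 - a * a = 0 by ring, zpow_zero]
    ring
  · rw [if_neg haN, if_neg (by omega)]

private theorem K2_eq (q : ℂ) (N : ℕ) (hg : Gen q 2 N) (c d a b : ℕ) (hc : c ≤ N) (hd : d ≤ N)
    (ha : a ≤ N) (hb : b ≤ N) (hs : a + b = c + d) : K2 q N c d a b = T2 q N c d a b := by
  induction N generalizing c d a b with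
  | zero =>
    obtain ⟨rfl, rfl, rfl, rfl⟩ : c = 0 ∧ d = 0 ∧ a = 0 ∧ b = 0 := by omega
    exact K2_corner1 q hg.1 0 (fun j hj => hg.qf_ne (by norm_num) (by omega)) 0 le_rfl
  | succ N ih =>
    have hq := hg.1
    have h1 : br q 1 ≠ 0 := hg.br_one (by norm_num)
    have hf : ∀ j ≤ N + 1, qf q j ≠ 0 := fun j hj => hg.qf_ne (by norm_num) (by omega)
    have ih' := ih (hg.mono (Nat.le_succ N))
    have R1 : ∀ c d a b : ℕ, c ≤ N + 1 → a ≤ N + 1 → d ≤ N → b ≤ N → a + b = c + d →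
        K2 q (N + 1) c (d + 1) a (b + 1) = T2 q (N + 1) c (d + 1) a (b + 1) →
        K2 q (N + 1) c d a b = T2 q (N + 1) c d a b := by
      intro c d a b hc ha hd hb hs h
      have e1 := K2_KH1 q N hg c d a b hc ha hd hb
      have e2 := T2_KH1 q hq h1 N hf c d a b hc ha hd hb hs
      have t1 : qn q ((N : ℤ) + 1 - c) * qn q ((N : ℤ) + 1 - a) * q ^ (-(a : ℤ)) * K2 q N c d a b =
          qn q ((N : ℤ) + 1 - c) * qn q ((N : ℤ) + 1 - a) * q ^ (-(a : ℤ)) * T2 q N c d a b := by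
        rcases Nat.eq_or_lt_of_le hc with rfl | hc'
        · push_cast; simp [qn_zero]
        rcases Nat.eq_or_lt_of_le ha with rfl | ha'
        · push_cast; simp [qn_zero]
        rw [ih' c d a b (by omega) hd (by omega) hb hs]
      have t2 : qn q c * qn q a * q ^ ((N : ℤ) + 1 - c) * K2 q N (c - 1) d (a - 1) b =
          qn q c * qn q a * q ^ ((N : ℤ) + 1 - c) * T2 q N (c - 1) d (a - 1) b := by
        rcases Nat.eq_zero_or_pos c with rfl | hc'
        · simp [qn_zero]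
        rcases Nat.eq_zero_or_pos a with rfl | ha'
        · simp [qn_zero]
        rw [ih' (c - 1) d (a - 1) b (by omega) hd (by omega) hb (by omega)]
      rw [t1, t2, ← e2, h] at e1
      have h0 : q ^ ((1 : ℤ) + b) ≠ 0 := zpow_ne_zero _ hq
      exact mul_left_cancel₀ h0 (add_right_cancel e1)
    have R2 : ∀ c d a b : ℕ, c ≤ N → a ≤ N → d ≤ N + 1 → b ≤ N + 1 → a + b = c + d →
        K2 q (N + 1) c d a b = T2 q (N + 1) c d a b →
        K2 q (N + 1) (c + 1) d (a + 1) b = T2 q (N + 1) (c + 1) d (a + 1) b := by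
      intro c d a b hc ha hd hb hs h
      have e1 := K2_KH2 q N hg c d a b hc ha hd hb
      have e2 := T2_KH2 q hq h1 N hf c d a b hc ha hd hb hs
      have t1 : qn q ((N : ℤ) + 1 - d) * qn q ((N : ℤ) + 1 - b) * q ^ (d : ℤ) * K2 q N c d a b =
          qn q ((N : ℤ) + 1 - d) * qn q ((N : ℤ) + 1 - b) * q ^ (d : ℤ) * T2 q N c d a b := by
        rcases Nat.eq_or_lt_of_le hd with rfl | hd'
        · push_cast; simp [qn_zero]
        rcases Nat.eq_or_lt_of_le hb with rfl | hb'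
        · push_cast; simp [qn_zero]
        rw [ih' c d a b hc (by omega) ha (by omega) hs]
      have t2 : qn q d * qn q b * q ^ (-((N : ℤ) + 1 - b)) * K2 q N c (d - 1) a (b - 1) =
          qn q d * qn q b * q ^ (-((N : ℤ) + 1 - b)) * T2 q N c (d - 1) a (b - 1) := by
        rcases Nat.eq_zero_or_pos d with rfl | hd'
        · simp [qn_zero]
        rcases Nat.eq_zero_or_pos b with rfl | hb'
        · simp [qn_zero]
        rw [ih' c (d - 1) a (b - 1) hc (by omega) ha (by omega) (by omega)]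
      rw [t1, t2, ← e2, h] at e1
      have h0 : q ^ (1 + (N : ℤ) - a) ≠ 0 := zpow_ne_zero _ hq
      exact mul_left_cancel₀ h0 (add_left_cancel e1)
    have S1 : ∀ s c d a b : ℕ, c ≤ N + 1 → a ≤ N + 1 → d + s ≤ N + 1 → b + s ≤ N + 1 →
        a + b = c + d → K2 q (N + 1) c (d + s) a (b + s) = T2 q (N + 1) c (d + s) a (b + s) →
        K2 q (N + 1) c d a b = T2 q (N + 1) c d a b := by
      intro s
      induction s with
      | zero => intro c d a b _ _ _ _ _ h; exact h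
      | succ s ihs =>
        intro c d a b hc ha hd hb hs h
        refine R1 c d a b hc ha (by omega) (by omega) hs ?_
        refine ihs c (d + 1) a (b + 1) hc ha (by omega) (by omega) (by omega) ?_
        rw [show d + 1 + s = d + (s + 1) by omega, show b + 1 + s = b + (s + 1) by omega]
        exact h
    have S2 : ∀ p c d a b : ℕ, c + p ≤ N + 1 → a + p ≤ N + 1 → d ≤ N + 1 → b ≤ N + 1 →
        a + b = c + d → K2 q (N + 1) c d a b = T2 q (N + 1) c d a b →
        K2 q (N + 1) (c + p) d (a + p) b = T2 q (N + 1) (c + p) d (a + p) b := by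
      intro p
      induction p with
      | zero => intro c d a b _ _ _ _ _ h; exact h
      | succ p ihp =>
        intro c d a b hc ha hd hb hs h
        exact R2 (c + p) d (a + p) b (by omega) (by omega) hd hb (by omega)
          (ihp c d a b (by omega) (by omega) hd hb hs h)
    rcases le_or_gt a c with hac | hac
    · have h := K2_corner1 q hq (N + 1) hf (c - a) (by omega)
      have h2 := S1 (N + 1 - b) (c - a) d 0 b (by omega) (by omega) (by omega) (by omega) (by omega)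
        (by rw [show d + (N + 1 - b) = N + 1 - (c - a) by omega,
              show b + (N + 1 - b) = N + 1 by omega]; exact h)
      have h3 := S2 a (c - a) d 0 b (by omega) (by omega) hd hb (by omega) h2
      rwa [show c - a + a = c by omega, zero_add] at h3
    · have h := K2_corner2 q hq (N + 1) hf (a - c) (by omega)
      have h2 := S1 (N + 1 - d) 0 d (a - c) b (by omega) (by omega) (by omega) (by omega) (by omega)
        (by rw [show d + (N + 1 - d) = N + 1 by omega,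
              show b + (N + 1 - d) = N + 1 - (a - c) by omega]; exact h)
      have h3 := S2 c 0 d (a - c) b (by omega) (by omega) hd hb (by omega) h2
      rwa [show a - c + c = a by omega, zero_add] at h3

private theorem brf_eq (q : ℂ) (h1 : br q 1 ≠ 0) (k : ℕ) : VC10.brf q k = qf q k * br q 1 ^ k := by
  induction k with
  | zero => simp [VC10.brf_zero, qf_zero]
  | succ k ih =>
    rw [VC10.brf_succ, ih, qf_succ, pow_succ]
    have : br q ((k : ℤ) + 1) = br q 1 * qn q ((k : ℤ) + 1) := by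
      unfold qn; rw [mul_div_cancel₀ _ h1]
    rw [this]; ring

/-- The crossing for `n = 2` in terms of the `R`-matrix of the representation of dimension `N + 1` of
`U_q(sl_2)` (times the framing factor), see `Pool.Agent.H63.VC10.Rc`; the basis vector `e_a` there is
the monomial `x_0 ^ (N - a) x_1 ^ a`. -/
theorem R_two (q : ℂ) (N : ℕ) (hg : Gen q 2 N) (a b c d : ℕ) (ha : a ≤ N) (hb : b ≤ N)
    (hc : c ≤ N) (hd : d ≤ N) :
    opR q N 1 (fun p => if p = (![N - a, a], ![N - b, b]) then 1 else 0)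
      (![N - c, c], ![N - d, d]) =
      (-1) ^ N * q ^ (-(N : ℤ)) * VC10.Rc q N a b c d *
        (qf q (N - c) * qf q c * (qf q (N - d) * qf q d) /
          (qf q (N - a) * qf q a * (qf q (N - b) * qf q b))) := by
  have hq := hg.1
  have h1 : br q 1 ≠ 0 := hg.br_one (by norm_num)
  have hf : ∀ j ≤ N, qf q j ≠ 0 := fun j hj => hg.qf_ne (by norm_num) (by omega)
  have hK : K2 q N c d a b = qf q (N - a) * qf q a * (qf q (N - b) * qf q b) *
      opR q N 1 (fun p => if p = (![N - a, a], ![N - b, b]) then 1 else 0)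
        (![N - c, c], ![N - d, d]) := by
    rw [← opR_smul]
    unfold K2 KR
    congr 1
    funext p
    unfold mon
    rw [gf2, gf2]
    split_ifs <;> simp
  have f1 := hf (N - a) (by omega)
  have f2 := hf a ha
  have f3 := hf (N - b) (by omega)
  have f4 := hf b hb
  have f5 := hf (N - c) (by omega)
  have f6 := hf c hc
  have f7 := hf (N - d) (by omega)
  have f8 := hf d hd
  have hne : qf q (N - a) * qf q a * (qf q (N - b) * qf q b) ≠ 0 :=
    mul_ne_zero (mul_ne_zero f1 f2) (mul_ne_zero f3 f4)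
  by_cases hs : a + b = c + d
  · have hT := K2_eq q N hg c d a b hc hd ha hb hs
    rw [hT] at hK
    have hO := (eq_div_iff hne).2 ((mul_comm _ _).trans hK.symm)
    rw [hO]
    unfold T2 VC10.Rc
    rcases le_or_gt b c with hbc | hbc
    · rw [if_pos hbc, if_pos ⟨hs, hbc, hc⟩]
      rw [brf_eq q h1, brf_eq q h1, brf_eq q h1, brf_eq q h1, brf_eq q h1]
      have f9 := hf (c - b) (by omega)
      have e1 : br q 1 ^ a * br q 1 ^ (N - b) = br q 1 ^ (c - b) *
          (br q 1 ^ d * br q 1 ^ (c - b) * br q 1 ^ (N - c)) := by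
        rw [← pow_add, ← pow_add, ← pow_add, ← pow_add]; congr 1; omega
      have e2 : (-1 : ℂ) ^ N * (-1) ^ N = 1 := by
        rw [← pow_add, ← two_mul, pow_mul]; simp
      have e3 : q ^ ((N : ℤ) ^ 2 - N * (c + d) + 2 * c * d + ((c - b).choose 2 : ℕ)) =
          q ^ (-(N : ℤ)) * q ^ ((N : ℤ) * (N + 1) - N * (c + d) + 2 * c * d +
            ((c - b).choose 2 : ℕ)) := by
        rw [← zpow_add₀ hq]; congr 1; ring
      have e4 : qf q a * br q 1 ^ a * (qf q (N - b) * br q 1 ^ (N - b)) /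
          (qf q d * br q 1 ^ d * (qf q (c - b) * br q 1 ^ (c - b)) *
            (qf q (N - c) * br q 1 ^ (N - c))) =
          br q 1 ^ (c - b) * (qf q a * qf q (N - b) / (qf q d * qf q (c - b) * qf q (N - c))) := by
        rw [show qf q a * br q 1 ^ a * (qf q (N - b) * br q 1 ^ (N - b)) =
          qf q a * qf q (N - b) * (br q 1 ^ a * br q 1 ^ (N - b)) by ring, e1]
        field_simp
      rw [e4, e3]
      rw [show ∀ A B C D E : ℂ, A * B * (A * C * D) * E = A * A * (B * C * D * E) by intros; ring,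
        e2, one_mul]
      field_simp
    · rw [if_neg (by omega), if_neg (by omega)]
      simp
  · have hz : K2 q N c d a b = 0 := by
      by_contra hne'
      have h := KR_wt q N 1 ![N - c, c] ![N - d, d] ![N - a, a] ![N - b, b] hne'
      have h2 := congrFun h 1
      simp at h2
      omega
    rw [hz] at hK
    have hO : opR q N 1 (fun p => if p = (![N - a, a], ![N - b, b]) then 1 else 0)
        (![N - c, c], ![N - d, d]) = 0 := by
      rcases mul_eq_zero.1 hK.symm with h | h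
      · exact absurd h hne
      · exact h
    rw [hO]
    unfold VC10.Rc
    rw [if_neg (fun h => hs h.1)]
    simp

end Pool.Agent.H63.VC11
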