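import Pool.Agent.H63.VC11.Ent11

/-! # Products of minima and maxima -/

namespace Pool.Agent.H63.VC11

open Pool.Agent.H63.VC7 Pool.Agent.H63.VC8 Matrix

variable {n : ℕ}

/-- The terms of the entries of `em`. -/
noncomputable def emt (q : ℂ) (α a' d' a d : Fin n → ℕ) : ℂ :=
  if (∀ i, α i ≤ a' i) ∧ (∀ i, α i ≤ a i) ∧ (∀ i, a i ≤ d i + α i) ∧
      (∀ i, a' i + d i = a i + d' i) then
    q ^ (bil (a' - α) α - bil (d + α - a) (a' - α) + bil (a - α) (d + α - a) - bil α (a - α)) *
      wt q (a - α) * (gf q a' * gf q d /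
        (gf q α * gf q (a' - α) * gf q (d + α - a) * gf q (a - α))) else 0

/-! ### Auxiliary facts -/

theorem DP11_hi_add (a t : Fin n → ℕ) (i : Fin n) : hi (a + t) i = hi a i + hi t i := by
  unfold hi
  simp only [Pi.add_apply, Nat.cast_add, Finset.sum_add_distrib]

theorem DP11_lo_add (a t : Fin n → ℕ) (i : Fin n) : lo (a + t) i = lo a i + lo t i := by
  unfold lo
  simp only [Pi.add_apply, Nat.cast_add, Finset.sum_add_distrib]

theorem DP11_bil_add_left (t a : Fin n → ℕ) (i : Fin n) :
    bil (t + Pi.single i 1) a = bil t a + hi a i := by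
  unfold bil
  simp only [Pi.add_apply, Nat.cast_add, add_mul, Finset.sum_add_distrib, Pi.single_apply]
  congr 1
  simp

theorem DP11_bil_add_right (b t : Fin n → ℕ) (i : Fin n) :
    bil b (t + Pi.single i 1) = bil b t + lo b i := by
  unfold bil
  simp only [hi_add, mul_add, Finset.sum_add_distrib]
  congr 1
  simp only [mul_ite, mul_one, mul_zero]
  unfold lo
  rw [← Finset.sum_filter]
  apply Finset.sum_congr _ (fun _ _ => rfl)
  ext j
  simp

theorem DP11_bil_zero_left (a : Fin n → ℕ) : bil 0 a = 0 := by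
  simp [bil]

theorem DP11_bil_zero_right (a : Fin n → ℕ) : bil a 0 = 0 := by
  simp [bil, hi]

theorem DP11_gf_zero (q : ℂ) : gf q (0 : Fin n → ℕ) = 1 := by
  simp [gf, qf_zero]

/-- The entries of a product of minima or of maxima. -/
noncomputable def DP11_G (q : ℂ) (w : (Fin n → ℕ) → ℂ) (α δ a d : Fin n → ℕ) : ℂ :=
  if (∀ i, α i ≤ a i) ∧ (∀ i, a i + δ i = d i + α i) then
    w (a - α) * (q ^ (bil (a - α) α - bil δ (a - α)) *
      (gf q a / (gf q α * gf q (a - α)))) else 0

theorem DP11_G_add (q : ℂ) (w : (Fin n → ℕ) → ℂ) (α δ t : Fin n → ℕ) :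
    DP11_G q w α δ (α + t) (δ + t) =
      w t * (q ^ (bil t α - bil δ t) * (gf q (α + t) / (gf q α * gf q t))) := by
  unfold DP11_G
  rw [if_pos]
  · rw [add_tsub_cancel_left]
  · constructor
    · intro i; simp
    · intro i; simp only [Pi.add_apply]; ring

theorem DP11_exists {α δ a d : Fin n → ℕ}
    (h : (∀ i, α i ≤ a i) ∧ (∀ i, a i + δ i = d i + α i)) :
    ∃ t : Fin n → ℕ, a = α + t ∧ d = δ + t := by
  refine ⟨a - α, ?_, ?_⟩
  · funext i
    have := h.1 i
    simp only [Pi.add_apply, Pi.sub_apply]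
    omega
  · funext i
    have h1 := h.1 i
    have h2 := h.2 i
    simp only [Pi.add_apply, Pi.sub_apply]
    omega

theorem DP11_step (q : ℂ) (hq : q ≠ 0) (w : (Fin n → ℕ) → ℂ) (v : Fin n → ℂ)
    (hw : ∀ t i, w (t + Pi.single i 1) = w t * v i) (α δ a d : Fin n → ℕ)
    (hk : ∀ i, ∀ k : ℕ, k + 1 ≤ a i → qn q ((k : ℤ) + 1) ≠ 0) :
    ∑ i, (if a i ≠ 0 ∧ d i ≠ 0 then qn q (a i) * q ^ (hi a i - lo d i) *
      (v i * DP11_G q w α δ (a - Pi.single i 1) (d - Pi.single i 1)) else 0) =
      qn q (((∑ i, a i : ℕ) : ℤ) - (∑ i, α i : ℕ)) * DP11_G q w α δ a d := by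
  classical
  by_cases h : (∀ i, α i ≤ a i) ∧ (∀ i, a i + δ i = d i + α i)
  · obtain ⟨t, rfl, rfl⟩ := DP11_exists h
    have hs : ((∑ i, (α + t) i : ℕ) : ℤ) - (∑ i, α i : ℕ) = ((∑ i, t i : ℕ) : ℤ) := by
      simp only [Pi.add_apply, Finset.sum_add_distrib, Nat.cast_add]
      ring
    rw [hs, ← sum_hi_lo q hq t, Finset.sum_mul, DP11_G_add]
    refine Finset.sum_congr rfl fun i _ => ?_
    by_cases ht : t i = 0
    · rw [ht, Nat.cast_zero, qn_zero, zero_mul, zero_mul]
      split_ifs with h0
      · have : DP11_G q w α δ (α + t - Pi.single i 1) (δ + t - Pi.single i 1) = 0 := by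
          unfold DP11_G
          rw [if_neg]
          rintro ⟨h1, -⟩
          have h2 := h1 i
          have h3 := h0.1
          simp only [Pi.add_apply, Pi.sub_apply, Pi.single_eq_same, ht] at h2 h3
          omega
        rw [this, mul_zero, mul_zero]
      · rfl
    · obtain ⟨t', rfl⟩ := exists_add ht
      rw [if_pos]
      · rw [← add_assoc, ← add_assoc, add_sub_single, add_sub_single, DP11_G_add, hw,
          DP11_bil_add_left, DP11_bil_add_right, gf_add, gf_add, hi_add_self, lo_add_self,
          hi_add_self, lo_add_self, add_single_self, add_single_self, DP11_hi_add, DP11_lo_add,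
          Pi.add_apply]
        have hne : qn q ((t' i : ℤ) + 1) ≠ 0 := by
          apply hk i
          simp
        have he : q ^ (hi α i + hi t' i - (lo δ i + lo t' i)) * q ^ (bil t' α - bil δ t') =
            q ^ (hi t' i - lo t' i) * q ^ (bil t' α + hi α i - (bil δ t' + lo δ i)) := by
          rw [← zpow_add₀ hq, ← zpow_add₀ hq]
          congr 1
          ring
        have hd : gf q (α + t') / (gf q α * gf q t') =
            qn q ((t' i : ℤ) + 1) * (gf q (α + t') / (gf q α * (gf q t' * qn q ((t' i : ℤ) + 1)))) := by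
          rw [← mul_assoc (gf q α), ← mul_div_assoc, mul_comm (qn q ((t' i : ℤ) + 1)),
            mul_div_mul_right _ _ hne]
        rw [hd]
        push_cast
        linear_combination (qn q ((α i : ℤ) + t' i + 1) * v i * w t' *
          (qn q ((t' i : ℤ) + 1) *
            (gf q (α + t') / (gf q α * (gf q t' * qn q ((t' i : ℤ) + 1)))))) * he
      · simp
  · have : DP11_G q w α δ a d = 0 := by
      unfold DP11_G
      rw [if_neg h]
    rw [this, mul_zero]
    refine Finset.sum_eq_zero fun i _ => ?_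
    split_ifs with h0
    · have : DP11_G q w α δ (a - Pi.single i 1) (d - Pi.single i 1) = 0 := by
        unfold DP11_G
        rw [if_neg]
        rintro ⟨h1, h2⟩
        apply h
        constructor
        · intro j
          have h3 := h1 j
          simp only [Pi.sub_apply] at h3
          omega
        · intro j
          have h3 := h1 j
          have h4 := h2 j
          by_cases hj : j = i
          · subst hj
            have h5 := h0.1
            have h6 := h0.2
            simp only [Pi.sub_apply, Pi.single_eq_same] at h3 h4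
            omega
          · simp only [Pi.sub_apply, Pi.single_eq_of_ne hj] at h3 h4
            omega
      rw [this, mul_zero, mul_zero]
    · rfl

theorem DP11_G_one (q : ℂ) (w : (Fin n → ℕ) → ℂ) (hw : w 0 = 1) {M : ℕ} (x z : I2 n M)
    (hx : gf q x.1.val ≠ 0) :
    (if x = z then 1 else 0) = DP11_G q w z.1.val z.2.val x.1.val x.2.val := by
  classical
  by_cases h : x = z
  · subst h
    rw [if_pos rfl]
    have := DP11_G_add q w x.1.val x.2.val 0
    rw [add_zero, add_zero] at this
    rw [this, hw, DP11_bil_zero_left, DP11_bil_zero_right, DP11_gf_zero]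
    simp [div_self hx]
  · rw [if_neg h]
    symm
    unfold DP11_G
    rw [if_neg]
    intro h1
    apply h
    obtain ⟨t, h2, h3⟩ := DP11_exists h1
    have h4 : t = 0 := by
      have h5 := x.1.sum
      have h6 := z.1.sum
      rw [h2] at h5
      simp only [Pi.add_apply, Finset.sum_add_distrib] at h5
      have h7 : ∑ i, t i = 0 := by omega
      funext i
      exact Finset.sum_eq_zero_iff.1 h7 i (Finset.mem_univ i)
    rw [h4, add_zero] at h2 h3
    exact Prod.ext (Vn.ext h2) (Vn.ext h3)

/-- The product of minima. -/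
noncomputable def DP11_D (q : ℂ) (n M : ℕ) : (j : ℕ) → Matrix (I2 n (M + j)) (I2 n M) ℂ
  | 0 => 1
  | j + 1 => (qn q ((j : ℤ) + 1))⁻¹ • (DD q n (M + j) * DP11_D q n M j)

/-- The product of maxima. -/
noncomputable def DP11_C (q : ℂ) (n M : ℕ) : (j : ℕ) → Matrix (I2 n M) (I2 n (M + j)) ℂ
  | 0 => 1
  | j + 1 => (qn q ((j : ℤ) + 1))⁻¹ • (DP11_C q n M j * CC q n (M + j))

theorem DP11_em (q : ℂ) (n M j : ℕ) :
    em q n (M + j) j = DP11_D q n M j * DP11_C q n M j := by
  induction j with
  | zero =>
    have : em q n (M + 0) 0 = 1 := by cases M <;> rfl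
    rw [this]
    show (1 : Matrix (I2 n M) (I2 n M) ℂ) = 1 * 1
    rw [one_mul]
  | succ j ih =>
    show (qn q ((j : ℤ) + 1) ^ 2)⁻¹ • (DD q n (M + j) * em q n (M + j) j * CC q n (M + j)) =
      ((qn q ((j : ℤ) + 1))⁻¹ • (DD q n (M + j) * DP11_D q n M j)) *
        ((qn q ((j : ℤ) + 1))⁻¹ • (DP11_C q n M j * CC q n (M + j)))
    rw [ih, Matrix.smul_mul, Matrix.mul_smul, smul_smul, ← mul_inv, ← sq]
    simp only [Matrix.mul_assoc]

theorem DP11_D_entry (q : ℂ) (M j : ℕ) (hg : Gen q n (M + j)) (hn : 1 ≤ n)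
    (x : I2 n (M + j)) (z : I2 n M) :
    DP11_D q n M j x z = DP11_G q (fun _ => 1) z.1.val z.2.val x.1.val x.2.val := by
  classical
  induction j with
  | zero =>
    rw [← DP11_G_one q (fun _ => 1) rfl x z (hg.gf_ne hn (by omega) x.1)]
    show (1 : Matrix (I2 n M) (I2 n M) ℂ) x z = _
    rw [Matrix.one_apply]
  | succ j ih =>
    have ih' := ih (hg.mono (by omega))
    show ((qn q ((j : ℤ) + 1))⁻¹ • (DD q n (M + j) * DP11_D q n M j)) x z = _
    rw [Matrix.smul_apply, Matrix.mul_apply, smul_eq_mul]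
    simp only [ih']
    refine (congrArg (fun s => (qn q ((j : ℤ) + 1))⁻¹ * s) (DD_mul_fun (N := M + j) q
      (fun a d => DP11_G q (fun _ => 1) z.1.val z.2.val a d) x)).trans ?_
    have hst := DP11_step q hg.1 (fun _ => 1) (fun _ : Fin n => 1) (by simp) z.1.val z.2.val
      x.1.val x.2.val (by
        intro i k hk
        have h1 : x.1.val i ≤ M + (j + 1) :=
          (Finset.single_le_sum (fun _ _ => Nat.zero_le _) (Finset.mem_univ i)).trans
            x.1.sum.le
        exact hg.qn_ne hn (by omega) (by omega))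
    simp only [one_mul] at hst
    rw [hst, x.1.sum, z.1.sum]
    have hj : qn q ((j : ℤ) + 1) ≠ 0 := hg.qn_ne hn (by omega) (by omega)
    have he : ((M + (j + 1) : ℕ) : ℤ) - (M : ℕ) = (j : ℤ) + 1 := by push_cast; ring
    rw [he, inv_mul_cancel_left₀ hj]

theorem DP11_C_entry (q : ℂ) (M j : ℕ) (hg : Gen q n (M + j)) (hn : 1 ≤ n)
    (z : I2 n M) (y : I2 n (M + j)) :
    DP11_C q n M j z y = DP11_G q (wt q) z.2.val z.1.val y.2.val y.1.val := by
  classical
  induction j with
  | zero =>
    have := DP11_G_one q (wt q) wt_zero (y.2, y.1) (z.2, z.1) (hg.gf_ne hn (by omega) y.2)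
    rw [← this]
    show (1 : Matrix (I2 n M) (I2 n M) ℂ) z y = _
    rw [Matrix.one_apply]
    by_cases h : z = y
    · subst h
      rw [if_pos rfl, if_pos rfl]
    · rw [if_neg h, if_neg]
      intro h'
      apply h
      exact Prod.ext (congrArg Prod.snd h').symm (congrArg Prod.fst h').symm
  | succ j ih =>
    have ih' := ih (hg.mono (by omega))
    show ((qn q ((j : ℤ) + 1))⁻¹ • (DP11_C q n M j * CC q n (M + j))) z y = _
    rw [Matrix.smul_apply, Matrix.mul_apply, smul_eq_mul]
    simp only [ih']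
    refine (congrArg (fun s => (qn q ((j : ℤ) + 1))⁻¹ * s) (mul_CC_fun (N := M + j) q
      (fun a d => DP11_G q (wt q) z.2.val z.1.val d a) y)).trans ?_
    have hst := DP11_step q hg.1 (wt q) (fun i : Fin n => q ^ ((n : ℤ) - 1 - 2 * (i : ℕ)))
      (fun t i => wt_add hg.1 t i) z.2.val z.1.val y.2.val y.1.val (by
        intro i k hk
        have h1 : y.2.val i ≤ M + (j + 1) :=
          (Finset.single_le_sum (fun _ _ => Nat.zero_le _) (Finset.mem_univ i)).trans
            y.2.sum.le
        exact hg.qn_ne hn (by omega) (by omega))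
    have hj : qn q ((j : ℤ) + 1) ≠ 0 := hg.qn_ne hn (by omega) (by omega)
    have he : ((M + (j + 1) : ℕ) : ℤ) - (M : ℕ) = (j : ℤ) + 1 := by push_cast; ring
    have hst' : ∑ i : Fin n, (if y.1.val i ≠ 0 ∧ y.2.val i ≠ 0 then
        DP11_G q (wt q) z.2.val z.1.val (y.2.val - Pi.single i 1) (y.1.val - Pi.single i 1) *
          (q ^ ((n : ℤ) - 1 - 2 * (i : ℕ)) *
            (qn q (y.2.val i) * q ^ (hi y.2.val i - lo y.1.val i))) else 0) =
        qn q ((j : ℤ) + 1) * DP11_G q (wt q) z.2.val z.1.val y.2.val y.1.val := by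
      rw [y.2.sum, z.2.sum, he] at hst
      rw [← hst]
      refine Finset.sum_congr rfl fun i _ => ?_
      by_cases h : y.1.val i ≠ 0 ∧ y.2.val i ≠ 0
      · rw [if_pos h, if_pos ⟨h.2, h.1⟩]
        ring
      · rw [if_neg h, if_neg (fun h' => h ⟨h'.2, h'.1⟩)]
    rw [hst', inv_mul_cancel_left₀ hj]

/-- The entries of the product of `j` matrices `DD`. -/
theorem em_entry (q : ℂ) (N M j : ℕ) (hN : N = M + j) (hg : Gen q n N) (hn : 1 ≤ n)
    (x y : I2 n N) :
    em q n N j x y = ∑ α : Vn n M, emt q α.val x.1.val x.2.val y.1.val y.2.val := by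
  classical
  subst hN
  rw [DP11_em, Matrix.mul_apply]
  simp only [DP11_D_entry q M j hg hn, DP11_C_entry q M j hg hn]
  rw [Fintype.sum_prod_type]
  refine Finset.sum_congr rfl fun α _ => ?_
  dsimp only
  obtain ⟨⟨a', ha'⟩, ⟨d', hd'⟩⟩ := x
  obtain ⟨⟨a, ha⟩, ⟨d, hd⟩⟩ := y
  obtain ⟨α, hα⟩ := α
  dsimp only
  by_cases h : (∀ i, α i ≤ a i) ∧ (∀ i, a i ≤ d i + α i)
  · obtain ⟨s, hs⟩ : ∃ s : Fin n → ℕ, a = α + s := ⟨a - α, by
      funext i
      have := h.1 i
      simp only [Pi.add_apply, Pi.sub_apply]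
      omega⟩
    obtain ⟨δ, hδ⟩ : ∃ δ : Fin n → ℕ, d = δ + s := ⟨d - s, by
      funext i
      have h2 := h.2 i
      have h3 := congrFun hs i
      simp only [Pi.add_apply] at h3
      simp only [Pi.add_apply, Pi.sub_apply]
      omega⟩
    subst hs hδ
    have hsum : ∑ i, δ i = M := by
      simp only [Pi.add_apply, Finset.sum_add_distrib] at ha hd
      omega
    rw [Finset.sum_eq_single (⟨δ, hsum⟩ : Vn n M)]
    · dsimp only
      rw [DP11_G_add]
      have e1 : δ + s + α - (α + s) = δ := by
        funext i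
        simp only [Pi.add_apply, Pi.sub_apply]
        omega
      have e2 : α + s - α = s := add_tsub_cancel_left _ _
      unfold emt DP11_G
      rw [e1, e2]
      by_cases h1 : (∀ i, α i ≤ a' i) ∧ (∀ i, a' i + δ i = d' i + α i)
      · rw [if_pos h1, if_pos]
        · rw [show bil (a' - α) α - bil δ (a' - α) + bil s δ - bil α s =
            (bil (a' - α) α - bil δ (a' - α)) + (bil s δ - bil α s) by ring, zpow_add₀ hg.1]
          simp only [div_eq_mul_inv, mul_inv]
          ring
        · refine ⟨h1.1, fun i => by simp, fun i => by simp only [Pi.add_apply]; omega, fun i => ?_⟩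
          have := h1.2 i
          simp only [Pi.add_apply]
          omega
      · rw [if_neg h1, if_neg, zero_mul]
        rintro ⟨g1, -, -, g4⟩
        apply h1
        refine ⟨g1, fun i => ?_⟩
        have := g4 i
        simp only [Pi.add_apply] at this
        omega
    · rintro ⟨δ', hδ'⟩ _ hne
      have : DP11_G q (wt q) δ' α (δ + s) (α + s) = 0 := by
        unfold DP11_G
        rw [if_neg]
        rintro ⟨h1, h2⟩
        apply hne
        apply Vn.ext
        funext i
        have := h2 i
        simp only [Pi.add_apply] at this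
        show δ' i = δ i
        omega
      rw [this, mul_zero]
    · intro h'
      exact absurd (Finset.mem_univ _) h'
  · have : emt q α a' d' a d = 0 := by
      unfold emt
      rw [if_neg]
      rintro ⟨-, g2, g3, -⟩
      exact h ⟨g2, g3⟩
    rw [this]
    refine Finset.sum_eq_zero fun δ _ => ?_
    obtain ⟨δ, hδ⟩ := δ
    dsimp only
    have : DP11_G q (wt q) δ α d a = 0 := by
      unfold DP11_G
      rw [if_neg]
      rintro ⟨h1, h2⟩
      apply h
      constructor
      · intro i
        have := h1 i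
        have := h2 i
        omega
      · intro i
        have := h1 i
        have := h2 i
        omega
    rw [this, mul_zero]

end Pool.Agent.H63.VC11
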