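import Pool.Agent.H63.VC11.KH11

/-! # The extreme term of the crossing -/

namespace Pool.Agent.H63.VC11

open Pool.Agent.H63.VC7 Pool.Agent.H63.VC8

variable {n : ℕ}

/-- `∑_{i < j} a_i b_j` -/
def bil (a b : Fin n → ℕ) : ℤ := ∑ i, (a i : ℤ) * hi b i

private theorem bil_zero_left (b : Fin n → ℕ) : bil 0 b = 0 := by
  simp [bil]

private theorem bil_zero_right (a : Fin n → ℕ) : bil a 0 = 0 := by
  simp [bil, hi]

private theorem bil_add_left (a b : Fin n → ℕ) (i : Fin n) :
    bil (a + Pi.single i 1) b = bil a b + hi b i := by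
  unfold bil
  have h : ∀ j : Fin n, (((a + Pi.single i 1 : Fin n → ℕ) j : ℕ) : ℤ) * hi b j =
      (a j : ℤ) * hi b j + if j = i then hi b j else 0 := by
    intro j
    by_cases hj : j = i
    · subst hj
      simp only [Pi.add_apply, Pi.single_eq_same, Nat.cast_add, Nat.cast_one, if_true]
      ring
    · simp [hj]
  rw [Finset.sum_congr rfl fun j _ => h j, Finset.sum_add_distrib, Finset.sum_ite_eq']
  simp

private theorem bil_add_right (a b : Fin n → ℕ) (i : Fin n) :
    bil a (b + Pi.single i 1) = bil a b + lo a i := by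
  unfold bil lo
  have h : ∀ j : Fin n, (a j : ℤ) * hi (b + Pi.single i 1) j =
      (a j : ℤ) * hi b j + if j < i then (a j : ℤ) else 0 := by
    intro j
    rw [hi_add]
    split_ifs <;> ring
  rw [Finset.sum_congr rfl fun j _ => h j, Finset.sum_add_distrib, ← Finset.sum_filter]
  congr 1
  apply Finset.sum_congr _ fun _ _ => rfl
  ext j
  simp

private theorem gf_zero' (q : ℂ) : gf q (0 : Fin n → ℕ) = 1 := by
  simp [gf, qf_zero]

private theorem sum_sub (a : Fin n → ℕ) (i : Fin n) (N : ℕ) (h : a i ≠ 0)
    (ha : ∑ j, a j = N + 1) : ∑ j, (a - Pi.single i 1 : Fin n → ℕ) j = N := by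
  have h1 := sub_add_single h
  have h2 : ∑ j, (a - Pi.single i 1 + Pi.single i 1 : Fin n → ℕ) j = N + 1 := by rw [h1, ha]
  simp only [Pi.add_apply, Finset.sum_add_distrib] at h2
  simpa using h2

private theorem E_mon (q : ℂ) (b a : Fin n → ℕ) :
    Eo q n (mon q b a) = ∑ i, (qn q (a i) * q ^ (hi b i - hi a i)) •
      mon q (b + Pi.single i 1) (a - Pi.single i 1) := by
  funext x
  rw [Eo_apply, opE, Finset.sum_apply]
  refine Finset.sum_congr rfl fun i _ => ?_
  simp only [Pi.smul_apply, smul_eq_mul, mon]
  by_cases hx : x.1 i = 0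
  · rw [hx, if_neg (c := x = _)]
    · simp [qn_zero]
    · intro h
      rw [h] at hx
      simp at hx
  by_cases ha : a i = 0
  · rw [ha, if_neg (c := (x.1 - Pi.single i 1, x.2 + Pi.single i 1) = _)]
    · simp [qn_zero]
    · intro h
      have h2 := congrArg (fun p => p.2 i) h
      simp [ha] at h2
  obtain ⟨a', rfl⟩ := exists_add ha
  obtain ⟨x1, x2⟩ := x
  simp only at hx ⊢
  obtain ⟨x', rfl⟩ := exists_add hx
  rw [add_sub_single, add_sub_single]
  by_cases h : x' = b ∧ x2 = a'
  · obtain ⟨rfl, rfl⟩ := h
    rw [if_pos rfl, if_pos rfl, gf_add, gf_add]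
    simp only [hi_add_self, add_single_self]
    push_cast
    ring
  · rw [if_neg, if_neg]
    · ring
    · intro h2
      apply h
      have h3 := congrArg Prod.fst h2
      have h4 := congrArg Prod.snd h2
      exact ⟨add_right_cancel h3, h4⟩
    · intro h2
      apply h
      have h3 := congrArg Prod.fst h2
      have h4 := congrArg Prod.snd h2
      exact ⟨h3, add_right_cancel h4⟩

private theorem E_full' (q : ℂ) (hq : q ≠ 0) (N : ℕ) : ∀ (b a : Fin n → ℕ)
    (_ : ∑ i, a i = N),
    (Eo q n ^ N) (mon q b a) = fun x =>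
      if x = (a + b, 0) then qf q N * q ^ bil a b * gf q (a + b) else 0 := by
  induction N with
  | zero =>
    intro b a ha
    have ha0 : a = 0 := by
      funext i
      have := (Finset.sum_eq_zero_iff.1 ha) i (Finset.mem_univ i)
      simpa using this
    subst ha0
    funext x
    simp only [pow_zero, Module.End.one_apply, mon, zero_add, gf_zero', qf_zero, bil_zero_left,
      zpow_zero, mul_one, one_mul]
  | succ N ih =>
    intro b a ha
    rw [pow_succ, Module.End.mul_apply, E_mon, map_sum]
    funext x
    rw [Finset.sum_apply]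
    have h1 : ∀ i : Fin n, ((Eo q n ^ N) ((qn q (a i) * q ^ (hi b i - hi a i)) •
        mon q (b + Pi.single i 1) (a - Pi.single i 1))) x =
        (qn q (a i) * q ^ (lo a i - hi a i)) *
          (if x = (a + b, 0) then qf q N * q ^ bil a b * gf q (a + b) else 0) := by
      intro i
      by_cases hai : a i = 0
      · rw [hai]; simp [qn_zero]
      · rw [map_smul, Pi.smul_apply, smul_eq_mul, ih _ _ (sum_sub a i N hai ha)]
        have h2 : a - Pi.single i 1 + (b + Pi.single i 1) = a + b := by
          rw [add_comm b, ← add_assoc, sub_add_single hai]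
        rw [h2]
        have h3 : bil (a - Pi.single i 1) (b + Pi.single i 1) = bil a b - hi b i + lo a i := by
          obtain ⟨a', rfl⟩ := exists_add hai
          rw [add_sub_single, bil_add_right, bil_add_left, lo_add_self]
          ring
        rw [h3]
        beta_reduce
        split_ifs with hx
        · have h4 : q ^ (hi b i - hi a i) * q ^ (bil a b - hi b i + lo a i) =
              q ^ (lo a i - hi a i) * q ^ bil a b := by
            rw [← zpow_add₀ hq, ← zpow_add₀ hq]
            congr 1
            ring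
          linear_combination (qn q (a i) * qf q N * gf q (a + b)) * h4
        · simp
    rw [Finset.sum_congr rfl fun i _ => h1 i, ← Finset.sum_mul, sum_lo_hi q hq, ha]
    split_ifs with hx
    · rw [qf_succ]
      push_cast
      ring
    · simp

theorem E_full (q : ℂ) (N : ℕ) (hg : Gen q n N) (hn : 1 ≤ n) (b a : Fin n → ℕ)
    (ha : ∑ i, a i = N) :
    (Eo q n ^ N) (mon q b a) = fun x =>
      if x = (a + b, 0) then qf q N * q ^ bil a b * gf q (a + b) else 0 :=
  E_full' q hg.1 N b a ha

private theorem F_full' (q : ℂ) (hq : q ≠ 0) (g : Fin n → ℕ) (N : ℕ) : ∀ (c d : Fin n → ℕ)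
    (_ : ∑ i, d i = N),
    (Fo q n ^ N) (fun x => if x = (g, 0) then 1 else 0) (c, d) =
      if c + d = g then qf q N * q ^ (-bil c d) else 0 := by
  induction N with
  | zero =>
    intro c d hd
    have hd0 : d = 0 := by
      funext i
      have := (Finset.sum_eq_zero_iff.1 hd) i (Finset.mem_univ i)
      simpa using this
    subst hd0
    simp only [pow_zero, Module.End.one_apply, add_zero, bil_zero_right, neg_zero, zpow_zero,
      qf_zero, mul_one, Prod.mk.injEq, and_true]
  | succ N ih =>
    intro c d hd
    rw [pow_succ', Module.End.mul_apply, Fo_apply, opF]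
    have h1 : ∀ i : Fin n, q ^ (lo d i - lo c i) * qn q (d i) *
        ((Fo q n ^ N) (fun x => if x = (g, 0) then 1 else 0))
          (c + Pi.single i 1, d - Pi.single i 1) =
        (qn q (d i) * q ^ (lo d i - hi d i)) *
          (if c + d = g then qf q N * q ^ (-bil c d) else 0) := by
      intro i
      by_cases hdi : d i = 0
      · rw [hdi]; simp [qn_zero]
      · rw [ih _ _ (sum_sub d i N hdi hd)]
        have h2 : c + Pi.single i 1 + (d - Pi.single i 1) = c + d := by
          rw [add_assoc, add_comm (Pi.single i 1), sub_add_single hdi]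
        rw [h2]
        have h3 : bil (c + Pi.single i 1) (d - Pi.single i 1) = bil c d - lo c i + hi d i := by
          obtain ⟨d', rfl⟩ := exists_add hdi
          rw [add_sub_single, bil_add_right, bil_add_left, hi_add_self]
          ring
        rw [h3]
        split_ifs with hx
        · have h4 : q ^ (lo d i - lo c i) * q ^ (-(bil c d - lo c i + hi d i)) =
              q ^ (lo d i - hi d i) * q ^ (-bil c d) := by
            rw [← zpow_add₀ hq, ← zpow_add₀ hq]
            congr 1
            ring
          linear_combination (qn q (d i) * qf q N) * h4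
        · simp
    simp only
    rw [Finset.sum_congr rfl fun i _ => h1 i, ← Finset.sum_mul, sum_lo_hi q hq, hd]
    split_ifs with hx
    · rw [qf_succ]
      push_cast
      ring
    · simp

theorem F_full (q : ℂ) (N : ℕ) (hg : Gen q n N) (hn : 1 ≤ n) (g c d : Fin n → ℕ)
    (hd : ∑ i, d i = N) :
    (Fo q n ^ N) (fun x => if x = (g, 0) then 1 else 0) (c, d) =
      if c + d = g then qf q N * q ^ (-bil c d) else 0 :=
  F_full' q hg.1 g N c d hd

/-- The matrix elements of the extreme term. -/
theorem KK_full (q : ℂ) (N : ℕ) (hg : Gen q n N) (hn : 1 ≤ n) (c d b a : Fin n → ℕ)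
    (hd : ∑ i, d i = N) (ha : ∑ i, a i = N) :
    KK q N c d b a = if c + d = a + b then
      qf q N ^ 2 * q ^ (bil a b - bil c d) * gf q (a + b) else 0 := by
  have h1 : (fun x : (Fin n → ℕ) × (Fin n → ℕ) =>
      if x = (a + b, 0) then qf q N * q ^ bil a b * gf q (a + b) else 0) =
      (qf q N * q ^ bil a b * gf q (a + b)) •
        (fun x : (Fin n → ℕ) × (Fin n → ℕ) => if x = (a + b, 0) then (1 : ℂ) else 0) := by
    funext x
    simp only [Pi.smul_apply, smul_eq_mul]
    split_ifs <;> simp
  rw [KK, E_full q N hg hn b a ha, h1, map_smul, Pi.smul_apply, smul_eq_mul,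
    F_full q N hg hn (a + b) c d hd]
  split_ifs with h
  · rw [sub_eq_add_neg, zpow_add₀ hg.1]
    ring
  · simp

end Pool.Agent.H63.VC11
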