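import Pool.Agent.H63.VC11.KH11

/-! # Tangles seen from behind -/

namespace Pool.Agent.H63.VC11

open Pool.Agent.H63.VC7 Pool.Agent.H63.VC8 Matrix

variable {n N : ℕ}

/-- The matrix of `crossUD`. -/
noncomputable def X1m (q : ℂ) (n N : ℕ) (e : ℤ) : Matrix (I2 n N) (I2 n N) ℂ := fun x y =>
  (wt q x.1.val)⁻¹ * wt q y.2.val * Rm q n N e (x.2, y.2) (x.1, y.1)

/-- The matrix of `crossDU`. -/
noncomputable def X2m (q : ℂ) (n N : ℕ) (e : ℤ) : Matrix (I2 n N) (I2 n N) ℂ := fun x y =>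
  Rm q n N e (y.1, x.1) (y.2, x.2)

/-- The rotation by a quarter turn which appears at the nodes with orientation `true`. -/
noncomputable def rotU (q : ℂ) (B : Matrix (I2 n N) (I2 n N) ℂ) : Matrix (I2 n N) (I2 n N) ℂ :=
  fun x y => wt q y.2.val * B (x.2, y.2) (x.1, y.1)

/-- The rotation by a quarter turn which appears at the nodes with orientation `false`. -/
noncomputable def rotD (q : ℂ) (B : Matrix (I2 n N) (I2 n N) ℂ) : Matrix (I2 n N) (I2 n N) ℂ :=
  fun x y => (wt q x.2.val)⁻¹ * B (y.1, x.1) (y.2, x.2)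

private theorem Flip11_gf_rev (q : ℂ) (a : Fin n → ℕ) : gf q (fun i => a i.rev) = gf q a := by
  unfold gf
  exact Equiv.prod_comp Fin.revPerm (fun i => qf q (a i))

private theorem Flip11_Rm (q : ℂ) (e : ℤ) (hg : Gen q n N) (hn : 1 ≤ n) (a b c d : Vn n N) :
    Rm q n N e (c, d) (b, a) = Rm q n N e (d.rev, c.rev) (a.rev, b.rev) := by
  rw [Rm_eq q N e hg hn, Rm_eq q N e hg hn]
  simp only [Vn.rev_val]
  rw [KR_flip q N e hg.1 (hg.br_one hn) c.val d.val b.val a.val (b.sum.trans a.sum.symm),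
    Flip11_gf_rev, Flip11_gf_rev, mul_comm (gf q b.val)]

private theorem Flip11_wt_add {q : ℂ} (hq : q ≠ 0) (a b : Fin n → ℕ) :
    wt q (a + b) = wt q a * wt q b := by
  unfold wt
  rw [← zpow_add₀ hq]
  congr 1
  simp only [Pi.add_apply, Nat.cast_add, add_mul, Finset.sum_add_distrib]

/-- The exchange of the two factors followed by the reversal. -/
private def Flip11_E (n N : ℕ) : I2 n N ≃ I2 n N where
  toFun w := (w.2.rev, w.1.rev)
  invFun w := (w.2.rev, w.1.rev)
  left_inv w := by simp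
  right_inv w := by simp

theorem X2_X1 (q : ℂ) (e : ℤ) (hg : Gen q n N) (hn : 1 ≤ n) :
    X2m q n N e * X1m q n N e = Ym q n N e * Ym q n N e := by
  ext x y
  rw [Matrix.mul_apply, Matrix.mul_apply, ← Equiv.sum_comp (Flip11_E n N)
    (fun z => Ym q n N e x z * Ym q n N e z y)]
  refine Finset.sum_congr rfl fun w _ => ?_
  simp only [Flip11_E, Equiv.coe_fn_mk, Ym, X1m, X2m]
  rw [Flip11_Rm q e hg hn w.2.rev x.2.rev x.1.rev w.1.rev]
  simp only [Vn.rev_rev, Vn.rev_val]
  rw [wt_rev]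
  ring

theorem X1_X2 (q : ℂ) (e : ℤ) (hg : Gen q n N) (hn : 1 ≤ n) :
    X1m q n N e * X2m q n N e = flipM q (Ym q n N e * Ym q n N e) := by
  ext x y
  have hw := wt_ne hg.1 y.1.val
  simp only [flipM, Matrix.mul_apply, Finset.mul_sum]
  refine Finset.sum_congr rfl fun z _ => ?_
  simp only [Ym, X1m, X2m]
  rw [Flip11_Rm q e hg hn y.2.rev z.2.rev z.1.rev y.1.rev]
  simp only [Vn.rev_rev, Vn.rev_val]
  rw [wt_rev]
  field_simp

theorem flipM_mul (q : ℂ) (hq : q ≠ 0) (A B : Matrix (I2 n N) (I2 n N) ℂ) :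
    flipM q (A * B) = flipM q A * flipM q B := by
  ext x y
  rw [Matrix.mul_apply]
  simp only [flipM]
  rw [Matrix.mul_apply, ← Equiv.sum_comp (Flip11_E n N), Finset.mul_sum]
  refine Finset.sum_congr rfl fun w _ => ?_
  have hw := wt_ne hq w.1.val
  simp only [Flip11_E, Equiv.coe_fn_mk]
  field_simp

theorem flipM_one (q : ℂ) (hq : q ≠ 0) : flipM q (1 : Matrix (I2 n N) (I2 n N) ℂ) = 1 := by
  ext x y
  simp only [flipM]
  by_cases h : x = y
  · subst h
    rw [Matrix.one_apply_eq, Matrix.one_apply_eq, mul_one, mul_inv_cancel₀ (wt_ne hq _)]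
  · rw [Matrix.one_apply_ne h, Matrix.one_apply_ne, mul_zero]
    intro h'
    apply h
    exact (Flip11_E n N).injective h'

theorem flipM_pow (q : ℂ) (hq : q ≠ 0) (A : Matrix (I2 n N) (I2 n N) ℂ) (k : ℕ) :
    flipM q (A ^ k) = flipM q A ^ k := by
  induction k with
  | zero => rw [pow_zero, pow_zero, flipM_one q hq]
  | succ k ih => rw [pow_succ, pow_succ, flipM_mul q hq, ih]

private theorem Flip11_key {q : ℂ} (hq : q ≠ 0) {a b c d : Fin n → ℕ}
    (h : a + b = c + d) : wt q a * wt q b = wt q c * wt q d := by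
  rw [← Flip11_wt_add hq, ← Flip11_wt_add hq, h]

private theorem Flip11_rev_key {a b c d : Vn n N}
    (h : a.rev.val + b.rev.val = c.rev.val + d.rev.val) : a.val + b.val = c.val + d.val := by
  funext i
  have := congrFun h i.rev
  simpa [Vn.rev_val] using this

theorem rotU_flipM (q : ℂ) (hq : q ≠ 0) (X : Matrix (I2 n N) (I2 n N) ℂ)
    (hX : ∀ x y, X x y ≠ 0 → x.1.val + y.2.val = y.1.val + x.2.val) :
    rotU q (flipM q X) = rotM q X := by
  ext x y
  simp only [rotU, flipM, rotM]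
  by_cases h : X (y.2.rev, x.2.rev) (y.1.rev, x.1.rev) = 0
  · rw [h]; simp
  · have h1 := Flip11_key hq (Flip11_rev_key (hX _ _ h))
    have hw := wt_ne hq x.2.val
    rw [← mul_assoc, ← mul_assoc, h1, mul_assoc (wt q y.1.val), mul_inv_cancel₀ hw, mul_one]

theorem rotD_eq (q : ℂ) (hq : q ≠ 0) (X : Matrix (I2 n N) (I2 n N) ℂ)
    (hX : ∀ x y, X x y ≠ 0 → x.1.val + y.2.val = y.1.val + x.2.val) :
    rotD q X = flipM q (rotM q X) := by
  ext x y
  simp only [rotD, flipM, rotM, Vn.rev_rev]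
  by_cases h : X (y.1, x.1) (y.2, x.2) = 0
  · rw [h]; simp
  · have h1 := Flip11_key hq (hX _ _ h)
    have h2 := wt_ne hq x.2.val
    have h3 := wt_ne hq x.1.val
    have h4 := wt_ne hq y.2.val
    rw [Vn.rev_val, wt_rev]
    simp only at h1
    rw [← mul_assoc]
    congr 1
    field_simp
    linear_combination -h1

end Pool.Agent.H63.VC11
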