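import Pool.Agent.H63.VC11.Sl11

/-! # Identities for the matrix elements of the crossing -/

namespace Pool.Agent.H63.VC11

open Pool.Agent.H63.VC7 Pool.Agent.H63.VC8

variable {n : ℕ}

/-- `∏ [a_i]!` -/
noncomputable def gf (q : ℂ) (a : Fin n → ℕ) : ℂ := ∏ i, qf q (a i)

/-- The product of the monomials `x ^ b` and `x ^ a`. -/
noncomputable def mon (q : ℂ) (b a : Fin n → ℕ) : Fn2 n := fun x =>
  if x = (b, a) then gf q b * gf q a else 0

/-- The matrix elements of the crossing. -/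
noncomputable def KR (q : ℂ) (N : ℕ) (e : ℤ) (c d b a : Fin n → ℕ) : ℂ :=
  opR q N e (mon q b a) (c, d)

/-- The matrix elements of `F ^ k E ^ k`. -/
noncomputable def KK (q : ℂ) (k : ℕ) (c d b a : Fin n → ℕ) : ℂ :=
  (Fo q n ^ k) ((Eo q n ^ k) (mon q b a)) (c, d)

theorem gf_add (q : ℂ) (a : Fin n → ℕ) (i : Fin n) :
    gf q (a + Pi.single i 1) = gf q a * qn q ((a i : ℤ) + 1) := by
  unfold gf
  have h1 : ∀ j : Fin n, qf q ((a + Pi.single i 1 : Fin n → ℕ) j) =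
      qf q (a j) * (if j = i then qn q ((a i : ℤ) + 1) else 1) := by
    intro j
    by_cases hj : j = i
    · subst hj
      rw [add_single_self, qf_succ, if_pos rfl]
    · rw [add_single_ne a hj, if_neg hj, mul_one]
  rw [Finset.prod_congr rfl fun j _ => h1 j, Finset.prod_mul_distrib, Finset.prod_ite_eq',
    if_pos (Finset.mem_univ i)]

theorem Gen.gf_ne {q : ℂ} {N M : ℕ} (h : Gen q n M) (hn : 1 ≤ n) (hN : N ≤ 4 * M + 2 * n)
    (a : Vn n N) : gf q a.val ≠ 0 := by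
  unfold gf
  rw [Finset.prod_ne_zero_iff]
  intro i _
  refine h.qf_ne hn (le_trans ?_ hN)
  have := Finset.single_le_sum (f := a.val) (fun j _ => Nat.zero_le _) (Finset.mem_univ i)
  rwa [a.sum] at this

theorem HomD_mon (q : ℂ) (b a : Fin n → ℕ) :
    HomD ((∑ i, b i : ℕ) : ℤ) ((∑ i, a i : ℕ) : ℤ) (mon q b a) := by
  intro x hx
  unfold mon at hx
  split_ifs at hx with h
  · subst h
    exact ⟨rfl, rfl⟩
  · exact absurd rfl hx

/-- the operator of the crossing in terms of `Eo`, `Fo` -/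
private theorem KH11_opR (q : ℂ) (N : ℕ) (e : ℤ) (ψ : Fn2 n) (x : (Fin n → ℕ) × (Fin n → ℕ)) :
    opR q N e ψ x = ∑ k ∈ Finset.range (N + 1), (-1) ^ (N - k) * q ^ (e * ((k : ℤ) - N)) /
      qf q k ^ 2 * (Eo q n ^ k) ((Fo q n ^ k) ψ) x := by
  unfold opR
  refine Finset.sum_congr rfl fun k _ => ?_
  rw [Eo_pow, Fo_pow]

theorem opR_smul (q : ℂ) (N : ℕ) (e : ℤ) (c : ℂ) (ψ : Fn2 n) (x : (Fin n → ℕ) × (Fin n → ℕ)) :
    opR q N e (fun p => c * ψ p) x = c * opR q N e ψ x := by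
  have h : (fun p => c * ψ p) = c • ψ := rfl
  rw [h, KH11_opR, KH11_opR, Finset.mul_sum]
  refine Finset.sum_congr rfl fun k _ => ?_
  rw [map_smul, map_smul, Pi.smul_apply, smul_eq_mul]
  ring

/-- The entries of `Rm` in terms of `KR`. -/
theorem Rm_eq (q : ℂ) (N : ℕ) (e : ℤ) (hg : Gen q n N) (hn : 1 ≤ n) (x y : I2 n N) :
    Rm q n N e x y = KR q N e x.1.val x.2.val y.1.val y.2.val / (gf q y.1.val * gf q y.2.val) := by
  have h1 := hg.gf_ne hn (by omega : N ≤ 4 * N + 2 * n) y.1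
  have h2 := hg.gf_ne hn (by omega : N ≤ 4 * N + 2 * n) y.2
  rw [eq_div_iff (mul_ne_zero h1 h2)]
  unfold KR Rm
  have h3 : mon q y.1.val y.2.val = fun p => gf q y.1.val * gf q y.2.val *
      (if p = (y.1.val, y.2.val) then (1 : ℂ) else 0) := by
    funext p
    unfold mon
    split_ifs <;> simp
  rw [h3, opR_smul, mul_comm]

/-- On `V_N ⊗ V_N` the operators `E ^ k F ^ k` and `F ^ k E ^ k` agree. -/
theorem KR_KK (q : ℂ) (N : ℕ) (e : ℤ) (hq : q ≠ 0) (h1 : br q 1 ≠ 0) (c d b a : Fin n → ℕ)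
    (hb : ∑ i, b i = ∑ i, a i) :
    KR q N e c d b a = ∑ k ∈ Finset.range (N + 1), (-1) ^ (N - k) * q ^ (e * ((k : ℤ) - N)) /
      qf q k ^ 2 * KK q k c d b a := by
  unfold KR KK
  rw [KH11_opR]
  refine Finset.sum_congr rfl fun k _ => ?_
  have h := HomD_mon q b a
  rw [hb] at h
  rw [EF_eq_FE q hq h1 h k]

/-- the reversal of functions of two indices -/
private def KH11_T (ψ : Fn2 n) : Fn2 n := fun x => ψ (fun i => x.2 i.rev, fun i => x.1 i.rev)

private theorem KH11_rev_sub (a : Fin n → ℕ) (i : Fin n) :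
    (fun j : Fin n => (a - Pi.single i 1 : Fin n → ℕ) j.rev) =
      (fun j => a j.rev) - Pi.single i.rev 1 := by
  funext j
  simp only [Pi.sub_apply, ← rev_single]

private theorem KH11_rev_add (a : Fin n → ℕ) (i : Fin n) :
    (fun j : Fin n => (a + Pi.single i 1 : Fin n → ℕ) j.rev) =
      (fun j => a j.rev) + Pi.single i.rev 1 := by
  funext j
  simp only [Pi.add_apply, ← rev_single]

private theorem KH11_TE (q : ℂ) (ψ : Fn2 n) : KH11_T (Eo q n ψ) = Fo q n (KH11_T ψ) := by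
  funext x
  rw [Eo_apply, Fo_apply]
  unfold KH11_T opE opF
  rw [← Equiv.sum_comp Fin.revPerm]
  refine Finset.sum_congr rfl fun i _ => ?_
  simp only [Fin.revPerm_apply, hi_rev, Fin.rev_rev, KH11_rev_sub, KH11_rev_add]

private theorem KH11_TF (q : ℂ) (ψ : Fn2 n) : KH11_T (Fo q n ψ) = Eo q n (KH11_T ψ) := by
  funext x
  rw [Eo_apply, Fo_apply]
  unfold KH11_T opE opF
  rw [← Equiv.sum_comp Fin.revPerm]
  refine Finset.sum_congr rfl fun i _ => ?_
  simp only [Fin.revPerm_apply, lo_rev, Fin.rev_rev, KH11_rev_sub, KH11_rev_add]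

private theorem KH11_TEk (q : ℂ) (k : ℕ) (ψ : Fn2 n) :
    KH11_T ((Eo q n ^ k) ψ) = (Fo q n ^ k) (KH11_T ψ) := by
  induction k with
  | zero => simp
  | succ k ih =>
    rw [pow_succ', pow_succ', Module.End.mul_apply, Module.End.mul_apply, KH11_TE, ih]

private theorem KH11_TFk (q : ℂ) (k : ℕ) (ψ : Fn2 n) :
    KH11_T ((Fo q n ^ k) ψ) = (Eo q n ^ k) (KH11_T ψ) := by
  induction k with
  | zero => simp
  | succ k ih =>
    rw [pow_succ', pow_succ', Module.End.mul_apply, Module.End.mul_apply, KH11_TF, ih]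

private theorem KH11_gf_rev (q : ℂ) (a : Fin n → ℕ) : gf q (fun i => a i.rev) = gf q a := by
  unfold gf
  exact Equiv.prod_comp Fin.revPerm (fun i => qf q (a i))

private theorem KH11_rev_inj (a b : Fin n → ℕ) :
    (fun i : Fin n => a i.rev) = (fun i => b i.rev) ↔ a = b := by
  constructor
  · intro h
    funext i
    have := congrFun h i.rev
    simpa using this
  · rintro rfl
    rfl

private theorem KH11_Tmon (q : ℂ) (b a : Fin n → ℕ) :
    KH11_T (mon q (fun i => a i.rev) (fun i => b i.rev)) = mon q b a := by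
  funext x
  unfold KH11_T mon
  rw [KH11_gf_rev, KH11_gf_rev]
  have h : ((fun i => x.2 i.rev, fun i => x.1 i.rev) : (Fin n → ℕ) × (Fin n → ℕ)) =
      (fun i => a i.rev, fun i => b i.rev) ↔ x = (b, a) := by
    rw [Prod.mk.injEq, KH11_rev_inj, KH11_rev_inj, Prod.ext_iff]
    exact and_comm
  by_cases h1 : x = (b, a)
  · rw [if_pos h1, if_pos (h.2 h1), mul_comm]
  · rw [if_neg h1, if_neg fun h2 => h1 (h.1 h2)]

/-- The symmetry of the crossing. -/
theorem KR_flip (q : ℂ) (N : ℕ) (e : ℤ) (hq : q ≠ 0) (h1 : br q 1 ≠ 0) (c d b a : Fin n → ℕ)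
    (hb : ∑ i, b i = ∑ i, a i) :
    KR q N e (fun i => d i.rev) (fun i => c i.rev) (fun i => a i.rev) (fun i => b i.rev) =
      KR q N e c d b a := by
  rw [KR_KK q N e hq h1 c d b a hb]
  unfold KR KK
  rw [KH11_opR]
  refine Finset.sum_congr rfl fun k _ => ?_
  congr 1
  have h2 : KH11_T ((Eo q n ^ k) ((Fo q n ^ k) (mon q (fun i => a i.rev) (fun i => b i.rev)))) =
      (Fo q n ^ k) ((Eo q n ^ k) (mon q b a)) := by
    rw [KH11_TEk, KH11_TFk, KH11_Tmon]
  exact congrFun h2 (c, d)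

private theorem KH11_wtE (q : ℂ) (s : Fin n → ℕ) (ψ : Fn2 n) (h : ∀ x, ψ x ≠ 0 → x.1 + x.2 = s) :
    ∀ x, Eo q n ψ x ≠ 0 → x.1 + x.2 = s := by
  intro x hx
  rw [Eo_apply] at hx
  unfold opE at hx
  obtain ⟨i, _, hi⟩ := Finset.exists_ne_zero_of_sum_ne_zero hx
  have h1 : ψ (x.1 - Pi.single i 1, x.2 + Pi.single i 1) ≠ 0 := right_ne_zero_of_mul hi
  have h2 : x.1 i ≠ 0 := by
    intro h0
    apply hi
    rw [h0, Nat.cast_zero, qn_zero, mul_zero, zero_mul]
  have h3 := h _ h1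
  obtain ⟨b, hb⟩ := VC11.exists_add h2
  rw [← h3, hb]
  simp only [add_sub_single]
  rw [add_assoc, add_comm (Pi.single i 1) x.2]

private theorem KH11_wtF (q : ℂ) (s : Fin n → ℕ) (ψ : Fn2 n) (h : ∀ x, ψ x ≠ 0 → x.1 + x.2 = s) :
    ∀ x, Fo q n ψ x ≠ 0 → x.1 + x.2 = s := by
  intro x hx
  rw [Fo_apply] at hx
  unfold opF at hx
  obtain ⟨i, _, hi⟩ := Finset.exists_ne_zero_of_sum_ne_zero hx
  have h1 : ψ (x.1 + Pi.single i 1, x.2 - Pi.single i 1) ≠ 0 := right_ne_zero_of_mul hi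
  have h2 : x.2 i ≠ 0 := by
    intro h0
    apply hi
    rw [h0, Nat.cast_zero, qn_zero, mul_zero, zero_mul]
  have h3 := h _ h1
  obtain ⟨b, hb⟩ := VC11.exists_add h2
  rw [← h3, hb]
  simp only [add_sub_single]
  rw [add_assoc, add_comm (Pi.single i 1) b]

private theorem KH11_wtEk (q : ℂ) (s : Fin n → ℕ) (k : ℕ) (ψ : Fn2 n)
    (h : ∀ x, ψ x ≠ 0 → x.1 + x.2 = s) :
    ∀ x, (Eo q n ^ k) ψ x ≠ 0 → x.1 + x.2 = s := by
  induction k with
  | zero => simpa using h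
  | succ k ih =>
    rw [pow_succ', Module.End.mul_apply]
    exact KH11_wtE q s _ ih

private theorem KH11_wtFk (q : ℂ) (s : Fin n → ℕ) (k : ℕ) (ψ : Fn2 n)
    (h : ∀ x, ψ x ≠ 0 → x.1 + x.2 = s) :
    ∀ x, (Fo q n ^ k) ψ x ≠ 0 → x.1 + x.2 = s := by
  induction k with
  | zero => simpa using h
  | succ k ih =>
    rw [pow_succ', Module.End.mul_apply]
    exact KH11_wtF q s _ ih

/-- The crossing preserves the weight. -/
theorem KR_wt (q : ℂ) (N : ℕ) (e : ℤ) (c d b a : Fin n → ℕ) (h : KR q N e c d b a ≠ 0) :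
    c + d = b + a := by
  unfold KR at h
  rw [KH11_opR] at h
  obtain ⟨k, _, hk⟩ := Finset.exists_ne_zero_of_sum_ne_zero h
  have h1 := right_ne_zero_of_mul hk
  refine KH11_wtEk q (b + a) k _ (KH11_wtFk q (b + a) k _ ?_) (c, d) h1
  intro x hx
  unfold mon at hx
  split_ifs at hx with h2
  · subst h2
    rfl
  · exact absurd rfl hx

end Pool.Agent.H63.VC11
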