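import Pool.Agent.H63.VC11.KH11

/-! # Identities for the matrix elements of the crossing, II -/

namespace Pool.Agent.H63.VC11

open Pool.Agent.H63.VC7 Pool.Agent.H63.VC8

variable {n : ℕ}

private theorem KHb11_gen (P Q : Fin n → Module.End ℂ (Fn2 n)) (A B : Module.End ℂ (Fn2 n))
    (u : Fin n → ℂ) (ψ : Fn2 n) (s : ℂ) (hP : ∀ i, Commute (P i) A) (hQ : ∀ i, Commute (Q i) B)
    (hs : ∀ x, ∑ i, u i * P i (Q i (B ψ)) x = s * (B ψ) x)
    (x : (Fin n → ℕ) × (Fin n → ℕ)) :
    ∑ i, u i * P i (A (B (Q i ψ))) x = s * A (B ψ) x := by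
  have h1 : ∀ i, P i (A (B (Q i ψ))) = A (P i (Q i (B ψ))) := by
    intro i
    have e1 : B (Q i ψ) = Q i (B ψ) := by
      have := congrArg (fun L : Module.End ℂ (Fn2 n) => L ψ) (hQ i).eq
      simpa [Module.End.mul_apply] using this.symm
    have e2 : ∀ φ : Fn2 n, P i (A φ) = A (P i φ) := by
      intro φ
      have := congrArg (fun L : Module.End ℂ (Fn2 n) => L φ) (hP i).eq
      simpa [Module.End.mul_apply] using this
    rw [e1, e2]
  have h2 : (∑ i, u i • P i (Q i (B ψ))) = s • B ψ := by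
    funext y
    rw [Finset.sum_apply]
    simpa [Pi.smul_apply, smul_eq_mul] using hs y
  have h3 := congrArg (fun φ : Fn2 n => A φ x) h2
  simp only [map_sum, map_smul, Finset.sum_apply, Pi.smul_apply, smul_eq_mul] at h3
  rw [← h3]
  refine Finset.sum_congr rfl fun i _ => ?_
  rw [h1]

private theorem KHb11_XR2 (q : ℂ) (i : Fin n) (b a : Fin n → ℕ) :
    XR2 q i (mon q b a) = q ^ (hi a i) • mon q b (a + Pi.single i 1) := by
  funext x
  obtain ⟨c, d⟩ := x
  change qn q (d i) * q ^ (hi d i) * mon q b a (c, d - Pi.single i 1) =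
    q ^ (hi a i) * mon q b (a + Pi.single i 1) (c, d)
  unfold mon
  by_cases hd : d i = 0
  · have h1 : ((c, d) : (Fin n → ℕ) × (Fin n → ℕ)) ≠ (b, a + Pi.single i 1) := by
      intro h
      have := congrFun (Prod.mk.inj h).2 i
      rw [add_single_self] at this
      omega
    rw [if_neg h1, hd]
    simp [qn_zero]
  · obtain ⟨d', rfl⟩ := exists_add hd
    rw [add_sub_single]
    by_cases h : c = b ∧ d' = a
    · obtain ⟨rfl, rfl⟩ := h
      rw [if_pos rfl, if_pos rfl, gf_add, hi_add_self, add_single_self]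
      push_cast
      ring
    · rw [if_neg (fun h' => h ⟨(Prod.mk.inj h').1, (Prod.mk.inj h').2⟩), if_neg, mul_zero, mul_zero]
      intro h'
      exact h ⟨(Prod.mk.inj h').1, add_right_cancel (Prod.mk.inj h').2⟩

private theorem KHb11_XL1 (q : ℂ) (i : Fin n) (b a : Fin n → ℕ) :
    XL1 q i (mon q b a) = q ^ (lo b i) • mon q (b + Pi.single i 1) a := by
  funext x
  obtain ⟨c, d⟩ := x
  change qn q (c i) * q ^ (lo c i) * mon q b a (c - Pi.single i 1, d) =
    q ^ (lo b i) * mon q (b + Pi.single i 1) a (c, d)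
  unfold mon
  by_cases hd : c i = 0
  · have h1 : ((c, d) : (Fin n → ℕ) × (Fin n → ℕ)) ≠ (b + Pi.single i 1, a) := by
      intro h
      have := congrFun (Prod.mk.inj h).1 i
      rw [add_single_self] at this
      omega
    rw [if_neg h1, hd]
    simp [qn_zero]
  · obtain ⟨c', rfl⟩ := exists_add hd
    rw [add_sub_single]
    by_cases h : c' = b ∧ d = a
    · obtain ⟨rfl, rfl⟩ := h
      rw [if_pos rfl, if_pos rfl, gf_add, lo_add_self, add_single_self]
      push_cast
      ring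
    · rw [if_neg (fun h' => h ⟨(Prod.mk.inj h').1, (Prod.mk.inj h').2⟩), if_neg, mul_zero, mul_zero]
      intro h'
      exact h ⟨add_right_cancel (Prod.mk.inj h').1, (Prod.mk.inj h').2⟩

private theorem KHb11_DL1 (q : ℂ) (i : Fin n) (b a : Fin n → ℕ) :
    DL1 q i (mon q b a) = (qn q (b i) * q ^ (-(hi b i))) • mon q (b - Pi.single i 1) a := by
  funext x
  obtain ⟨c, d⟩ := x
  change q ^ (-(hi c i)) * mon q b a (c + Pi.single i 1, d) =
    qn q (b i) * q ^ (-(hi b i)) * mon q (b - Pi.single i 1) a (c, d)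
  unfold mon
  by_cases hb : b i = 0
  · have h1 : ((c + Pi.single i 1, d) : (Fin n → ℕ) × (Fin n → ℕ)) ≠ (b, a) := by
      intro h
      have := congrFun (Prod.mk.inj h).1 i
      rw [add_single_self] at this
      omega
    rw [if_neg h1, hb]
    simp [qn_zero]
  · obtain ⟨b', rfl⟩ := exists_add hb
    rw [add_sub_single]
    by_cases h : c = b' ∧ d = a
    · obtain ⟨rfl, rfl⟩ := h
      rw [if_pos rfl, if_pos rfl, gf_add, hi_add_self, add_single_self]
      push_cast
      ring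
    · rw [if_neg (fun h' => h ⟨add_right_cancel (Prod.mk.inj h').1, (Prod.mk.inj h').2⟩), if_neg,
        mul_zero, mul_zero]
      intro h'
      exact h ⟨(Prod.mk.inj h').1, (Prod.mk.inj h').2⟩

private theorem KHb11_DR2 (q : ℂ) (i : Fin n) (b a : Fin n → ℕ) :
    DR2 q i (mon q b a) = (qn q (a i) * q ^ (-(lo a i))) • mon q b (a - Pi.single i 1) := by
  funext x
  obtain ⟨c, d⟩ := x
  change q ^ (-(lo d i)) * mon q b a (c, d + Pi.single i 1) =
    qn q (a i) * q ^ (-(lo a i)) * mon q b (a - Pi.single i 1) (c, d)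
  unfold mon
  by_cases hb : a i = 0
  · have h1 : ((c, d + Pi.single i 1) : (Fin n → ℕ) × (Fin n → ℕ)) ≠ (b, a) := by
      intro h
      have := congrFun (Prod.mk.inj h).2 i
      rw [add_single_self] at this
      omega
    rw [if_neg h1, hb]
    simp [qn_zero]
  · obtain ⟨a', rfl⟩ := exists_add hb
    rw [add_sub_single]
    by_cases h : c = b ∧ d = a'
    · obtain ⟨rfl, rfl⟩ := h
      rw [if_pos rfl, if_pos rfl, gf_add, lo_add_self, add_single_self]
      push_cast
      ring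
    · rw [if_neg (fun h' => h ⟨(Prod.mk.inj h').1, add_right_cancel (Prod.mk.inj h').2⟩), if_neg,
        mul_zero, mul_zero]
      intro h'
      exact h ⟨(Prod.mk.inj h').1, (Prod.mk.inj h').2⟩

private theorem KHb11_coef (q : ℂ) (hq : q ≠ 0) (e : ℤ) (he : e = 1 ∨ e = -1) (N k : ℕ) :
    q ^ (e * ((k : ℤ) - ((N + 1 : ℕ) : ℤ))) * qn q ((N : ℤ) + k + n) +
      q ^ (e * (2 * N + n)) * (q ^ (e * ((k : ℤ) - N)) * qn q ((N : ℤ) + 1 - k)) =
      qn q (2 * (N : ℤ) + n + 1) := by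
  rcases he with rfl | rfl
  · have h := qn_add q hq ((N : ℤ) + 1 - k) ((N : ℤ) + k + n)
    rw [show (N : ℤ) + 1 - k + ((N : ℤ) + k + n) = 2 * (N : ℤ) + n + 1 by ring] at h
    rw [← h, ← mul_assoc, ← zpow_add₀ hq, add_comm]
    congr 3
    · push_cast; ring
    · push_cast; ring
  · have h := qn_add q hq ((N : ℤ) + k + n) ((N : ℤ) + 1 - k)
    rw [show ((N : ℤ) + k + n) + ((N : ℤ) + 1 - k) = 2 * (N : ℤ) + n + 1 by ring] at h
    rw [← h, ← mul_assoc, ← zpow_add₀ hq]
    congr 3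
    · push_cast; ring
    · push_cast; ring

/-- The two sums of coefficients. -/
private theorem KHb11_sum (q : ℂ) (hq : q ≠ 0) (e : ℤ) (he : e = 1 ∨ e = -1) (N : ℕ)
    (v : ℕ → ℂ) (h0 : ∑ k ∈ Finset.range (N + 2), (-1) ^ k / qf q k ^ 2 * v k = 0) :
    ∑ k ∈ Finset.range (N + 1 + 1), (-1) ^ (N + 1 - k) *
        q ^ (e * ((k : ℤ) - ((N + 1 : ℕ) : ℤ))) / qf q k ^ 2 *
        (qn q ((N : ℤ) + k + n) * v k) =
      q ^ (e * (2 * N + n)) * ∑ k ∈ Finset.range (N + 1), (-1) ^ (N - k) *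
        q ^ (e * ((k : ℤ) - N)) / qf q k ^ 2 * (qn q ((N : ℤ) + 1 - k) * v k) := by
  have h1 : q ^ (e * (2 * N + n)) * ∑ k ∈ Finset.range (N + 1), (-1) ^ (N - k) *
        q ^ (e * ((k : ℤ) - N)) / qf q k ^ 2 * (qn q ((N : ℤ) + 1 - k) * v k) =
      -∑ k ∈ Finset.range (N + 2), (-1) ^ (N + 1 - k) * (q ^ (e * (2 * N + n)) *
        (q ^ (e * ((k : ℤ) - N)) * qn q ((N : ℤ) + 1 - k))) / qf q k ^ 2 * v k := by
    rw [Finset.sum_range_succ _ (N + 1)]
    have hz : qn q ((N : ℤ) + 1 - ((N + 1 : ℕ) : ℤ)) = 0 := by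
      rw [show (N : ℤ) + 1 - ((N + 1 : ℕ) : ℤ) = 0 by push_cast; ring, qn_zero]
    rw [hz, mul_zero, mul_zero, mul_zero, zero_div, zero_mul, add_zero, Finset.mul_sum,
      ← Finset.sum_neg_distrib]
    refine Finset.sum_congr rfl fun k hk => ?_
    have hk' : k ≤ N := by
      have := Finset.mem_range.1 hk
      omega
    rw [show N + 1 - k = (N - k) + 1 by omega, pow_succ]
    ring
  rw [h1, ← sub_eq_zero, sub_neg_eq_add, ← Finset.sum_add_distrib]
  have h2 : ∀ k ∈ Finset.range (N + 2), (-1 : ℂ) ^ (N + 1 - k) *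
        q ^ (e * ((k : ℤ) - ((N + 1 : ℕ) : ℤ))) / qf q k ^ 2 *
        (qn q ((N : ℤ) + k + n) * v k) + (-1) ^ (N + 1 - k) * (q ^ (e * (2 * N + n)) *
        (q ^ (e * ((k : ℤ) - N)) * qn q ((N : ℤ) + 1 - k))) / qf q k ^ 2 * v k =
      (qn q (2 * (N : ℤ) + n + 1) * (-1) ^ (N + 1)) * ((-1) ^ k / qf q k ^ 2 * v k) := by
    intro k hk
    have hk' : k ≤ N + 1 := by
      have := Finset.mem_range.1 hk
      omega
    have hs : (-1 : ℂ) ^ (N + 1 - k) = (-1) ^ (N + 1) * (-1) ^ k := by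
      obtain ⟨l, hl⟩ := Nat.exists_eq_add_of_le hk'
      rw [hl, Nat.add_sub_cancel_left, pow_add]
      have : ((-1 : ℂ) ^ k) * (-1) ^ k = 1 := by
        rw [← mul_pow]; norm_num
      linear_combination (-((-1 : ℂ) ^ l)) * this
    rw [← KHb11_coef (n := n) q hq e he N k, hs]
    ring
  rw [Finset.sum_congr rfl h2, ← Finset.mul_sum, h0, mul_zero]

theorem KH1 (q : ℂ) (N : ℕ) (e : ℤ) (he : e = 1 ∨ e = -1) (hg : Gen q n (N + 1)) (hn : 1 ≤ n)
    (c d b a : Fin n → ℕ) (hc : ∑ i, c i = N + 1) (hb : ∑ i, b i = N + 1) (hd : ∑ i, d i = N)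
    (ha : ∑ i, a i = N) :
    ∑ i : Fin n, q ^ ((n : ℤ) - 1 - 2 * (i : ℕ)) * q ^ (hi a i - lo d i) *
        KR q (N + 1) e c (d + Pi.single i 1) b (a + Pi.single i 1) =
      q ^ (e * (2 * N + n)) * ∑ j, qn q (c j) * qn q (b j) * q ^ (lo c j - hi b j) *
        KR q N e (c - Pi.single j 1) d (b - Pi.single j 1) a := by
  have hq := hg.1
  set m := mon q b a with hm
  have hH : HomD ((N : ℤ) + 1) N m := by
    have := HomD_mon q b a
    rw [hb, ha] at this
    exact_mod_cast this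
  have hL : ∑ i : Fin n, q ^ ((n : ℤ) - 1 - 2 * (i : ℕ)) * q ^ (hi a i - lo d i) *
        KR q (N + 1) e c (d + Pi.single i 1) b (a + Pi.single i 1) =
      ∑ k ∈ Finset.range (N + 1 + 1), (-1) ^ (N + 1 - k) *
        q ^ (e * ((k : ℤ) - ((N + 1 : ℕ) : ℤ))) / qf q k ^ 2 *
        (qn q ((N : ℤ) + k + n) * (Eo q n ^ k) ((Fo q n ^ k) m) (c, d)) := by
    have h1 : ∀ k : ℕ, ∑ i : Fin n, q ^ ((n : ℤ) - 1 - 2 * (i : ℕ)) *
        DR2 q i ((Eo q n ^ k) ((Fo q n ^ k) (XR2 q i m))) (c, d) =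
        qn q ((N : ℤ) + k + n) * (Eo q n ^ k) ((Fo q n ^ k) m) (c, d) := by
      intro k
      apply KHb11_gen (fun i => DR2 q i) (fun i => XR2 q i)
      · intro i
        exact Commute.pow_right (DR2_E q hq i) k
      · intro i
        exact Commute.pow_right (XR2_F q hq i) k
      · intro x
        rw [sum_DR2_XR2 q hq]
        by_cases hx : (Fo q n ^ k) m x = 0
        · rw [hx, mul_zero, mul_zero]
        · have := (HomD_Fpow q k hH x hx).2
          rw [this]
    have h2 : ∀ i : Fin n, q ^ ((n : ℤ) - 1 - 2 * (i : ℕ)) * q ^ (hi a i - lo d i) *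
        KR q (N + 1) e c (d + Pi.single i 1) b (a + Pi.single i 1) =
        ∑ k ∈ Finset.range (N + 1 + 1), (-1) ^ (N + 1 - k) *
        q ^ (e * ((k : ℤ) - ((N + 1 : ℕ) : ℤ))) / qf q k ^ 2 *
        (q ^ ((n : ℤ) - 1 - 2 * (i : ℕ)) *
        DR2 q i ((Eo q n ^ k) ((Fo q n ^ k) (XR2 q i m))) (c, d)) := by
      intro i
      unfold KR opR
      rw [Finset.mul_sum]
      refine Finset.sum_congr rfl fun k _ => ?_
      rw [← Fo_pow, ← Eo_pow, hm, KHb11_XR2, map_smul, map_smul, map_smul]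
      change _ = _ * (_ * (q ^ (hi a i) * (q ^ (-(lo d i)) * (Eo q n ^ k) ((Fo q n ^ k)
        (mon q b (a + Pi.single i 1))) (c, d + Pi.single i 1))))
      rw [show hi a i - lo d i = hi a i + -(lo d i) by ring, zpow_add₀ hq]
      ring
    rw [Finset.sum_congr rfl fun i _ => h2 i, Finset.sum_comm]
    refine Finset.sum_congr rfl fun k _ => ?_
    rw [← Finset.mul_sum, h1]
  have hR : ∑ j, qn q (c j) * qn q (b j) * q ^ (lo c j - hi b j) *
        KR q N e (c - Pi.single j 1) d (b - Pi.single j 1) a =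
      ∑ k ∈ Finset.range (N + 1), (-1) ^ (N - k) *
        q ^ (e * ((k : ℤ) - N)) / qf q k ^ 2 *
        (qn q ((N : ℤ) + 1 - k) * (Eo q n ^ k) ((Fo q n ^ k) m) (c, d)) := by
    have h1 : ∀ k : ℕ, ∑ i : Fin n, 1 *
        XL1 q i ((Eo q n ^ k) ((Fo q n ^ k) (DL1 q i m))) (c, d) =
        qn q ((N : ℤ) + 1 - k) * (Eo q n ^ k) ((Fo q n ^ k) m) (c, d) := by
      intro k
      apply KHb11_gen (fun i => XL1 q i) (fun i => DL1 q i)
      · intro i
        exact Commute.pow_right (XL1_E q hq i) k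
      · intro i
        exact Commute.pow_right (DL1_F q hq i) k
      · intro x
        simp only [one_mul]
        rw [sum_XL1_DL1 q hq]
        by_cases hx : (Fo q n ^ k) m x = 0
        · rw [hx, mul_zero, mul_zero]
        · have := (HomD_Fpow q k hH x hx).1
          rw [this]
    have h2 : ∀ j : Fin n, qn q (c j) * qn q (b j) * q ^ (lo c j - hi b j) *
        KR q N e (c - Pi.single j 1) d (b - Pi.single j 1) a =
        ∑ k ∈ Finset.range (N + 1), (-1) ^ (N - k) *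
        q ^ (e * ((k : ℤ) - N)) / qf q k ^ 2 *
        (1 * XL1 q j ((Eo q n ^ k) ((Fo q n ^ k) (DL1 q j m))) (c, d)) := by
      intro j
      unfold KR opR
      rw [Finset.mul_sum]
      refine Finset.sum_congr rfl fun k _ => ?_
      rw [← Fo_pow, ← Eo_pow, hm, KHb11_DL1, map_smul, map_smul, map_smul]
      change _ = _ * (1 * (qn q (b j) * q ^ (-(hi b j)) * (qn q (c j) * q ^ (lo c j) *
        (Eo q n ^ k) ((Fo q n ^ k) (mon q (b - Pi.single j 1) a)) (c - Pi.single j 1, d))))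
      rw [show lo c j - hi b j = lo c j + -(hi b j) by ring, zpow_add₀ hq]
      ring
    rw [Finset.sum_congr rfl fun i _ => h2 i, Finset.sum_comm]
    refine Finset.sum_congr rfl fun k _ => ?_
    rw [← Finset.mul_sum, h1]
  rw [hL, hR]
  apply KHb11_sum q hq e he N
  have h0 := sum_EF_zero q N hg hn hH
  have h3 := congrArg (fun φ : Fn2 n => φ (c, d)) h0
  simpa only [Finset.sum_apply, Pi.smul_apply, smul_eq_mul, Pi.zero_apply] using h3

theorem KH2 (q : ℂ) (N : ℕ) (e : ℤ) (he : e = 1 ∨ e = -1) (hg : Gen q n (N + 1)) (hn : 1 ≤ n)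
    (c d b a : Fin n → ℕ) (hc : ∑ i, c i = N) (hb : ∑ i, b i = N) (hd : ∑ i, d i = N + 1)
    (ha : ∑ i, a i = N + 1) :
    ∑ i : Fin n, (q ^ ((n : ℤ) - 1 - 2 * (i : ℕ)))⁻¹ * q ^ (lo b i - hi c i) *
        KR q (N + 1) e (c + Pi.single i 1) d (b + Pi.single i 1) a =
      q ^ (e * (2 * N + n)) * ∑ j, qn q (d j) * qn q (a j) * q ^ (hi d j - lo a j) *
        KR q N e c (d - Pi.single j 1) b (a - Pi.single j 1) := by
  have hq := hg.1
  have hbr := hg.br_one hn
  set m := mon q b a with hm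
  have hH : HomD (N : ℤ) ((N : ℤ) + 1) m := by
    have := HomD_mon q b a
    rw [hb, ha] at this
    exact_mod_cast this
  have hL : ∑ i : Fin n, (q ^ ((n : ℤ) - 1 - 2 * (i : ℕ)))⁻¹ * q ^ (lo b i - hi c i) *
        KR q (N + 1) e (c + Pi.single i 1) d (b + Pi.single i 1) a =
      ∑ k ∈ Finset.range (N + 1 + 1), (-1) ^ (N + 1 - k) *
        q ^ (e * ((k : ℤ) - ((N + 1 : ℕ) : ℤ))) / qf q k ^ 2 *
        (qn q ((N : ℤ) + k + n) * (Fo q n ^ k) ((Eo q n ^ k) m) (c, d)) := by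
    have h1 : ∀ k : ℕ, ∑ i : Fin n, (q ^ ((n : ℤ) - 1 - 2 * (i : ℕ)))⁻¹ *
        DL1 q i ((Fo q n ^ k) ((Eo q n ^ k) (XL1 q i m))) (c, d) =
        qn q ((N : ℤ) + k + n) * (Fo q n ^ k) ((Eo q n ^ k) m) (c, d) := by
      intro k
      apply KHb11_gen (fun i => DL1 q i) (fun i => XL1 q i)
      · intro i
        exact Commute.pow_right (DL1_F q hq i) k
      · intro i
        exact Commute.pow_right (XL1_E q hq i) k
      · intro x
        rw [sum_DL1_XL1 q hq]
        by_cases hx : (Eo q n ^ k) m x = 0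
        · rw [hx, mul_zero, mul_zero]
        · have := (HomD_Epow q k hH x hx).1
          rw [this]
    have h2 : ∀ i : Fin n, (q ^ ((n : ℤ) - 1 - 2 * (i : ℕ)))⁻¹ * q ^ (lo b i - hi c i) *
        KR q (N + 1) e (c + Pi.single i 1) d (b + Pi.single i 1) a =
        ∑ k ∈ Finset.range (N + 1 + 1), (-1) ^ (N + 1 - k) *
        q ^ (e * ((k : ℤ) - ((N + 1 : ℕ) : ℤ))) / qf q k ^ 2 *
        ((q ^ ((n : ℤ) - 1 - 2 * (i : ℕ)))⁻¹ *
        DL1 q i ((Fo q n ^ k) ((Eo q n ^ k) (XL1 q i m))) (c, d)) := by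
      intro i
      have hs : ∑ l, (b + Pi.single i 1 : Fin n → ℕ) l = ∑ l, a l := by
        simp only [Pi.add_apply, Finset.sum_add_distrib]
        rw [hb, ha]
        simp
      rw [KR_KK q (N + 1) e hq hbr _ _ _ _ hs, Finset.mul_sum]
      refine Finset.sum_congr rfl fun k _ => ?_
      unfold KK
      rw [hm, KHb11_XL1, map_smul, map_smul, map_smul]
      change _ = _ * (_ * (q ^ (lo b i) * (q ^ (-(hi c i)) * (Fo q n ^ k) ((Eo q n ^ k)
        (mon q (b + Pi.single i 1) a)) (c + Pi.single i 1, d))))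
      rw [show lo b i - hi c i = lo b i + -(hi c i) by ring, zpow_add₀ hq]
      ring
    rw [Finset.sum_congr rfl fun i _ => h2 i, Finset.sum_comm]
    refine Finset.sum_congr rfl fun k _ => ?_
    rw [← Finset.mul_sum, h1]
  have hR : ∑ j, qn q (d j) * qn q (a j) * q ^ (hi d j - lo a j) *
        KR q N e c (d - Pi.single j 1) b (a - Pi.single j 1) =
      ∑ k ∈ Finset.range (N + 1), (-1) ^ (N - k) *
        q ^ (e * ((k : ℤ) - N)) / qf q k ^ 2 *
        (qn q ((N : ℤ) + 1 - k) * (Fo q n ^ k) ((Eo q n ^ k) m) (c, d)) := by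
    have h1 : ∀ k : ℕ, ∑ i : Fin n, 1 *
        XR2 q i ((Fo q n ^ k) ((Eo q n ^ k) (DR2 q i m))) (c, d) =
        qn q ((N : ℤ) + 1 - k) * (Fo q n ^ k) ((Eo q n ^ k) m) (c, d) := by
      intro k
      apply KHb11_gen (fun i => XR2 q i) (fun i => DR2 q i)
      · intro i
        exact Commute.pow_right (XR2_F q hq i) k
      · intro i
        exact Commute.pow_right (DR2_E q hq i) k
      · intro x
        simp only [one_mul]
        rw [sum_XR2_DR2 q hq]
        by_cases hx : (Eo q n ^ k) m x = 0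
        · rw [hx, mul_zero, mul_zero]
        · have := (HomD_Epow q k hH x hx).2
          rw [this]
    have h2 : ∀ j : Fin n, qn q (d j) * qn q (a j) * q ^ (hi d j - lo a j) *
        KR q N e c (d - Pi.single j 1) b (a - Pi.single j 1) =
        ∑ k ∈ Finset.range (N + 1), (-1) ^ (N - k) *
        q ^ (e * ((k : ℤ) - N)) / qf q k ^ 2 *
        (1 * XR2 q j ((Fo q n ^ k) ((Eo q n ^ k) (DR2 q j m))) (c, d)) := by
      intro j
      have hcoef : ∀ k : ℕ, XR2 q j ((Fo q n ^ k) ((Eo q n ^ k) (DR2 q j m))) (c, d) =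
          qn q (a j) * q ^ (-(lo a j)) * (qn q (d j) * q ^ (hi d j) *
          (Fo q n ^ k) ((Eo q n ^ k) (mon q b (a - Pi.single j 1))) (c, d - Pi.single j 1)) := by
        intro k
        rw [hm, KHb11_DR2, map_smul, map_smul, map_smul]
        rfl
      by_cases haj : a j = 0
      · have hz : qn q ((a j : ℕ) : ℤ) = 0 := by
          rw [haj]
          exact_mod_cast qn_zero q
        simp only [hcoef, hz]
        simp
      have hs : ∑ l, b l = ∑ l, (a - Pi.single j 1 : Fin n → ℕ) l := by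
        have h4 : ∑ l, (a - Pi.single j 1 + Pi.single j 1 : Fin n → ℕ) l = N + 1 := by
          rw [sub_add_single haj, ha]
        simp only [Pi.add_apply, Finset.sum_add_distrib] at h4
        rw [hb]
        have h5 : ∑ l, (Pi.single j 1 : Fin n → ℕ) l = 1 := by simp
        omega
      rw [KR_KK q N e hq hbr _ _ _ _ hs, Finset.mul_sum]
      refine Finset.sum_congr rfl fun k _ => ?_
      unfold KK
      rw [hcoef]
      rw [show hi d j - lo a j = hi d j + -(lo a j) by ring, zpow_add₀ hq]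
      ring
    rw [Finset.sum_congr rfl fun i _ => h2 i, Finset.sum_comm]
    refine Finset.sum_congr rfl fun k _ => ?_
    rw [← Finset.mul_sum, h1]
  rw [hL, hR]
  apply KHb11_sum q hq e he N
  have h0 := sum_FE_zero q N hg hn hH
  have h3 := congrArg (fun φ : Fn2 n => φ (c, d)) h0
  simpa only [Finset.sum_apply, Pi.smul_apply, smul_eq_mul, Pi.zero_apply] using h3

theorem KH3 (q : ℂ) (N k : ℕ) (hk : k ≤ N) (hq : q ≠ 0) (c d b a : Fin n → ℕ)
    (hc : ∑ i, c i = N + 1) (hb : ∑ i, b i = N + 1) (hd : ∑ i, d i = N + 1)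
    (ha : ∑ i, a i = N + 1) :
    qn q ((N : ℤ) + 1 - k) * KK q k c d b a =
      ∑ j, qn q (d j) * qn q (a j) * q ^ (hi d j - lo a j) *
        KK q k c (d - Pi.single j 1) b (a - Pi.single j 1) := by
  set m := mon q b a with hm
  have hH : HomD ((N : ℤ) + 1) ((N : ℤ) + 1) m := by
    have := HomD_mon q b a
    rw [hb, ha] at this
    exact_mod_cast this
  have h1 : ∑ i : Fin n, 1 *
      XR2 q i ((Fo q n ^ k) ((Eo q n ^ k) (DR2 q i m))) (c, d) =
      qn q ((N : ℤ) + 1 - k) * (Fo q n ^ k) ((Eo q n ^ k) m) (c, d) := by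
    apply KHb11_gen (fun i => XR2 q i) (fun i => DR2 q i)
    · intro i
      exact Commute.pow_right (XR2_F q hq i) k
    · intro i
      exact Commute.pow_right (DR2_E q hq i) k
    · intro x
      simp only [one_mul]
      rw [sum_XR2_DR2 q hq]
      by_cases hx : (Eo q n ^ k) m x = 0
      · rw [hx, mul_zero, mul_zero]
      · have := (HomD_Epow q k hH x hx).2
        rw [this]
  change _ * (Fo q n ^ k) ((Eo q n ^ k) m) (c, d) = _
  rw [← h1]
  refine Finset.sum_congr rfl fun j _ => ?_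
  unfold KK
  rw [hm, KHb11_DR2, map_smul, map_smul, map_smul]
  change 1 * (qn q (a j) * q ^ (-(lo a j)) * (qn q (d j) * q ^ (hi d j) *
    (Fo q n ^ k) ((Eo q n ^ k) (mon q b (a - Pi.single j 1))) (c, d - Pi.single j 1))) = _
  rw [show hi d j - lo a j = hi d j + -(lo a j) by ring, zpow_add₀ hq]
  ring

end Pool.Agent.H63.VC11
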