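import Pool.Agent.H63.VC11.Idx11

/-! # Sums with the `6j`-symbols -/

namespace Pool.Agent.H63.VC11

open Pool.Agent.H63.VC7 Pool.Agent.H63.VC8

noncomputable def om (q : ℂ) (n t l : ℕ) : ℂ :=
  ∏ i ∈ Finset.range t, (qn q ((n : ℤ) + l + i - 1) * qn q ((l : ℤ) - i))

theorem Ker11_om_zero (q : ℂ) (n l : ℕ) : om q n 0 l = 1 := by
  simp [om]

theorem Ker11_om_succ (q : ℂ) (n t l : ℕ) :
    om q n (t + 1) l = om q n t l * (qn q ((n : ℤ) + l + t - 1) * qn q ((l : ℤ) - t)) := by
  simp [om, Finset.prod_range_succ]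

theorem Ker11_om_lt (q : ℂ) (n t l : ℕ) (h : l < t) : om q n t l = 0 := by
  unfold om
  apply Finset.prod_eq_zero (Finset.mem_range.2 h)
  rw [sub_self, qn_zero, mul_zero]

theorem Ker11_om_closed (q : ℂ) (r t l : ℕ) (h : t ≤ l) :
    om q (r + 2) t l * (qf q (r + l) * qf q (l - t)) = qf q (r + l + t) * qf q l := by
  induction t with
  | zero => simp [Ker11_om_zero]
  | succ t ih =>
    have ih' := ih (by omega)
    have e1 : l - t = (l - (t + 1)) + 1 := by omega
    have e2 : (((l - (t + 1) : ℕ) : ℤ) + 1) = (l : ℤ) - t := by omega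
    rw [e1, qf_succ, e2] at ih'
    rw [Ker11_om_succ, show r + l + (t + 1) = (r + l + t) + 1 by ring, qf_succ]
    have e3 : (((r + 2 : ℕ) : ℤ) + l + t - 1) = (((r + l + t : ℕ) : ℤ) + 1) := by
      push_cast
      ring
    rw [e3]
    calc om q (r + 2) t l * (qn q (((r + l + t : ℕ) : ℤ) + 1) * qn q ((l : ℤ) - t)) *
          (qf q (r + l) * qf q (l - (t + 1)))
        = (om q (r + 2) t l * (qf q (r + l) * (qf q (l - (t + 1)) * qn q ((l : ℤ) - t)))) *
          qn q (((r + l + t : ℕ) : ℤ) + 1) := by ring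
      _ = qf q (r + l + t) * qn q (((r + l + t : ℕ) : ℤ) + 1) * qf q l := by
          rw [ih']
          ring

theorem Ker11_br_div (q : ℂ) (h1 : br q 1 ≠ 0) (a b : ℤ) : br q a / br q b = qn q a / qn q b := by
  unfold qn
  rw [div_div_div_cancel_right₀ h1]

theorem Ker11_prod (q : ℂ) (r N : ℕ) (h : Gen q (r + 2) N) (l : ℕ) (hl : l ≤ N) :
    ∏ i ∈ Finset.range l, (qn q ((r : ℤ) + 1 + i) / qn q ((i : ℤ) + 1))
      = qf q (r + l) / (qf q r * qf q l) := by
  induction l with
  | zero =>
    have := h.qf_ne (by omega) (k := r) (by omega)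
    simp only [Finset.range_zero, Finset.prod_empty, add_zero, qf_zero, mul_one]
    rw [div_self this]
  | succ l ih =>
    have h1 := h.qf_ne (by omega) (k := r) (by omega)
    have h2 := h.qf_ne (by omega) (k := l) (by omega)
    have h3 := h.qn_ne (by omega) (a := (l : ℤ) + 1) (by omega) (by push_cast; omega)
    rw [Finset.prod_range_succ, ih (by omega), ← add_assoc, qf_succ, qf_succ,
      show (((r + l : ℕ) : ℤ) + 1) = (r : ℤ) + 1 + l by push_cast; ring]
    field_simp

theorem Ker11_dimA (q : ℂ) (r N : ℕ) (h : Gen q (r + 2) N) (l : ℕ) (hl : l ≤ N) :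
    dimA (r + 2) q l = qn q ((r : ℤ) + 2 * l + 1) / qn q ((r : ℤ) + 1) *
      (qf q (r + l) / (qf q r * qf q l)) ^ 2 := by
  have hb := h.br_one (by omega)
  unfold dimA
  rw [Finset.prod_pow, ← Ker11_prod q r N h l hl, Ker11_br_div q hb]
  congr 1
  · congr 1
    · congr 1
      push_cast
      ring
    · congr 1
      push_cast
      ring
  · congr 1
    refine Finset.prod_congr rfl fun i _ => ?_
    rw [Ker11_br_div q hb]
    congr 2
    push_cast
    ring

theorem sixn_om (q : ℂ) (n N : ℕ) (h : Gen q n N) (hn : 2 ≤ n) (k l : ℕ) :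
    sixn n q N k l = ∑ t ∈ Finset.range (N + 1), (-1) ^ t *
      (qf q (n - 2) * qf q (N + n - 1) * qf q (N - t) /
        (qf q t * qf q (n + t - 2) * qf q (N + n + t - 1) * qf q N)) *
      (om q n t k * om q n t l) := by
  obtain ⟨r, rfl⟩ : ∃ r, n = r + 2 := ⟨n - 2, by omega⟩
  have hb := h.br_one (by omega)
  unfold sixn
  refine Finset.sum_congr rfl fun t ht => ?_
  have ht' : t ≤ N := Nat.lt_succ_iff.1 (Finset.mem_range.1 ht)
  rw [mul_assoc]
  congr 1
  clear ht
  induction t with
  | zero =>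
    have h1 := h.qf_ne (by omega) (k := r) (by omega)
    have h2 := h.qf_ne (by omega) (k := N + r + 1) (by omega)
    have h3 := h.qf_ne (by omega) (k := N) (by omega)
    simp only [Finset.range_zero, Finset.prod_empty, Ker11_om_zero, qf_zero, Nat.add_zero,
      Nat.sub_zero, mul_one, one_mul, Nat.add_sub_cancel]
    rw [show N + (r + 2) - 1 = N + r + 1 by omega]
    field_simp
  | succ t ih =>
    have h1 := h.qf_ne (by omega) (k := r) (by omega)
    have h2 := h.qf_ne (by omega) (k := N + r + 1) (by omega)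
    have h3 := h.qf_ne (by omega) (k := N) (by omega)
    have h4 := h.qf_ne (by omega) (k := t) (by omega)
    have h5 := h.qf_ne (by omega) (k := r + t) (by omega)
    have h6 := h.qf_ne (by omega) (k := N + r + t + 1) (by omega)
    have h7 := h.qn_ne (by omega) (a := (t : ℤ) + 1) (by omega) (by push_cast; omega)
    have h8 := h.qn_ne (by omega) (a := (r : ℤ) + t + 1) (by omega) (by push_cast; omega)
    have h9 := h.qn_ne (by omega) (a := (N : ℤ) + r + t + 2) (by omega) (by push_cast; omega)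
    have h10 := h.qn_ne (by omega) (a := (N : ℤ) - t) (by omega) (by push_cast; omega)
    have ih' := ih (by omega)
    rw [Finset.prod_range_succ, ih', Ker11_om_succ, Ker11_om_succ]
    have e1 : N - t = (N - (t + 1)) + 1 := by omega
    have e2 : (((N - (t + 1) : ℕ) : ℤ) + 1) = (N : ℤ) - t := by omega
    have f1 : qf q (N - t) = qf q (N - (t + 1)) * qn q ((N : ℤ) - t) := by
      rw [e1, qf_succ, e2]
    have f2 : qf q (t + 1) = qf q t * qn q ((t : ℤ) + 1) := qf_succ q t
    have f3 : qf q (r + 2 + (t + 1) - 2) = qf q (r + t) * qn q ((r : ℤ) + t + 1) := by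
      rw [show r + 2 + (t + 1) - 2 = (r + t) + 1 by omega, qf_succ]
      congr 2
    have f4 : qf q (N + (r + 2) + (t + 1) - 1) = qf q (N + r + t + 1) * qn q ((N : ℤ) + r + t + 2) := by
      rw [show N + (r + 2) + (t + 1) - 1 = (N + r + t + 1) + 1 by omega, qf_succ]
      congr 2
    rw [f1, f2, f3, f4, show r + 2 + t - 2 = r + t by omega,
      show N + (r + 2) + t - 1 = N + r + t + 1 by omega]
    have g : br q (((r + 2 : ℕ) : ℤ) + k + t - 1) * br q ((k : ℤ) - t) *
        (br q (((r + 2 : ℕ) : ℤ) + l + t - 1) * br q ((l : ℤ) - t)) /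
        (br q ((t : ℤ) + 1) * br q (((r + 2 : ℕ) : ℤ) + t - 1) *
          (br q (((r + 2 : ℕ) : ℤ) + N + t) * br q ((N : ℤ) - t))) =
        qn q (((r + 2 : ℕ) : ℤ) + k + t - 1) * qn q ((k : ℤ) - t) *
        (qn q (((r + 2 : ℕ) : ℤ) + l + t - 1) * qn q ((l : ℤ) - t)) /
        (qn q ((t : ℤ) + 1) * qn q ((r : ℤ) + t + 1) *
          (qn q ((N : ℤ) + r + t + 2) * qn q ((N : ℤ) - t))) := by
      rw [show (((r + 2 : ℕ) : ℤ) + t - 1) = (r : ℤ) + t + 1 by push_cast; ring,
        show (((r + 2 : ℕ) : ℤ) + N + t) = (N : ℤ) + r + t + 2 by push_cast; ring]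
      have hbb : ∀ a : ℤ, br q a = qn q a * br q 1 := by
        intro a
        unfold qn
        rw [div_mul_cancel₀ _ hb]
      rw [hbb (((r + 2 : ℕ) : ℤ) + k + t - 1), hbb ((k : ℤ) - t),
        hbb (((r + 2 : ℕ) : ℤ) + l + t - 1), hbb ((l : ℤ) - t), hbb ((t : ℤ) + 1),
        hbb ((r : ℤ) + t + 1), hbb ((N : ℤ) + r + t + 2), hbb ((N : ℤ) - t)]
      field_simp
    rw [g]
    field_simp

theorem om_E1 (q : ℂ) (hq : q ≠ 0) (n m t l : ℕ) :
    om q n t l * E1 q n m l = qn q ((m : ℤ) - t) * qn q ((m : ℤ) + t + n - 1) * om q n t l -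
      om q n (t + 1) l := by
  have h := qn_three_term q hq ((m : ℤ) + t + n - 1) ((t : ℤ) - l) ((l : ℤ) - m)
  rw [show ((t : ℤ) - l + (l - m)) = -((m : ℤ) - t) by ring,
    show ((m : ℤ) + t + n - 1 + (l - m)) = (n : ℤ) + l + t - 1 by ring,
    show ((t : ℤ) - l) = -((l : ℤ) - t) by ring,
    show ((l : ℤ) - m) = -((m : ℤ) - l) by ring, qn_neg, qn_neg, qn_neg,
    show ((m : ℤ) + t + n - 1 - -((l : ℤ) - t)) = (m : ℤ) + l + n - 1 by ring] at h
  rw [Ker11_om_succ]
  unfold E1
  linear_combination (om q n t l) * h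

theorem Ker11_H0 (q : ℂ) (r N t : ℕ) (h : Gen q (r + 2) N) (ht : t ≤ N) :
    ∑ l ∈ Finset.range (N + 1), dimA (r + 2) q l * om q (r + 2) t l =
      (qf q (N + r + 1) * qf q (N + r + t + 1)) /
        (qn q ((r : ℤ) + 1) * qf q r ^ 2 * qn q ((t : ℤ) + r + 1) * (qf q N * qf q (N - t))) := by
  induction N with
  | zero =>
    obtain rfl : t = 0 := by omega
    have h1 := h.qf_ne (by omega) (k := r) (by omega)
    have h2 := h.qn_ne (by omega) (a := (r : ℤ) + 1) (by omega) (by push_cast; omega)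
    have e : dimA (r + 2) q 0 = 1 := by
      rw [Ker11_dimA q r 0 h 0 le_rfl]
      have e1 : ((r : ℤ) + 2 * ((0 : ℕ) : ℤ) + 1) = (r : ℤ) + 1 := by push_cast; ring
      rw [e1, div_self h2, qf_zero, mul_one, Nat.add_zero, div_self h1]
      norm_num
    have e2 : (((0 : ℕ) : ℤ) + r + 1) = (r : ℤ) + 1 := by push_cast; ring
    rw [Nat.zero_add, Finset.sum_range_one, Ker11_om_zero, e, e2, qf_zero, Nat.zero_add,
      Nat.add_zero, qf_succ]
    field_simp
  | succ N ih =>
    rw [Finset.sum_range_succ]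
    have h1 := h.qf_ne (by omega) (k := r) (by omega)
    have h2 := h.qn_ne (by omega) (a := (r : ℤ) + 1) (by omega) (by push_cast; omega)
    have h3 := h.qn_ne (by omega) (a := (t : ℤ) + r + 1) (by omega) (by push_cast; omega)
    have h4 := h.qf_ne (by omega) (k := N) (by omega)
    have h5 := h.qf_ne (by omega) (k := N + 1 - t) (by omega)
    have h6 := h.qf_ne (by omega) (k := r + (N + 1)) (by omega)
    have h7 := h.qn_ne (by omega) (a := (N : ℤ) + 1) (by omega) (by push_cast; omega)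
    have hom := Ker11_om_closed q r t (N + 1) ht
    have hom' : om q (r + 2) t (N + 1) =
        qf q (r + (N + 1) + t) * qf q (N + 1) / (qf q (r + (N + 1)) * qf q (N + 1 - t)) := by
      rw [eq_div_iff (mul_ne_zero h6 h5), hom]
    have key : qn q ((N : ℤ) + r + 2) * qn q ((N : ℤ) + r + t + 2) -
        qn q ((N : ℤ) + 1) * qn q ((N : ℤ) + 1 - t) =
        qn q ((r : ℤ) + 2 * ((N + 1 : ℕ) : ℤ) + 1) * qn q ((t : ℤ) + r + 1) := by
      have hh := qn_three_term q h.1 ((N : ℤ) + r + t + 2) ((t : ℤ) - (N + 1)) ((r : ℤ) + 2 * N + 3)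
      have hh2 := qn_three_term q h.1 ((N : ℤ) + r + t + 2) (t : ℤ) (-((N : ℤ) + 1))
      have hh3 := qn_three_term q h.1 ((N : ℤ) + r + t + 2) ((t : ℤ) + r + 1) ((N : ℤ) + 1 - t)
      rw [show ((t : ℤ) + r + 1 + ((N : ℤ) + 1 - t)) = (N : ℤ) + r + 2 by ring,
        show ((N : ℤ) + r + t + 2 + ((N : ℤ) + 1 - t)) = (r : ℤ) + 2 * ((N + 1 : ℕ) : ℤ) + 1 by
          push_cast; ring,
        show ((N : ℤ) + r + t + 2 - ((t : ℤ) + r + 1)) = (N : ℤ) + 1 by ring] at hh3
      linear_combination hh3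
    have f1 : qf q (N + 1 + r + 1) = qf q (r + (N + 1)) * qn q ((N : ℤ) + r + 2) := by
      rw [show N + 1 + r + 1 = (r + (N + 1)) + 1 by ring, qf_succ]
      congr 2
      push_cast
      ring
    have f2 : qf q (N + 1 + r + t + 1) = qf q (r + (N + 1) + t) * qn q ((N : ℤ) + r + t + 2) := by
      rw [show N + 1 + r + t + 1 = (r + (N + 1) + t) + 1 by ring, qf_succ]
      congr 2
      push_cast
      ring
    have f3 : qf q (N + 1) = qf q N * qn q ((N : ℤ) + 1) := qf_succ q N
    rw [Ker11_dimA q r (N + 1) h (N + 1) le_rfl, hom', f1, f2]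
    by_cases htN : t ≤ N
    · rw [ih (h.mono (by omega)) htN]
      have h8 := h.qf_ne (by omega) (k := N - t) (by omega)
      have h9 := h.qn_ne (by omega) (a := (N : ℤ) + 1 - t) (by omega) (by push_cast; omega)
      have f4 : qf q (N + 1 - t) = qf q (N - t) * qn q ((N : ℤ) + 1 - t) := by
        rw [show N + 1 - t = (N - t) + 1 by omega, qf_succ]
        congr 2
        omega
      rw [f4, f3, show N + r + 1 = r + (N + 1) by ring, show N + r + t + 1 = r + (N + 1) + t by ring]
      field_simp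
      linear_combination -(qf q (r + (N + 1) + t)) * key
    · have htN' : t = N + 1 := by omega
      subst htN'
      have hz : ∑ l ∈ Finset.range (N + 1), dimA (r + 2) q l * om q (r + 2) (N + 1) l = 0 := by
        refine Finset.sum_eq_zero fun l hl => ?_
        rw [Ker11_om_lt q _ _ _ (Finset.mem_range.1 hl), mul_zero]
      rw [hz, zero_add, Nat.sub_self, qf_zero, f3]
      have k0 : qn q ((N : ℤ) + 1 - ((N + 1 : ℕ) : ℤ)) = 0 := by
        rw [show ((N : ℤ) + 1 - ((N + 1 : ℕ) : ℤ)) = 0 by push_cast; ring, qn_zero]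
      rw [k0, mul_zero, sub_zero] at key
      field_simp
      linear_combination -(qf q (r + (N + 1) + (N + 1))) * key

theorem H_sum (q : ℂ) (n N j t : ℕ) (h : Gen q n N) (hn : 2 ≤ n) (hj : j ≤ N) :
    ∑ l ∈ Finset.range (N + 1), dimA n q l * om q n t l * ∏ i ∈ Finset.range j, E1 q n (N - i) l =
      if t + j ≤ N then qn q ((n : ℤ) - 1) / qf q (n - 1) ^ 2 *
        (qf q (N + n - 1) / qf q (N - j)) * (qf q (N + n + t - 1) / qf q (N - t - j)) *
        (qf q (t + n - 2) / qf q (t + j + n - 1)) * qf q j else 0 := by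
  obtain ⟨r, rfl⟩ : ∃ r, n = r + 2 := ⟨n - 2, by omega⟩
  have e0 : (((r + 2 : ℕ) : ℤ) - 1) = (r : ℤ) + 1 := by push_cast; ring
  have hr1 := h.qf_ne (by omega) (k := r) (by omega)
  have hr2 := h.qn_ne (by omega) (a := (r : ℤ) + 1) (by omega) (by push_cast; omega)
  rw [e0, show r + 2 - 1 = r + 1 by omega, qf_succ]
  induction j generalizing t with
  | zero =>
    simp only [Finset.range_zero, Finset.prod_empty, mul_one, Nat.add_zero, Nat.sub_zero, qf_zero]
    split_ifs with ht
    · rw [Ker11_H0 q r N t h ht]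
      have h1 := h.qf_ne (by omega) (k := N) (by omega)
      have h2 := h.qf_ne (by omega) (k := N - t) (by omega)
      have h3 := h.qf_ne (by omega) (k := t + r) (by omega)
      have h4 := h.qn_ne (by omega) (a := (t : ℤ) + r + 1) (by omega) (by push_cast; omega)
      rw [show N + (r + 2) - 1 = N + r + 1 by omega, show N + (r + 2) + t - 1 = N + r + t + 1 by omega,
        show t + (r + 2) - 2 = t + r by omega, show t + (r + 2) - 1 = (t + r) + 1 by omega,
        qf_succ q (t + r),
        show (((t + r : ℕ) : ℤ) + 1) = (t : ℤ) + r + 1 by push_cast; ring]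
      field_simp
    · refine Finset.sum_eq_zero fun l hl => ?_
      rw [Ker11_om_lt q _ _ _ (by have := Finset.mem_range.1 hl; omega), mul_zero]
  | succ j ih =>
    have ih1 := ih t (by omega)
    have ih2 := ih (t + 1) (by omega)
    have step : ∑ l ∈ Finset.range (N + 1), dimA (r + 2) q l * om q (r + 2) t l *
          ∏ i ∈ Finset.range (j + 1), E1 q (r + 2) (N - i) l =
        qn q (((N - j : ℕ) : ℤ) - t) * qn q (((N - j : ℕ) : ℤ) + t + ((r + 2 : ℕ) : ℤ) - 1) *
          (∑ l ∈ Finset.range (N + 1), dimA (r + 2) q l * om q (r + 2) t l *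
            ∏ i ∈ Finset.range j, E1 q (r + 2) (N - i) l) -
          ∑ l ∈ Finset.range (N + 1), dimA (r + 2) q l * om q (r + 2) (t + 1) l *
            ∏ i ∈ Finset.range j, E1 q (r + 2) (N - i) l := by
      rw [Finset.mul_sum, ← Finset.sum_sub_distrib]
      refine Finset.sum_congr rfl fun l _ => ?_
      rw [Finset.prod_range_succ]
      have hE := om_E1 q h.1 (r + 2) (N - j) t l
      linear_combination (dimA (r + 2) q l * ∏ i ∈ Finset.range j, E1 q (r + 2) (N - i) l) * hE
    rw [step, ih1, ih2]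
    by_cases c1 : t + j + 1 ≤ N
    · rw [if_pos (show t + j ≤ N by omega), if_pos (show t + 1 + j ≤ N by omega),
        if_pos (show t + (j + 1) ≤ N by omega)]
      have h1 := h.qf_ne (by omega) (k := N - (j + 1)) (by omega)
      have h2 := h.qf_ne (by omega) (k := N - t - (j + 1)) (by omega)
      have h3 := h.qf_ne (by omega) (k := t + j + r + 1) (by omega)
      have h4 := h.qn_ne (by omega) (a := (N : ℤ) - j) (by omega) (by push_cast; omega)
      have h5 := h.qn_ne (by omega) (a := (N : ℤ) - t - j) (by omega) (by push_cast; omega)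
      have h6 := h.qn_ne (by omega) (a := (t : ℤ) + j + r + 2) (by omega) (by push_cast; omega)
      have f1 : qf q (N - j) = qf q (N - (j + 1)) * qn q ((N : ℤ) - j) := by
        rw [show N - j = (N - (j + 1)) + 1 by omega, qf_succ]
        congr 2
        omega
      have f2 : qf q (N - t - j) = qf q (N - t - (j + 1)) * qn q ((N : ℤ) - t - j) := by
        rw [show N - t - j = (N - t - (j + 1)) + 1 by omega, qf_succ]
        congr 2
        omega
      have f3 : qf q (N + (r + 2) + (t + 1) - 1) = qf q (N + r + t + 1) * qn q ((N : ℤ) + r + t + 2) := by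
        rw [show N + (r + 2) + (t + 1) - 1 = (N + r + t + 1) + 1 by omega, qf_succ]
        congr 2
      have f4 : qf q (t + 1 + (r + 2) - 2) = qf q (t + r) * qn q ((t : ℤ) + r + 1) := by
        rw [show t + 1 + (r + 2) - 2 = (t + r) + 1 by omega, qf_succ]
        congr 2
      have f5 : qf q (t + 1 + j + (r + 2) - 1) = qf q (t + j + r + 1) * qn q ((t : ℤ) + j + r + 2) := by
        rw [show t + 1 + j + (r + 2) - 1 = (t + j + r + 1) + 1 by omega, qf_succ]
        congr 2
      have f6 : qf q (t + (j + 1) + (r + 2) - 1) = qf q (t + j + r + 1) * qn q ((t : ℤ) + j + r + 2) := by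
        rw [show t + (j + 1) + (r + 2) - 1 = (t + j + r + 1) + 1 by omega, qf_succ]
        congr 2
      have f7 : qf q (j + 1) = qf q j * qn q ((j : ℤ) + 1) := qf_succ q j
      have g1 : (((N - j : ℕ) : ℤ) - t) = (N : ℤ) - t - j := by omega
      have g2 : (((N - j : ℕ) : ℤ) + t + ((r + 2 : ℕ) : ℤ) - 1) = (N : ℤ) - j + t + r + 1 := by omega
      have key : qn q ((N : ℤ) - j + t + r + 1) * qn q ((t : ℤ) + j + r + 2) -
          qn q ((N : ℤ) + r + t + 2) * qn q ((t : ℤ) + r + 1) =
          qn q ((N : ℤ) - j) * qn q ((j : ℤ) + 1) := by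
        have hh := qn_three_term q h.1 ((N : ℤ) - j + t + r + 1) ((t : ℤ) + r + 1) ((j : ℤ) + 1)
        rw [show ((t : ℤ) + r + 1 + ((j : ℤ) + 1)) = (t : ℤ) + j + r + 2 by ring,
          show ((N : ℤ) - j + t + r + 1 + ((j : ℤ) + 1)) = (N : ℤ) + r + t + 2 by ring,
          show ((N : ℤ) - j + t + r + 1 - ((t : ℤ) + r + 1)) = (N : ℤ) - j by ring] at hh
        linear_combination hh
      rw [f1, f2, f3, f4, f5, f6, f7, g1, g2, show N + (r + 2) + t - 1 = N + r + t + 1 by omega,
        show t + (r + 2) - 2 = t + r by omega, show t + j + (r + 2) - 1 = t + j + r + 1 by omega,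
        show N - (t + 1) - j = N - t - (j + 1) by omega]
      field_simp
      linear_combination (qf q (N + (r + 2) - 1) * qf q (N + r + t + 1) * qf q (t + r) * qf q j) * key
    · rw [if_neg (show ¬ t + 1 + j ≤ N by omega), if_neg (show ¬ t + (j + 1) ≤ N by omega)]
      by_cases c2 : t + j ≤ N
      · rw [if_pos c2, show (((N - j : ℕ) : ℤ) - t) = 0 by omega, qn_zero]
        ring
      · rw [if_neg c2]
        ring

end Pool.Agent.H63.VC11
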