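import Pool.Agent.H63.VC8.Link8

/-!
# Colored `SU(n)` invariants of link diagrams

The `SU(n)` invariants colored by the `N`-th symmetric power `V` of the fundamental representation are
defined here for every oriented link diagram by the usual state sum (Reshetikhin-Turaev): the diagram
is cut by horizontal lines into elementary pieces (minima, maxima and crossings; every diagram can be
drawn such that both strands are oriented upwards at every crossing), and the pieces are sent to
operators between tensor products of `V` (for the strands oriented upwards) and its dual (for the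
strands oriented downwards).

`V` is the part of degree `N` of the algebra with generators `x_0, …, x_{n-1}` and relations
`x_j x_i = q x_i x_j` (`i < j`), on which `U_q(sl_n)` acts. It has the basis
`x_0 ^ (a 0) ⋯ x_{n-1} ^ (a (n-1)) / ([a 0]! ⋯ [a (n-1)]!)`, `a : Fin n → ℕ`, `∑ i, a i = N`, and the
dual representation has the dual basis.
-/

namespace Pool.Agent.H63.VC11

open Pool.Agent.H63.VC7 Pool.Agent.H63.VC8

variable {n : ℕ}

/-- `[k] = {k} / {1} = (q ^ k - q ^ (-k)) / (q - q⁻¹)`. -/
noncomputable def qn (q : ℂ) (k : ℤ) : ℂ := br q k / br q 1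

/-- `[k]! = [1] [2] ⋯ [k]`. -/
noncomputable def qf (q : ℂ) (k : ℕ) : ℂ := ∏ i ∈ Finset.range k, qn q ((i : ℤ) + 1)

/-- The sum of the entries with a smaller index. -/
def lo (a : Fin n → ℕ) (i : Fin n) : ℤ := ∑ j ∈ Finset.Iio i, (a j : ℤ)

/-- The sum of the entries with a larger index. -/
def hi (a : Fin n → ℕ) (i : Fin n) : ℤ := ∑ j ∈ Finset.Ioi i, (a j : ℤ)

/-- The homomorphism `V_N ⊗ V_M → V_{N+1} ⊗ V_{M-1}` (in coordinates) which splits off one generator
at the left side of the second factor and multiplies the first factor with it from the right. -/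
noncomputable def opE (q : ℂ) (ψ : (Fin n → ℕ) × (Fin n → ℕ) → ℂ)
    (x : (Fin n → ℕ) × (Fin n → ℕ)) : ℂ :=
  ∑ i, q ^ (hi x.1 i - hi x.2 i) * qn q (x.1 i) * ψ (x.1 - Pi.single i 1, x.2 + Pi.single i 1)

/-- The homomorphism `V_N ⊗ V_M → V_{N-1} ⊗ V_{M+1}` (in coordinates) which splits off one generator
at the right side of the first factor and multiplies the second factor with it from the left. -/
noncomputable def opF (q : ℂ) (ψ : (Fin n → ℕ) × (Fin n → ℕ) → ℂ)
    (x : (Fin n → ℕ) × (Fin n → ℕ)) : ℂ :=
  ∑ i, q ^ (lo x.2 i - lo x.1 i) * qn q (x.2 i) * ψ (x.1 + Pi.single i 1, x.2 - Pi.single i 1)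

/-- The crossing `V ⊗ V → V ⊗ V` (in coordinates), positive for `e = 1`, negative for `e = -1`: the
formula `∑ k, (-1) ^ (N - k) q ^ (e (k - N)) E ^ k F ^ k / [k]! ^ 2` of Lusztig and
Murakami-Ohtsuki-Yamada. For `N = 1` it is the standard `R`-matrix
`x_i ⊗ x_j ↦ q ^ δ_ij x_j ⊗ x_i + [i > j] (q - q⁻¹) x_i ⊗ x_j`, for `n = 2` the `R`-matrix of the
representation of dimension `N + 1` of `U_q(sl_2)`, see `Pool.Agent.H63.VC11.ChkA11` and
`Pool.Agent.H63.VC11.ChkC11`. -/
noncomputable def opR (q : ℂ) (N : ℕ) (e : ℤ) (ψ : (Fin n → ℕ) × (Fin n → ℕ) → ℂ)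
    (x : (Fin n → ℕ) × (Fin n → ℕ)) : ℂ :=
  ∑ k ∈ Finset.range (N + 1), (-1) ^ (N - k) * q ^ (e * ((k : ℤ) - N)) / qf q k ^ 2 *
    (opE q)^[k] ((opF q)^[k] ψ) x

/-- The eigenvalues of `K_{2ρ}` on `V`. -/
noncomputable def wt (q : ℂ) (a : Fin n → ℕ) : ℂ :=
  q ^ (∑ i : Fin n, (a i : ℤ) * ((n : ℤ) - 1 - 2 * (i : ℕ)))

/-- The elementary pieces of an oriented link diagram, read from bottom to top: minima (`cup`) and
maxima (`cap`) whose left end is oriented upwards and whose right end is oriented downwards (`UD`), or
the other way round (`DU`), and positive and negative crossings of two neighbouring strands which are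
both oriented upwards; `i` is the number of strands to the left. -/
inductive Piece
  | cupUD (i : ℕ)
  | cupDU (i : ℕ)
  | capUD (i : ℕ)
  | capDU (i : ℕ)
  | pos (i : ℕ)
  | neg (i : ℕ)

/-- The operator of a piece. A vector of a tensor product is given by its coordinates, a function of
the list of the indices of the basis vectors. -/
noncomputable def act (q : ℂ) (n N : ℕ) :
    Piece → (List (Fin n → ℕ) → ℂ) → List (Fin n → ℕ) → ℂ
  | .cupUD i, ψ, l => match l.drop i with
    | a :: b :: r => if a = b ∧ ∑ j, a j = N then ψ (l.take i ++ r) else 0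
    | _ => 0
  | .cupDU i, ψ, l => match l.drop i with
    | a :: b :: r => if a = b ∧ ∑ j, a j = N then (wt q a)⁻¹ * ψ (l.take i ++ r) else 0
    | _ => 0
  | .capUD i, ψ, l => ∑ a ∈ Finset.piAntidiag Finset.univ N,
      wt q a * ψ (l.take i ++ a :: a :: l.drop i)
  | .capDU i, ψ, l => ∑ a ∈ Finset.piAntidiag Finset.univ N,
      ψ (l.take i ++ a :: a :: l.drop i)
  | .pos i, ψ, l => match l.drop i with
    | c :: d :: r => opR q N 1 (fun p => ψ (l.take i ++ p.1 :: p.2 :: r)) (c, d)
    | _ => 0
  | .neg i, ψ, l => match l.drop i with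
    | c :: d :: r => opR q N (-1) (fun p => ψ (l.take i ++ p.1 :: p.2 :: r)) (c, d)
    | _ => 0

/-- The operator of a diagram (a list of pieces, beginning with the lowest one). -/
noncomputable def eval (q : ℂ) (n N : ℕ) :
    List Piece → (List (Fin n → ℕ) → ℂ) → List (Fin n → ℕ) → ℂ
  | [], ψ => ψ
  | x :: w, ψ => eval q n N w (act q n N x ψ)

/-- The value of a diagram of a link (without boundary points). -/
noncomputable def bracket (q : ℂ) (n N : ℕ) (w : List Piece) : ℂ :=
  eval q n N w (fun l => if l = [] then 1 else 0) []

/-- The writhe of a diagram: the number of positive crossings minus the number of negative ones. -/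
def writhe : List Piece → ℤ
  | [] => 0
  | .pos _ :: w => 1 + writhe w
  | .neg _ :: w => -1 + writhe w
  | _ :: w => writhe w

/-- The reduced `SU(n)` invariant, colored by the `N`-th symmetric power, of a diagram `w` of an
oriented knot; it is equal to `1` for the unknot. -/
noncomputable def coloredSU (w : List Piece) (n N : ℕ) (q : ℂ) : ℂ :=
  q ^ (-((N : ℤ) * ((N : ℤ) + n - 1) * writhe w)) * bracket q n N w / dimS n N q

/-! ### Diagrams of plumbings of annuli -/

/-- A crossing of the strands `i` (oriented upwards) and `i + 1` (oriented downwards), obtained from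
the crossing `P` by a rotation. -/
def crossUD (P : ℕ → Piece) (i : ℕ) : List Piece :=
  [Piece.cupDU i, P (i + 1), Piece.capUD (i + 2)]

/-- A crossing of the strands `i` (oriented downwards) and `i + 1` (oriented upwards), obtained from
the crossing `P` by a rotation. -/
def crossDU (P : ℕ → Piece) (i : ℕ) : List Piece :=
  [Piece.cupUD (i + 2), P (i + 1), Piece.capDU i]

/-- `r` full twists of the strands `i` and `i + 1` with opposite orientations; `o` says that the
strand `i` is oriented upwards. -/
def twists (r : ℤ) (o : Bool) (i : ℕ) : List Piece :=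
  let P := if 0 < r then Piece.neg else Piece.pos
  (List.replicate r.natAbs
    (if o then crossUD P i ++ crossDU P i else crossDU P i ++ crossUD P i)).flatten

variable {m : ℕ}

/-- The tangle with four ends of the subtree at the node `v`, at the strands `i` and `i + 1`, one
oriented upwards and the other one downwards: the `r v` full twists of the annulus `v`, and the
tangles of the subtrees at the children of `v`, rotated by a quarter turn. The first argument is a
bound for the height of the subtree. -/
def tangle (par : Fin m → Fin (m + 1)) (r : Fin (m + 1) → ℤ) :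
    ℕ → Fin (m + 1) → Bool → ℕ → List Piece
  | 0, _, _, _ => []
  | k + 1, v, true, i => twists (r v) true i ++
      ((List.finRange m).filter (fun j => par j = v)).flatMap (fun j =>
        Piece.cupUD i :: (tangle par r k j.succ false (i + 1) ++ [Piece.capUD (i + 2)]))
  | k + 1, v, false, i => twists (r v) false i ++
      ((List.finRange m).filter (fun j => par j = v)).flatMap (fun j =>
        Piece.cupDU (i + 2) :: (tangle par r k j.succ true (i + 1) ++ [Piece.capDU i]))

/-- The diagram of the plumbing of annuli of a tree with nodes `0, …, m`, edges between `par j` and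
`j + 1`, and `r i` full twists of the annulus `i`: the closure of the tangle of the root `0`. -/
def diagram (par : Fin m → Fin (m + 1)) (r : Fin (m + 1) → ℤ) : List Piece :=
  [Piece.cupUD 0, Piece.cupDU 1] ++ tangle par r (m + 1) 0 true 0 ++
    [Piece.capDU 1, Piece.capUD 0]

end Pool.Agent.H63.VC11
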