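import Pool.Agent.H63.VC11.Idx11

/-! # Sums of `q`-numbers -/

namespace Pool.Agent.H63.VC11

open Pool.Agent.H63.VC7 Pool.Agent.H63.VC8

variable {n : ℕ}

private theorem num11_split (a : Fin n → ℤ) (i : Fin n) :
    ∑ j ∈ Finset.Iio i, a j + a i + ∑ j ∈ Finset.Ioi i, a j = ∑ j, a j := by
  have h : (Finset.univ : Finset (Fin n)) = Finset.Iio i ∪ ({i} ∪ Finset.Ioi i) := by
    ext j
    simp only [Finset.mem_univ, Finset.mem_union, Finset.mem_Iio, Finset.mem_singleton,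
      Finset.mem_Ioi, true_iff]
    exact lt_trichotomy j i
  rw [h, Finset.sum_union, Finset.sum_union, Finset.sum_singleton]
  · ring
  · rw [Finset.disjoint_left]; intro j; simp only [Finset.mem_singleton, Finset.mem_Ioi]; rintro rfl; simp
  · rw [Finset.disjoint_left]; intro j
    simp only [Finset.mem_Iio, Finset.mem_union, Finset.mem_singleton, Finset.mem_Ioi]
    intro h1 h2
    rcases h2 with rfl | h2
    · exact lt_irrefl _ h1
    · exact lt_irrefl _ (h1.trans h2)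

private theorem num11_aux (q : ℂ) (hq : q ≠ 0) : ∀ (n : ℕ) (a : Fin n → ℤ),
    ∑ i, qn q (a i) * q ^ (2 * (∑ j ∈ Finset.Ioi i, a j) + a i - ∑ j, a j) = qn q (∑ i, a i) := by
  intro n
  induction n with
  | zero => intro a; simp [qn_zero]
  | succ n ih =>
    intro a
    rw [Fin.sum_univ_succ, Fin.sum_univ_succ (f := a)]
    have h := ih (fun i => a i.succ)
    obtain ⟨S, hS⟩ : ∃ S : ℤ, S = ∑ i : Fin n, a i.succ := ⟨_, rfl⟩
    rw [← hS] at h ⊢
    rw [Fin.sum_Ioi_zero, ← hS, ← qn_add q hq (a 0) S, ← h, Finset.mul_sum]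
    congr 1
    · rw [mul_comm]
      congr 2
      ring
    · refine Finset.sum_congr rfl fun i _ => ?_
      rw [Fin.sum_Ioi_succ, mul_left_comm, ← zpow_add₀ hq]
      congr 2
      ring

theorem sum_int (q : ℂ) (hq : q ≠ 0) (a : Fin n → ℤ) :
    ∑ i, qn q (a i) * q ^ (∑ j ∈ Finset.Ioi i, a j - ∑ j ∈ Finset.Iio i, a j) =
      qn q (∑ i, a i) := by
  rw [← num11_aux q hq n a]
  refine Finset.sum_congr rfl fun i _ => ?_
  congr 2
  have := num11_split a i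
  linarith

theorem sum_int' (q : ℂ) (hq : q ≠ 0) (a : Fin n → ℤ) :
    ∑ i, qn q (a i) * q ^ (∑ j ∈ Finset.Iio i, a j - ∑ j ∈ Finset.Ioi i, a j) =
      qn q (∑ i, a i) := by
  have h := sum_int q hq (fun i => -a i)
  simp only [Finset.sum_neg_distrib, qn_neg] at h
  have h2 : ∑ i, -qn q (a i) * q ^ (-∑ j ∈ Finset.Ioi i, a j - -∑ j ∈ Finset.Iio i, a j) =
      -∑ i, qn q (a i) * q ^ (∑ j ∈ Finset.Iio i, a j - ∑ j ∈ Finset.Ioi i, a j) := by
    rw [← Finset.sum_neg_distrib]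
    refine Finset.sum_congr rfl fun i _ => ?_
    rw [neg_mul]
    congr 3
    ring
  rw [h2] at h
  exact neg_injective h

theorem sum_hi_lo (q : ℂ) (hq : q ≠ 0) (a : Fin n → ℕ) :
    ∑ i, qn q (a i) * q ^ (hi a i - lo a i) = qn q ((∑ i, a i : ℕ) : ℤ) := by
  push_cast
  exact sum_int q hq (fun i => (a i : ℤ))

theorem sum_lo_hi (q : ℂ) (hq : q ≠ 0) (a : Fin n → ℕ) :
    ∑ i, qn q (a i) * q ^ (lo a i - hi a i) = qn q ((∑ i, a i : ℕ) : ℤ) := by
  push_cast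
  exact sum_int' q hq (fun i => (a i : ℤ))

private theorem num11_hi (a : Fin n → ℕ) (i : Fin n) :
    ∑ j ∈ Finset.Ioi i, ((a j : ℤ) + 1) = hi a i + ((n : ℤ) - 1 - (i : ℕ)) := by
  rw [Finset.sum_add_distrib, Finset.sum_const, Fin.card_Ioi]
  unfold hi
  have := i.2
  simp only [nsmul_eq_mul, mul_one]
  congr 1
  omega

private theorem num11_lo (a : Fin n → ℕ) (i : Fin n) :
    ∑ j ∈ Finset.Iio i, ((a j : ℤ) + 1) = lo a i + (i : ℕ) := by
  rw [Finset.sum_add_distrib, Finset.sum_const, Fin.card_Iio]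
  unfold lo
  simp only [nsmul_eq_mul, mul_one]

private theorem num11_tot (a : Fin n → ℕ) :
    ∑ i, ((a i : ℤ) + 1) = ((∑ i, a i : ℕ) : ℤ) + n := by
  rw [Finset.sum_add_distrib, Finset.sum_const, Finset.card_univ, Fintype.card_fin]
  push_cast
  simp only [nsmul_eq_mul, mul_one]

theorem sum_hi_lo_succ (q : ℂ) (hq : q ≠ 0) (a : Fin n → ℕ) :
    ∑ i : Fin n, q ^ ((n : ℤ) - 1 - 2 * (i : ℕ)) * (qn q ((a i : ℤ) + 1) * q ^ (hi a i - lo a i)) =
      qn q (((∑ i, a i : ℕ) : ℤ) + n) := by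
  rw [← num11_tot, ← sum_int q hq]
  refine Finset.sum_congr rfl fun i _ => ?_
  rw [num11_hi, num11_lo, mul_left_comm, ← zpow_add₀ hq]
  congr 2
  ring

theorem sum_lo_hi_succ (q : ℂ) (hq : q ≠ 0) (a : Fin n → ℕ) :
    ∑ i : Fin n, (q ^ ((n : ℤ) - 1 - 2 * (i : ℕ)))⁻¹ *
      (qn q ((a i : ℤ) + 1) * q ^ (lo a i - hi a i)) = qn q (((∑ i, a i : ℕ) : ℤ) + n) := by
  rw [← num11_tot, ← sum_int' q hq]
  refine Finset.sum_congr rfl fun i _ => ?_
  rw [num11_hi, num11_lo, ← zpow_neg, mul_left_comm, ← zpow_add₀ hq]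
  congr 2
  ring

end Pool.Agent.H63.VC11
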