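import Pool.Agent.H63.VC11.Num11

/-! # Operators on functions of two indices -/

namespace Pool.Agent.H63.VC11

open Pool.Agent.H63.VC7 Pool.Agent.H63.VC8

variable {n : ℕ}

/-- Functions of two indices. -/
abbrev Fn2 (n : ℕ) : Type := (Fin n → ℕ) × (Fin n → ℕ) → ℂ

/-- `opE` as a linear map. -/
noncomputable def Eo (q : ℂ) (n : ℕ) : Module.End ℂ (Fn2 n) where
  toFun := opE q
  map_add' ψ φ := by
    funext x
    simp only [opE, Pi.add_apply, mul_add, Finset.sum_add_distrib]
  map_smul' c ψ := by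
    funext x
    simp only [opE, Pi.smul_apply, smul_eq_mul, RingHom.id_apply, Finset.mul_sum]
    exact Finset.sum_congr rfl fun i _ => by ring

/-- `opF` as a linear map. -/
noncomputable def Fo (q : ℂ) (n : ℕ) : Module.End ℂ (Fn2 n) where
  toFun := opF q
  map_add' ψ φ := by
    funext x
    simp only [opF, Pi.add_apply, mul_add, Finset.sum_add_distrib]
  map_smul' c ψ := by
    funext x
    simp only [opF, Pi.smul_apply, smul_eq_mul, RingHom.id_apply, Finset.mul_sum]
    exact Finset.sum_congr rfl fun i _ => by ring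

theorem Eo_apply (q : ℂ) (ψ : Fn2 n) : Eo q n ψ = opE q ψ := rfl

theorem Fo_apply (q : ℂ) (ψ : Fn2 n) : Fo q n ψ = opF q ψ := rfl

theorem Eo_pow (q : ℂ) (k : ℕ) (ψ : Fn2 n) : (Eo q n ^ k) ψ = (opE q)^[k] ψ := by
  rw [Module.End.pow_apply]; rfl

theorem Fo_pow (q : ℂ) (k : ℕ) (ψ : Fn2 n) : (Fo q n ^ k) ψ = (opF q)^[k] ψ := by
  rw [Module.End.pow_apply]; rfl

/-- Multiplication of the first factor from the left. -/
noncomputable def XL1 (q : ℂ) (i : Fin n) : Module.End ℂ (Fn2 n) where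
  toFun ψ x := qn q (x.1 i) * q ^ (lo x.1 i) * ψ (x.1 - Pi.single i 1, x.2)
  map_add' ψ φ := by funext x; simp only [Pi.add_apply]; ring
  map_smul' c ψ := by funext x; simp only [Pi.smul_apply, smul_eq_mul, RingHom.id_apply]; ring

/-- Splitting off a generator at the left of the first factor. -/
noncomputable def DL1 (q : ℂ) (i : Fin n) : Module.End ℂ (Fn2 n) where
  toFun ψ x := q ^ (-(hi x.1 i)) * ψ (x.1 + Pi.single i 1, x.2)
  map_add' ψ φ := by funext x; simp only [Pi.add_apply]; ring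
  map_smul' c ψ := by funext x; simp only [Pi.smul_apply, smul_eq_mul, RingHom.id_apply]; ring

/-- Multiplication of the second factor from the right. -/
noncomputable def XR2 (q : ℂ) (i : Fin n) : Module.End ℂ (Fn2 n) where
  toFun ψ x := qn q (x.2 i) * q ^ (hi x.2 i) * ψ (x.1, x.2 - Pi.single i 1)
  map_add' ψ φ := by funext x; simp only [Pi.add_apply]; ring
  map_smul' c ψ := by funext x; simp only [Pi.smul_apply, smul_eq_mul, RingHom.id_apply]; ring

/-- Splitting off a generator at the right of the second factor. -/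
noncomputable def DR2 (q : ℂ) (i : Fin n) : Module.End ℂ (Fn2 n) where
  toFun ψ x := q ^ (-(lo x.2 i)) * ψ (x.1, x.2 + Pi.single i 1)
  map_add' ψ φ := by funext x; simp only [Pi.add_apply]; ring
  map_smul' c ψ := by funext x; simp only [Pi.smul_apply, smul_eq_mul, RingHom.id_apply]; ring

private theorem Ops11_hi_sub (a : Fin n → ℕ) {i : Fin n} (h : a i ≠ 0) :
    hi (a - Pi.single i 1) i = hi a i := by
  obtain ⟨b, rfl⟩ := exists_add h
  rw [add_sub_single, hi_add_self]

private theorem Ops11_lo_sub (a : Fin n → ℕ) {i : Fin n} (h : a i ≠ 0) :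
    lo (a - Pi.single i 1) i = lo a i := by
  obtain ⟨b, rfl⟩ := exists_add h
  rw [add_sub_single, lo_add_self]

private theorem Ops11_swap (a : Fin n → ℕ) (i j : Fin n) :
    a + Pi.single i 1 + Pi.single j 1 = a + Pi.single j 1 + Pi.single i 1 := by
  rw [add_assoc, add_comm (Pi.single i 1), ← add_assoc]

private theorem Ops11_termR (q : ℂ) (hq : q ≠ 0) (X : (Fin n → ℕ) → ℂ) (L : ℤ) (d : Fin n → ℕ)
    (i j : Fin n) :
    qn q (d i) * q ^ (hi d i) * (q ^ (lo (d - Pi.single i 1) j - L) *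
      qn q ((d - Pi.single i 1 : Fin n → ℕ) j) * X (d - Pi.single i 1 - Pi.single j 1)) =
    q ^ (lo d j - L) * qn q (d j) * (qn q ((d - Pi.single j 1 : Fin n → ℕ) i) *
      q ^ (hi (d - Pi.single j 1) i) * X (d - Pi.single j 1 - Pi.single i 1)) := by
  by_cases hi0 : d i = 0
  · have h1 : (d - Pi.single j 1 : Fin n → ℕ) i = 0 := by
      rw [Pi.sub_apply, hi0, Nat.zero_sub]
    rw [hi0, h1, Nat.cast_zero, qn_zero, zero_mul, zero_mul, zero_mul, zero_mul, mul_zero]
  · obtain ⟨a, ha⟩ := exists_add hi0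
    rw [ha, add_sub_single, hi_add_self]
    by_cases hij : j = i
    · rw [hij, add_sub_single, lo_add_self]
      ring
    · rw [lo_add, add_single_ne a hij]
      by_cases hj0 : a j = 0
      · rw [hj0, Nat.cast_zero, qn_zero, mul_zero, zero_mul, mul_zero, mul_zero, zero_mul]
      · obtain ⟨b, hb⟩ := exists_add hj0
        rw [hb, add_sub_single, Ops11_swap b j i, add_sub_single, add_sub_single, hi_add_self,
          hi_add, add_single_ne (b + Pi.single i 1) (Ne.symm hij), lo_add_self]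
        have e1 : q ^ (hi b i + if i < j then 1 else 0) * q ^ (lo b j - L) =
            q ^ ((lo b j + if i < j then 1 else 0) - L) * q ^ (hi b i) := by
          rw [← zpow_add₀ hq, ← zpow_add₀ hq]
          congr 1
          ring
        generalize q ^ (hi b i + if i < j then 1 else 0) = A1 at e1 ⊢
        generalize q ^ (lo b j - L) = A2 at e1 ⊢
        generalize q ^ ((lo b j + if i < j then 1 else 0) - L) = A3 at e1 ⊢
        generalize q ^ (hi b i) = A4 at e1 ⊢
        generalize qn q ((b + Pi.single i 1 : Fin n → ℕ) i) = B1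
        generalize qn q ((b + Pi.single j 1 : Fin n → ℕ) j) = B2
        linear_combination (B1 * B2 * X b) * e1

private theorem Ops11_Fo (q : ℂ) (ψ : Fn2 n) (c d : Fin n → ℕ) : Fo q n ψ (c, d) =
    ∑ i, q ^ (lo d i - lo c i) * qn q (d i) * ψ (c + Pi.single i 1, d - Pi.single i 1) := rfl

private theorem Ops11_Eo (q : ℂ) (ψ : Fn2 n) (c d : Fin n → ℕ) : Eo q n ψ (c, d) =
    ∑ i, q ^ (hi c i - hi d i) * qn q (c i) * ψ (c - Pi.single i 1, d + Pi.single i 1) := rfl

private theorem Ops11_XR2 (q : ℂ) (i : Fin n) (ψ : Fn2 n) (c d : Fin n → ℕ) : XR2 q i ψ (c, d) =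
    qn q (d i) * q ^ (hi d i) * ψ (c, d - Pi.single i 1) := rfl

private theorem Ops11_XL1 (q : ℂ) (i : Fin n) (ψ : Fn2 n) (c d : Fin n → ℕ) : XL1 q i ψ (c, d) =
    qn q (c i) * q ^ (lo c i) * ψ (c - Pi.single i 1, d) := rfl

theorem XR2_F (q : ℂ) (hq : q ≠ 0) (i : Fin n) : XR2 q i * Fo q n = Fo q n * XR2 q i := by
  refine LinearMap.ext fun ψ => funext fun x => ?_
  obtain ⟨c, d⟩ := x
  rw [Module.End.mul_apply, Module.End.mul_apply, Ops11_XR2, Ops11_Fo, Ops11_Fo, Finset.mul_sum]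
  refine Finset.sum_congr rfl fun j _ => ?_
  rw [Ops11_XR2]
  exact Ops11_termR q hq (fun e => ψ (c + Pi.single j 1, e)) (lo c j) d i j

theorem DR2_E (q : ℂ) (hq : q ≠ 0) (i : Fin n) : DR2 q i * Eo q n = Eo q n * DR2 q i := by
  ext ψ x
  obtain ⟨c, d⟩ := x
  change q ^ (-(lo d i)) * (∑ j, q ^ (hi c j - hi (d + Pi.single i 1) j) *
      qn q (c j) * ψ (c - Pi.single j 1, d + Pi.single i 1 + Pi.single j 1)) =
    ∑ j, q ^ (hi c j - hi d j) * qn q (c j) *
      (q ^ (-(lo (d + Pi.single j 1) i)) * ψ (c - Pi.single j 1, d + Pi.single j 1 + Pi.single i 1))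
  rw [Finset.mul_sum]
  refine Finset.sum_congr rfl fun j _ => ?_
  rw [Ops11_swap d i j, hi_add, lo_add]
  have e1 : q ^ (-(lo d i)) * q ^ (hi c j - (hi d j + if j < i then 1 else 0)) =
      q ^ (hi c j - hi d j) * q ^ (-(lo d i + if j < i then 1 else 0)) := by
    rw [← zpow_add₀ hq, ← zpow_add₀ hq]
    congr 1
    ring
  linear_combination (qn q (c j) * ψ (c - Pi.single j 1, d + Pi.single j 1 + Pi.single i 1)) * e1

private theorem Ops11_termL (q : ℂ) (hq : q ≠ 0) (X : (Fin n → ℕ) → ℂ) (L : ℤ) (d : Fin n → ℕ)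
    (i j : Fin n) :
    qn q (d i) * q ^ (lo d i) * (q ^ (hi (d - Pi.single i 1) j - L) *
      qn q ((d - Pi.single i 1 : Fin n → ℕ) j) * X (d - Pi.single i 1 - Pi.single j 1)) =
    q ^ (hi d j - L) * qn q (d j) * (qn q ((d - Pi.single j 1 : Fin n → ℕ) i) *
      q ^ (lo (d - Pi.single j 1) i) * X (d - Pi.single j 1 - Pi.single i 1)) := by
  by_cases hi0 : d i = 0
  · have h1 : (d - Pi.single j 1 : Fin n → ℕ) i = 0 := by
      rw [Pi.sub_apply, hi0, Nat.zero_sub]
    rw [hi0, h1, Nat.cast_zero, qn_zero, zero_mul, zero_mul, zero_mul, zero_mul, mul_zero]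
  · obtain ⟨a, ha⟩ := exists_add hi0
    rw [ha, add_sub_single, lo_add_self]
    by_cases hij : j = i
    · rw [hij, add_sub_single, hi_add_self]
      ring
    · rw [hi_add, add_single_ne a hij]
      by_cases hj0 : a j = 0
      · rw [hj0, Nat.cast_zero, qn_zero, mul_zero, zero_mul, mul_zero, mul_zero, zero_mul]
      · obtain ⟨b, hb⟩ := exists_add hj0
        rw [hb, add_sub_single, Ops11_swap b j i, add_sub_single, add_sub_single, lo_add_self,
          lo_add, add_single_ne (b + Pi.single i 1) (Ne.symm hij), hi_add_self]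
        have e1 : q ^ (lo b i + if j < i then 1 else 0) * q ^ (hi b j - L) =
            q ^ ((hi b j + if j < i then 1 else 0) - L) * q ^ (lo b i) := by
          rw [← zpow_add₀ hq, ← zpow_add₀ hq]
          congr 1
          ring
        generalize q ^ (lo b i + if j < i then 1 else 0) = A1 at e1 ⊢
        generalize q ^ (hi b j - L) = A2 at e1 ⊢
        generalize q ^ ((hi b j + if j < i then 1 else 0) - L) = A3 at e1 ⊢
        generalize q ^ (lo b i) = A4 at e1 ⊢
        generalize qn q ((b + Pi.single i 1 : Fin n → ℕ) i) = B1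
        generalize qn q ((b + Pi.single j 1 : Fin n → ℕ) j) = B2
        linear_combination (B1 * B2 * X b) * e1

theorem XL1_E (q : ℂ) (hq : q ≠ 0) (i : Fin n) : XL1 q i * Eo q n = Eo q n * XL1 q i := by
  refine LinearMap.ext fun ψ => funext fun x => ?_
  obtain ⟨d, c⟩ := x
  rw [Module.End.mul_apply, Module.End.mul_apply, Ops11_XL1, Ops11_Eo, Ops11_Eo, Finset.mul_sum]
  refine Finset.sum_congr rfl fun j _ => ?_
  rw [Ops11_XL1]
  exact Ops11_termL q hq (fun e => ψ (e, c + Pi.single j 1)) (hi c j) d i j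

theorem DL1_F (q : ℂ) (hq : q ≠ 0) (i : Fin n) : DL1 q i * Fo q n = Fo q n * DL1 q i := by
  ext ψ x
  obtain ⟨d, c⟩ := x
  change q ^ (-(hi d i)) * (∑ j, q ^ (lo c j - lo (d + Pi.single i 1) j) *
      qn q (c j) * ψ (d + Pi.single i 1 + Pi.single j 1, c - Pi.single j 1)) =
    ∑ j, q ^ (lo c j - lo d j) * qn q (c j) *
      (q ^ (-(hi (d + Pi.single j 1) i)) * ψ (d + Pi.single j 1 + Pi.single i 1, c - Pi.single j 1))
  rw [Finset.mul_sum]
  refine Finset.sum_congr rfl fun j _ => ?_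
  rw [Ops11_swap d i j, lo_add, hi_add]
  have e1 : q ^ (-(hi d i)) * q ^ (lo c j - (lo d j + if i < j then 1 else 0)) =
      q ^ (lo c j - lo d j) * q ^ (-(hi d i + if i < j then 1 else 0)) := by
    rw [← zpow_add₀ hq, ← zpow_add₀ hq]
    congr 1
    ring
  linear_combination (qn q (c j) * ψ (d + Pi.single j 1 + Pi.single i 1, c - Pi.single j 1)) * e1

theorem sum_DR2_XR2 (q : ℂ) (hq : q ≠ 0) (ψ : Fn2 n) (x : (Fin n → ℕ) × (Fin n → ℕ)) :
    ∑ i : Fin n, q ^ ((n : ℤ) - 1 - 2 * (i : ℕ)) * DR2 q i (XR2 q i ψ) x =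
      qn q (((∑ i, x.2 i : ℕ) : ℤ) + n) * ψ x := by
  obtain ⟨c, d⟩ := x
  rw [← sum_hi_lo_succ q hq d, Finset.sum_mul]
  refine Finset.sum_congr rfl fun i _ => ?_
  change q ^ ((n : ℤ) - 1 - 2 * (i : ℕ)) * (q ^ (-(lo d i)) *
    (qn q ((d + Pi.single i 1 : Fin n → ℕ) i) * q ^ (hi (d + Pi.single i 1) i) *
      ψ (c, d + Pi.single i 1 - Pi.single i 1))) = _
  have e1 : q ^ (hi d i - lo d i) = q ^ (-(lo d i)) * q ^ (hi d i) := by
    rw [← zpow_add₀ hq]
    congr 1
    ring
  rw [add_sub_single, hi_add_self, add_single_self, e1]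
  push_cast
  ring

theorem sum_XL1_DL1 (q : ℂ) (hq : q ≠ 0) (ψ : Fn2 n) (x : (Fin n → ℕ) × (Fin n → ℕ)) :
    ∑ i : Fin n, XL1 q i (DL1 q i ψ) x = qn q ((∑ i, x.1 i : ℕ) : ℤ) * ψ x := by
  obtain ⟨c, d⟩ := x
  rw [← sum_lo_hi q hq c, Finset.sum_mul]
  refine Finset.sum_congr rfl fun i _ => ?_
  change qn q (c i) * q ^ (lo c i) * (q ^ (-(hi (c - Pi.single i 1) i)) *
    ψ (c - Pi.single i 1 + Pi.single i 1, d)) = _
  by_cases h : c i = 0
  · rw [h, Nat.cast_zero, qn_zero]; ring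
  · rw [Ops11_hi_sub c h, sub_add_single h, sub_eq_add_neg, zpow_add₀ hq]
    ring

theorem sum_XR2_DR2 (q : ℂ) (hq : q ≠ 0) (ψ : Fn2 n) (x : (Fin n → ℕ) × (Fin n → ℕ)) :
    ∑ i : Fin n, XR2 q i (DR2 q i ψ) x = qn q ((∑ i, x.2 i : ℕ) : ℤ) * ψ x := by
  obtain ⟨d, c⟩ := x
  rw [← sum_hi_lo q hq c, Finset.sum_mul]
  refine Finset.sum_congr rfl fun i _ => ?_
  change qn q (c i) * q ^ (hi c i) * (q ^ (-(lo (c - Pi.single i 1) i)) *
    ψ (d, c - Pi.single i 1 + Pi.single i 1)) = _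
  by_cases h : c i = 0
  · rw [h, Nat.cast_zero, qn_zero]; ring
  · rw [Ops11_lo_sub c h, sub_add_single h, sub_eq_add_neg, zpow_add₀ hq]
    ring

theorem sum_DL1_XL1 (q : ℂ) (hq : q ≠ 0) (ψ : Fn2 n) (x : (Fin n → ℕ) × (Fin n → ℕ)) :
    ∑ i : Fin n, (q ^ ((n : ℤ) - 1 - 2 * (i : ℕ)))⁻¹ * DL1 q i (XL1 q i ψ) x =
      qn q (((∑ i, x.1 i : ℕ) : ℤ) + n) * ψ x := by
  obtain ⟨d, c⟩ := x
  rw [← sum_lo_hi_succ q hq d, Finset.sum_mul]
  refine Finset.sum_congr rfl fun i _ => ?_
  change (q ^ ((n : ℤ) - 1 - 2 * (i : ℕ)))⁻¹ * (q ^ (-(hi d i)) *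
    (qn q ((d + Pi.single i 1 : Fin n → ℕ) i) * q ^ (lo (d + Pi.single i 1) i) *
      ψ (d + Pi.single i 1 - Pi.single i 1, c))) = _
  have e1 : q ^ (lo d i - hi d i) = q ^ (-(hi d i)) * q ^ (lo d i) := by
    rw [← zpow_add₀ hq]
    congr 1
    ring
  rw [add_sub_single, lo_add_self, add_single_self, e1]
  push_cast
  ring

private theorem Ops11_diff (q : ℂ) (hq : q ≠ 0) (x y : ℤ) :
    qn q x * qn q (y + 1) - qn q y * qn q (x + 1) = qn q (x - y) := by
  by_cases h : br q 1 = 0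
  · have h1 : ∀ a, qn q a = 0 := fun a => by unfold qn; rw [h, div_zero]
    rw [h1, h1 (x - y), h1 y]
    ring
  · have h1 := qn_three_term q hq x y 1
    rw [qn_one q h] at h1
    linear_combination h1

theorem EF_comm_apply (q : ℂ) (hq : q ≠ 0) (ψ : Fn2 n) (x : (Fin n → ℕ) × (Fin n → ℕ)) :
    Eo q n (Fo q n ψ) x = Fo q n (Eo q n ψ) x +
      qn q (((∑ i, x.1 i : ℕ) : ℤ) - ((∑ i, x.2 i : ℕ) : ℤ)) * ψ x := by
  obtain ⟨c, d⟩ := x
  have h0 : (((∑ i, c i : ℕ) : ℤ) - ((∑ i, d i : ℕ) : ℤ)) = ∑ i, ((c i : ℤ) - (d i : ℤ)) := by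
    push_cast
    rw [Finset.sum_sub_distrib]
  change (∑ i, q ^ (hi c i - hi d i) * qn q (c i) * (∑ j, q ^ (lo (d + Pi.single i 1) j -
      lo (c - Pi.single i 1) j) * qn q ((d + Pi.single i 1 : Fin n → ℕ) j) *
        ψ (c - Pi.single i 1 + Pi.single j 1, d + Pi.single i 1 - Pi.single j 1))) =
    (∑ j, q ^ (lo d j - lo c j) * qn q (d j) * (∑ i, q ^ (hi (c + Pi.single j 1) i -
      hi (d - Pi.single j 1) i) * qn q ((c + Pi.single j 1 : Fin n → ℕ) i) *
        ψ (c + Pi.single j 1 - Pi.single i 1, d - Pi.single j 1 + Pi.single i 1))) +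
      qn q (((∑ i, c i : ℕ) : ℤ) - ((∑ i, d i : ℕ) : ℤ)) * ψ (c, d)
  rw [h0, ← sum_int q hq (fun i => (c i : ℤ) - (d i : ℤ))]
  simp only [Finset.mul_sum, Finset.sum_mul]
  conv_rhs =>
    arg 1
    rw [Finset.sum_comm]
  rw [← Finset.sum_add_distrib]
  refine Finset.sum_congr rfl fun i _ => ?_
  rw [← sub_eq_iff_eq_add', ← Finset.sum_sub_distrib, Finset.sum_eq_single i]
  · -- the diagonal terms
    have e1 : q ^ (hi c i - hi d i) * qn q (c i) * (q ^ (lo (d + Pi.single i 1) i -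
        lo (c - Pi.single i 1) i) * qn q ((d + Pi.single i 1 : Fin n → ℕ) i) *
          ψ (c - Pi.single i 1 + Pi.single i 1, d + Pi.single i 1 - Pi.single i 1)) =
        q ^ (hi c i - hi d i + (lo d i - lo c i)) * (qn q (c i) * qn q ((d i : ℤ) + 1)) *
          ψ (c, d) := by
      rw [add_sub_single, lo_add_self, add_single_self, zpow_add₀ hq]
      by_cases h : c i = 0
      · rw [h, Nat.cast_zero, qn_zero]; ring
      · rw [Ops11_lo_sub c h, sub_add_single h]
        push_cast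
        ring
    have e2 : q ^ (lo d i - lo c i) * qn q (d i) * (q ^ (hi (c + Pi.single i 1) i -
        hi (d - Pi.single i 1) i) * qn q ((c + Pi.single i 1 : Fin n → ℕ) i) *
          ψ (c + Pi.single i 1 - Pi.single i 1, d - Pi.single i 1 + Pi.single i 1)) =
        q ^ (hi c i - hi d i + (lo d i - lo c i)) * (qn q (d i) * qn q ((c i : ℤ) + 1)) *
          ψ (c, d) := by
      rw [add_sub_single, hi_add_self, add_single_self, zpow_add₀ hq]
      by_cases h : d i = 0
      · rw [h, Nat.cast_zero, qn_zero]; ring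
      · rw [Ops11_hi_sub d h, sub_add_single h]
        push_cast
        ring
    rw [e1, e2, ← Ops11_diff q hq (c i) (d i)]
    have e3 : (∑ j ∈ Finset.Ioi i, ((c j : ℤ) - (d j : ℤ)) -
        ∑ j ∈ Finset.Iio i, ((c j : ℤ) - (d j : ℤ))) = hi c i - hi d i + (lo d i - lo c i) := by
      unfold hi lo
      rw [Finset.sum_sub_distrib, Finset.sum_sub_distrib]
      ring
    rw [e3]
    ring
  · intro j _ hji
    rw [sub_eq_zero]
    have hij : i ≠ j := Ne.symm hji
    by_cases hc0 : c i = 0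
    · rw [add_single_ne c hij, hc0, Nat.cast_zero, qn_zero]
      ring
    · by_cases hd0 : d j = 0
      · rw [add_single_ne d hji, hd0, Nat.cast_zero, qn_zero]
        ring
      · obtain ⟨c, rfl⟩ := exists_add hc0
        obtain ⟨d, rfl⟩ := exists_add hd0
        rw [add_sub_single, add_sub_single, Ops11_swap d j i, add_sub_single, Ops11_swap c i j,
          add_sub_single]
        have h2 : (d + Pi.single i 1 + Pi.single j 1 : Fin n → ℕ) j =
            (d + Pi.single j 1 : Fin n → ℕ) j := by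
          rw [add_single_self, add_single_self, add_single_ne d hji]
        have h3 : (c + Pi.single j 1 + Pi.single i 1 : Fin n → ℕ) i =
            (c + Pi.single i 1 : Fin n → ℕ) i := by
          rw [add_single_self, add_single_self, add_single_ne c hij]
        have e1 : q ^ (hi (c + Pi.single i 1) i - hi (d + Pi.single j 1) i) *
            q ^ (lo (d + Pi.single i 1 + Pi.single j 1) j - lo c j) =
            q ^ (lo (d + Pi.single j 1) j - lo (c + Pi.single i 1) j) *
            q ^ (hi (c + Pi.single j 1 + Pi.single i 1) i - hi d i) := by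
          rw [← zpow_add₀ hq, ← zpow_add₀ hq]
          congr 1
          simp only [hi_add_self, lo_add_self, hi_add, lo_add]
          ring
        rw [h2, h3]
        linear_combination (qn q ((c + Pi.single i 1 : Fin n → ℕ) i) *
          qn q ((d + Pi.single j 1 : Fin n → ℕ) j) * ψ (c + Pi.single j 1, d + Pi.single i 1)) * e1
  · intro h; exact absurd (Finset.mem_univ _) h

end Pool.Agent.H63.VC11
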