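import Pool.Agent.H63.VC11.Idx11

/-! # `q`-binomial coefficients -/

namespace Pool.Agent.H63.VC11

open Pool.Agent.H63.VC7 Pool.Agent.H63.VC8

/-- The (symmetric) `q`-binomial coefficients. -/
noncomputable def qb (q : ℂ) : ℕ → ℕ → ℂ
  | _, 0 => 1
  | 0, _ + 1 => 0
  | m + 1, k + 1 => q ^ ((k : ℤ) + 1) * qb q m (k + 1) + q ^ (-((m : ℤ) - k)) * qb q m k

theorem qb_zero_right (q : ℂ) (m : ℕ) : qb q m 0 = 1 := by cases m <;> rfl

private theorem qb11_succ (q : ℂ) (m k : ℕ) : qb q (m + 1) (k + 1) =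
    q ^ ((k : ℤ) + 1) * qb q m (k + 1) + q ^ (-((m : ℤ) - k)) * qb q m k := rfl

theorem qb_lt (q : ℂ) (m k : ℕ) (h : m < k) : qb q m k = 0 := by
  induction m generalizing k with
  | zero =>
    obtain ⟨j, rfl⟩ : ∃ j, k = j + 1 := ⟨k - 1, by omega⟩
    rfl
  | succ m ih =>
    obtain ⟨j, rfl⟩ : ∃ j, k = j + 1 := ⟨k - 1, by omega⟩
    rw [qb11_succ, ih (j + 1) (by omega), ih j (by omega), mul_zero, mul_zero, add_zero]

theorem qb_self (q : ℂ) (m : ℕ) : qb q m m = 1 := by
  induction m with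
  | zero => rfl
  | succ m ih =>
    rw [qb11_succ, ih, qb_lt q m (m + 1) (by omega), sub_self, neg_zero, zpow_zero, mul_zero,
      zero_add, one_mul]

theorem qb_fac (q : ℂ) (hq : q ≠ 0) (m k : ℕ) (h : k ≤ m) :
    qb q m k * (qf q k * qf q (m - k)) = qf q m := by
  induction m generalizing k with
  | zero =>
    obtain rfl : k = 0 := by omega
    rw [qb_zero_right, qf_zero, one_mul, one_mul]
  | succ m ih =>
    rcases Nat.eq_zero_or_pos k with rfl | hk
    · rw [qb_zero_right, qf_zero, one_mul, one_mul, Nat.sub_zero]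
    · obtain ⟨j, rfl⟩ : ∃ j, k = j + 1 := ⟨k - 1, by omega⟩
      rcases Nat.lt_or_ge j m with hj | hj
      · have e1 : m + 1 - (j + 1) = (m - (j + 1)) + 1 := by omega
        have e2 : m - j = (m - (j + 1)) + 1 := by omega
        have e3 : (((m - (j + 1) : ℕ) : ℤ) + 1) = (m : ℤ) - j := by omega
        have i1 := ih (j + 1) (by omega)
        have i2 := ih j (by omega)
        rw [e2, qf_succ, e3] at i2
        have ha := qn_add q hq ((m : ℤ) - j) ((j : ℤ) + 1)
        have e4 : (m : ℤ) - j + (j + 1) = m + 1 := by ring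
        rw [e4] at ha
        rw [qb11_succ, e1, qf_succ, qf_succ, e3, qf_succ q m, ← ha]
        rw [qf_succ] at i1
        linear_combination (q ^ ((j : ℤ) + 1) * qn q ((m : ℤ) - j)) * i1 +
          (q ^ (-((m : ℤ) - j)) * qn q ((j : ℤ) + 1)) * i2
      · obtain rfl : j = m := by omega
        rw [qb_self, Nat.sub_self, qf_zero, one_mul, mul_one]

/-- The other recursion. -/
theorem qb_succ' (q : ℂ) (hq : q ≠ 0) (h1 : br q 1 ≠ 0) (m k : ℕ)
    (hf : ∀ j ≤ m + 1, qf q j ≠ 0) :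
    qb q (m + 1) (k + 1) = q ^ (-((k : ℤ) + 1)) * qb q m (k + 1) +
      q ^ ((m : ℤ) - k) * qb q m k := by
  rcases Nat.lt_trichotomy k m with hk | rfl | hk
  · have e0 : m + 1 - (k + 1) = (m - (k + 1)) + 1 := by omega
    have e2 : m - k = (m - (k + 1)) + 1 := by omega
    have e3 : (((m - (k + 1) : ℕ) : ℤ) + 1) = (m : ℤ) - k := by omega
    have i0 := qb_fac q hq (m + 1) (k + 1) (by omega)
    have i1 := qb_fac q hq m (k + 1) (by omega)
    have i2 := qb_fac q hq m k (by omega)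
    rw [e0, qf_succ q (m - (k + 1)), e3, qf_succ q k, qf_succ q m] at i0
    rw [qf_succ] at i1
    rw [e2, qf_succ, e3] at i2
    have ha := qn_add q hq ((k : ℤ) + 1) ((m : ℤ) - k)
    have e4 : (k : ℤ) + 1 + (m - k) = m + 1 := by ring
    rw [e4] at ha
    have n1 : qf q k * qn q ((k : ℤ) + 1) ≠ 0 := by
      rw [← qf_succ]; exact hf (k + 1) (by omega)
    have n2 : qf q (m - (k + 1)) * qn q ((m : ℤ) - k) ≠ 0 := by
      rw [← e3, ← qf_succ]; exact hf _ (by omega)
    apply mul_right_cancel₀ (mul_ne_zero n1 n2)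
    rw [i0, ← ha]
    linear_combination (-(q ^ (-((k : ℤ) + 1)) * qn q ((m : ℤ) - k))) * i1 -
      (q ^ ((m : ℤ) - k) * qn q ((k : ℤ) + 1)) * i2
  · rw [qb_self, qb_self, qb_lt q k (k + 1) (by omega), sub_self, zpow_zero, mul_zero, zero_add,
      one_mul]
  · rw [qb_lt q (m + 1) (k + 1) (by omega), qb_lt q m (k + 1) (by omega), qb_lt q m k hk,
      mul_zero, mul_zero, add_zero]

end Pool.Agent.H63.VC11
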