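import Pool.Agent.H63.VC11.Qb11

/-! # Identities for `q`-binomial coefficients -/

namespace Pool.Agent.H63.VC11

open Pool.Agent.H63.VC7 Pool.Agent.H63.VC8

theorem Saal11_step (q : ℂ) (m k : ℕ) :
    qb q (m + 1) (k + 1) = q ^ ((k : ℤ) + 1) * qb q m (k + 1) + q ^ (-((m : ℤ) - k)) * qb q m k :=
  rfl

theorem Saal11_zero_succ (q : ℂ) (k : ℕ) : qb q 0 (k + 1) = 0 := rfl

/-- The right side. -/
noncomputable def Saal11_S (q : ℂ) (A B C D h : ℕ) : ℂ :=
  ∑ β ∈ Finset.range (D + 1), qb q A β * qb q B (D - β) * qb q (h + C + β) (C + D)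

theorem Saal11_S_zero (q : ℂ) (B C D h : ℕ) :
    Saal11_S q 0 B C D h = qb q B D * qb q (h + C) (C + D) := by
  unfold Saal11_S
  rw [Finset.sum_range_succ']
  have h1 : ∑ β ∈ Finset.range D, qb q 0 (β + 1) * qb q B (D - (β + 1)) *
      qb q (h + C + (β + 1)) (C + D) = 0 := by
    refine Finset.sum_eq_zero fun β _ => ?_
    rw [Saal11_zero_succ]
    ring
  rw [h1, qb_zero_right]
  simp

theorem Saal11_base (q : ℂ) (hq : q ≠ 0) (C D h : ℕ)
    (hf : ∀ j ≤ C + D + h, qf q j ≠ 0) :
    qb q (C + h) C * qb q h D = qb q (C + D) D * qb q (h + C) (C + D) := by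
  rcases Nat.lt_or_ge h D with hD | hD
  · rw [qb_lt q h D hD, qb_lt q (h + C) (C + D) (by omega)]
    ring
  · have e1 := qb_fac q hq (C + h) C (by omega)
    have e2 := qb_fac q hq h D hD
    have e3 := qb_fac q hq (C + D) D (by omega)
    have e4 := qb_fac q hq (h + C) (C + D) (by omega)
    rw [show C + h - C = h by omega] at e1
    rw [show C + D - D = C by omega] at e3
    rw [show h + C - (C + D) = h - D by omega, show h + C = C + h by omega] at e4
    rw [show h + C = C + h by omega]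
    have n1 := hf C (by omega)
    have n2 := hf h (by omega)
    have n3 := hf D (by omega)
    have n4 := hf (h - D) (by omega)
    have n5 := hf (C + D) (by omega)
    have key : (qb q (C + h) C * qb q h D - qb q (C + D) D * qb q (C + h) (C + D)) *
        (qf q C * qf q h * qf q D * qf q (h - D) * qf q (C + D)) = 0 := by
      have l1 : qb q (C + h) C * qb q h D *
          (qf q C * qf q h * qf q D * qf q (h - D) * qf q (C + D))
          = (qb q (C + h) C * (qf q C * qf q h)) * (qb q h D * (qf q D * qf q (h - D))) *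
            qf q (C + D) := by ring
      have l2 : qb q (C + D) D * qb q (C + h) (C + D) *
          (qf q C * qf q h * qf q D * qf q (h - D) * qf q (C + D))
          = (qb q (C + D) D * (qf q D * qf q C)) *
            (qb q (C + h) (C + D) * (qf q (C + D) * qf q (h - D))) * qf q h := by ring
      rw [sub_mul, l1, l2, e1, e2, e3, e4]
      ring
    have hne : qf q C * qf q h * qf q D * qf q (h - D) * qf q (C + D) ≠ 0 := by
      simp only [mul_ne_zero_iff]
      exact ⟨⟨⟨⟨n1, n2⟩, n3⟩, n4⟩, n5⟩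
    have := (mul_eq_zero.1 key).resolve_right hne
    linear_combination this

/-- The recursion of the right side. -/
theorem Saal11_rec (q : ℂ) (hq : q ≠ 0) (h1 : br q 1 ≠ 0) (A B C D h : ℕ)
    (hAB : A + B = C + D) (hf : ∀ j ≤ B + 1, qf q j ≠ 0) :
    Saal11_S q (A + 1) B C (D + 1) h =
      q ^ ((D : ℤ) + 1) * Saal11_S q A (B + 1) C (D + 1) h +
      q ^ (-(((A + h : ℕ) : ℤ) - D)) * Saal11_S q A B C D h := by
  have hL : Saal11_S q (A + 1) B C (D + 1) h =
      ∑ β ∈ Finset.range (D + 2), q ^ (β : ℤ) * (qb q A β * qb q B (D + 1 - β) *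
        qb q (h + C + β) (C + (D + 1))) +
      ∑ β ∈ Finset.range (D + 1), q ^ (-((A : ℤ) - β)) * (qb q A β * qb q B (D - β) *
        qb q (h + C + β + 1) (C + (D + 1))) := by
    unfold Saal11_S
    rw [Finset.sum_range_succ' _ (D + 1), Finset.sum_range_succ' _ (D + 1)]
    have e1 : ∑ β ∈ Finset.range (D + 1), qb q (A + 1) (β + 1) * qb q B (D + 1 - (β + 1)) *
          qb q (h + C + (β + 1)) (C + (D + 1))
        = ∑ β ∈ Finset.range (D + 1), q ^ ((β + 1 : ℕ) : ℤ) * (qb q A (β + 1) *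
          qb q B (D + 1 - (β + 1)) * qb q (h + C + (β + 1)) (C + (D + 1)))
        + ∑ β ∈ Finset.range (D + 1), q ^ (-((A : ℤ) - β)) * (qb q A β * qb q B (D - β) *
          qb q (h + C + β + 1) (C + (D + 1))) := by
      rw [← Finset.sum_add_distrib]
      refine Finset.sum_congr rfl fun β _ => ?_
      rw [Saal11_step, show D + 1 - (β + 1) = D - β by omega,
        show h + C + (β + 1) = h + C + β + 1 by omega]
      push_cast
      ring
    rw [e1, qb_zero_right, qb_zero_right]
    simp only [Nat.cast_zero, zpow_zero]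
    ring
  have hR : q ^ ((D : ℤ) + 1) * Saal11_S q A (B + 1) C (D + 1) h =
      ∑ β ∈ Finset.range (D + 2), q ^ (β : ℤ) * (qb q A β * qb q B (D + 1 - β) *
        qb q (h + C + β) (C + (D + 1))) +
      ∑ β ∈ Finset.range (D + 1), q ^ ((B : ℤ) + 1 + β) * (qb q A β * qb q B (D - β) *
        qb q (h + C + β) (C + (D + 1))) := by
    unfold Saal11_S
    rw [Finset.mul_sum, Finset.sum_range_succ _ (D + 1), Finset.sum_range_succ _ (D + 1)]
    have e2 : ∑ β ∈ Finset.range (D + 1), q ^ ((D : ℤ) + 1) * (qb q A β *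
          qb q (B + 1) (D + 1 - β) * qb q (h + C + β) (C + (D + 1)))
        = ∑ β ∈ Finset.range (D + 1), q ^ (β : ℤ) * (qb q A β *
          qb q B (D + 1 - β) * qb q (h + C + β) (C + (D + 1)))
        + ∑ β ∈ Finset.range (D + 1), q ^ ((B : ℤ) + 1 + β) * (qb q A β * qb q B (D - β) *
          qb q (h + C + β) (C + (D + 1))) := by
      rw [← Finset.sum_add_distrib]
      refine Finset.sum_congr rfl fun β hβ => ?_
      obtain ⟨l, rfl⟩ : ∃ l, D = β + l := ⟨D - β, by
        have := Finset.mem_range.1 hβ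
        omega⟩
      rw [show β + l + 1 - β = l + 1 by omega, show β + l - β = l by omega,
        qb_succ' q hq h1 B l hf]
      have z1 : q ^ (((β + l : ℕ) : ℤ) + 1) * q ^ (-((l : ℤ) + 1)) = q ^ (β : ℤ) := by
        rw [← zpow_add₀ hq]
        congr 1
        push_cast
        ring
      have z2 : q ^ (((β + l : ℕ) : ℤ) + 1) * q ^ ((B : ℤ) - l) = q ^ ((B : ℤ) + 1 + β) := by
        rw [← zpow_add₀ hq]
        congr 1
        push_cast
        ring
      linear_combination (qb q A β * qb q B (l + 1) * qb q (h + C + β) (C + (β + l + 1))) * z1 +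
        (qb q A β * qb q B l * qb q (h + C + β) (C + (β + l + 1))) * z2
    rw [e2, show D + 1 - (D + 1) = 0 by omega, qb_zero_right, qb_zero_right]
    push_cast
    ring
  rw [hL, hR]
  have hM : q ^ (-(((A + h : ℕ) : ℤ) - D)) * Saal11_S q A B C D h =
      ∑ β ∈ Finset.range (D + 1), q ^ (-((A : ℤ) - β)) * (qb q A β * qb q B (D - β) *
        qb q (h + C + β + 1) (C + (D + 1))) -
      ∑ β ∈ Finset.range (D + 1), q ^ ((B : ℤ) + 1 + β) * (qb q A β * qb q B (D - β) *
        qb q (h + C + β) (C + (D + 1))) := by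
    unfold Saal11_S
    rw [Finset.mul_sum, ← Finset.sum_sub_distrib]
    refine Finset.sum_congr rfl fun β _ => ?_
    rw [show C + (D + 1) = (C + D) + 1 by omega, Saal11_step]
    have hABz : (A : ℤ) + B = C + D := by exact_mod_cast hAB
    have z1 : q ^ (-((A : ℤ) - β)) * q ^ (((C + D : ℕ) : ℤ) + 1) = q ^ ((B : ℤ) + 1 + β) := by
      rw [← zpow_add₀ hq]
      congr 1
      push_cast
      linarith
    have z2 : q ^ (-((A : ℤ) - β)) * q ^ (-(((h + C + β : ℕ) : ℤ) - ((C + D : ℕ) : ℤ)))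
        = q ^ (-(((A + h : ℕ) : ℤ) - D)) := by
      rw [← zpow_add₀ hq]
      congr 1
      push_cast
      ring
    linear_combination -(qb q A β * qb q B (D - β) * qb q (h + C + β) (C + D + 1)) * z1 -
      (qb q A β * qb q B (D - β) * qb q (h + C + β) (C + D)) * z2
  rw [hM]
  ring

/-- The `q`-Saalschütz identity. -/
theorem qb_saal (q : ℂ) (hq : q ≠ 0) (A B C D h : ℕ) (hAB : A + B = C + D)
    (hf : ∀ j ≤ A + B + h, qf q j ≠ 0) :
    qb q (C + h) C * qb q (A + h) D =
      ∑ β ∈ Finset.range (D + 1), qb q A β * qb q B (D - β) * qb q (h + C + β) (C + D) := by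
  have key : ∀ A B C D h : ℕ, A + B = C + D → (∀ j ≤ A + B + h, qf q j ≠ 0) →
      qb q (C + h) C * qb q (A + h) D = Saal11_S q A B C D h := by
    intro A
    induction A with
    | zero =>
      intro B C D h hAB hf
      have hB : B = C + D := by omega
      subst hB
      rw [Saal11_S_zero, Nat.zero_add]
      exact Saal11_base q hq C D h fun j hj => hf j (by omega)
    | succ A ih =>
      intro B C D h hAB hf
      have h1 : br q 1 ≠ 0 := by
        intro h0
        apply hf 1 (by omega)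
        simp [qf, qn, h0]
      rcases Nat.eq_zero_or_pos D with hD | hD
      · subst hD
        unfold Saal11_S
        simp only [Nat.zero_add, Finset.range_one, Finset.sum_singleton, Nat.sub_zero,
          qb_zero_right, Nat.add_zero]
        rw [Nat.add_comm C h]
        ring
      · obtain ⟨D, rfl⟩ : ∃ E, D = E + 1 := ⟨D - 1, by omega⟩
        rw [Saal11_rec q hq h1 A B C D h (by omega) (fun j hj => hf j (by omega)),
          ← ih (B + 1) C (D + 1) h (by omega) (fun j hj => hf j (by omega)),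
          ← ih B C D h (by omega) (fun j hj => hf j (by omega)),
          show A + 1 + h = (A + h) + 1 by omega, Saal11_step]
        ring
  exact key A B C D h hAB hf

theorem Saal11_vand (q : ℂ) (hq : q ≠ 0) (x y M : ℕ) :
    ∑ k ∈ Finset.range (M + 1), q ^ (((M : ℤ) - k) * ((x : ℤ) + 1) - (k : ℤ) * ((y : ℤ) + 1)) *
      (qb q (k + x) x * qb q (M - k + y) y) = qb q (M + x + y + 1) (x + y + 1) := by
  induction y generalizing M with
  | zero =>
    induction M with
    | zero =>
      simp [qb_self]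
    | succ M ih =>
      rw [Finset.sum_range_succ]
      have e1 : ∑ k ∈ Finset.range (M + 1), q ^ ((((M + 1 : ℕ) : ℤ) - k) * ((x : ℤ) + 1) -
            (k : ℤ) * (((0 : ℕ) : ℤ) + 1)) * (qb q (k + x) x * qb q (M + 1 - k + 0) 0)
          = q ^ ((x : ℤ) + 1) * ∑ k ∈ Finset.range (M + 1), q ^ (((M : ℤ) - k) * ((x : ℤ) + 1) -
            (k : ℤ) * (((0 : ℕ) : ℤ) + 1)) * (qb q (k + x) x * qb q (M - k + 0) 0) := by
        rw [Finset.mul_sum]
        refine Finset.sum_congr rfl fun k _ => ?_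
        rw [qb_zero_right, qb_zero_right]
        have z1 : q ^ ((((M + 1 : ℕ) : ℤ) - k) * ((x : ℤ) + 1) - (k : ℤ) * (((0 : ℕ) : ℤ) + 1))
            = q ^ ((x : ℤ) + 1) * q ^ (((M : ℤ) - k) * ((x : ℤ) + 1) -
              (k : ℤ) * (((0 : ℕ) : ℤ) + 1)) := by
          rw [← zpow_add₀ hq]
          congr 1
          push_cast
          ring
        rw [z1]
        ring
      rw [e1, ih, qb_zero_right, show M + 1 + x + 0 + 1 = (M + x + 1) + 1 by omega,
        show x + 0 + 1 = x + 1 by omega, Saal11_step q (M + x + 1) x,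
        show M + x + 0 + 1 = M + x + 1 by omega,
        show M + 1 + x = M + x + 1 by omega]
      have z2 : q ^ ((((M + 1 : ℕ) : ℤ) - ((M + 1 : ℕ) : ℤ)) * ((x : ℤ) + 1) -
            ((M + 1 : ℕ) : ℤ) * (((0 : ℕ) : ℤ) + 1))
          = q ^ (-(((M + x + 1 : ℕ) : ℤ) - x)) := by
        congr 1
        push_cast
        ring
      rw [z2]
      ring
  | succ y ihy =>
    induction M with
    | zero =>
      simp [qb_self]
    | succ M ih =>
      have hB := ihy (M + 1)
      rw [Finset.sum_range_succ] at hB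
      rw [Finset.sum_range_succ]
      have e1 : ∑ k ∈ Finset.range (M + 1), q ^ ((((M + 1 : ℕ) : ℤ) - k) * ((x : ℤ) + 1) -
            (k : ℤ) * (((y + 1 : ℕ) : ℤ) + 1)) * (qb q (k + x) x *
              qb q (M + 1 - k + (y + 1)) (y + 1))
          = q ^ ((x : ℤ) + y + 2) * ∑ k ∈ Finset.range (M + 1),
              q ^ (((M : ℤ) - k) * ((x : ℤ) + 1) - (k : ℤ) * (((y + 1 : ℕ) : ℤ) + 1)) *
              (qb q (k + x) x * qb q (M - k + (y + 1)) (y + 1)) +
            q ^ (-((M : ℤ) + 1)) * ∑ k ∈ Finset.range (M + 1),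
              q ^ ((((M + 1 : ℕ) : ℤ) - k) * ((x : ℤ) + 1) - (k : ℤ) * ((y : ℤ) + 1)) *
              (qb q (k + x) x * qb q (M + 1 - k + y) y) := by
        rw [Finset.mul_sum, Finset.mul_sum, ← Finset.sum_add_distrib]
        refine Finset.sum_congr rfl fun k hk => ?_
        obtain ⟨l, rfl⟩ : ∃ l, M = k + l := ⟨M - k, by
          have := Finset.mem_range.1 hk
          omega⟩
        rw [show k + l + 1 - k + (y + 1) = (l + y + 1) + 1 by omega,
          show k + l - k + (y + 1) = l + y + 1 by omega,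
          show k + l + 1 - k + y = l + y + 1 by omega, Saal11_step]
        have z1 : q ^ ((((k + l + 1 : ℕ) : ℤ) - k) * ((x : ℤ) + 1) -
              (k : ℤ) * (((y + 1 : ℕ) : ℤ) + 1)) * q ^ ((y : ℤ) + 1)
            = q ^ ((x : ℤ) + y + 2) * q ^ ((((k + l : ℕ) : ℤ) - k) * ((x : ℤ) + 1) -
              (k : ℤ) * (((y + 1 : ℕ) : ℤ) + 1)) := by
          rw [← zpow_add₀ hq, ← zpow_add₀ hq]
          congr 1
          push_cast
          ring
        have z2 : q ^ ((((k + l + 1 : ℕ) : ℤ) - k) * ((x : ℤ) + 1) -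
              (k : ℤ) * (((y + 1 : ℕ) : ℤ) + 1)) * q ^ (-(((l + y + 1 : ℕ) : ℤ) - y))
            = q ^ (-(((k + l : ℕ) : ℤ) + 1)) * q ^ ((((k + l + 1 : ℕ) : ℤ) - k) *
              ((x : ℤ) + 1) - (k : ℤ) * ((y : ℤ) + 1)) := by
          rw [← zpow_add₀ hq, ← zpow_add₀ hq]
          congr 1
          push_cast
          ring
        linear_combination (qb q (k + x) x * qb q (l + y + 1) (y + 1)) * z1 +
          (qb q (k + x) x * qb q (l + y + 1) y) * z2
      rw [e1, ih]
      have z3 : q ^ ((((M + 1 : ℕ) : ℤ) - ((M + 1 : ℕ) : ℤ)) * ((x : ℤ) + 1) -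
            ((M + 1 : ℕ) : ℤ) * (((y + 1 : ℕ) : ℤ) + 1))
          = q ^ (-((M : ℤ) + 1)) * q ^ ((((M + 1 : ℕ) : ℤ) - ((M + 1 : ℕ) : ℤ)) *
            ((x : ℤ) + 1) - ((M + 1 : ℕ) : ℤ) * ((y : ℤ) + 1)) := by
        rw [← zpow_add₀ hq]
        congr 1
        push_cast
        ring
      rw [show M + 1 - (M + 1) + y = y by omega, qb_self] at hB
      rw [show M + 1 - (M + 1) + (y + 1) = y + 1 by omega, qb_self, z3,
        show M + 1 + x + (y + 1) + 1 = (M + x + y + 2) + 1 by omega,
        show x + (y + 1) + 1 = (x + y + 1) + 1 by omega,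
        Saal11_step q (M + x + y + 2) (x + y + 1),
        show M + x + (y + 1) + 1 = M + x + y + 2 by omega]
      rw [show M + 1 + x + y + 1 = M + x + y + 2 by omega] at hB
      rw [← hB]
      have z4 : q ^ (((x + y + 1 : ℕ) : ℤ) + 1) = q ^ ((x : ℤ) + y + 2) := by
        rw [show ((x + y + 1 : ℕ) : ℤ) + 1 = (x : ℤ) + y + 2 by push_cast; ring]
      have z5 : q ^ (-(((M + x + y + 2 : ℕ) : ℤ) - ((x + y + 1 : ℕ) : ℤ)))
          = q ^ (-((M : ℤ) + 1)) := by
        rw [show -(((M + x + y + 2 : ℕ) : ℤ) - ((x + y + 1 : ℕ) : ℤ)) = -((M : ℤ) + 1) by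
          push_cast; ring]
      rw [z4, z5]
      ring

/-- The `q`-Vandermonde identity. -/
theorem qb_vand (q : ℂ) (hq : q ≠ 0) (x y M : ℕ) (hf : ∀ j ≤ M + x + y + 1, qf q j ≠ 0) :
    ∑ k ∈ Finset.range (M + 1), q ^ (((M : ℤ) - k) * ((x : ℤ) + 1) - (k : ℤ) * ((y : ℤ) + 1)) *
      (qb q (k + x) x * qb q (M - k + y) y) = qb q (M + x + y + 1) (x + y + 1) :=
  Saal11_vand q hq x y M

end Pool.Agent.H63.VC11
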