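import Pool.Agent.H63.VC11.Ops11

/-! # `U_q(sl_2)` identities for `E` and `F` -/

namespace Pool.Agent.H63.VC11

open Pool.Agent.H63.VC7 Pool.Agent.H63.VC8

variable {n : ℕ}

/-- The function `ψ` is supported on the indices of degrees `N` and `M`. -/
def HomD (N M : ℤ) (ψ : Fn2 n) : Prop :=
  ∀ x, ψ x ≠ 0 → ((∑ i, x.1 i : ℕ) : ℤ) = N ∧ ((∑ i, x.2 i : ℕ) : ℤ) = M

private theorem Sl11_sum_add (a : Fin n → ℕ) (i : Fin n) :
    ((∑ j, (a + Pi.single i 1 : Fin n → ℕ) j : ℕ) : ℤ) = ((∑ j, a j : ℕ) : ℤ) + 1 := by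
  simp [Finset.sum_add_distrib]

private theorem Sl11_sum_sub {a : Fin n → ℕ} {i : Fin n} (h : a i ≠ 0) :
    ((∑ j, (a - Pi.single i 1 : Fin n → ℕ) j : ℕ) : ℤ) = ((∑ j, a j : ℕ) : ℤ) - 1 := by
  obtain ⟨b, rfl⟩ := exists_add h
  rw [add_sub_single, Sl11_sum_add]
  ring

private theorem Sl11_qn_ne {q : ℂ} {k : ℕ} (h : qn q (k : ℤ) ≠ 0) : k ≠ 0 := by
  rintro rfl
  exact h (by simpa using qn_zero q)

theorem HomD_E (q : ℂ) {N M : ℤ} {ψ : Fn2 n} (h : HomD N M ψ) : HomD (N + 1) (M - 1) (Eo q n ψ) := by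
  intro x hx
  rw [Eo_apply] at hx
  unfold opE at hx
  obtain ⟨i, _, hi⟩ := Finset.exists_ne_zero_of_sum_ne_zero hx
  have h1 := right_ne_zero_of_mul hi
  have h2 := Sl11_qn_ne (right_ne_zero_of_mul (left_ne_zero_of_mul hi))
  obtain ⟨h3, h4⟩ := h _ h1
  simp only [] at h3 h4
  rw [Sl11_sum_sub h2] at h3
  rw [Sl11_sum_add] at h4
  constructor <;> omega

theorem HomD_F (q : ℂ) {N M : ℤ} {ψ : Fn2 n} (h : HomD N M ψ) : HomD (N - 1) (M + 1) (Fo q n ψ) := by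
  intro x hx
  rw [Fo_apply] at hx
  unfold opF at hx
  obtain ⟨i, _, hi⟩ := Finset.exists_ne_zero_of_sum_ne_zero hx
  have h1 := right_ne_zero_of_mul hi
  have h2 := Sl11_qn_ne (right_ne_zero_of_mul (left_ne_zero_of_mul hi))
  obtain ⟨h3, h4⟩ := h _ h1
  simp only [] at h3 h4
  rw [Sl11_sum_sub h2] at h4
  rw [Sl11_sum_add] at h3
  constructor <;> omega

theorem HomD_XR2 (q : ℂ) (i : Fin n) {N M : ℤ} {ψ : Fn2 n} (h : HomD N M ψ) :
    HomD N (M + 1) (XR2 q i ψ) := by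
  intro x hx
  change qn q (x.2 i) * q ^ (hi x.2 i) * ψ (x.1, x.2 - Pi.single i 1) ≠ 0 at hx
  have h1 := right_ne_zero_of_mul hx
  have h2 := Sl11_qn_ne (left_ne_zero_of_mul (left_ne_zero_of_mul hx))
  obtain ⟨h3, h4⟩ := h _ h1
  simp only [] at h3 h4
  rw [Sl11_sum_sub h2] at h4
  constructor <;> omega

theorem HomD_DR2 (q : ℂ) (i : Fin n) {N M : ℤ} {ψ : Fn2 n} (h : HomD N M ψ) :
    HomD N (M - 1) (DR2 q i ψ) := by
  intro x hx
  change q ^ (-(lo x.2 i)) * ψ (x.1, x.2 + Pi.single i 1) ≠ 0 at hx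
  have h1 := right_ne_zero_of_mul hx
  obtain ⟨h3, h4⟩ := h _ h1
  simp only [] at h3 h4
  rw [Sl11_sum_add] at h4
  constructor <;> omega

theorem HomD_XL1 (q : ℂ) (i : Fin n) {N M : ℤ} {ψ : Fn2 n} (h : HomD N M ψ) :
    HomD (N + 1) M (XL1 q i ψ) := by
  intro x hx
  change qn q (x.1 i) * q ^ (lo x.1 i) * ψ (x.1 - Pi.single i 1, x.2) ≠ 0 at hx
  have h1 := right_ne_zero_of_mul hx
  have h2 := Sl11_qn_ne (left_ne_zero_of_mul (left_ne_zero_of_mul hx))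
  obtain ⟨h3, h4⟩ := h _ h1
  simp only [] at h3 h4
  rw [Sl11_sum_sub h2] at h3
  constructor <;> omega

theorem HomD_DL1 (q : ℂ) (i : Fin n) {N M : ℤ} {ψ : Fn2 n} (h : HomD N M ψ) :
    HomD (N - 1) M (DL1 q i ψ) := by
  intro x hx
  change q ^ (-(hi x.1 i)) * ψ (x.1 + Pi.single i 1, x.2) ≠ 0 at hx
  have h1 := right_ne_zero_of_mul hx
  obtain ⟨h3, h4⟩ := h _ h1
  simp only [] at h3 h4
  rw [Sl11_sum_add] at h3
  constructor <;> omega

theorem HomD_Epow (q : ℂ) (k : ℕ) {N M : ℤ} {ψ : Fn2 n} (h : HomD N M ψ) :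
    HomD (N + k) (M - k) ((Eo q n ^ k) ψ) := by
  induction k with
  | zero => simpa using h
  | succ k ih =>
    rw [pow_succ', Module.End.mul_apply]
    have := HomD_E q ih
    push_cast
    rwa [show N + (k : ℤ) + 1 = N + ((k : ℤ) + 1) by ring,
      show M - (k : ℤ) - 1 = M - ((k : ℤ) + 1) by ring] at this

theorem HomD_Fpow (q : ℂ) (k : ℕ) {N M : ℤ} {ψ : Fn2 n} (h : HomD N M ψ) :
    HomD (N - k) (M + k) ((Fo q n ^ k) ψ) := by
  induction k with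
  | zero => simpa using h
  | succ k ih =>
    rw [pow_succ', Module.End.mul_apply]
    have := HomD_F q ih
    push_cast
    rwa [show N - (k : ℤ) - 1 = N - ((k : ℤ) + 1) by ring,
      show M + (k : ℤ) + 1 = M + ((k : ℤ) + 1) by ring] at this

theorem HomD_neg_right {N M : ℤ} {ψ : Fn2 n} (h : HomD N M ψ) (hM : M < 0) : ψ = 0 := by
  funext x
  by_contra hx
  have := (h x hx).2
  omega

theorem HomD_neg_left {N M : ℤ} {ψ : Fn2 n} (h : HomD N M ψ) (hN : N < 0) : ψ = 0 := by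
  funext x
  by_contra hx
  have := (h x hx).1
  omega

theorem EF_comm (q : ℂ) (hq : q ≠ 0) {N M : ℤ} {ψ : Fn2 n} (h : HomD N M ψ) :
    Eo q n (Fo q n ψ) = Fo q n (Eo q n ψ) + qn q (N - M) • ψ := by
  funext x
  rw [EF_comm_apply q hq, Pi.add_apply, Pi.smul_apply, smul_eq_mul]
  by_cases hx : ψ x = 0
  · rw [hx, mul_zero, mul_zero]
  · obtain ⟨h1, h2⟩ := h x hx
    rw [h1, h2]

/-- The functions of degrees `N`, `M` as a subspace. -/
private def Sl11_S (n : ℕ) (N M : ℤ) : Submodule ℂ (Fn2 n) where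
  carrier := {ψ | HomD N M ψ}
  add_mem' := by
    intro a b ha hb x hx
    rw [Pi.add_apply] at hx
    by_cases h : a x = 0
    · rw [h, zero_add] at hx
      exact hb x hx
    · exact ha x h
  zero_mem' := fun x hx => absurd rfl hx
  smul_mem' := by
    intro c a ha x hx
    rw [Pi.smul_apply, smul_eq_mul] at hx
    exact ha x (right_ne_zero_of_mul hx)

private theorem Sl11_mem {N M : ℤ} {ψ : Fn2 n} : ψ ∈ Sl11_S n N M ↔ HomD N M ψ := Iff.rfl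

/-- `[k+1][x-k] + [x-2k-2] = [k+2][x-k-1]`. -/
private theorem Sl11_num (q : ℂ) (hq : q ≠ 0) (h1 : br q 1 ≠ 0) (x k : ℤ) :
    qn q (k + 1) * qn q (x - k) + qn q (x - 2 * k - 2) = qn q (k + 2) * qn q (x - k - 1) := by
  have h := qn_three_term q hq (k + 2) (x - k) (-1)
  have h2 := qn_neg q (2 * k + 2 - x)
  rw [qn_neg q 1, qn_one q h1] at h
  rw [show -(2 * k + 2 - x) = x - 2 * k - 2 by ring] at h2
  rw [show x - k - 1 = x - k + -1 by ring, h, h2, show k + 2 + -1 = k + 1 by ring,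
    show k + 2 - (x - k) = 2 * k + 2 - x by ring]
  ring

/-- `E F^(k+1) = F^(k+1) E + [k+1] [A-B-k] F^k`. -/
private theorem Sl11_EFk (q : ℂ) (hq : q ≠ 0) (h1 : br q 1 ≠ 0) {A B : ℤ} {φ : Fn2 n}
    (h : HomD A B φ) (k : ℕ) :
    Eo q n ((Fo q n ^ (k + 1)) φ) = (Fo q n ^ (k + 1)) (Eo q n φ) +
      (qn q ((k : ℤ) + 1) * qn q (A - B - k)) • (Fo q n ^ k) φ := by
  induction k with
  | zero =>
    simp only [zero_add, pow_one, pow_zero, Nat.cast_zero, sub_zero, qn_one q h1, one_mul]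
    exact EF_comm q hq h
  | succ k ih =>
    rw [pow_succ' (Fo q n) (k + 1), Module.End.mul_apply, EF_comm q hq (HomD_Fpow q (k + 1) h), ih,
      map_add, map_smul, Module.End.mul_apply, ← Module.End.mul_apply (Fo q n) (Fo q n ^ k),
      ← pow_succ', add_assoc, ← add_smul]
    congr 2
    have := Sl11_num q hq h1 (A - B) k
    push_cast
    rw [show A - ((k : ℤ) + 1) - (B + ((k : ℤ) + 1)) = A - B - 2 * k - 2 by ring, this,
      show (k : ℤ) + 1 + 1 = k + 2 by ring, show A - B - ((k : ℤ) + 1) = A - B - k - 1 by ring]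

/-- `F E^(k+1) = E^(k+1) F + [k+1] [B-A-k] E^k`. -/
private theorem Sl11_FEk (q : ℂ) (hq : q ≠ 0) (h1 : br q 1 ≠ 0) {A B : ℤ} {φ : Fn2 n}
    (h : HomD A B φ) (k : ℕ) :
    Fo q n ((Eo q n ^ (k + 1)) φ) = (Eo q n ^ (k + 1)) (Fo q n φ) +
      (qn q ((k : ℤ) + 1) * qn q (B - A - k)) • (Eo q n ^ k) φ := by
  have hc : ∀ {N M : ℤ} {ψ : Fn2 n}, HomD N M ψ →
      Fo q n (Eo q n ψ) = Eo q n (Fo q n ψ) + qn q (M - N) • ψ := by
    intro N M ψ hψ
    rw [EF_comm q hq hψ, show M - N = -(N - M) by ring, qn_neg, neg_smul, add_assoc, add_neg_cancel,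
      add_zero]
  induction k with
  | zero =>
    simp only [zero_add, pow_one, pow_zero, Nat.cast_zero, sub_zero, qn_one q h1, one_mul]
    exact hc h
  | succ k ih =>
    rw [pow_succ' (Eo q n) (k + 1), Module.End.mul_apply, hc (HomD_Epow q (k + 1) h), ih,
      map_add, map_smul, Module.End.mul_apply, ← Module.End.mul_apply (Eo q n) (Eo q n ^ k),
      ← pow_succ', add_assoc, ← add_smul]
    congr 2
    have := Sl11_num q hq h1 (B - A) k
    push_cast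
    rw [show B - ((k : ℤ) + 1) - (A + ((k : ℤ) + 1)) = B - A - 2 * k - 2 by ring, this,
      show (k : ℤ) + 1 + 1 = k + 2 by ring, show B - A - ((k : ℤ) + 1) = B - A - k - 1 by ring]

theorem EF_eq_FE (q : ℂ) (hq : q ≠ 0) (h1 : br q 1 ≠ 0) {N : ℤ} {ψ : Fn2 n} (h : HomD N N ψ)
    (k : ℕ) : (Eo q n ^ k) ((Fo q n ^ k) ψ) = (Fo q n ^ k) ((Eo q n ^ k) ψ) := by
  induction k generalizing ψ with
  | zero => rfl
  | succ k ih =>
    have hEF : Eo q n (Fo q n ψ) = Fo q n (Eo q n ψ) := by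
      rw [EF_comm q hq h, sub_self, qn_zero, zero_smul, add_zero]
    have hm : HomD N N (Fo q n (Eo q n ψ)) := by
      have := HomD_F q (HomD_E q h)
      rwa [add_sub_cancel_right, sub_add_cancel] at this
    set c : ℂ := qn q ((k : ℤ) + 1) * qn q (N - N - k) with hc
    have hm2 : HomD N N (Fo q n (Eo q n ψ) + c • ψ) :=
      (Sl11_S n N N).add_mem hm ((Sl11_S n N N).smul_mem c h)
    have e1 : (Eo q n ^ (k + 1)) ((Fo q n ^ (k + 1)) ψ) =
        (Eo q n ^ k) ((Fo q n ^ k) (Fo q n (Eo q n ψ) + c • ψ)) := by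
      rw [pow_succ (Eo q n) k, Module.End.mul_apply, Sl11_EFk q hq h1 h k, pow_succ (Fo q n) k,
        Module.End.mul_apply, map_add (Fo q n ^ k), map_smul (Fo q n ^ k)]
    have e2 : (Fo q n ^ (k + 1)) ((Eo q n ^ (k + 1)) ψ) =
        (Fo q n ^ k) ((Eo q n ^ k) (Fo q n (Eo q n ψ) + c • ψ)) := by
      rw [pow_succ (Fo q n) k, Module.End.mul_apply, Sl11_FEk q hq h1 h k, pow_succ (Eo q n) k,
        Module.End.mul_apply, map_add (Eo q n ^ k), map_smul (Eo q n ^ k), hEF]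
    rw [e1, e2, ih hm2]

section Abstract

variable {V : Type*} [AddCommGroup V] [Module ℂ V]

/-- The data of the alternating sums. -/
private theorem Sl11_star (E F : Module.End ℂ V) (S : Submodule ℂ V) (g : ℕ → ℂ)
    (hQ : ∀ ψ ∈ S, E (F ψ) ∈ S)
    (h1 : ∀ k : ℕ, ∀ ψ ∈ S, (E ^ (k + 1)) ((F ^ (k + 1)) ψ) =
      (E ^ k) ((F ^ k) (E (F ψ) - g k ^ 2 • ψ)))
    (h2 : ∀ k : ℕ, ∀ ψ ∈ S, (F ^ (k + 1)) ((E ^ (k + 1)) ψ) =
      (F ^ k) ((E ^ k) (E (F ψ) - g (k + 1) ^ 2 • ψ))) (K : ℕ) :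
    ∀ ψ ∈ S, (E ^ (K + 1)) ((F ^ (K + 1)) ψ) = (F ^ K) ((E ^ K) (E (F ψ))) := by
  induction K with
  | zero => intro ψ _; simp
  | succ K ih =>
    intro ψ hψ
    rw [h1 (K + 1) ψ hψ, ih _ (S.sub_mem (hQ ψ hψ) (S.smul_mem _ hψ)), h2 K _ (hQ ψ hψ)]
    simp only [map_sub, map_smul]

private theorem Sl11_abs_sum (E F : Module.End ℂ V) (S : Submodule ℂ V) (g : ℕ → ℂ)
    (hQ : ∀ ψ ∈ S, E (F ψ) ∈ S)
    (h1 : ∀ k : ℕ, ∀ ψ ∈ S, (E ^ (k + 1)) ((F ^ (k + 1)) ψ) =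
      (E ^ k) ((F ^ k) (E (F ψ) - g k ^ 2 • ψ)))
    (h2 : ∀ k : ℕ, ∀ ψ ∈ S, (F ^ (k + 1)) ((E ^ (k + 1)) ψ) =
      (F ^ k) ((E ^ k) (E (F ψ) - g (k + 1) ^ 2 • ψ)))
    (f : ℕ → ℂ) (hf : ∀ k, f (k + 1) = f k * g (k + 1)) {ψ : V} (hψ : ψ ∈ S)
    (K : ℕ) (hK : ∀ k ≤ K, f k ≠ 0) :
    ∑ k ∈ Finset.range (K + 1), ((-1) ^ k / f k ^ 2) • (E ^ k) ((F ^ k) ψ) =
      ((-1) ^ K / f K ^ 2) • (F ^ K) ((E ^ K) ψ) := by
  induction K with
  | zero => simp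
  | succ K ih =>
    rw [Finset.sum_range_succ, ih fun k hk => hK k (by omega), Sl11_star E F S g hQ h1 h2 K ψ hψ,
      h2 K ψ hψ]
    simp only [map_sub, map_smul, smul_sub, smul_smul]
    have hne : f (K + 1) ≠ 0 := hK _ le_rfl
    have hne0 : f K ≠ 0 := hK _ (by omega)
    have hg : g (K + 1) ≠ 0 := by
      intro h0
      rw [hf, h0, mul_zero] at hne
      exact hne rfl
    have e : ((-1 : ℂ) ^ (K + 1) / f (K + 1) ^ 2) * g (K + 1) ^ 2 = -((-1) ^ K / f K ^ 2) := by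
      rw [hf]
      field_simp
      ring
    rw [e, neg_smul]
    abel

end Abstract

private theorem Sl11_sq (q : ℂ) (hq : q ≠ 0) (h1 : br q 1 ≠ 0) (k : ℤ) :
    qn q (k + 1) * qn q (1 - k) = 1 - qn q k ^ 2 := by
  have h := qn_three_term q hq 1 (1 - k) k
  rw [sub_add_cancel, sub_sub_cancel, qn_one q h1, add_comm 1 k] at h
  linear_combination -h

private theorem Sl11_sq' (q : ℂ) (k : ℤ) :
    qn q (k + 1) * qn q (-1 - k) = -qn q (k + 1) ^ 2 := by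
  rw [show -1 - k = -(k + 1) by ring, qn_neg]
  ring

private theorem Sl11_sum_main (q : ℂ) (hq : q ≠ 0) (h1 : br q 1 ≠ 0) {A B : ℤ} (hAB : A - B = 1)
    {ψ : Fn2 n} (h : HomD A B ψ) (K : ℕ) (hK : ∀ k ≤ K, qf q k ≠ 0) :
    ∑ k ∈ Finset.range (K + 1), ((-1) ^ k / qf q k ^ 2) • (Eo q n ^ k) ((Fo q n ^ k) ψ) =
      ((-1) ^ K / qf q K ^ 2) • (Fo q n ^ K) ((Eo q n ^ K) ψ) := by
  refine Sl11_abs_sum (Eo q n) (Fo q n) (Sl11_S n A B) (fun k => qn q (k : ℤ)) ?_ ?_ ?_ (qf q)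
    (fun k => by rw [qf_succ]; push_cast; rfl) h K hK
  · intro φ hφ
    have := HomD_E q (HomD_F q (Sl11_mem.1 hφ))
    rwa [sub_add_cancel, add_sub_cancel_right] at this
  · intro k φ hφ
    have hφ' := Sl11_mem.1 hφ
    rw [pow_succ (Eo q n) k, Module.End.mul_apply, Sl11_EFk q hq h1 hφ' k, EF_comm q hq hφ', hAB,
      Sl11_sq q hq h1, qn_one q h1, pow_succ (Fo q n) k, Module.End.mul_apply, one_smul, sub_smul,
      one_smul]
    simp only [map_add, map_sub, map_smul]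
    abel
  · intro k φ hφ
    have hφ' := Sl11_mem.1 hφ
    rw [pow_succ (Fo q n) k, Module.End.mul_apply, Sl11_FEk q hq h1 hφ' k,
      show B - A - (k : ℤ) = -1 - k by omega, Sl11_sq', pow_succ (Eo q n) k, Module.End.mul_apply]
    push_cast
    rw [neg_smul]
    simp only [map_add, map_sub, map_neg, map_smul]
    abel

private theorem Sl11_sum_main' (q : ℂ) (hq : q ≠ 0) (h1 : br q 1 ≠ 0) {A B : ℤ} (hAB : B - A = 1)
    {ψ : Fn2 n} (h : HomD A B ψ) (K : ℕ) (hK : ∀ k ≤ K, qf q k ≠ 0) :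
    ∑ k ∈ Finset.range (K + 1), ((-1) ^ k / qf q k ^ 2) • (Fo q n ^ k) ((Eo q n ^ k) ψ) =
      ((-1) ^ K / qf q K ^ 2) • (Eo q n ^ K) ((Fo q n ^ K) ψ) := by
  refine Sl11_abs_sum (Fo q n) (Eo q n) (Sl11_S n A B) (fun k => qn q (k : ℤ)) ?_ ?_ ?_ (qf q)
    (fun k => by rw [qf_succ]; push_cast; rfl) h K hK
  · intro φ hφ
    have := HomD_F q (HomD_E q (Sl11_mem.1 hφ))
    rwa [sub_add_cancel, add_sub_cancel_right] at this
  · intro k φ hφ
    have hφ' := Sl11_mem.1 hφ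
    have hc : Fo q n (Eo q n φ) = Eo q n (Fo q n φ) + φ := by
      rw [EF_comm q hq hφ', show A - B = -1 by omega, qn_neg, qn_one q h1, neg_smul, one_smul,
        neg_add_cancel_right]
    rw [pow_succ (Fo q n) k, Module.End.mul_apply, Sl11_FEk q hq h1 hφ' k, hc, hAB,
      Sl11_sq q hq h1, pow_succ (Eo q n) k, Module.End.mul_apply, sub_smul, one_smul]
    simp only [map_add, map_sub, map_smul]
    abel
  · intro k φ hφ
    have hφ' := Sl11_mem.1 hφ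
    rw [pow_succ (Eo q n) k, Module.End.mul_apply, Sl11_EFk q hq h1 hφ' k,
      show A - B - (k : ℤ) = -1 - k by omega, Sl11_sq', pow_succ (Fo q n) k, Module.End.mul_apply]
    push_cast
    rw [neg_smul]
    simp only [map_add, map_sub, map_neg, map_smul]
    abel

theorem sum_EF_zero (q : ℂ) (N : ℕ) (hg : Gen q n (N + 1)) (hn : 1 ≤ n) {ψ : Fn2 n}
    (h : HomD ((N : ℤ) + 1) N ψ) :
    ∑ k ∈ Finset.range (N + 2), ((-1) ^ k / qf q k ^ 2) • (Eo q n ^ k) ((Fo q n ^ k) ψ) = 0 := by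
  rw [Sl11_sum_main q hg.1 (hg.br_one hn) (by ring) h (N + 1) fun k hk => hg.qf_ne hn (by omega)]
  have h0 : (Eo q n ^ (N + 1)) ψ = 0 := HomD_neg_right (HomD_Epow q (N + 1) h) (by push_cast; omega)
  rw [h0, map_zero, smul_zero]

theorem sum_FE_zero (q : ℂ) (N : ℕ) (hg : Gen q n (N + 1)) (hn : 1 ≤ n) {ψ : Fn2 n}
    (h : HomD (N : ℤ) ((N : ℤ) + 1) ψ) :
    ∑ k ∈ Finset.range (N + 2), ((-1) ^ k / qf q k ^ 2) • (Fo q n ^ k) ((Eo q n ^ k) ψ) = 0 := by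
  rw [Sl11_sum_main' q hg.1 (hg.br_one hn) (by ring) h (N + 1) fun k hk => hg.qf_ne hn (by omega)]
  have h0 : (Fo q n ^ (N + 1)) ψ = 0 := HomD_neg_left (HomD_Fpow q (N + 1) h) (by push_cast; omega)
  rw [h0, map_zero, smul_zero]

end Pool.Agent.H63.VC11
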