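import Pool.Agent.H63.VC11.KHb11

/-! # Crossings and insertions of minima and maxima -/

namespace Pool.Agent.H63.VC11

open Pool.Agent.H63.VC7 Pool.Agent.H63.VC8 Matrix

variable {n : ℕ}

private theorem YDC11_gf_rev (q : ℂ) (a : Fin n → ℕ) : gf q (fun i => a i.rev) = gf q a := by
  unfold gf
  exact Equiv.prod_comp Fin.revPerm (fun i => qf q (a i))

private theorem YDC11_gf_zero (q : ℂ) : gf q (0 : Fin n → ℕ) = 1 := by
  unfold gf
  refine Finset.prod_eq_one fun i _ => ?_
  rw [Pi.zero_apply, qf_zero]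

/-- The entries of `Ym`. -/
theorem Ym_eq (q : ℂ) (N : ℕ) (e : ℤ) (hg : Gen q n N) (hn : 1 ≤ n) (x y : I2 n N) :
    Ym q n N e x y = wt q y.2.val * (KR q N e (fun i => x.1.val i.rev) y.2.val
      (fun i => x.2.val i.rev) y.1.val / (gf q x.2.val * gf q y.1.val)) := by
  unfold Ym
  rw [Rm_eq q N e hg hn]
  simp only [Vn.rev_val, YDC11_gf_rev]

private theorem YDC11_rev_add (a : Fin n → ℕ) (i : Fin n) :
    (fun j : Fin n => (a + Pi.single i 1 : Fin n → ℕ) j.rev) =
      (fun j : Fin n => a j.rev) + Pi.single i.rev 1 := by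
  funext j
  have h := congrFun (rev_single i) j
  simp only [Pi.add_apply]
  rw [← h]

private theorem YDC11_rev_sub (a : Fin n → ℕ) (i : Fin n) :
    (fun j : Fin n => (a - Pi.single i 1 : Fin n → ℕ) j.rev) =
      (fun j : Fin n => a j.rev) - Pi.single i.rev 1 := by
  funext j
  have h := congrFun (rev_single i) j
  simp only [Pi.sub_apply]
  rw [← h]

private theorem YDC11_u_rev (q : ℂ) (i : Fin n) :
    (q ^ ((n : ℤ) - 1 - 2 * ((i.rev : Fin n) : ℕ)))⁻¹ = q ^ ((n : ℤ) - 1 - 2 * (i : ℕ)) := by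
  rw [← _root_.zpow_neg]
  congr 1
  rw [Fin.val_rev]
  have h : (i : ℕ) + 1 ≤ n := i.2
  push_cast [Nat.cast_sub h]
  ring

theorem Y_DD (q : ℂ) (N : ℕ) (e : ℤ) (he : e = 1 ∨ e = -1) (hg : Gen q n (N + 1)) (hn : 1 ≤ n) :
    Ym q n (N + 1) e * DD q n N = q ^ (e * (2 * N + n)) • (DD q n N * Ym q n N e) := by
  have hq : q ≠ 0 := hg.1
  have hgN : Gen q n N := hg.mono (Nat.le_succ N)
  ext x y
  rw [mul_DD, Matrix.smul_apply, smul_eq_mul]
  have hgy : gf q y.1.val ≠ 0 := Gen.gf_ne hg hn (by omega) y.1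
  have hgx : gf q x.2.val ≠ 0 := Gen.gf_ne hg hn (by omega) x.2
  have hL : ∀ i : Fin n, Ym q n (N + 1) e x (y.1.add i, y.2.add i) *
      (qn q ((y.1.val i : ℤ) + 1) * q ^ (hi y.1.val i - lo y.2.val i)) =
      wt q y.2.val / (gf q x.2.val * gf q y.1.val) *
        (q ^ ((n : ℤ) - 1 - 2 * (i : ℕ)) * q ^ (hi y.1.val i - lo y.2.val i) *
          KR q (N + 1) e (fun i => x.1.val i.rev) (y.2.val + Pi.single i 1)
            (fun i => x.2.val i.rev) (y.1.val + Pi.single i 1)) := by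
    intro i
    have hle : y.1.val i ≤ N := by
      have h1 := y.1.sum
      have h2 := Finset.single_le_sum (f := y.1.val) (fun j _ => Nat.zero_le _) (Finset.mem_univ i)
      omega
    have hqn : qn q ((y.1.val i : ℤ) + 1) ≠ 0 := hg.qn_ne hn (by omega) (by omega)
    rw [Ym_eq q (N + 1) e hg hn]
    simp only [Vn.add_val]
    rw [gf_add, wt_add hq]
    field_simp
  rw [Finset.sum_congr rfl fun i _ => hL i, ← Finset.mul_sum,
    KH1 q N e he hg hn (fun i => x.1.val i.rev) y.2.val (fun i => x.2.val i.rev) y.1.val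
      ((Equiv.sum_comp Fin.revPerm x.1.val).trans x.1.sum)
      ((Equiv.sum_comp Fin.revPerm x.2.val).trans x.2.sum) y.2.sum y.1.sum]
  set β : (Fin n → ℕ) → (Fin n → ℕ) → ℂ := fun a d : Fin n → ℕ =>
    wt q y.2.val * (KR q N e (fun i => a i.rev) y.2.val
        (fun i => d i.rev) y.1.val / (gf q d * gf q y.1.val)) with hβ
  have hR : ∀ z : I2 n N, DD q n N x z * Ym q n N e z y = DD q n N x z *
      β z.1.val z.2.val := by
    intro z
    rw [Ym_eq q N e hgN hn]
  have hD : (DD q n N * Ym q n N e) x y = ∑ i, if x.1.val i ≠ 0 ∧ x.2.val i ≠ 0 then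
        qn q (x.1.val i) * q ^ (hi x.1.val i - lo x.2.val i) *
          β (x.1.val - Pi.single i 1) (x.2.val - Pi.single i 1) else 0 := by
    rw [Matrix.mul_apply]
    exact (Finset.sum_congr rfl fun z _ => hR z).trans (DD_mul_fun q β x)
  rw [hD, mul_left_comm]
  congr 1
  rw [Finset.mul_sum, ← Equiv.sum_comp Fin.revPerm]
  refine Finset.sum_congr rfl fun i _ => ?_
  simp only [Fin.revPerm_apply, Fin.rev_rev]
  rw [lo_rev, hi_rev, Fin.rev_rev]
  simp only [hβ]
  split_ifs with h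
  · have h2 : gf q x.2.val = gf q (x.2.val - Pi.single i 1) * qn q (x.2.val i) := by
      obtain ⟨b, hb⟩ := exists_add h.2
      rw [hb, gf_add, add_sub_single, add_single_self]
      push_cast
      rfl
    have h3 : gf q (x.2.val - Pi.single i 1) ≠ 0 := by
      intro h0
      rw [h0, zero_mul] at h2
      exact hgx h2
    have h4 : qn q (x.2.val i) ≠ 0 := by
      intro h0
      rw [h0, mul_zero] at h2
      exact hgx h2
    rw [YDC11_rev_sub, YDC11_rev_sub, h2]
    field_simp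
  · have h0 : qn q (x.1.val i) * qn q (x.2.val i) = 0 := by
      by_cases h1 : x.1.val i = 0
      · rw [h1, Nat.cast_zero, qn_zero, zero_mul]
      · have h5 : x.2.val i = 0 := by
          by_contra h6
          exact h ⟨h1, h6⟩
        rw [h5, Nat.cast_zero, qn_zero, mul_zero]
    rw [h0, zero_mul, zero_mul, mul_zero]

theorem CC_Y (q : ℂ) (N : ℕ) (e : ℤ) (he : e = 1 ∨ e = -1) (hg : Gen q n (N + 1)) (hn : 1 ≤ n) :
    CC q n N * Ym q n (N + 1) e = q ^ (e * (2 * N + n)) • (Ym q n N e * CC q n N) := by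
  have hq : q ≠ 0 := hg.1
  have hgN : Gen q n N := hg.mono (Nat.le_succ N)
  ext x y
  rw [CC_mul, Matrix.smul_apply, smul_eq_mul]
  have hgy : gf q y.1.val ≠ 0 := Gen.gf_ne hg hn (by omega) y.1
  have hgx : gf q x.2.val ≠ 0 := Gen.gf_ne hg hn (by omega) x.2
  have hL : ∀ i : Fin n, q ^ ((n : ℤ) - 1 - 2 * (i : ℕ)) *
      (qn q ((x.2.val i : ℤ) + 1) * q ^ (hi x.2.val i - lo x.1.val i)) *
      Ym q n (N + 1) e (x.1.add i, x.2.add i) y =
      wt q y.2.val / (gf q x.2.val * gf q y.1.val) *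
        ((q ^ ((n : ℤ) - 1 - 2 * ((i.rev : Fin n) : ℕ)))⁻¹ *
          q ^ (lo (fun i => x.2.val i.rev) i.rev - hi (fun i => x.1.val i.rev) i.rev) *
          KR q (N + 1) e ((fun i => x.1.val i.rev) + Pi.single i.rev 1) y.2.val
            ((fun i => x.2.val i.rev) + Pi.single i.rev 1) y.1.val) := by
    intro i
    have hle : x.2.val i ≤ N := by
      have h1 := x.2.sum
      have h2 := Finset.single_le_sum (f := x.2.val) (fun j _ => Nat.zero_le _) (Finset.mem_univ i)
      omega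
    have hqn : qn q ((x.2.val i : ℤ) + 1) ≠ 0 := hg.qn_ne hn (by omega) (by omega)
    rw [Ym_eq q (N + 1) e hg hn]
    simp only [Vn.add_val]
    rw [gf_add, YDC11_u_rev, lo_rev, hi_rev, Fin.rev_rev, ← YDC11_rev_add, ← YDC11_rev_add]
    field_simp
  rw [Finset.sum_congr rfl fun i _ => hL i, ← Finset.mul_sum]
  have hS := Equiv.sum_comp Fin.revPerm (fun i : Fin n => (q ^ ((n : ℤ) - 1 - 2 * (i : ℕ)))⁻¹ *
          q ^ (lo (fun k : Fin n => x.2.val k.rev) i - hi (fun k : Fin n => x.1.val k.rev) i) *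
          KR q (N + 1) e ((fun k : Fin n => x.1.val k.rev) + Pi.single i 1) y.2.val
            ((fun k : Fin n => x.2.val k.rev) + Pi.single i 1) y.1.val)
  simp only [Fin.revPerm_apply] at hS
  rw [hS]
  rw [KH2 q N e he hg hn (fun k : Fin n => x.1.val k.rev) y.2.val
      (fun k : Fin n => x.2.val k.rev) y.1.val
      ((Equiv.sum_comp Fin.revPerm x.1.val).trans x.1.sum)
      ((Equiv.sum_comp Fin.revPerm x.2.val).trans x.2.sum) y.2.sum y.1.sum]
  set β : (Fin n → ℕ) → (Fin n → ℕ) → ℂ := fun a d : Fin n → ℕ =>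
    wt q d * (KR q N e (fun k : Fin n => x.1.val k.rev) d
        (fun k : Fin n => x.2.val k.rev) a / (gf q x.2.val * gf q a)) with hβ
  have hR : ∀ z : I2 n N, Ym q n N e x z * CC q n N z y =
      β z.1.val z.2.val * CC q n N z y := by
    intro z
    rw [Ym_eq q N e hgN hn]
  have hD : (Ym q n N e * CC q n N) x y = ∑ i : Fin n, if y.1.val i ≠ 0 ∧ y.2.val i ≠ 0 then
        β (y.1.val - Pi.single i 1) (y.2.val - Pi.single i 1) *
          (q ^ ((n : ℤ) - 1 - 2 * (i : ℕ)) *
            (qn q (y.2.val i) * q ^ (hi y.2.val i - lo y.1.val i))) else 0 := by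
    rw [Matrix.mul_apply]
    exact (Finset.sum_congr rfl fun z _ => hR z).trans (mul_CC_fun q β y)
  rw [hD, mul_left_comm]
  congr 1
  rw [Finset.mul_sum]
  refine Finset.sum_congr rfl fun i _ => ?_
  simp only [hβ]
  split_ifs with h
  · have h2 : gf q y.1.val = gf q (y.1.val - Pi.single i 1) * qn q (y.1.val i) := by
      obtain ⟨b, hb⟩ := exists_add h.1
      rw [hb, gf_add, add_sub_single, add_single_self]
      push_cast
      rfl
    have h3 : gf q (y.1.val - Pi.single i 1) ≠ 0 := by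
      intro h0
      rw [h0, zero_mul] at h2
      exact hgy h2
    have h4 : qn q (y.1.val i) ≠ 0 := by
      intro h0
      rw [h0, mul_zero] at h2
      exact hgy h2
    have h5 : wt q y.2.val = wt q (y.2.val - Pi.single i 1) *
        q ^ ((n : ℤ) - 1 - 2 * (i : ℕ)) := by
      obtain ⟨b, hb⟩ := exists_add h.2
      rw [hb, wt_add hq, add_sub_single]
    rw [h2, h5]
    field_simp
  · have h0 : qn q (y.2.val i) * qn q (y.1.val i) = 0 := by
      by_cases h1 : y.1.val i = 0
      · rw [h1, Nat.cast_zero, qn_zero, mul_zero]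
      · have h5 : y.2.val i = 0 := by
          by_contra h6
          exact h ⟨h1, h6⟩
        rw [h5, Nat.cast_zero, qn_zero, zero_mul]
    rw [h0, zero_mul, zero_mul, mul_zero]

theorem Ym_zero (q : ℂ) (e : ℤ) (hg : Gen q n 0) (hn : 1 ≤ n) : Ym q n 0 e = 1 := by
  have hv : ∀ a : Vn n 0, a.val = 0 := by
    intro a
    funext i
    have h1 := a.sum
    have h2 := Finset.single_le_sum (f := a.val) (fun j _ => Nat.zero_le _) (Finset.mem_univ i)
    simp only [Pi.zero_apply]
    omega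
  have hu : ∀ a b : Vn n 0, a = b := by
    intro a b
    apply Vn.ext
    rw [hv a, hv b]
  ext x y
  have hxy : x = y := Prod.ext (hu _ _) (hu _ _)
  subst hxy
  rw [Matrix.one_apply_eq, Ym_eq q 0 e hg hn, hv x.1, hv x.2]
  have hz : (fun i : Fin n => (0 : Fin n → ℕ) i.rev) = 0 := by
    funext i
    rfl
  rw [hz, KR_KK q 0 e hg.1 (hg.br_one hn) 0 0 0 0 rfl]
  rw [wt_zero, YDC11_gf_zero]
  have hK : KK q 0 (0 : Fin n → ℕ) 0 0 0 = 1 := by
    unfold KK mon
    rw [pow_zero, pow_zero]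
    simp only [Module.End.one_apply, if_true, YDC11_gf_zero, mul_one]
  rw [Finset.range_one, Finset.sum_singleton, hK]
  simp [qf_zero]

end Pool.Agent.H63.VC11
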