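import Pool.Agent.H63.VC11.YDC11

/-! # The crossing on the kernel of `CC` -/

namespace Pool.Agent.H63.VC11

open Pool.Agent.H63.VC7 Pool.Agent.H63.VC8 Matrix

variable {n : ℕ}

/-- The term of the crossing given by `F ^ k E ^ k`. -/
noncomputable def Yk (q : ℂ) (n N k : ℕ) : Matrix (I2 n N) (I2 n N) ℂ := fun x y =>
  wt q y.2.val * (KK q k (fun i => x.1.val i.rev) y.2.val (fun i => x.2.val i.rev) y.1.val /
    (gf q x.2.val * gf q y.1.val))

theorem Yk11_rev_sum {N : ℕ} (a : Vn n N) : ∑ i, a.val (Fin.rev i) = N := by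
  have h := a.rev.sum
  simpa using h

theorem Ym_Yk (q : ℂ) (N : ℕ) (e : ℤ) (hg : Gen q n N) (hn : 1 ≤ n) :
    Ym q n N e = ∑ k ∈ Finset.range (N + 1), ((-1) ^ (N - k) * q ^ (e * ((k : ℤ) - N)) /
      qf q k ^ 2) • Yk q n N k := by
  funext x y
  rw [Ym_eq q N e hg hn x y, KR_KK q N e hg.1 (hg.br_one hn) _ _ _ _
    (by rw [Yk11_rev_sum, y.1.sum]), Matrix.sum_apply, Finset.sum_div, Finset.mul_sum]
  refine Finset.sum_congr rfl fun k _ => ?_
  rw [Matrix.smul_apply, smul_eq_mul]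
  unfold Yk
  ring

theorem Yk_CC (q : ℂ) (N k : ℕ) (hk : k ≤ N) (hg : Gen q n (N + 1)) (hn : 1 ≤ n) {ι : Type*}
    (W : Matrix (I2 n (N + 1)) ι ℂ) (hW : CC q n N * W = 0) : Yk q n (N + 1) k * W = 0 := by
  classical
  funext x w
  rw [Matrix.mul_apply, Matrix.zero_apply]
  have hk0 : qn q ((N : ℤ) + 1 - k) ≠ 0 := hg.qn_ne hn (by omega) (by push_cast; omega)
  have hgx : gf q x.2.val ≠ 0 := hg.gf_ne hn (by omega) x.2
  apply (mul_right_injective₀ hk0)
  simp only [mul_zero]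
  -- the function of the indices
  let Wf : (Fin n → ℕ) → (Fin n → ℕ) → ℂ := fun a d =>
    if h : (∑ i, a i = N + 1) ∧ (∑ i, d i = N + 1) then W (⟨a, h.1⟩, ⟨d, h.2⟩) w else 0
  have hWf : ∀ y : I2 n (N + 1), Wf y.1.val y.2.val = W y w := by
    intro y
    have h : (∑ i, y.1.val i = N + 1) ∧ (∑ i, y.2.val i = N + 1) := ⟨y.1.sum, y.2.sum⟩
    show dite _ _ _ = _
    rw [dif_pos h]
  let H : Fin n → (Fin n → ℕ) → (Fin n → ℕ) → ℂ := fun j a d =>
    wt q d * (qn q (d j) * qn q (a j) * q ^ (hi d j - lo a j) *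
      KK q k (fun i => x.1.val i.rev) (d - Pi.single j 1) (fun i => x.2.val i.rev)
        (a - Pi.single j 1) / (gf q x.2.val * gf q a)) * Wf a d
  have e1 : qn q ((N : ℤ) + 1 - k) * ∑ y : I2 n (N + 1), Yk q n (N + 1) k x y * W y w
      = ∑ j, ∑ y : I2 n (N + 1), H j y.1.val y.2.val := by
    rw [Finset.mul_sum, Finset.sum_comm]
    refine Finset.sum_congr rfl fun y _ => ?_
    have h3 := KH3 q N k hk hg.1 (fun i => x.1.val i.rev) y.2.val (fun i => x.2.val i.rev)
      y.1.val (Yk11_rev_sum x.1) (Yk11_rev_sum x.2) y.2.sum y.1.sum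
    have h4 : qn q ((N : ℤ) + 1 - k) * (Yk q n (N + 1) k x y * W y w)
        = wt q y.2.val * ((qn q ((N : ℤ) + 1 - k) * KK q k (fun i => x.1.val i.rev) y.2.val
            (fun i => x.2.val i.rev) y.1.val) / (gf q x.2.val * gf q y.1.val)) * W y w := by
      unfold Yk
      ring
    rw [h4, h3, Finset.sum_div, Finset.mul_sum, Finset.sum_mul]
    refine Finset.sum_congr rfl fun j _ => ?_
    show _ = wt q y.2.val * _ * Wf y.1.val y.2.val
    rw [hWf y]
  rw [e1]
  have e2 : ∀ j : Fin n, ∑ y : I2 n (N + 1), H j y.1.val y.2.val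
      = ∑ z : I2 n N, H j (z.1.val + Pi.single j 1) (z.2.val + Pi.single j 1) := by
    intro j
    refine sum_I2_succ (H j) j fun a d h => ?_
    show wt q d * (qn q (d j) * qn q (a j) * q ^ (hi d j - lo a j) * _ / _) * Wf a d = 0
    rcases h with h | h
    · rw [h, Nat.cast_zero, qn_zero]
      simp
    · rw [h, Nat.cast_zero, qn_zero]
      simp
  rw [Finset.sum_congr rfl fun j _ => e2 j, Finset.sum_comm]
  refine Finset.sum_eq_zero fun z _ => ?_
  have hz : (CC q n N * W) z w = 0 := by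
    rw [hW]
    rfl
  rw [CC_mul] at hz
  have hgz : gf q z.1.val ≠ 0 := hg.gf_ne hn (by omega) z.1
  have e3 : ∀ j : Fin n, H j (z.1.val + Pi.single j 1) (z.2.val + Pi.single j 1)
      = wt q z.2.val * (KK q k (fun i => x.1.val i.rev) z.2.val (fun i => x.2.val i.rev) z.1.val /
          (gf q x.2.val * gf q z.1.val)) * (q ^ ((n : ℤ) - 1 - 2 * (j : ℕ)) *
      (qn q ((z.2.val j : ℤ) + 1) * q ^ (hi z.2.val j - lo z.1.val j)) *
      W (z.1.add j, z.2.add j) w) := by
    intro j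
    have hq1 : qn q ((z.1.val j : ℤ) + 1) ≠ 0 := by
      have h5 : z.1.val j ≤ N := by
        have h6 : z.1.val j ≤ ∑ i, z.1.val i :=
          Finset.single_le_sum (f := z.1.val) (fun _ _ => Nat.zero_le _) (Finset.mem_univ j)
        have h7 := z.1.sum
        omega
      exact hg.qn_ne hn (by omega) (by push_cast; omega)
    have h8 := hWf (z.1.add j, z.2.add j)
    simp only [Vn.add_val] at h8
    show wt q (z.2.val + Pi.single j 1) * (qn q (((z.2.val + Pi.single j 1 : Fin n → ℕ) j : ℕ) : ℤ) *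
      qn q (((z.1.val + Pi.single j 1 : Fin n → ℕ) j : ℕ) : ℤ) *
      q ^ (hi (z.2.val + Pi.single j 1) j - lo (z.1.val + Pi.single j 1) j) *
      KK q k (fun i => x.1.val i.rev) (z.2.val + Pi.single j 1 - Pi.single j 1)
        (fun i => x.2.val i.rev) (z.1.val + Pi.single j 1 - Pi.single j 1) /
        (gf q x.2.val * gf q (z.1.val + Pi.single j 1))) *
      Wf (z.1.val + Pi.single j 1) (z.2.val + Pi.single j 1) = _
    rw [h8, wt_add hg.1, gf_add, add_sub_single, add_sub_single, hi_add_self, lo_add_self,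
      add_single_self, add_single_self]
    push_cast
    field_simp
  rw [Finset.sum_congr rfl fun j _ => e3 j, ← Finset.mul_sum, hz, mul_zero]

/-- On the kernel of `CC` the positive and the negative crossing agree. -/
theorem Y_ker (q : ℂ) (N : ℕ) (e : ℤ) (hg : Gen q n (N + 1)) (hn : 1 ≤ n) {ι : Type*}
    (W : Matrix (I2 n (N + 1)) ι ℂ) (hW : CC q n N * W = 0) :
    Ym q n (N + 1) e * W = (qf q (N + 1) ^ 2)⁻¹ • (Yk q n (N + 1) (N + 1) * W) := by
  rw [Ym_Yk q (N + 1) e hg hn, Finset.sum_range_succ, Matrix.add_mul, Matrix.sum_mul]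
  rw [Finset.sum_eq_zero]
  · rw [zero_add, Matrix.smul_mul]
    congr 1
    rw [Nat.sub_self, pow_zero, one_mul]
    have : e * (((N + 1 : ℕ) : ℤ) - ((N + 1 : ℕ) : ℤ)) = 0 := by ring
    rw [this, zpow_zero, one_div]
  · intro k hk
    have hk' := Finset.mem_range.1 hk
    rw [Matrix.smul_mul, Yk_CC q N k (by omega) hg hn W hW, smul_zero]

end Pool.Agent.H63.VC11
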